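import Mathlib

/-!
An absolutely convergent Perron formula: with the kernel
`((N + 1) ^ (s + 1) - N ^ (s + 1)) / (s (s + 1))`, the partial sum up to `N` of the coefficients
of a Dirichlet series is an absolutely convergent integral over a vertical line.
-/

open Complex LSeries Filter Topology MeasureTheory Set

namespace Pool.Agent.H6

/-- `(1 - x)_+` on the positive half-line -/
noncomputable def tri (x : ℝ) : ℂ :=
  indicator (Ioc 0 1) (fun _ ↦ (1 : ℂ)) x - indicator (Ioc 0 1) (fun t : ℝ ↦ (t : ℂ) ^ (1 : ℂ)) x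

lemma tri_eq {x : ℝ} (hx : 0 < x) : tri x = ((max (1 - x) 0 : ℝ) : ℂ) := by
  unfold tri
  by_cases h : x ≤ 1
  · rw [indicator_of_mem (show x ∈ Ioc (0 : ℝ) 1 from ⟨hx, h⟩),
      indicator_of_mem (show x ∈ Ioc (0 : ℝ) 1 from ⟨hx, h⟩), cpow_one,
      max_eq_left (by linarith)]
    push_cast
    rfl
  · rw [indicator_of_notMem (fun h' ↦ h h'.2), indicator_of_notMem (fun h' ↦ h h'.2),
      max_eq_right (by linarith)]
    simp

lemma tri_hasMellin {s : ℂ} (hs : 0 < s.re) : HasMellin tri s (1 / (s * (s + 1))) := by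
  have h1 := hasMellin_one_Ioc hs
  have h2 := hasMellin_cpow_Ioc 1 (s := s) (by rw [one_re]; linarith)
  have h3 := hasMellin_sub h1.1 h2.1
  have hs0 : s ≠ 0 := by intro h; rw [h, zero_re] at hs; exact lt_irrefl _ hs
  have hs1 : s + 1 ≠ 0 := by
    intro h
    have := congrArg Complex.re h
    simp at this
    linarith
  have h4 : 1 / s - 1 / (s + 1) = 1 / (s * (s + 1)) := by
    field_simp
    ring
  rw [h1.2, h2.2, h4] at h3
  exact h3

lemma tri_continuousAt {x : ℝ} (hx : 0 < x) : ContinuousAt tri x := by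
  have h1 : tri =ᶠ[𝓝 x] fun x : ℝ ↦ ((max (1 - x) 0 : ℝ) : ℂ) := by
    filter_upwards [Ioi_mem_nhds hx] with y hy
    exact tri_eq hy
  have h2 : ContinuousAt (fun x : ℝ ↦ ((max (1 - x) 0 : ℝ) : ℂ)) x := by
    apply Continuous.continuousAt
    fun_prop
  exact h2.congr h1.symm

lemma integrable_bound {c : ℝ} (hc : 0 < c) :
    Integrable fun y : ℝ ↦ 1 / (‖(c : ℂ) + y * I‖ * ‖(c : ℂ) + y * I + 1‖) := by
  have h1 : Integrable fun y : ℝ ↦ (1 / c ^ 2 + 1) * (1 + y ^ 2)⁻¹ :=
    integrable_inv_one_add_sq.const_mul _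
  refine h1.mono' ?_ (Eventually.of_forall fun y ↦ ?_)
  · refine Continuous.aestronglyMeasurable ?_
    refine Continuous.div continuous_const (by fun_prop) fun y ↦ ?_
    have h2 : (c : ℂ) + y * I ≠ 0 := by
      intro h
      have := congrArg Complex.re h
      simp at this
      linarith
    have h3 : (c : ℂ) + y * I + 1 ≠ 0 := by
      intro h
      have := congrArg Complex.re h
      simp at this
      linarith
    exact mul_ne_zero (norm_ne_zero_iff.mpr h2) (norm_ne_zero_iff.mpr h3)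
  · have h4 : c ≤ ‖(c : ℂ) + y * I‖ := by
      have := re_le_norm ((c : ℂ) + y * I)
      simpa using this
    have h5 : |y| ≤ ‖(c : ℂ) + y * I‖ := by
      have := abs_im_le_norm ((c : ℂ) + y * I)
      simpa using this
    have h6 : ‖(c : ℂ) + y * I‖ ≤ ‖(c : ℂ) + y * I + 1‖ := by
      rw [← sq_le_sq₀ (norm_nonneg _) (norm_nonneg _), ← normSq_eq_norm_sq, ← normSq_eq_norm_sq,
        normSq_apply, normSq_apply]
      simp
      nlinarith
    have h7 : c ^ 2 + y ^ 2 = ‖(c : ℂ) + y * I‖ ^ 2 := by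
      rw [← normSq_eq_norm_sq, normSq_apply]
      simp
      ring
    rw [Real.norm_of_nonneg (by positivity)]
    have h8 : 0 < ‖(c : ℂ) + y * I‖ := by linarith
    calc 1 / (‖(c : ℂ) + y * I‖ * ‖(c : ℂ) + y * I + 1‖)
        ≤ 1 / (‖(c : ℂ) + y * I‖ * ‖(c : ℂ) + y * I‖) := by gcongr
      _ = 1 / (c ^ 2 + y ^ 2) := by rw [h7]; ring_nf
      _ ≤ (1 / c ^ 2 + 1) * (1 + y ^ 2)⁻¹ := by
        rw [← div_eq_mul_inv, div_le_div_iff₀ (by positivity) (by positivity)]
        have h9 : (1 / c ^ 2 + 1) * (c ^ 2 + y ^ 2) = 1 + y ^ 2 / c ^ 2 + c ^ 2 + y ^ 2 := by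
          field_simp
          ring
        rw [h9]
        have : 0 ≤ y ^ 2 / c ^ 2 := by positivity
        nlinarith [sq_nonneg c]

/-- inverse Mellin transform of the triangle kernel -/
lemma tri_inversion {c : ℝ} (hc : 0 < c) {X : ℝ} (hX : 0 < X) {n : ℕ} (hn : n ≠ 0) :
    ((max (X - n) 0 : ℝ) : ℂ) = (1 / (2 * Real.pi) : ℂ) *
      ∫ y : ℝ, (X : ℂ) ^ ((c : ℂ) + y * I + 1) / (((c : ℂ) + y * I) * ((c : ℂ) + y * I + 1)) *
        (n : ℂ) ^ (-((c : ℂ) + y * I)) := by
  have hn' : (0 : ℝ) < n := by exact_mod_cast Nat.pos_of_ne_zero hn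
  have hx : 0 < (n : ℝ) / X := by positivity
  have hconv : MellinConvergent tri (c : ℂ) := (tri_hasMellin (s := (c : ℂ)) (by simpa using hc)).1
  have hmel : ∀ y : ℝ, mellin tri ((c : ℂ) + y * I)
      = 1 / (((c : ℂ) + y * I) * ((c : ℂ) + y * I + 1)) := fun y ↦
    (tri_hasMellin (by simpa using hc)).2
  have hvi : VerticalIntegrable (mellin tri) c volume := by
    unfold VerticalIntegrable
    have h1 := integrable_bound hc
    refine h1.mono' ?_ (Eventually.of_forall fun y ↦ ?_)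
    · refine Continuous.aestronglyMeasurable ?_
      have : (fun y : ℝ ↦ mellin tri ((c : ℂ) + y * I)) = fun y : ℝ ↦
          1 / (((c : ℂ) + y * I) * ((c : ℂ) + y * I + 1)) := funext hmel
      rw [this]
      refine Continuous.div continuous_const (by fun_prop) fun y ↦ ?_
      have h2 : (c : ℂ) + y * I ≠ 0 := by
        intro h
        have := congrArg Complex.re h
        simp at this
        linarith
      have h3 : (c : ℂ) + y * I + 1 ≠ 0 := by
        intro h
        have := congrArg Complex.re h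
        simp at this
        linarith
      exact mul_ne_zero h2 h3
    · rw [hmel, norm_div, norm_one, norm_mul]
  have key := mellinInv_mellin_eq c tri hx hconv hvi (tri_continuousAt hx)
  rw [tri_eq hx] at key
  have h5 : (max (X - n) 0 : ℝ) = X * max (1 - n / X) 0 := by
    rw [mul_max_of_nonneg _ _ hX.le, mul_zero]
    congr 1
    field_simp
  rw [h5, ofReal_mul, ← key, mellinInv]
  rw [real_smul, ← mul_assoc, mul_comm (X : ℂ), mul_assoc]
  push_cast
  congr 1
  rw [← integral_const_mul]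
  refine integral_congr_ae (Eventually.of_forall fun y ↦ ?_)
  simp only [smul_eq_mul]
  rw [hmel]
  have hXc : (X : ℂ) ≠ 0 := by exact_mod_cast hX.ne'
  have hnc : (n : ℂ) ≠ 0 := by exact_mod_cast hn
  have h6 : ((n : ℂ) / X) ^ (-((c : ℂ) + y * I))
      = (n : ℂ) ^ (-((c : ℂ) + y * I)) * (X : ℂ) ^ ((c : ℂ) + y * I) := by
    have h7 : ((n : ℂ) / X) = ((n : ℝ) : ℂ) * ((X⁻¹ : ℝ) : ℂ) := by
      push_cast; rw [div_eq_mul_inv]
    rw [h7, mul_cpow_ofReal_nonneg hn'.le (by positivity)]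
    congr 1
    rw [ofReal_inv, inv_cpow _ _ (by rw [arg_ofReal_of_nonneg hX.le]; exact Real.pi_pos.ne),
      ← cpow_neg, neg_neg]
  have h8 : (X : ℂ) ^ ((c : ℂ) + y * I + 1) = (X : ℂ) ^ ((c : ℂ) + y * I) * X := by
    rw [cpow_add _ _ hXc, cpow_one]
  rw [h6, h8]
  ring

/-- the Perron kernel -/
noncomputable def kern (N : ℕ) (s : ℂ) : ℂ :=
  (((N + 1 : ℕ) : ℂ) ^ (s + 1) - (N : ℂ) ^ (s + 1)) / (s * (s + 1))

lemma integrable_kern_part {c : ℝ} (hc : 0 < c) {X : ℝ} (hX : 0 < X) (n : ℕ) :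
    Integrable fun y : ℝ ↦ (X : ℂ) ^ ((c : ℂ) + y * I + 1) /
      (((c : ℂ) + y * I) * ((c : ℂ) + y * I + 1)) * (n : ℂ) ^ (-((c : ℂ) + y * I)) := by
  have hden : ∀ y : ℝ, ((c : ℂ) + y * I) * ((c : ℂ) + y * I + 1) ≠ 0 := by
    intro y
    have h2 : (c : ℂ) + y * I ≠ 0 := by
      intro h
      have := congrArg Complex.re h
      simp at this
      linarith
    have h3 : (c : ℂ) + y * I + 1 ≠ 0 := by
      intro h
      have := congrArg Complex.re h
      simp at this
      linarith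
    exact mul_ne_zero h2 h3
  have h1 := (integrable_bound hc).const_mul (X ^ (c + 1) * (n : ℝ) ^ (-c))
  refine h1.mono' ?_ (Eventually.of_forall fun y ↦ ?_)
  · refine Continuous.aestronglyMeasurable ?_
    have hXc : (X : ℂ) ≠ 0 := by exact_mod_cast hX.ne'
    refine Continuous.mul (Continuous.div ?_ (by fun_prop) hden) ?_
    · exact Continuous.const_cpow (by fun_prop) (Or.inl hXc)
    · rcases eq_or_ne n 0 with rfl | hn
      · have : ∀ y : ℝ, -((c : ℂ) + y * I) ≠ 0 := by
          intro y h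
          have := congrArg Complex.re h
          simp at this
          linarith
        exact Continuous.const_cpow (by fun_prop) (Or.inr this)
      · exact Continuous.const_cpow (by fun_prop) (Or.inl (by exact_mod_cast hn))
  · rw [norm_mul, norm_div, norm_mul, norm_cpow_eq_rpow_re_of_pos hX]
    have h4 : ((c : ℂ) + y * I + 1).re = c + 1 := by simp
    rw [h4]
    have h5 : ‖(n : ℂ) ^ (-((c : ℂ) + y * I))‖ = (n : ℝ) ^ (-c) := by
      rcases eq_or_ne n 0 with rfl | hn
      · have h6 : -((c : ℂ) + y * I) ≠ 0 := by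
          intro h
          have := congrArg Complex.re h
          simp at this
          linarith
        rw [Nat.cast_zero, zero_cpow h6, norm_zero, Nat.cast_zero, Real.zero_rpow (by linarith)]
      · rw [norm_natCast_cpow_of_pos (Nat.pos_of_ne_zero hn)]
        simp
    rw [h5]
    apply le_of_eq
    ring

lemma kern_inversion {c : ℝ} (hc : 0 < c) {N : ℕ} (hN : 1 ≤ N) {n : ℕ} (hn : n ≠ 0) :
    (if n ≤ N then (1 : ℂ) else 0) = (1 / (2 * Real.pi) : ℂ) *
      ∫ y : ℝ, kern N ((c : ℂ) + y * I) * (n : ℂ) ^ (-((c : ℂ) + y * I)) := by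
  have hN1 : (0 : ℝ) < ((N + 1 : ℕ) : ℝ) := by positivity
  have hN0 : (0 : ℝ) < (N : ℝ) := by exact_mod_cast hN
  have e1 := tri_inversion hc hN1 hn
  have e2 := tri_inversion hc hN0 hn
  have i1 := integrable_kern_part hc hN1 n
  have i2 := integrable_kern_part hc hN0 n
  have h1 : (fun y : ℝ ↦ kern N ((c : ℂ) + y * I) * (n : ℂ) ^ (-((c : ℂ) + y * I)))
      = fun y : ℝ ↦ ((((N + 1 : ℕ) : ℝ) : ℂ) ^ ((c : ℂ) + y * I + 1) /
          (((c : ℂ) + y * I) * ((c : ℂ) + y * I + 1)) * (n : ℂ) ^ (-((c : ℂ) + y * I)))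
        - (((N : ℝ) : ℂ) ^ ((c : ℂ) + y * I + 1) /
          (((c : ℂ) + y * I) * ((c : ℂ) + y * I + 1)) * (n : ℂ) ^ (-((c : ℂ) + y * I))) := by
    ext y
    unfold kern
    push_cast
    ring
  rw [h1, integral_sub i1 i2, mul_sub, ← e1, ← e2]
  split_ifs with h
  · have h2 : (n : ℝ) ≤ N := by exact_mod_cast h
    rw [max_eq_left (by push_cast; linarith), max_eq_left (by linarith)]
    push_cast
    ring
  · have h2 : (N : ℝ) + 1 ≤ n := by
      have : N + 1 ≤ n := by omega
      exact_mod_cast this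
    rw [max_eq_right (by push_cast; linarith), max_eq_right (by linarith)]
    simp

/-- **Perron formula** with an absolutely convergent kernel. -/
theorem perron {a : ℕ → ℂ} {c : ℝ} (hc : 0 < c) (ha : LSeriesSummable a c) {N : ℕ} (hN : 1 ≤ N) :
    ∑ n ∈ Finset.Icc 1 N, a n = (1 / (2 * Real.pi) : ℂ) *
      ∫ y : ℝ, kern N ((c : ℂ) + y * I) * LSeries a ((c : ℂ) + y * I) := by
  have hN1 : (0 : ℝ) < ((N + 1 : ℕ) : ℝ) := by positivity
  have hN0 : (0 : ℝ) < (N : ℝ) := by exact_mod_cast hN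
  have hkint : Integrable fun y : ℝ ↦ kern N ((c : ℂ) + y * I) := by
    have i1 := integrable_kern_part hc hN1 1
    have i2 := integrable_kern_part hc hN0 1
    refine (i1.sub i2).congr (Eventually.of_forall fun y ↦ ?_)
    simp only [kern, Pi.sub_apply]
    push_cast
    rw [one_cpow]
    ring
  set F : ℕ → ℝ → ℂ := fun n y ↦ kern N ((c : ℂ) + y * I) * term a ((c : ℂ) + y * I) n with hF
  have hFeq : ∀ n, n ≠ 0 → F n = fun y : ℝ ↦ a n * (kern N ((c : ℂ) + y * I) *
      (n : ℂ) ^ (-((c : ℂ) + y * I))) := by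
    intro n hn
    ext y
    simp only [hF]
    rw [term_of_ne_zero hn, cpow_neg, div_eq_mul_inv]
    ring
  have hF0 : F 0 = fun _ ↦ 0 := by
    ext y; simp [hF]
  have hFn : ∀ n y, ‖F n y‖ = ‖kern N ((c : ℂ) + y * I)‖ * ‖term a (c : ℂ) n‖ := by
    intro n y
    simp only [hF]
    rw [norm_mul, norm_term_eq, norm_term_eq]
    simp
  have hFint : ∀ n, Integrable (F n) := by
    intro n
    rcases eq_or_ne n 0 with rfl | hn
    · rw [hF0]; exact integrable_zero _ _ _
    · rw [hFeq n hn]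
      have i1 := (integrable_kern_part hc hN1 n)
      have i2 := (integrable_kern_part hc hN0 n)
      refine ((i1.sub i2).const_mul (a n)).congr (Eventually.of_forall fun y ↦ ?_)
      simp only [kern, Pi.sub_apply]
      push_cast
      ring
  have hFsum : Summable fun n ↦ ∫ y, ‖F n y‖ := by
    have : (fun n ↦ ∫ y, ‖F n y‖)
        = fun n ↦ (∫ y : ℝ, ‖kern N ((c : ℂ) + y * I)‖) * ‖term a (c : ℂ) n‖ := by
      ext n
      simp_rw [hFn n]
      rw [integral_mul_const]
    rw [this]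
    exact ha.norm.mul_left _
  have key := hasSum_integral_of_summable_integral_norm hFint hFsum
  have hRHS : ∫ y : ℝ, kern N ((c : ℂ) + y * I) * LSeries a ((c : ℂ) + y * I)
      = ∫ y, ∑' n, F n y := by
    refine integral_congr_ae (Eventually.of_forall fun y ↦ ?_)
    simp only [hF]
    rw [tsum_mul_left, LSeries]
  rw [hRHS, ← key.tsum_eq, ← tsum_mul_left]
  have hval : ∀ n, (1 / (2 * Real.pi) : ℂ) * ∫ y, F n y
      = if n ∈ Finset.Icc 1 N then a n else 0 := by
    intro n
    rcases eq_or_ne n 0 with rfl | hn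
    · rw [hF0]; simp
    · rw [hFeq n hn, integral_const_mul, ← mul_assoc, mul_comm _ (a n), mul_assoc,
        ← kern_inversion hc hN hn]
      have : n ∈ Finset.Icc 1 N ↔ n ≤ N := by
        rw [Finset.mem_Icc]
        constructor
        · exact fun h ↦ h.2
        · exact fun h ↦ ⟨Nat.one_le_iff_ne_zero.mpr hn, h⟩
      simp only [this]
      split_ifs <;> simp
  simp_rw [hval]
  rw [tsum_eq_sum (s := Finset.Icc 1 N) (fun n hn ↦ by simp [hn])]
  refine Finset.sum_congr rfl fun n hn ↦ ?_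
  rw [if_pos hn]

end Pool.Agent.H6
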