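import Pool.Agent.H6.LogBound

/-!
# An abstract bound for the logarithm of a zero-free function

If `f` is analytic and zero-free on `ball c R`, `log ‖f‖` is bounded on a small concentric disc, and
`log ‖f‖ ≤ M` on the whole disc, then a logarithm of `f` is `O(M ^ a)` with `a < 1` on every
smaller disc.
-/

set_option autoImplicit false

open Complex Metric Set Filter Topology

namespace Pool.Agent.H6

lemma bc_ball {L : ℂ → ℂ} {c : ℂ} {R r M : ℝ} (hr : 0 ≤ r) (hrR : r < R)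
    (hL : DifferentiableOn ℂ L (ball c R)) (hM : 0 < M) (hre : ∀ z ∈ ball c R, (L z).re ≤ M)
    {z : ℂ} (hz : ‖z - c‖ ≤ r) :
    ‖L z‖ ≤ 2 * M * r / (R - r) + ‖L c‖ * (R + r) / (R - r) := by
  have hRpos : 0 < R := lt_of_le_of_lt hr hrR
  set f : ℂ → ℂ := fun w ↦ L (w + c) with hf
  have hmem : ∀ w ∈ ball (0:ℂ) R, w + c ∈ ball c R := by
    intro w hw
    rw [mem_ball, dist_eq_norm, add_sub_cancel_right]
    simpa using hw
  have hfd : DifferentiableOn ℂ f (ball 0 R) := by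
    intro w hw
    have h1 : DifferentiableAt ℂ L (w + c) :=
      hL.differentiableAt (isOpen_ball.mem_nhds (hmem w hw))
    have h2 : DifferentiableAt ℂ (fun w ↦ w + c) w := by fun_prop
    exact (DifferentiableAt.comp w h1 h2).differentiableWithinAt
  have hfm : MapsTo f (ball 0 R) {z | z.re ≤ M} := fun w hw ↦ hre _ (hmem w hw)
  have hzb : z - c ∈ ball (0 : ℂ) R := by
    rw [mem_ball_zero_iff]; linarith
  have h3 := Complex.borelCaratheodory hM hfd hfm hRpos hzb
  have h4 : f (z - c) = L z := by simp [hf]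
  have h5 : f 0 = L c := by simp [hf]
  rw [h4, h5] at h3
  refine h3.trans ?_
  have hRr : 0 < R - r := by linarith
  have hn := norm_nonneg (z - c)
  have hn2 := norm_nonneg (L c)
  apply add_le_add
  · apply div_le_div₀ (by positivity) _ hRr (by linarith)
    gcongr
  · apply div_le_div₀ (by positivity) _ hRr (by linarith)
    gcongr

theorem abs_log_bound {R r₁ r₂ A : ℝ} (h0 : 0 < r₁) (h12 : r₁ < r₂) (h2R : r₂ < R) (hA : 0 ≤ A) :
    ∃ K a : ℝ, 0 < K ∧ 0 < a ∧ a < 1 ∧ ∀ (f : ℂ → ℂ) (c : ℂ) (M : ℝ), 1 ≤ M →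
      DifferentiableOn ℂ f (ball c R) → (∀ z ∈ ball c R, f z ≠ 0) →
      (∀ z ∈ ball c r₁, Real.log ‖f z‖ ≤ A) → -A ≤ Real.log ‖f c‖ →
      (∀ z ∈ ball c R, Real.log ‖f z‖ ≤ M) →
      ∃ L : ℂ → ℂ, (∀ z ∈ ball c R, HasDerivAt L (deriv f z / f z) z) ∧
        (∀ z ∈ ball c R, Complex.exp (L z) = f z) ∧
        ∀ z, ‖z - c‖ ≤ r₂ → ‖L z‖ ≤ K * M ^ a := by
  set r₀ : ℝ := r₁ / 2 with hr0
  set r₃ : ℝ := (r₂ + R) / 2 with hr3
  have hr0pos : 0 < r₀ := by rw [hr0]; linarith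
  have h01 : r₀ < r₁ := by rw [hr0]; linarith
  have h02 : r₀ < r₂ := by linarith
  have h23 : r₂ < r₃ := by rw [hr3]; linarith
  have h3R : r₃ < R := by rw [hr3]; linarith
  have hpi := Real.pi_pos
  set K₀ : ℝ := A + Real.pi with hK0
  have hK0pos : 0 < K₀ := by rw [hK0]; linarith
  set K₁ : ℝ := 2 * (A + 1) * r₀ / (r₁ - r₀) + K₀ * (r₁ + r₀) / (r₁ - r₀) with hK1
  have h10 : 0 < r₁ - r₀ := by linarith
  have hK1pos : 0 < K₁ := by positivity
  have hRr : 0 < R - r₃ := by linarith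
  have hRpos : 0 < R := by linarith
  have hr3pos : 0 < r₃ := by linarith
  set C₁ : ℝ := 2 * r₃ / (R - r₃) + K₀ * (R + r₃) / (R - r₃) + K₁ with hC1
  have hC1pos : 0 < C₁ := by positivity
  set a : ℝ := (Real.log r₂ - Real.log r₀) / (Real.log r₃ - Real.log r₀) with ha
  have hl12 : Real.log r₀ < Real.log r₂ := Real.log_lt_log hr0pos h02
  have hl23 : Real.log r₂ < Real.log r₃ := Real.log_lt_log (by linarith) h23
  have ha0 : 0 < a := div_pos (by linarith) (by linarith)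
  have ha1 : a < 1 := by
    rw [ha, div_lt_one (by linarith)]
    linarith
  refine ⟨K₁ ^ (1 - a) * C₁ ^ a, a, by positivity, ha0, ha1,
    fun f c M hM hfd hne hin hc hout ↦ ?_⟩
  obtain ⟨L, hLc, hLd, hLe⟩ := exists_log_on_ball hRpos hfd hne
  refine ⟨L, hLd, hLe, ?_⟩
  have hcball : c ∈ ball c R := mem_ball_self hRpos
  have hLdiff : DifferentiableOn ℂ L (ball c R) := fun w hw ↦
    (hLd w hw).differentiableAt.differentiableWithinAt
  have hreL : ∀ z ∈ ball c R, (L z).re = Real.log ‖f z‖ := by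
    intro z hz
    rw [← hLe z hz, Complex.norm_exp, Real.log_exp]
  have hcenL : ‖L c‖ ≤ K₀ := by
    rw [hLc]
    refine (norm_le_abs_re_add_abs_im _).trans ?_
    rw [log_re, log_im]
    have h1 : |Real.log ‖f c‖| ≤ A := abs_le.mpr ⟨hc, hin c (mem_ball_self h0)⟩
    have h4 := abs_arg_le_pi (f c)
    linarith
  have hinner : ∀ z, ‖z - c‖ ≤ r₀ → ‖L z‖ ≤ K₁ := by
    intro z hz
    have hsub : ball c r₁ ⊆ ball c R := ball_subset_ball (by linarith)
    have h1 := bc_ball (M := A + 1) hr0pos.le h01 (hLdiff.mono hsub) (by linarith)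
      (fun w hw ↦ by rw [hreL w (hsub hw)]; linarith [hin w hw]) hz
    refine h1.trans ?_
    rw [hK1]
    gcongr
  have houter : ∀ z, ‖z - c‖ ≤ r₃ → ‖L z‖ ≤ C₁ * M := by
    intro z hz
    have h1 := bc_ball (M := M) hr3pos.le h3R hLdiff (by linarith)
      (fun w hw ↦ by rw [hreL w hw]; exact hout w hw) hz
    refine h1.trans ?_
    have h2 : ‖L c‖ * (R + r₃) / (R - r₃) ≤ K₀ * (R + r₃) / (R - r₃) * M := by
      have h3 : ‖L c‖ * (R + r₃) / (R - r₃) ≤ K₀ * (R + r₃) / (R - r₃) := by gcongr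
      have h4 : 0 ≤ K₀ * (R + r₃) / (R - r₃) := by positivity
      nlinarith
    have h5 : 2 * M * r₃ / (R - r₃) = 2 * r₃ / (R - r₃) * M := by ring
    rw [h5, hC1]
    nlinarith
  set X : ℝ := C₁ * M with hX
  have hXK : K₁ ≤ X := by
    have h1 : K₁ ≤ C₁ := by
      rw [hC1]
      have : 0 ≤ 2 * r₃ / (R - r₃) + K₀ * (R + r₃) / (R - r₃) := by positivity
      linarith
    rw [hX]
    nlinarith
  have hXpos : 0 < X := lt_of_lt_of_le hK1pos hXK
  have htarget : K₁ ^ (1 - a) * C₁ ^ a * M ^ a = K₁ * (X / K₁) ^ a := by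
    rw [hX, mul_assoc, ← Real.mul_rpow hC1pos.le (by linarith), ← hX,
      Real.rpow_sub hK1pos, Real.rpow_one, Real.div_rpow hXpos.le hK1pos.le]
    ring
  rw [htarget]
  have hXK1 : 1 ≤ X / K₁ := by rw [le_div_iff₀ hK1pos]; linarith
  intro z hz
  rcases le_or_gt ‖z - c‖ r₀ with hsmall | hlarge
  · refine (hinner z hsmall).trans ?_
    have : 1 ≤ (X / K₁) ^ a := Real.one_le_rpow hXK1 ha0.le
    nlinarith
  · have h3c := three_circles (f := L) (c := c) (r₁ := r₀) (r₃ := r₃) (R := R)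
      (A := K₁) (B := X) hr0pos (by linarith) h3R hLdiff
      (fun w hw ↦ hinner w hw.le) (fun w hw ↦ houter w hw.le) hlarge.le (by linarith)
    refine h3c.trans ?_
    set e : ℝ := (Real.log ‖z - c‖ - Real.log r₀) / (Real.log r₃ - Real.log r₀) with he
    have hea : e ≤ a := by
      rw [he, ha]
      have : Real.log ‖z - c‖ ≤ Real.log r₂ := Real.log_le_log (by linarith) hz
      apply div_le_div_of_nonneg_right (by linarith) (by linarith)
    have h13 : K₁ ^ (1 - e) * X ^ e = K₁ * (X / K₁) ^ e := by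
      rw [Real.rpow_sub hK1pos, Real.rpow_one, Real.div_rpow hXpos.le hK1pos.le]
      ring
    rw [h13]
    gcongr

end Pool.Agent.H6
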