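import Mathlib

/-!
Landau's lemma for Dirichlet series with nonnegative coefficients: if the series is absolutely
convergent near the real point `c` and its sum extends holomorphically to the ball `B(c, r)`,
then the series converges absolutely at every real point of that ball.
-/

open Complex LSeries Filter Topology

namespace Pool.Agent.H6

/-- **Landau's lemma**, local form. -/
theorem landau_summable {b : ℕ → ℝ} (hb : ∀ n, 0 ≤ b n) (hb0 : b 0 = 0) {c r : ℝ}
    (hc : abscissaOfAbsConv (fun n ↦ (b n : ℂ)) < c)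
    {G : ℂ → ℂ} (hG : DifferentiableOn ℂ G (Metric.ball (c : ℂ) r))
    (hGL : G =ᶠ[𝓝 (c : ℂ)] LSeries (fun n ↦ (b n : ℂ)))
    {t : ℝ} (ht : c - r < t) (htc : t ≤ c) :
    LSeriesSummable (fun n ↦ (b n : ℂ)) (t : ℂ) := by
  set bb : ℕ → ℂ := fun n ↦ (b n : ℂ) with hbb
  have hc' : abscissaOfAbsConv bb < ((c : ℂ).re : ℝ) := by simpa using hc
  -- the double family
  set F : ℕ × ℕ → ℝ := fun p ↦
    ((p.1.factorial : ℝ))⁻¹ * (c - t) ^ p.1 * ((Real.log p.2) ^ p.1 * b p.2 * (p.2 : ℝ) ^ (-c))
    with hF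
  have hct : 0 ≤ c - t := by linarith
  have hFnonneg : 0 ≤ F := by
    intro p
    simp only [hF, Pi.zero_apply]
    have h1 : 0 ≤ Real.log (p.2 : ℝ) := Real.log_natCast_nonneg _
    have h2 := hb p.2
    have h3 : 0 ≤ ((p.2 : ℝ)) ^ (-c) := Real.rpow_nonneg (Nat.cast_nonneg _) _
    positivity
  -- Taylor expansion
  have htb : (t : ℂ) ∈ Metric.ball (c : ℂ) r := by
    rw [Metric.mem_ball, dist_eq_norm, ← ofReal_sub, norm_real, Real.norm_eq_abs, abs_lt]
    constructor <;> linarith
  have hTaylor := Complex.hasSum_taylorSeries_on_ball hG htb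
  have hiter : ∀ m : ℕ, iteratedDeriv m G (c : ℂ) = (-1) ^ m * LSeries (logMul^[m] bb) c := by
    intro m
    rw [hGL.iteratedDeriv_eq m, LSeries_iteratedDeriv m hc']
  have hlogmul : ∀ (m n : ℕ), (logMul^[m] bb) n = ((Real.log n : ℝ) : ℂ) ^ m * (b n : ℂ) := by
    intro m
    induction m with
    | zero => intro n; simp [hbb]
    | succ m ih =>
      intro n
      rw [Function.iterate_succ_apply', logMul, ih n, ← natCast_log, pow_succ]
      ring
  have hsummable_m : ∀ m : ℕ, LSeriesSummable (logMul^[m] bb) (c : ℂ) := by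
    intro m
    apply LSeriesSummable_of_abscissaOfAbsConv_lt_re
    rw [absicssaOfAbsConv_logPowMul]; exact hc'
  have hterm : ∀ (m n : ℕ), term (logMul^[m] bb) (c : ℂ) n
      = (((Real.log n) ^ m * b n * (n : ℝ) ^ (-c) : ℝ) : ℂ) := by
    intro m n
    rcases eq_or_ne n 0 with rfl | hn
    · simp [hb0]
    · rw [term_of_ne_zero hn, hlogmul]
      push_cast
      rw [ofReal_cpow (Nat.cast_nonneg n), div_eq_mul_inv, ← cpow_neg]
      simp
  have hsumn : ∀ m : ℕ, Summable fun n : ℕ ↦ (Real.log n) ^ m * b n * (n : ℝ) ^ (-c) := by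
    intro m
    have := hsummable_m m
    unfold LSeriesSummable at this
    rw [funext (hterm m)] at this
    exact_mod_cast this
  have hL : ∀ m : ℕ, LSeries (logMul^[m] bb) c
      = ((∑' n : ℕ, (Real.log n) ^ m * b n * (n : ℝ) ^ (-c) : ℝ) : ℂ) := by
    intro m
    rw [LSeries, ofReal_tsum]
    exact tsum_congr fun n ↦ hterm m n
  -- summability over the product
  have hprod : Summable F := by
    rw [summable_prod_of_nonneg hFnonneg]
    constructor
    · intro m
      simp only [hF]
      exact (hsumn m).mul_left _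
    · have h1 : Summable fun m : ℕ ↦ ((m.factorial : ℂ)⁻¹ • ((t : ℂ) - c) ^ m •
          iteratedDeriv m G (c : ℂ)) := hTaylor.summable
      have h2 : (fun m : ℕ ↦ ((m.factorial : ℂ)⁻¹ • ((t : ℂ) - c) ^ m •
          iteratedDeriv m G (c : ℂ))) = fun m : ℕ ↦ ((∑' n : ℕ, F (m, n) : ℝ) : ℂ) := by
        ext m
        rw [hiter m, hL m]
        simp only [hF, smul_eq_mul]
        rw [tsum_mul_left]
        push_cast
        have : ((t : ℂ) - c) ^ m * (-1) ^ m = (c - t) ^ m := by
          rw [← mul_pow]; congr 1; ring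
        rw [← this]
        ring
      rw [h2] at h1
      exact_mod_cast h1
  -- swap
  have hswap : Summable fun n : ℕ ↦ ∑' m : ℕ, F (m, n) := by
    have h3 : Summable (F ∘ Prod.swap) := (Equiv.prodComm ℕ ℕ).summable_iff.mpr hprod
    have hnn : 0 ≤ F ∘ Prod.swap := fun p ↦ hFnonneg p.swap
    exact ((summable_prod_of_nonneg hnn).mp h3).2
  have hval : ∀ n : ℕ, ∑' m : ℕ, F (m, n) = b n * (n : ℝ) ^ (-t) := by
    intro n
    rcases eq_or_ne n 0 with rfl | hn
    · simp [hF, hb0]
    have hn' : (0 : ℝ) < n := by exact_mod_cast Nat.pos_of_ne_zero hn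
    have h5 : ∀ m : ℕ, F (m, n) = (b n * (n : ℝ) ^ (-c)) *
        ((((c - t) * Real.log n) ^ m) / (m.factorial : ℝ)) := by
      intro m
      simp only [hF]
      rw [mul_pow]
      field_simp
    simp_rw [h5]
    rw [tsum_mul_left]
    have h6 : ∑' m : ℕ, ((c - t) * Real.log n) ^ m / (m.factorial : ℝ)
        = Real.exp ((c - t) * Real.log n) := by
      rw [Real.exp_eq_exp_ℝ, NormedSpace.exp_eq_tsum_div]
    rw [h6, mul_assoc]
    congr 1
    rw [Real.rpow_def_of_pos hn', Real.rpow_def_of_pos hn', ← Real.exp_add]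
    congr 1
    ring
  simp_rw [hval] at hswap
  have h7 : ∀ n : ℕ, term bb (t : ℂ) n = ((b n * (n : ℝ) ^ (-t) : ℝ) : ℂ) := by
    intro n
    rcases eq_or_ne n 0 with rfl | hn
    · simp [hb0]
    · rw [term_of_ne_zero hn]
      push_cast
      rw [ofReal_cpow (Nat.cast_nonneg n), div_eq_mul_inv, ← cpow_neg]
      simp [hbb]
  unfold LSeriesSummable
  rw [funext h7]
  exact_mod_cast hswap

end Pool.Agent.H6
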