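import Mathlib
import Pool.Agent.H6.Landau

/-!
A global form of Landau's lemma: if `H` is holomorphic in `re s > x0`, tends to `1` at `+∞` and
satisfies `H' = - B H` far to the right, where `B` is a Dirichlet series with nonnegative
coefficients, then `B` converges absolutely in `re s > x0` and `H` has no zero there.
-/

open Complex LSeries Filter Topology

namespace Pool.Agent.H6

lemma isOpen_re_gt (x : ℝ) : IsOpen {s : ℂ | x < s.re} := isOpen_lt continuous_const continuous_re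

lemma norm_LSeries_le {b : ℕ → ℝ} (hb : ∀ n, 0 ≤ b n) (hb0 : b 0 = 0) {s : ℂ}
    (hs : LSeriesSummable (fun n ↦ (b n : ℂ)) s) :
    ‖LSeries (fun n ↦ (b n : ℂ)) s‖ ≤ ∑' n, b n * (n : ℝ) ^ (-s.re) := by
  have h1 : ∀ n, ‖term (fun n ↦ (b n : ℂ)) s n‖ = b n * (n : ℝ) ^ (-s.re) := by
    intro n
    rcases eq_or_ne n 0 with rfl | hn
    · simp [hb0]
    · rw [norm_term_eq]
      simp only [hn, if_false, norm_real, Real.norm_eq_abs, abs_of_nonneg (hb n)]
      rw [Real.rpow_neg (Nat.cast_nonneg n), div_eq_mul_inv]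
  have h2 : Summable fun n ↦ ‖term (fun n ↦ (b n : ℂ)) s n‖ := hs.norm
  calc ‖LSeries (fun n ↦ (b n : ℂ)) s‖ ≤ ∑' n, ‖term (fun n ↦ (b n : ℂ)) s n‖ :=
        norm_tsum_le_tsum_norm h2
    _ = _ := tsum_congr h1

lemma LSeries_real {b : ℕ → ℝ} (hb : ∀ n, 0 ≤ b n) (hb0 : b 0 = 0) (x : ℝ) :
    ∃ B : ℝ, 0 ≤ B ∧ LSeries (fun n ↦ (b n : ℂ)) (x : ℂ) = (B : ℂ) := by
  refine ⟨∑' n, b n * (n : ℝ) ^ (-x), tsum_nonneg fun n ↦ ?_, ?_⟩
  · exact mul_nonneg (hb n) (Real.rpow_nonneg (Nat.cast_nonneg n) _)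
  · rw [ofReal_tsum, LSeries]
    refine tsum_congr fun n ↦ ?_
    rcases eq_or_ne n 0 with rfl | hn
    · simp [hb0]
    · rw [term_of_ne_zero hn]
      push_cast
      rw [ofReal_cpow (Nat.cast_nonneg n), div_eq_mul_inv, ← cpow_neg]
      simp

section

variable {b : ℕ → ℝ} {H : ℂ → ℂ} {y : ℝ}

/-- monotonicity on the real axis -/
lemma one_le_norm_of_ode (hb : ∀ n, 0 ≤ b n) (hb0 : b 0 = 0)
    (hH : DifferentiableOn ℂ H {s | y < s.re})
    (hODE : ∀ s : ℂ, y < s.re → deriv H s = - LSeries (fun n ↦ (b n : ℂ)) s * H s)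
    (hlim : Tendsto (fun σ : ℝ ↦ H σ) atTop (𝓝 1)) {x : ℝ} (hx : y < x) : 1 ≤ ‖H x‖ := by
  have hd : ∀ σ : ℝ, y < σ → HasDerivAt (fun u : ℝ ↦ ‖H u‖ ^ 2)
      (2 * inner ℝ (H σ) (- LSeries (fun n ↦ (b n : ℂ)) σ * H σ)) σ := by
    intro σ hσ
    have h1 : HasDerivAt H (deriv H σ) (σ : ℂ) :=
      (hH.differentiableAt ((isOpen_re_gt y).mem_nhds (by simpa using hσ))).hasDerivAt
    rw [hODE σ (by simpa using hσ)] at h1
    exact (h1.comp_ofReal).norm_sq
  have hanti : AntitoneOn (fun u : ℝ ↦ ‖H u‖ ^ 2) (Set.Ioi y) := by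
    apply antitoneOn_of_deriv_nonpos (convex_Ioi y)
    · intro σ hσ
      exact (hd σ hσ).continuousAt.continuousWithinAt
    · intro σ hσ
      rw [interior_Ioi] at hσ
      exact (hd σ hσ).differentiableAt.differentiableWithinAt
    · intro σ hσ
      rw [interior_Ioi] at hσ
      rw [(hd σ hσ).deriv]
      obtain ⟨B, hB0, hB⟩ := LSeries_real hb hb0 σ
      rw [hB]
      have : inner ℝ (H σ) (-(B : ℂ) * H σ) = - B * ‖H σ‖ ^ 2 := by
        have h3 : (-(B : ℂ) * H σ) = (-B : ℝ) • H σ := by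
          rw [real_smul]; push_cast; ring
        rw [h3, inner_smul_right, real_inner_self_eq_norm_sq]
      rw [this]
      have : 0 ≤ B * ‖H σ‖ ^ 2 := by positivity
      linarith
  have hlim2 : Tendsto (fun σ : ℝ ↦ ‖H σ‖ ^ 2) atTop (𝓝 1) := by
    have := (hlim.norm).pow 2
    simpa using this
  have h5 : 1 ≤ ‖H x‖ ^ 2 := by
    refine le_of_tendsto hlim2 ?_
    filter_upwards [eventually_ge_atTop x] with σ hσ
    exact hanti hx (lt_of_lt_of_le hx hσ) hσ
  nlinarith [norm_nonneg (H x)]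

/-- nonvanishing off the real axis -/
lemma ne_zero_of_ode (hb : ∀ n, 0 ≤ b n) (hb0 : b 0 = 0)
    (hH : DifferentiableOn ℂ H {s | y < s.re})
    (habs : abscissaOfAbsConv (fun n ↦ (b n : ℂ)) ≤ y)
    (hODE : ∀ s : ℂ, y < s.re → deriv H s = - LSeries (fun n ↦ (b n : ℂ)) s * H s)
    (hlim : Tendsto (fun σ : ℝ ↦ H σ) atTop (𝓝 1)) {s : ℂ} (hs : y < s.re) : H s ≠ 0 := by
  intro h0
  set φ : ℝ → ℂ := fun t ↦ H (s + (t : ℂ) * (-(s.im : ℂ) * I)) with hφ
  have hre : ∀ t : ℝ, (s + (t : ℂ) * (-(s.im : ℂ) * I)).re = s.re := by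
    intro t; simp
  set K : ℝ := (∑' n, b n * (n : ℝ) ^ (-s.re)) * |s.im| with hK
  have hd : ∀ t : ℝ, HasDerivAt φ
      ((- LSeries (fun n ↦ (b n : ℂ)) (s + (t : ℂ) * (-(s.im : ℂ) * I)) *
        H (s + (t : ℂ) * (-(s.im : ℂ) * I))) * (-(s.im : ℂ) * I)) t := by
    intro t
    have h1 : HasDerivAt H (deriv H (s + (t : ℂ) * (-(s.im : ℂ) * I)))
        (s + (t : ℂ) * (-(s.im : ℂ) * I)) :=
      (hH.differentiableAt ((isOpen_re_gt y).mem_nhds (by
        show y < (s + (t : ℂ) * (-(s.im : ℂ) * I)).re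
        rw [hre]; exact hs))).hasDerivAt
    rw [hODE _ (by rw [hre]; exact hs)] at h1
    have h2 : HasDerivAt (fun t : ℂ ↦ s + t * (-(s.im : ℂ) * I)) (-(s.im : ℂ) * I) (t : ℂ) := by
      simpa using ((hasDerivAt_id (t : ℂ)).mul_const (-(s.im : ℂ) * I)).const_add s
    have h3 := HasDerivAt.comp (t : ℂ) h1 h2
    exact h3.comp_ofReal
  have hbound : ∀ t : ℝ, ‖((- LSeries (fun n ↦ (b n : ℂ)) (s + (t : ℂ) * (-(s.im : ℂ) * I)) *
        H (s + (t : ℂ) * (-(s.im : ℂ) * I))) * (-(s.im : ℂ) * I))‖ ≤ K * ‖φ t‖ := by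
    intro t
    have hsum : LSeriesSummable (fun n ↦ (b n : ℂ)) (s + (t : ℂ) * (-(s.im : ℂ) * I)) := by
      apply LSeriesSummable_of_abscissaOfAbsConv_lt_re
      rw [hre]
      exact lt_of_le_of_lt habs (by exact_mod_cast hs)
    have h4 := norm_LSeries_le hb hb0 hsum
    rw [hre] at h4
    rw [norm_mul, norm_mul, norm_neg, norm_mul, norm_neg, norm_I, mul_one, norm_real,
      Real.norm_eq_abs, hK]
    calc ‖LSeries (fun n ↦ (b n : ℂ)) (s + (t : ℂ) * (-(s.im : ℂ) * I))‖ *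
          ‖H (s + (t : ℂ) * (-(s.im : ℂ) * I))‖ * |s.im|
        ≤ (∑' n, b n * (n : ℝ) ^ (-s.re)) * ‖H (s + (t : ℂ) * (-(s.im : ℂ) * I))‖ * |s.im| := by
          gcongr
      _ = _ := by simp only [hφ]; ring
  have hz := eq_zero_of_abs_deriv_le_mul_abs_self_of_eq_zero_right (f := φ)
    (f' := fun t ↦ ((- LSeries (fun n ↦ (b n : ℂ)) (s + (t : ℂ) * (-(s.im : ℂ) * I)) *
        H (s + (t : ℂ) * (-(s.im : ℂ) * I))) * (-(s.im : ℂ) * I))) (K := K) (a := 0) (b := 1)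
    (fun t _ ↦ (hd t).continuousAt.continuousWithinAt) (fun t _ ↦ (hd t).hasDerivWithinAt)
    (by simp [hφ, h0]) (fun t _ ↦ hbound t) 1 (by simp)
  have h6 : φ 1 = H (s.re : ℂ) := by
    simp only [hφ]
    congr 1
    apply Complex.ext <;> simp
  rw [h6] at hz
  have h7 := one_le_norm_of_ode hb hb0 hH hODE hlim hs
  rw [hz, norm_zero] at h7
  linarith

end

/-- propagation of the differential equation by the identity theorem -/
lemma ode_propagate {b : ℕ → ℝ} {H : ℂ → ℂ} {x0 x1 : ℝ}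
    (hH : DifferentiableOn ℂ H {s | x0 < s.re})
    (hODE : ∀ s : ℂ, x1 < s.re → deriv H s = - LSeries (fun n ↦ (b n : ℂ)) s * H s)
    {y : ℝ} (hy : x0 ≤ y) (habs : abscissaOfAbsConv (fun n ↦ (b n : ℂ)) ≤ y) :
    ∀ s : ℂ, y < s.re → deriv H s = - LSeries (fun n ↦ (b n : ℂ)) s * H s := by
  have hHy : DifferentiableOn ℂ H {s | y < s.re} :=
    hH.mono fun s hs ↦ lt_of_le_of_lt hy hs
  have hL : DifferentiableOn ℂ (LSeries (fun n ↦ (b n : ℂ))) {s | y < s.re} := by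
    intro s hs
    refine (LSeries_hasDerivAt ?_).differentiableAt.differentiableWithinAt
    exact lt_of_le_of_lt habs (by exact_mod_cast hs)
  have h1 : AnalyticOnNhd ℂ (deriv H) {s | y < s.re} :=
    (hHy.deriv (isOpen_re_gt y)).analyticOnNhd (isOpen_re_gt y)
  have h2 : AnalyticOnNhd ℂ (fun s ↦ - LSeries (fun n ↦ (b n : ℂ)) s * H s) {s | y < s.re} :=
    (hL.neg.mul hHy).analyticOnNhd (isOpen_re_gt y)
  have hpre : IsPreconnected {s : ℂ | y < s.re} := (convex_halfSpace_re_gt y).isPreconnected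
  set z0 : ℂ := ((max y x1 + 1 : ℝ) : ℂ) with hz0
  have hz0re : z0.re = max y x1 + 1 := by simp [hz0]
  have hmem : z0 ∈ {s : ℂ | y < s.re} := by
    show y < z0.re
    rw [hz0re]
    have := le_max_left y x1
    linarith
  have hev : deriv H =ᶠ[𝓝 z0] fun s ↦ - LSeries (fun n ↦ (b n : ℂ)) s * H s := by
    have : {s : ℂ | x1 < s.re} ∈ 𝓝 z0 := by
      apply (isOpen_re_gt x1).mem_nhds
      show x1 < z0.re
      rw [hz0re]
      have := le_max_right y x1
      linarith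
    filter_upwards [this] with s hs
    exact hODE s hs
  intro s hs
  exact h1.eqOn_of_preconnected_of_eventuallyEq h2 hpre hmem hev hs

/-- **Global Landau lemma.** -/
theorem landau_ode {b : ℕ → ℝ} (hb : ∀ n, 0 ≤ b n) (hb0 : b 0 = 0) {x0 x1 : ℝ}
    {H : ℂ → ℂ} (hH : DifferentiableOn ℂ H {s | x0 < s.re})
    (habs : abscissaOfAbsConv (fun n ↦ (b n : ℂ)) ≤ x1)
    (hODE : ∀ s : ℂ, x1 < s.re → deriv H s = - LSeries (fun n ↦ (b n : ℂ)) s * H s)
    (hlim : Tendsto (fun σ : ℝ ↦ H σ) atTop (𝓝 1)) :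
    abscissaOfAbsConv (fun n ↦ (b n : ℂ)) ≤ x0 ∧ ∀ s : ℂ, x0 < s.re → H s ≠ 0 := by
  have key : abscissaOfAbsConv (fun n ↦ (b n : ℂ)) ≤ x0 := by
    by_contra hcon
    rw [not_le] at hcon
    -- the abscissa is a real number
    obtain ⟨σ, hσ⟩ : ∃ σ : ℝ, abscissaOfAbsConv (fun n ↦ (b n : ℂ)) = (σ : EReal) := by
      refine ⟨(abscissaOfAbsConv (fun n ↦ (b n : ℂ))).toReal, ?_⟩
      rw [EReal.coe_toReal]
      · exact ne_of_lt (lt_of_le_of_lt habs (EReal.coe_lt_top x1))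
      · exact ne_of_gt (lt_of_le_of_lt bot_le hcon)
    have hσ0 : x0 < σ := by rw [hσ] at hcon; exact_mod_cast hcon
    have hODE' := ode_propagate hH hODE hσ0.le hσ.le
    have hHσ : DifferentiableOn ℂ H {s | σ < s.re} :=
      hH.mono fun s hs ↦ lt_trans hσ0 hs
    have hne : ∀ s : ℂ, σ < s.re → H s ≠ 0 := fun s hs ↦
      ne_zero_of_ode hb hb0 hHσ hσ.le hODE' hlim hs
    have hcont : ContinuousAt H (σ : ℂ) :=
      (hH.differentiableAt ((isOpen_re_gt x0).mem_nhds (by simpa using hσ0))).continuousAt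
    have hHσ1 : 1 ≤ ‖H (σ : ℂ)‖ := by
      have ht : Tendsto (fun u : ℝ ↦ ‖H (u : ℂ)‖) (𝓝[>] σ) (𝓝 ‖H (σ : ℂ)‖) := by
        have h1 : Tendsto (fun u : ℝ ↦ (u : ℂ)) (𝓝[>] σ) (𝓝 (σ : ℂ)) :=
          (continuous_ofReal.tendsto σ).mono_left nhdsWithin_le_nhds
        exact (hcont.tendsto.comp h1).norm
      refine ge_of_tendsto ht ?_
      filter_upwards [self_mem_nhdsWithin] with u hu
      exact one_le_norm_of_ode hb hb0 hHσ hODE' hlim hu
    have hHσne : H (σ : ℂ) ≠ 0 := by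
      intro h; rw [h, norm_zero] at hHσ1; linarith
    -- a small ball around `σ`
    have hnhds : {s : ℂ | x0 < s.re} ∩ {s | H s ≠ 0} ∈ 𝓝 (σ : ℂ) :=
      inter_mem ((isOpen_re_gt x0).mem_nhds (by simpa using hσ0))
        (hcont.eventually_ne hHσne)
    obtain ⟨ρ, hρ, hball⟩ := Metric.mem_nhds_iff.mp hnhds
    -- the larger ball
    set c : ℝ := σ + ρ with hc
    set r : ℝ := ρ * (5 / 4) with hr
    have hsub : ∀ z ∈ Metric.ball (c : ℂ) r, x0 < z.re ∧ H z ≠ 0 := by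
      intro z hz
      rcases lt_or_ge σ z.re with hlt | hge
      · exact ⟨lt_trans hσ0 hlt, hne z hlt⟩
      · have : z ∈ Metric.ball (σ : ℂ) ρ := by
          rw [Metric.mem_ball, dist_eq_norm] at hz ⊢
          have h1 : ‖z - (c : ℂ)‖ ^ 2 < r ^ 2 := by
            have := norm_nonneg (z - (c : ℂ))
            nlinarith
          have h2 : ‖z - (σ : ℂ)‖ ^ 2 < ρ ^ 2 := by
            rw [← normSq_eq_norm_sq, normSq_apply] at h1 ⊢
            simp only [sub_re, sub_im, ofReal_re, ofReal_im, sub_zero] at h1 ⊢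
            rw [hc, hr] at h1
            have h3 : 0 ≤ σ - z.re := by linarith
            have h4 : σ - z.re < ρ / 4 := by
              by_contra hcontra
              rw [not_lt] at hcontra
              nlinarith [mul_self_nonneg z.im]
            nlinarith [mul_self_nonneg z.im]
          exact lt_of_pow_lt_pow_left₀ 2 hρ.le h2
        have := hball this
        exact ⟨this.1, this.2⟩
    have hG : DifferentiableOn ℂ (fun s ↦ - deriv H s / H s) (Metric.ball (c : ℂ) r) := by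
      have hd : DifferentiableOn ℂ (deriv H) {s | x0 < s.re} := hH.deriv (isOpen_re_gt x0)
      apply DifferentiableOn.div
      · exact (hd.mono fun z hz ↦ (hsub z hz).1).neg
      · exact hH.mono fun z hz ↦ (hsub z hz).1
      · exact fun z hz ↦ (hsub z hz).2
    have hcσ : σ < c := by rw [hc]; linarith
    have hGL : (fun s ↦ - deriv H s / H s) =ᶠ[𝓝 (c : ℂ)] LSeries (fun n ↦ (b n : ℂ)) := by
      filter_upwards [(isOpen_re_gt σ).mem_nhds (show (c : ℂ) ∈ {s : ℂ | σ < s.re} by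
        simpa using hcσ)] with s hs
      rw [hODE' s hs]
      have := hne s hs
      field_simp
    have hsumm := landau_summable hb hb0 (c := c) (r := r) (by rw [hσ]; exact_mod_cast hcσ)
      hG hGL (t := σ - ρ / 8) (by rw [hc, hr]; linarith) (by rw [hc]; linarith)
    have h8 := hsumm.abscissaOfAbsConv_le
    rw [hσ] at h8
    have h9 : σ ≤ σ - ρ / 8 := by
      have : ((σ - ρ / 8 : ℝ) : ℂ).re = σ - ρ / 8 := ofReal_re _
      rw [this] at h8
      exact_mod_cast h8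
    linarith
  refine ⟨key, fun s hs ↦ ?_⟩
  exact ne_zero_of_ode hb hb0 hH key (ode_propagate hH hODE le_rfl key) hlim hs

end Pool.Agent.H6
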