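import Mathlib
import Pool.Agent.H6.LandauOde

/-!
If the logarithmic partial sums `∑_{n ≤ N} g n / n` decay like `N ^ (-δ)`, then the Dirichlet
series of `g` continues to `re s > 1 - δ` and is divisible by `s - 1`.
-/

open Complex LSeries Filter Topology MeasureTheory Set

namespace Pool.Agent.H6

/-- the summatory function of `g n / n` -/
noncomputable def logSum (g : ℕ → ℂ) (N : ℕ) : ℂ := ∑ n ∈ Finset.Icc 1 N, g n / n

/-- the step function -/
noncomputable def stepFn (g : ℕ → ℂ) (t : ℝ) : ℂ := logSum g ⌊t⌋₊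

/-- the Mellin transform giving the continuation of `F(s) / (s - 1)` -/
noncomputable def mellinPart (g : ℕ → ℂ) (s : ℂ) : ℂ := mellin (stepFn g) (1 - s)

variable {g : ℕ → ℂ} {C δ : ℝ}

lemma stepFn_measurable (g : ℕ → ℂ) : Measurable (stepFn g) :=
  (measurable_from_nat (f := logSum g)).comp Nat.measurable_floor

lemma norm_stepFn_le (hδ : 0 < δ)
    (hS : ∀ N : ℕ, 1 ≤ N → ‖logSum g N‖ ≤ C * (N : ℝ) ^ (-δ)) {t : ℝ} (ht : 1 ≤ t) :
    ‖stepFn g t‖ ≤ C * 2 ^ δ * t ^ (-δ) := by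
  have hfl : 1 ≤ ⌊t⌋₊ := Nat.floor_pos.mpr ht
  have h1 := hS ⌊t⌋₊ hfl
  have hC : 0 ≤ C := by
    have := (norm_nonneg _).trans (hS 1 le_rfl)
    simpa using this
  have h2 : t / 2 ≤ (⌊t⌋₊ : ℝ) := by
    have h3 := Nat.lt_floor_add_one t
    have h4 : (1 : ℝ) ≤ (⌊t⌋₊ : ℝ) := by exact_mod_cast hfl
    linarith
  have h5 : ((⌊t⌋₊ : ℝ)) ^ (-δ) ≤ (t / 2) ^ (-δ) :=
    Real.rpow_le_rpow_of_nonpos (by linarith) h2 (by linarith)
  calc ‖stepFn g t‖ ≤ C * (⌊t⌋₊ : ℝ) ^ (-δ) := h1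
    _ ≤ C * (t / 2) ^ (-δ) := by gcongr
    _ = C * 2 ^ δ * t ^ (-δ) := by
      rw [Real.div_rpow (by linarith) (by norm_num), Real.rpow_neg (by norm_num : (0:ℝ) ≤ 2)]
      field_simp

lemma stepFn_eq_zero {t : ℝ} (ht : t < 1) : stepFn g t = 0 := by
  unfold stepFn logSum
  have : ⌊t⌋₊ = 0 := by
    rcases lt_or_ge t 0 with h | h
    · exact Nat.floor_of_nonpos h.le
    · exact (Nat.floor_eq_zero).mpr ht
  simp [this]

lemma stepFn_locallyIntegrableOn (hδ : 0 < δ)
    (hS : ∀ N : ℕ, 1 ≤ N → ‖logSum g N‖ ≤ C * (N : ℝ) ^ (-δ)) :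
    LocallyIntegrableOn (stepFn g) (Ioi 0) := by
  have hC : 0 ≤ C := by
    have := (norm_nonneg _).trans (hS 1 le_rfl)
    simpa using this
  apply LocallyIntegrable.locallyIntegrableOn
  have hbd : ∀ t : ℝ, ‖stepFn g t‖ ≤ C * 2 ^ δ := by
    intro t
    rcases lt_or_ge t 1 with h | h
    · rw [stepFn_eq_zero h, norm_zero]; positivity
    · refine (norm_stepFn_le hδ hS h).trans ?_
      have : t ^ (-δ) ≤ 1 := Real.rpow_le_one_of_one_le_of_nonpos h (by linarith)
      have h0 : 0 ≤ C * 2 ^ δ := by positivity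
      nlinarith
  refine (locallyIntegrable_const (C * 2 ^ δ : ℝ)).mono
    (stepFn_measurable g).aestronglyMeasurable (Eventually.of_forall fun t ↦ ?_)
  rw [Real.norm_of_nonneg (by positivity)]
  exact hbd t

lemma mellinPart_differentiableAt (hδ : 0 < δ)
    (hS : ∀ N : ℕ, 1 ≤ N → ‖logSum g N‖ ≤ C * (N : ℝ) ^ (-δ)) {s : ℂ} (hs : 1 - δ < s.re) :
    DifferentiableAt ℂ (mellinPart g) s := by
  have h1 : DifferentiableAt ℂ (mellin (stepFn g)) (1 - s) := by
    refine mellin_differentiableAt_of_isBigO_rpow (a := δ) (b := (1 - s).re - 1)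
      (stepFn_locallyIntegrableOn hδ hS) ?_ ?_ ?_ ?_
    · refine Asymptotics.IsBigO.of_bound (C * 2 ^ δ) ?_
      filter_upwards [eventually_ge_atTop 1] with t ht
      rw [Real.norm_of_nonneg (Real.rpow_nonneg (by linarith) _)]
      exact norm_stepFn_le hδ hS ht
    · simp; linarith
    · refine Asymptotics.IsBigO.of_bound 1 ?_
      have : Iio (1 : ℝ) ∈ 𝓝[>] (0 : ℝ) := mem_nhdsWithin_of_mem_nhds (Iio_mem_nhds one_pos)
      filter_upwards [this] with t ht
      rw [stepFn_eq_zero ht, norm_zero]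
      positivity
    · linarith
  have h2 : DifferentiableAt ℂ (fun s : ℂ ↦ 1 - s) s := by fun_prop
  exact DifferentiableAt.comp s h1 h2

lemma norm_coeff_le (hδ : 0 < δ) (hδ1 : δ ≤ 1)
    (hS : ∀ N : ℕ, 1 ≤ N → ‖logSum g N‖ ≤ C * (N : ℝ) ^ (-δ)) :
    ∀ n : ℕ, n ≠ 0 → ‖g n‖ ≤ 3 * C * (n : ℝ) ^ (1 - δ) := by
  have hC : 0 ≤ C := by
    have := (norm_nonneg _).trans (hS 1 le_rfl)
    simpa using this
  intro n hn
  rcases Nat.exists_eq_succ_of_ne_zero hn with ⟨m, rfl⟩
  rcases Nat.eq_zero_or_pos m with rfl | hm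
  · have h1 := hS 1 le_rfl
    simp [logSum] at h1 ⊢
    linarith
  · have h1 := hS (m + 1) (by omega)
    have h2 := hS m hm
    have h3 : g (m + 1) / ((m + 1 : ℕ) : ℂ) = logSum g (m + 1) - logSum g m := by
      unfold logSum
      rw [Finset.sum_Icc_succ_top (by omega)]
      ring
    have hmpos : (0 : ℝ) < m := by exact_mod_cast hm
    have hm1 : (1 : ℝ) ≤ m := by exact_mod_cast hm
    have h4 : (m : ℝ) ^ (-δ) ≤ 2 * ((m + 1 : ℕ) : ℝ) ^ (-δ) := by
      have h5 : (((m + 1 : ℕ) : ℝ) / 2) ≤ m := by push_cast; linarith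
      have h6 : (m : ℝ) ^ (-δ) ≤ (((m + 1 : ℕ) : ℝ) / 2) ^ (-δ) :=
        Real.rpow_le_rpow_of_nonpos (by positivity) h5 (by linarith)
      refine h6.trans ?_
      rw [Real.div_rpow (by positivity) (by norm_num), Real.rpow_neg (by norm_num : (0:ℝ) ≤ 2),
        div_inv_eq_mul, mul_comm]
      gcongr
      calc (2 : ℝ) ^ δ ≤ 2 ^ (1 : ℝ) := Real.rpow_le_rpow_of_exponent_le (by norm_num) hδ1
        _ = 2 := Real.rpow_one 2
    have h7 : ‖g (m + 1) / ((m + 1 : ℕ) : ℂ)‖ ≤ 3 * C * ((m + 1 : ℕ) : ℝ) ^ (-δ) := by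
      rw [h3]
      calc ‖logSum g (m + 1) - logSum g m‖ ≤ ‖logSum g (m + 1)‖ + ‖logSum g m‖ :=
            norm_sub_le _ _
        _ ≤ C * ((m + 1 : ℕ) : ℝ) ^ (-δ) + C * (m : ℝ) ^ (-δ) := add_le_add h1 h2
        _ ≤ C * ((m + 1 : ℕ) : ℝ) ^ (-δ) + C * (2 * ((m + 1 : ℕ) : ℝ) ^ (-δ)) := by gcongr
        _ = _ := by ring
    have hpos : (0 : ℝ) < ((m + 1 : ℕ) : ℝ) := by positivity
    rw [norm_div, norm_natCast, div_le_iff₀ hpos] at h7
    calc ‖g (m + 1)‖ ≤ 3 * C * ((m + 1 : ℕ) : ℝ) ^ (-δ) * ((m + 1 : ℕ) : ℝ) := h7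
      _ = 3 * C * ((m + 1 : ℕ) : ℝ) ^ (1 - δ) := by
        rw [mul_assoc, sub_eq_neg_add, Real.rpow_add hpos, Real.rpow_one]

lemma abscissa_le (hδ : 0 < δ) (hδ1 : δ ≤ 1)
    (hS : ∀ N : ℕ, 1 ≤ N → ‖logSum g N‖ ≤ C * (N : ℝ) ^ (-δ)) :
    abscissaOfAbsConv g ≤ ((2 - δ : ℝ) : EReal) := by
  have h := abscissaOfAbsConv_le_of_le_const_mul_rpow (f := g) (x := 1 - δ)
    ⟨3 * C, norm_coeff_le hδ hδ1 hS⟩
  refine h.trans (le_of_eq ?_)
  norm_cast
  ring_nf

/-- Abel summation: `F(s) = (s - 1) * I(s)`. -/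
lemma LSeries_eq_mellinPart (hδ : 0 < δ) (hδ1 : δ ≤ 1)
    (hS : ∀ N : ℕ, 1 ≤ N → ‖logSum g N‖ ≤ C * (N : ℝ) ^ (-δ)) {s : ℂ} (hs : 2 - δ < s.re) :
    LSeries g s = (s - 1) * mellinPart g s := by
  set a : ℕ → ℂ := fun n ↦ g n / n with ha
  have hterm : term a (s - 1) = term g s := by
    ext n
    rcases eq_or_ne n 0 with rfl | hn
    · simp
    · rw [term_of_ne_zero hn, term_of_ne_zero hn, ha]
      have hn' : (n : ℂ) ≠ 0 := by exact_mod_cast hn
      rw [cpow_sub _ _ hn', cpow_one]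
      field_simp
  have hsum : LSeriesSummable a (s - 1) := by
    unfold LSeriesSummable
    rw [hterm]
    apply LSeriesSummable_of_abscissaOfAbsConv_lt_re
    exact lt_of_le_of_lt (abscissa_le hδ hδ1 hS) (by exact_mod_cast hs)
  have hC : 0 ≤ C := by
    have := (norm_nonneg _).trans (hS 1 le_rfl)
    simpa using this
  have hO : (fun n ↦ ∑ k ∈ Finset.Icc 1 n, a k) =O[atTop] fun n : ℕ ↦ (n : ℝ) ^ (0 : ℝ) := by
    refine Asymptotics.IsBigO.of_bound C ?_
    filter_upwards [eventually_ge_atTop 1] with n hn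
    rw [Real.rpow_zero, norm_one, mul_one]
    refine (hS n hn).trans ?_
    have : (n : ℝ) ^ (-δ) ≤ 1 :=
      Real.rpow_le_one_of_one_le_of_nonpos (by exact_mod_cast hn) (by linarith)
    nlinarith
  have h := LSeries_eq_mul_integral a le_rfl (s := s - 1) (by simp; linarith) hsum hO
  have hLS : LSeries a (s - 1) = LSeries g s := by
    unfold LSeries; rw [hterm]
  rw [← hLS, h]
  congr 1
  unfold mellinPart mellin
  have h1 : ∫ t in Ioi (0 : ℝ), (t : ℂ) ^ (1 - s - 1) • stepFn g t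
      = ∫ t in Ici (1 : ℝ), (t : ℂ) ^ (1 - s - 1) • stepFn g t := by
    refine setIntegral_eq_of_subset_of_forall_sdiff_eq_zero measurableSet_Ioi ?_ ?_
    · intro t ht
      exact lt_of_lt_of_le one_pos (mem_Ici.mp ht)
    · intro t ht
      have : t < 1 := by
        have := ht.2
        simpa using this
      rw [stepFn_eq_zero this, smul_zero]
  rw [h1, integral_Ici_eq_integral_Ioi]
  refine setIntegral_congr_fun measurableSet_Ioi fun t _ ↦ ?_
  simp only [smul_eq_mul, stepFn, logSum, ha]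
  rw [mul_comm]
  congr 2
  ring

/-! ### The entire function `(s - 1) ζ(s)` -/

/-- `(s - 1) ζ(s)`, with the value `1` at `s = 1` -/
noncomputable def zetaPole (s : ℂ) : ℂ := Function.update (fun s ↦ (s - 1) * riemannZeta s) 1 1 s

lemma zetaPole_of_ne {s : ℂ} (hs : s ≠ 1) : zetaPole s = (s - 1) * riemannZeta s := by
  simp [zetaPole, hs]

lemma zetaPole_one : zetaPole 1 = 1 := by simp [zetaPole]

lemma zetaPole_differentiable : Differentiable ℂ zetaPole := by
  have hcont : ContinuousAt zetaPole 1 := by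
    unfold zetaPole
    rw [show (fun s ↦ Function.update (fun s ↦ (s - 1) * riemannZeta s) 1 1 s)
      = Function.update (fun s ↦ (s - 1) * riemannZeta s) 1 1 from rfl]
    rw [continuousAt_update_same]
    exact riemannZeta_residue_one
  have hd : DifferentiableOn ℂ zetaPole (univ \ {1}) := by
    intro s hs
    have hs1 : s ≠ 1 := by simpa using hs
    have h1 : DifferentiableAt ℂ (fun s ↦ (s - 1) * riemannZeta s) s :=
      (differentiableAt_id.sub_const 1).mul (differentiableAt_riemannZeta hs1)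
    have h2 : zetaPole =ᶠ[𝓝 s] fun s ↦ (s - 1) * riemannZeta s := by
      filter_upwards [isOpen_ne.mem_nhds hs1] with z hz
      exact zetaPole_of_ne hz
    exact (h1.congr_of_eventuallyEq h2).differentiableWithinAt
  have := (differentiableOn_compl_singleton_and_continuousAt_iff (s := univ) (c := (1 : ℂ))
    (f := zetaPole) univ_mem).mp ⟨hd, hcont⟩
  exact differentiableOn_univ.mp this

/-! ### Completely multiplicative functions -/

lemma convolution_vonMangoldt_mul (f : ℕ →*₀ ℂ) :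
    LSeries.convolution (fun n ↦ f n * (ArithmeticFunction.vonMangoldt n : ℂ)) (fun n ↦ f n)
      = logMul (fun n ↦ f n) := by
  ext n
  rcases eq_or_ne n 0 with rfl | hn
  · simp [logMul]
  rw [LSeries.convolution_def]
  simp only [logMul]
  have h1 : ∀ p ∈ n.divisorsAntidiagonal,
      f p.1 * (ArithmeticFunction.vonMangoldt p.1 : ℂ) * f p.2
        = f n * (ArithmeticFunction.vonMangoldt p.1 : ℂ) := by
    intro p hp
    have hp' := (Nat.mem_divisorsAntidiagonal.mp hp).1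
    rw [← hp', map_mul]
    ring
  rw [Finset.sum_congr rfl h1, ← Finset.mul_sum, mul_comm (Complex.log n)]
  congr 1
  have h2 := ArithmeticFunction.vonMangoldt_sum (n := n)
  rw [Nat.sum_divisorsAntidiagonal (fun d _ ↦ (ArithmeticFunction.vonMangoldt d : ℂ))]
  rw [← natCast_log, ← h2]
  push_cast
  rfl

lemma LSeriesSummable_mul_vonMangoldt (f : ℕ →*₀ ℂ) {s : ℂ}
    (hs : abscissaOfAbsConv (fun n ↦ f n) < s.re) :
    LSeriesSummable (fun n ↦ f n * (ArithmeticFunction.vonMangoldt n : ℂ)) s := by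
  have h1 : LSeriesSummable (logMul fun n ↦ f n) s := LSeriesSummable_logMul_of_lt_re hs
  refine (h1.norm).of_norm_bounded fun n ↦ ?_
  refine norm_term_le s ?_
  rw [logMul, norm_mul, norm_mul, norm_real, Real.norm_eq_abs,
    abs_of_nonneg ArithmeticFunction.vonMangoldt_nonneg, ← natCast_log, norm_real,
    Real.norm_eq_abs, abs_of_nonneg (Real.log_natCast_nonneg n), mul_comm]
  gcongr
  exact ArithmeticFunction.vonMangoldt_le_log

lemma deriv_LSeries_eq (f : ℕ →*₀ ℂ) {s : ℂ}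
    (hs : abscissaOfAbsConv (fun n ↦ f n) < s.re) :
    deriv (LSeries fun n ↦ f n) s
      = - LSeries (fun n ↦ f n * (ArithmeticFunction.vonMangoldt n : ℂ)) s *
        LSeries (fun n ↦ f n) s := by
  rw [LSeries_deriv hs, ← convolution_vonMangoldt_mul, LSeries_convolution'
    (LSeriesSummable_mul_vonMangoldt f hs) (LSeriesSummable_of_abscissaOfAbsConv_lt_re hs)]
  ring

/-- the complex conjugate of a completely multiplicative function -/
noncomputable def conjHom (f : ℕ →*₀ ℂ) : ℕ →*₀ ℂ where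
  toFun n := (starRingEnd ℂ) (f n)
  map_zero' := by simp
  map_one' := by simp
  map_mul' m n := by simp

lemma conjHom_apply (f : ℕ →*₀ ℂ) (n : ℕ) : conjHom f n = (starRingEnd ℂ) (f n) := rfl

lemma logSum_conj (f : ℕ →*₀ ℂ) (N : ℕ) :
    logSum (fun n ↦ conjHom f n) N = (starRingEnd ℂ) (logSum (fun n ↦ f n) N) := by
  unfold logSum
  rw [map_sum]
  refine Finset.sum_congr rfl fun n _ ↦ ?_
  simp only [conjHom_apply, map_div₀, map_natCast]

/-- **Rigidity**, general form: `f` is completely multiplicative with `Re f(q) ≥ -1` on prime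
powers, and `L(f, s) / (s - 1)`, `L(conj f, s) / (s - 1)` continue holomorphically to
`re s > x0`; then `ζ` has no zeros in `re s > x0`. -/
theorem rigidity_core (f : ℕ →*₀ ℂ)
    (hre : ∀ q : ℕ, IsPrimePow q → -1 ≤ (f q).re) {x0 x1 : ℝ} (hx1 : 1 ≤ x1)
    (hA : abscissaOfAbsConv (fun n ↦ f n) ≤ (x1 : EReal))
    (hA' : abscissaOfAbsConv (fun n ↦ conjHom f n) ≤ (x1 : EReal))
    {I₁ I₂ : ℂ → ℂ} (hI₁ : DifferentiableOn ℂ I₁ {s | x0 < s.re})
    (hI₂ : DifferentiableOn ℂ I₂ {s | x0 < s.re})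
    (h1 : ∀ s : ℂ, x1 < s.re → LSeries (fun n ↦ f n) s = (s - 1) * I₁ s)
    (h2 : ∀ s : ℂ, x1 < s.re → LSeries (fun n ↦ conjHom f n) s = (s - 1) * I₂ s) :
    ∀ s : ℂ, x0 < s.re → riemannZeta s ≠ 0 := by
  set f' : ℕ →*₀ ℂ := conjHom f with hf'
  set b : ℕ → ℝ := fun n ↦ ArithmeticFunction.vonMangoldt n * (2 + 2 * (f n).re) with hb
  have hb0 : b 0 = 0 := by simp [hb]
  have hbnn : ∀ n, 0 ≤ b n := by
    intro n
    simp only [hb]
    by_cases hn : IsPrimePow n
    · have := hre n hn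
      exact mul_nonneg ArithmeticFunction.vonMangoldt_nonneg (by linarith)
    · rw [ArithmeticFunction.vonMangoldt_eq_zero_iff.mpr hn, zero_mul]
  have hbsplit : ∀ s : ℂ, x1 < s.re →
      LSeriesHasSum (fun n ↦ (b n : ℂ)) s
        (2 * LSeries (fun n ↦ (ArithmeticFunction.vonMangoldt n : ℂ)) s
          + LSeries (fun n ↦ f n * (ArithmeticFunction.vonMangoldt n : ℂ)) s
          + LSeries (fun n ↦ f' n * (ArithmeticFunction.vonMangoldt n : ℂ)) s) := by
    intro s hs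
    have hs1 : 1 < s.re := by linarith
    have e1 : LSeriesSummable (fun n ↦ (ArithmeticFunction.vonMangoldt n : ℂ)) s :=
      ArithmeticFunction.LSeriesSummable_vonMangoldt hs1
    have e2 := LSeriesSummable_mul_vonMangoldt f (lt_of_le_of_lt hA (by exact_mod_cast hs))
    have e3 := LSeriesSummable_mul_vonMangoldt f' (lt_of_le_of_lt hA' (by exact_mod_cast hs))
    have e4 := (((e1.hasSum.mul_left 2).add e2.hasSum).add e3.hasSum)
    unfold LSeriesHasSum
    convert! e4 using 1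
    ext n
    rcases eq_or_ne n 0 with rfl | hn
    · simp
    · rw [term_of_ne_zero hn, term_of_ne_zero hn, term_of_ne_zero hn, term_of_ne_zero hn]
      have : ((b n : ℝ) : ℂ) = 2 * (ArithmeticFunction.vonMangoldt n : ℂ)
          + f n * (ArithmeticFunction.vonMangoldt n : ℂ)
          + f' n * (ArithmeticFunction.vonMangoldt n : ℂ) := by
        simp only [hb, hf', conjHom_apply]
        have h2 : (f n) + (starRingEnd ℂ) (f n) = ((2 * (f n).re : ℝ) : ℂ) := by
          rw [add_conj]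
        push_cast at h2 ⊢
        linear_combination (-(ArithmeticFunction.vonMangoldt n : ℂ)) * h2
      rw [this]
      ring
  have habs : abscissaOfAbsConv (fun n ↦ (b n : ℂ)) ≤ (x1 : EReal) := by
    apply abscissaOfAbsConv_le_of_forall_lt_LSeriesSummable
    intro y hy
    exact (hbsplit (y : ℂ) (by simpa using hy)).LSeriesSummable
  set H : ℂ → ℂ := fun s ↦ zetaPole s ^ 2 * I₁ s * I₂ s with hH
  have hHd : DifferentiableOn ℂ H {s | x0 < s.re} := by
    have hz : DifferentiableOn ℂ (fun s ↦ zetaPole s ^ 2) {s | x0 < s.re} :=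
      (zetaPole_differentiable.pow 2).differentiableOn
    exact (hz.mul hI₁).mul hI₂
  have hHeq : ∀ s : ℂ, x1 < s.re → H s = riemannZeta s ^ 2 * LSeries (fun n ↦ f n) s *
      LSeries (fun n ↦ f' n) s := by
    intro s hs
    have hs1 : s ≠ 1 := by
      intro h; rw [h, one_re] at hs; linarith
    rw [h1 s hs, h2 s hs]
    simp only [hH]
    rw [zetaPole_of_ne hs1]
    ring
  have hODE : ∀ s : ℂ, x1 < s.re →
      deriv H s = - LSeries (fun n ↦ (b n : ℂ)) s * H s := by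
    intro s hs
    have hs1 : 1 < s.re := by linarith
    have hsne : s ≠ 1 := by
      intro h; rw [h, one_re] at hs1; linarith
    have hev : H =ᶠ[𝓝 s] fun s ↦ riemannZeta s ^ 2 * LSeries (fun n ↦ f n) s *
      LSeries (fun n ↦ f' n) s := by
      filter_upwards [(isOpen_re_gt x1).mem_nhds hs] with z hz
      exact hHeq z hz
    have h1 : HasDerivAt riemannZeta (deriv riemannZeta s) s :=
      (differentiableAt_riemannZeta hsne).hasDerivAt
    have h2 : HasDerivAt (LSeries fun n ↦ f n) (deriv (LSeries fun n ↦ f n) s) s :=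
      (LSeries_hasDerivAt (lt_of_le_of_lt hA (by exact_mod_cast hs))).differentiableAt.hasDerivAt
    have h3 : HasDerivAt (LSeries fun n ↦ f' n) (deriv (LSeries fun n ↦ f' n) s) s :=
      (LSeries_hasDerivAt (lt_of_le_of_lt hA' (by exact_mod_cast hs))).differentiableAt.hasDerivAt
    have h4 := ((h1.fun_pow 2).fun_mul h2).fun_mul h3
    rw [hev.deriv_eq, h4.deriv, hHeq s hs, (hbsplit s hs).LSeries_eq,
      deriv_LSeries_eq f (lt_of_le_of_lt hA (by exact_mod_cast hs)),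
      deriv_LSeries_eq f' (lt_of_le_of_lt hA' (by exact_mod_cast hs))]
    have h5 : deriv riemannZeta s
        = - LSeries (fun n ↦ (ArithmeticFunction.vonMangoldt n : ℂ)) s * riemannZeta s := by
      rw [ArithmeticFunction.LSeries_vonMangoldt_eq_deriv_riemannZeta_div hs1]
      have := riemannZeta_ne_zero_of_one_lt_re hs1
      field_simp
    rw [h5]
    ring
  have hlim : Tendsto (fun σ : ℝ ↦ H σ) atTop (𝓝 1) := by
    have t1 : Tendsto (fun σ : ℝ ↦ LSeries (fun n ↦ f n) (σ : ℂ)) atTop (𝓝 (f 1)) :=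
      LSeries.tendsto_atTop (f := fun n ↦ f n) (lt_of_le_of_lt hA (EReal.coe_lt_top _))
    have t2 : Tendsto (fun σ : ℝ ↦ LSeries (fun n ↦ f' n) (σ : ℂ)) atTop (𝓝 (f' 1)) :=
      LSeries.tendsto_atTop (f := fun n ↦ f' n) (lt_of_le_of_lt hA' (EReal.coe_lt_top _))
    have t3 : Tendsto (fun σ : ℝ ↦ LSeries 1 (σ : ℂ)) atTop (𝓝 ((1 : ℕ → ℂ) 1)) :=
      LSeries.tendsto_atTop (f := 1) (by rw [LSeries.abscissaOfAbsConv_one]; exact EReal.coe_lt_top 1)
    have t4 := ((t3.pow 2).mul t1).mul t2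
    simp only [map_one, Pi.one_apply, one_pow, mul_one] at t4
    refine t4.congr' ?_
    filter_upwards [eventually_gt_atTop x1, eventually_gt_atTop 1] with σ hσ hσ1
    rw [hHeq σ (by simpa using hσ), LSeries_one_eq_riemannZeta (by simpa using hσ1)]
  have hmain := landau_ode hbnn hb0 hHd habs hODE hlim
  intro s hs
  rcases eq_or_ne s 1 with rfl | hs1
  · exact riemannZeta_one_ne_zero
  have h1 := hmain.2 s hs
  intro hz
  apply h1
  simp only [hH]
  rw [zetaPole_of_ne hs1, hz]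
  simp

/-- **Rigidity**: if a completely multiplicative `f` with `Re f(q) ≥ -1` on prime powers has
logarithmic partial sums `O(N ^ (-δ))`, then `ζ` has no zeros in `re s > 1 - δ`. -/
theorem riemannZeta_ne_zero_of_logSum (f : ℕ →*₀ ℂ)
    (hre : ∀ q : ℕ, IsPrimePow q → -1 ≤ (f q).re) {C δ : ℝ} (hδ : 0 < δ) (hδ1 : δ ≤ 1)
    (hS : ∀ N : ℕ, 1 ≤ N → ‖logSum (fun n ↦ f n) N‖ ≤ C * (N : ℝ) ^ (-δ)) :
    ∀ s : ℂ, 1 - δ < s.re → riemannZeta s ≠ 0 := by
  have hS' : ∀ N : ℕ, 1 ≤ N → ‖logSum (fun n ↦ conjHom f n) N‖ ≤ C * (N : ℝ) ^ (-δ) := by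
    intro N hN
    rw [logSum_conj, RCLike.norm_conj]
    exact hS N hN
  exact rigidity_core f hre (x1 := 2 - δ) (by linarith) (abscissa_le hδ hδ1 hS)
    (abscissa_le hδ hδ1 hS')
    (fun s hs ↦ (mellinPart_differentiableAt hδ hS hs).differentiableWithinAt)
    (fun s hs ↦ (mellinPart_differentiableAt hδ hS' hs).differentiableWithinAt)
    (fun s hs ↦ LSeries_eq_mellinPart hδ hδ1 hS hs)
    (fun s hs ↦ LSeries_eq_mellinPart hδ hδ1 hS' hs)

/-! ### Zeros on the line `re s = 1` -/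

/-- the twist `f(n) n ^ (- i t)` -/
noncomputable def twist (f : ℕ →*₀ ℂ) (t : ℝ) : ℕ →*₀ ℂ where
  toFun n := if n = 0 then 0 else f n * (n : ℂ) ^ (-((t : ℂ) * I))
  map_zero' := by simp
  map_one' := by simp
  map_mul' m n := by
    rcases eq_or_ne m 0 with rfl | hm
    · simp
    rcases eq_or_ne n 0 with rfl | hn
    · simp
    rw [if_neg (mul_ne_zero hm hn), if_neg hm, if_neg hn, map_mul, Nat.cast_mul,
      natCast_mul_natCast_cpow]
    ring

lemma twist_apply (f : ℕ →*₀ ℂ) (t : ℝ) {n : ℕ} (hn : n ≠ 0) :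
    twist f t n = f n * (n : ℂ) ^ (-((t : ℂ) * I)) := by
  show (if n = 0 then 0 else f n * (n : ℂ) ^ (-((t : ℂ) * I))) = _
  rw [if_neg hn]

lemma norm_twist_le (f : ℕ →*₀ ℂ) (hf : ∀ n, ‖f n‖ ≤ 1) (t : ℝ) (n : ℕ) : ‖twist f t n‖ ≤ 1 := by
  rcases eq_or_ne n 0 with rfl | hn
  · simp
  · rw [twist_apply f t hn, norm_mul, norm_natCast_cpow_of_pos (Nat.pos_of_ne_zero hn)]
    simpa using hf n

lemma LSeries_twist (f : ℕ →*₀ ℂ) (t : ℝ) (s : ℂ) :
    LSeries (fun n ↦ twist f t n) s = LSeries (fun n ↦ f n) (s + t * I) := by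
  unfold LSeries
  refine tsum_congr fun n ↦ ?_
  rcases eq_or_ne n 0 with rfl | hn
  · simp
  · rw [term_of_ne_zero hn, term_of_ne_zero hn, twist_apply f t hn]
    have hn' : (n : ℂ) ≠ 0 := by exact_mod_cast hn
    rw [cpow_add _ _ hn', cpow_neg]
    field_simp

lemma abscissa_le_one_of_norm_le {f : ℕ → ℂ} (hf : ∀ n, ‖f n‖ ≤ 1) :
    abscissaOfAbsConv f ≤ ((1 : ℝ) : EReal) := by
  have := abscissaOfAbsConv_le_of_le_const (f := f) ⟨1, fun n _ ↦ hf n⟩
  exact_mod_cast this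

/-- A zero on the line `re s = 1` of the continued Dirichlet series of a completely multiplicative
function bounded by `1` forces a zero-free half-plane for `ζ`. -/
theorem riemannZeta_ne_zero_of_zero_on_line {θ : ℝ} (hθ : θ < 1) (f : ℕ →*₀ ℂ)
    (hf : ∀ n, ‖f n‖ ≤ 1) {G : ℂ → ℂ} (hG : DifferentiableOn ℂ G {s | θ < s.re})
    (hGf : ∀ s : ℂ, 1 < s.re → G s = LSeries (fun n ↦ f n) s) {t : ℝ}
    (ht : G (1 + t * I) = 0) : ∀ s : ℂ, θ < s.re → riemannZeta s ≠ 0 := by
  set g := twist f t with hg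
  set G₁ : ℂ → ℂ := fun s ↦ G (s + t * I) with hG1
  set G₂ : ℂ → ℂ := fun s ↦ (starRingEnd ℂ) (G₁ ((starRingEnd ℂ) s)) with hG2
  have hre : ∀ s : ℂ, (s + t * I).re = s.re := by intro s; simp
  have hG1d : DifferentiableOn ℂ G₁ {s | θ < s.re} := by
    intro s hs
    have h1 : DifferentiableAt ℂ G (s + t * I) :=
      hG.differentiableAt ((isOpen_re_gt θ).mem_nhds (by
        show θ < (s + t * I).re
        rw [hre]; exact hs))
    exact (DifferentiableAt.comp s h1 (by fun_prop)).differentiableWithinAt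
  have hG2d : DifferentiableOn ℂ G₂ {s | θ < s.re} := by
    intro s hs
    have h1 : DifferentiableAt ℂ G₁ ((starRingEnd ℂ) s) :=
      hG1d.differentiableAt ((isOpen_re_gt θ).mem_nhds (by
        show θ < ((starRingEnd ℂ) s).re
        rw [conj_re]; exact hs))
    have h2 := h1.conj_conj
    rw [conj_conj] at h2
    exact h2.differentiableWithinAt
  have hG1one : G₁ 1 = 0 := ht
  have hG2one : G₂ 1 = 0 := by
    simp only [hG2, map_one, hG1one, map_zero]
  have hmem : {s : ℂ | θ < s.re} ∈ 𝓝 (1 : ℂ) := (isOpen_re_gt θ).mem_nhds (by simpa using hθ)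
  have hL1 : ∀ s : ℂ, 1 < s.re → LSeries (fun n ↦ g n) s = G₁ s := by
    intro s hs
    rw [hg, LSeries_twist, hG1]
    exact (hGf _ (by rw [hre]; exact hs)).symm
  have hL2 : ∀ s : ℂ, 1 < s.re → LSeries (fun n ↦ conjHom g n) s = G₂ s := by
    intro s hs
    have h1 := hL1 ((starRingEnd ℂ) s) (by rw [conj_re]; exact hs)
    simp only [hG2]
    rw [← h1]
    unfold LSeries
    rw [conj_tsum]
    refine tsum_congr fun n ↦ ?_
    rcases eq_or_ne n 0 with rfl | hn
    · simp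
    · rw [term_of_ne_zero hn, term_of_ne_zero hn, conjHom_apply, map_div₀]
      congr 1
      rw [cpow_conj _ _ (by rw [natCast_arg]; exact Real.pi_pos.ne), conj_natCast, conj_conj]
  have hslope : ∀ {K : ℂ → ℂ}, K 1 = 0 → ∀ s : ℂ, 1 < s.re → K s = (s - 1) * dslope K 1 s := by
    intro K hK s hs
    have hs1 : s ≠ 1 := by intro h; rw [h, one_re] at hs; exact lt_irrefl _ hs
    rw [dslope_of_ne _ hs1, slope_def_field, hK, sub_zero]
    have : s - 1 ≠ 0 := sub_ne_zero.mpr hs1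
    field_simp
  refine rigidity_core g ?_ (x1 := 1) le_rfl (abscissa_le_one_of_norm_le (norm_twist_le f hf t))
    (abscissa_le_one_of_norm_le fun n ↦ ?_)
    (I₁ := dslope G₁ 1) (I₂ := dslope G₂ 1) ((differentiableOn_dslope hmem).mpr hG1d)
    ((differentiableOn_dslope hmem).mpr hG2d) ?_ ?_
  · intro q _
    have h1 := (abs_re_le_norm (g q)).trans (norm_twist_le f hf t q)
    exact (abs_le.mp h1).1
  · rw [conjHom_apply, RCLike.norm_conj]
    exact norm_twist_le f hf t n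
  · intro s hs
    rw [hL1 s hs]
    exact hslope hG1one s hs
  · intro s hs
    rw [hL2 s hs]
    exact hslope hG2one s hs

end Pool.Agent.H6
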