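import Mathlib
import Pool.Agent.H6.Rigidity

/-!
Polynomial growth of `(s - 1) ζ(s)` in `re s ≥ 1/2`.
-/

open Complex LSeries Filter Topology MeasureTheory Set

namespace Pool.Agent.H6

/-- fractional part, cut off below `1` -/
noncomputable def fr (t : ℝ) : ℂ := if t < 1 then 0 else ((Int.fract t : ℝ) : ℂ)

lemma fr_measurable : Measurable fr := by
  unfold fr
  refine Measurable.ite measurableSet_Iio measurable_const ?_
  exact measurable_ofReal.comp measurable_fract

lemma norm_fr_le (t : ℝ) : ‖fr t‖ ≤ 1 := by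
  unfold fr
  split_ifs
  · simp
  · rw [norm_real, Real.norm_eq_abs, abs_of_nonneg (Int.fract_nonneg t)]
    exact (Int.fract_lt_one t).le

lemma fr_locallyIntegrableOn : LocallyIntegrableOn fr (Ioi 0) := by
  apply LocallyIntegrable.locallyIntegrableOn
  refine (locallyIntegrable_const (1 : ℝ)).mono fr_measurable.aestronglyMeasurable
    (Eventually.of_forall fun t ↦ ?_)
  simpa using norm_fr_le t

/-- the Mellin integral of the fractional part -/
noncomputable def frMellin (s : ℂ) : ℂ := mellin fr (-s)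

lemma frMellin_differentiableAt {s : ℂ} (hs : 0 < s.re) : DifferentiableAt ℂ frMellin s := by
  have h1 : DifferentiableAt ℂ (mellin fr) (-s) := by
    refine mellin_differentiableAt_of_isBigO_rpow (a := 0) (b := (-s).re - 1)
      fr_locallyIntegrableOn ?_ ?_ ?_ ?_
    · refine Asymptotics.IsBigO.of_bound 1 ?_
      filter_upwards with t
      simpa using norm_fr_le t
    · simpa using hs
    · refine Asymptotics.IsBigO.of_bound 1 ?_
      have : Iio (1 : ℝ) ∈ 𝓝[>] (0 : ℝ) := mem_nhdsWithin_of_mem_nhds (Iio_mem_nhds one_pos)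
      filter_upwards [this] with t ht
      have h : t < 1 := ht
      have : fr t = 0 := by unfold fr; rw [if_pos h]
      rw [this, norm_zero]
      positivity
    · linarith
  exact DifferentiableAt.comp s h1 (by fun_prop)

lemma frMellin_eq (s : ℂ) : frMellin s = ∫ t in Ioi (1 : ℝ), (t : ℂ) ^ (-s - 1) • fr t := by
  unfold frMellin mellin
  have h1 : ∫ t in Ioi (0 : ℝ), (t : ℂ) ^ (-s - 1) • fr t
      = ∫ t in Ici (1 : ℝ), (t : ℂ) ^ (-s - 1) • fr t := by
    refine setIntegral_eq_of_subset_of_forall_sdiff_eq_zero measurableSet_Ioi ?_ ?_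
    · intro t ht
      exact lt_of_lt_of_le one_pos (mem_Ici.mp ht)
    · intro t ht
      have h : t < 1 := by
        have := ht.2
        simpa using this
      have : fr t = 0 := by unfold fr; rw [if_pos h]
      rw [this, smul_zero]
  rw [h1, integral_Ici_eq_integral_Ioi]

lemma norm_frMellin_le {s : ℂ} (hs : 0 < s.re) : ‖frMellin s‖ ≤ 1 / s.re := by
  rw [frMellin_eq]
  have h1 : ∫ t in Ioi (1 : ℝ), t ^ (-s.re - 1) = 1 / s.re := by
    rw [integral_Ioi_rpow_of_lt (by linarith) one_pos]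
    simp only [Real.one_rpow]
    have : -s.re - 1 + 1 = -s.re := by ring
    rw [this]
    field_simp
  rw [← h1]
  refine norm_integral_le_of_norm_le ?_ ?_
  · exact integrableOn_Ioi_rpow_of_lt (by linarith) one_pos
  · filter_upwards [ae_restrict_mem measurableSet_Ioi] with t ht
    have ht0 : 0 < t := lt_trans one_pos ht
    rw [norm_smul, norm_cpow_eq_rpow_re_of_pos ht0]
    have h2 : (-s - 1).re = -s.re - 1 := by simp
    rw [h2]
    have h3 : 0 ≤ t ^ (-s.re - 1) := Real.rpow_nonneg ht0.le _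
    nlinarith [norm_fr_le t, norm_nonneg (fr t)]

lemma zetaPole_eq_of_one_lt {s : ℂ} (hs : 1 < s.re) :
    zetaPole s = s - s * (s - 1) * frMellin s := by
  have hs1 : s ≠ 1 := by intro h; rw [h, one_re] at hs; exact lt_irrefl _ hs
  have hs0 : s ≠ 0 := by intro h; rw [h, zero_re] at hs; linarith
  have hO : (fun n ↦ ∑ k ∈ Finset.Icc 1 n, (1 : ℕ → ℂ) k) =O[atTop] fun n : ℕ ↦
      (n : ℝ) ^ (1 : ℝ) := by
    refine Asymptotics.IsBigO.of_bound 1 ?_
    filter_upwards with n
    simp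
  have h := LSeries_eq_mul_integral (1 : ℕ → ℂ) zero_le_one (s := s) hs
    (LSeriesSummable_one_iff.mpr hs) hO
  rw [LSeries_one_eq_riemannZeta hs] at h
  have hint1 : IntegrableOn (fun t : ℝ ↦ (t : ℂ) ^ (-s)) (Ioi 1) :=
    integrableOn_Ioi_cpow_of_lt (by simpa using hs) one_pos
  have hint2 : IntegrableOn (fun t : ℝ ↦ (t : ℂ) ^ (-s - 1) • fr t) (Ioi 1) := by
    refine Integrable.mono' (g := fun t ↦ t ^ (-s.re - 1))
      (integrableOn_Ioi_rpow_of_lt (by linarith) one_pos) ?_ ?_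
    · have hm : AEStronglyMeasurable (fun t : ℝ ↦ (t : ℂ) ^ (-s - 1)) (volume.restrict (Ioi 1)) := by
        refine ContinuousOn.aestronglyMeasurable ?_ measurableSet_Ioi
        intro t ht
        have ht0 : 0 < t := lt_trans one_pos ht
        exact (continuousAt_ofReal_cpow_const _ _ (Or.inr ht0.ne')).continuousWithinAt
      exact hm.smul fr_measurable.aestronglyMeasurable
    · filter_upwards [ae_restrict_mem measurableSet_Ioi] with t ht
      have ht0 : 0 < t := lt_trans one_pos ht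
      rw [norm_smul, norm_cpow_eq_rpow_re_of_pos ht0]
      have h2 : (-s - 1).re = -s.re - 1 := by simp
      rw [h2]
      have h3 : 0 ≤ t ^ (-s.re - 1) := Real.rpow_nonneg ht0.le _
      nlinarith [norm_fr_le t, norm_nonneg (fr t)]
  have hcongr : ∫ t in Ioi (1 : ℝ), (∑ k ∈ Finset.Icc 1 ⌊t⌋₊, (1 : ℕ → ℂ) k) * (t : ℂ) ^ (-(s + 1))
      = ∫ t in Ioi (1 : ℝ), ((t : ℂ) ^ (-s) - (t : ℂ) ^ (-s - 1) • fr t) := by
    refine setIntegral_congr_fun measurableSet_Ioi fun t ht ↦ ?_
    have ht1 : (1 : ℝ) < t := ht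
    have ht0 : 0 < t := lt_trans one_pos ht
    have htc : (t : ℂ) ≠ 0 := by exact_mod_cast ht0.ne'
    have h4 : fr t = (t : ℂ) - (⌊t⌋₊ : ℂ) := by
      unfold fr
      rw [if_neg (not_lt.mpr ht1.le)]
      have h5 : Int.fract t = t - (⌊t⌋₊ : ℝ) := by
        rw [Int.fract, ← natCast_floor_eq_intCast_floor ht0.le]
      rw [h5]
      push_cast
      rfl
    simp only [Pi.one_apply, Finset.sum_const, Nat.card_Icc, add_tsub_cancel_right, nsmul_eq_mul,
      mul_one, smul_eq_mul]
    rw [h4]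
    have h6 : (t : ℂ) ^ (-s) = (t : ℂ) ^ (-s - 1) * t := by
      rw [cpow_sub _ _ htc, cpow_one]
      field_simp
    have h7 : -(s + 1) = -s - 1 := by ring
    rw [h6, h7]
    ring
  rw [hcongr, integral_sub hint1 hint2, ← frMellin_eq, integral_Ioi_cpow_of_lt (by simpa using hs) one_pos]
    at h
  rw [zetaPole_of_ne hs1, h]
  have h8 : -s + 1 ≠ 0 := by
    intro h9
    apply hs1
    linear_combination -h9
  simp only [ofReal_one, one_cpow]
  field_simp
  ring

lemma zetaPole_eq {s : ℂ} (hs : 0 < s.re) : zetaPole s = s - s * (s - 1) * frMellin s := by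
  have h1 : AnalyticOnNhd ℂ zetaPole {s | 0 < s.re} :=
    (zetaPole_differentiable.differentiableOn).analyticOnNhd (isOpen_re_gt 0)
  have h2 : AnalyticOnNhd ℂ (fun s ↦ s - s * (s - 1) * frMellin s) {s | 0 < s.re} := by
    refine DifferentiableOn.analyticOnNhd ?_ (isOpen_re_gt 0)
    intro z hz
    have := frMellin_differentiableAt (s := z) hz
    refine DifferentiableAt.differentiableWithinAt ?_
    fun_prop
  have hpre : IsPreconnected {s : ℂ | 0 < s.re} := (convex_halfSpace_re_gt 0).isPreconnected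
  have hev : zetaPole =ᶠ[𝓝 (2 : ℂ)] fun s ↦ s - s * (s - 1) * frMellin s := by
    filter_upwards [(isOpen_re_gt 1).mem_nhds (show (2 : ℂ) ∈ {s : ℂ | 1 < s.re} by simp)] with z hz
    exact zetaPole_eq_of_one_lt hz
  exact h1.eqOn_of_preconnected_of_eventuallyEq h2 hpre (by simp) hev hs

lemma norm_zetaPole_le {s : ℂ} (hs : 1 / 2 ≤ s.re) : ‖zetaPole s‖ ≤ 2 * (1 + ‖s‖) ^ 2 := by
  rw [zetaPole_eq (by linarith)]
  have h1 := norm_frMellin_le (s := s) (by linarith)
  have h2 : ‖frMellin s‖ ≤ 2 := by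
    refine h1.trans ?_
    rw [div_le_iff₀ (by linarith)]
    linarith
  have h3 : ‖s - 1‖ ≤ ‖s‖ + 1 := by
    refine (norm_sub_le _ _).trans ?_
    simp
  have h0 := norm_nonneg s
  calc ‖s - s * (s - 1) * frMellin s‖ ≤ ‖s‖ + ‖s * (s - 1) * frMellin s‖ := norm_sub_le _ _
    _ = ‖s‖ + ‖s‖ * ‖s - 1‖ * ‖frMellin s‖ := by rw [norm_mul, norm_mul]
    _ ≤ ‖s‖ + ‖s‖ * (‖s‖ + 1) * 2 := by gcongr
    _ ≤ 2 * (1 + ‖s‖) ^ 2 := by nlinarith

end Pool.Agent.H6
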