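import Mathlib
import Pool.Agent.H6.ZetaGrowth

/-!
Growth of `log ζ` in a zero-free half-plane (Borel-Carathéodory plus three circles).
-/

open Complex LSeries Filter Topology MeasureTheory Set Metric

namespace Pool.Agent.H6

/-- logarithm of a nonvanishing holomorphic function on a ball -/
lemma exists_log_on_ball {f : ℂ → ℂ} {c : ℂ} {R : ℝ} (hR : 0 < R)
    (hf : DifferentiableOn ℂ f (ball c R)) (hne : ∀ z ∈ ball c R, f z ≠ 0) :
    ∃ L : ℂ → ℂ, L c = Complex.log (f c) ∧
      (∀ z ∈ ball c R, HasDerivAt L (deriv f z / f z) z) ∧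
      ∀ z ∈ ball c R, Complex.exp (L z) = f z := by
  have hd : DifferentiableOn ℂ (fun z ↦ deriv f z / f z) (ball c R) :=
    (hf.deriv isOpen_ball).div hf hne
  obtain ⟨L, hLc, hL⟩ := (hd.isExactOn_ball).with_val_at c (Complex.log (f c))
  refine ⟨L, hLc, hL, ?_⟩
  have hcmem : c ∈ ball c R := mem_ball_self hR
  -- `f * exp (-L)` is constant
  have hconst : ∀ z ∈ ball c R, f z * Complex.exp (-L z) = f c * Complex.exp (-L c) := by
    intro z hz
    have hderiv : ∀ w ∈ ball c R, HasDerivWithinAt (fun w ↦ f w * Complex.exp (-L w)) 0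
        (ball c R) w := by
      intro w hw
      have h1 : HasDerivAt f (deriv f w) w :=
        (hf.differentiableAt (isOpen_ball.mem_nhds hw)).hasDerivAt
      have h2 := h1.fun_mul ((hL w hw).fun_neg.cexp)
      have h3 : deriv f w * Complex.exp (-L w) +
          f w * (Complex.exp (-L w) * -(deriv f w / f w)) = 0 := by
        have := hne w hw
        field_simp
        ring
      rw [h3] at h2
      exact h2.hasDerivWithinAt
    have h4 := (convex_ball c R).norm_image_sub_le_of_norm_hasDerivWithin_le (C := 0)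
      (f := fun w ↦ f w * Complex.exp (-L w)) (f' := fun _ ↦ 0) hderiv (by simp) hcmem hz
    have h5 : f z * Complex.exp (-L z) - f c * Complex.exp (-L c) = 0 := by
      rw [← norm_le_zero_iff]
      simpa using h4
    exact sub_eq_zero.mp h5
  intro z hz
  have h6 := hconst z hz
  rw [hLc, Complex.exp_neg (Complex.log (f c)), Complex.exp_log (hne c hcmem),
    mul_inv_cancel₀ (hne c hcmem), Complex.exp_neg] at h6
  have h7 := Complex.exp_ne_zero (L z)
  field_simp at h6
  exact h6.symm

/-- bound for the logarithm of `ζ` in the region of absolute convergence -/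
lemma norm_riemannZeta_le {s : ℂ} {x : ℝ} (hx : 1 < x) (hs : x ≤ s.re) :
    ‖riemannZeta s‖ ≤ ∑' n : ℕ, 1 / (n : ℝ) ^ x := by
  rw [zeta_eq_tsum_one_div_nat_cpow (by linarith)]
  have hsum : Summable fun n : ℕ ↦ 1 / (n : ℝ) ^ x := Real.summable_one_div_nat_rpow.mpr hx
  refine tsum_of_norm_bounded hsum.hasSum fun n ↦ ?_
  rcases eq_or_ne n 0 with rfl | hn
  · have hs0 : s ≠ 0 := by intro h; rw [h, zero_re] at hs; linarith
    simp [hs0, (by linarith : x ≠ 0)]
  · have hn' : (0 : ℝ) < n := by exact_mod_cast Nat.pos_of_ne_zero hn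
    have hn1 : (1 : ℝ) ≤ n := by exact_mod_cast Nat.one_le_iff_ne_zero.mpr hn
    rw [norm_div, norm_one, norm_natCast_cpow_of_pos (Nat.pos_of_ne_zero hn)]
    gcongr

lemma norm_inv_riemannZeta_le {s : ℂ} {x : ℝ} (hx : 1 < x) (hs : x ≤ s.re) :
    ‖(riemannZeta s)⁻¹‖ ≤ ∑' n : ℕ, 1 / (n : ℝ) ^ x := by
  have hs1 : 1 < s.re := by linarith
  have h1 := LSeries_one_mul_Lseries_moebius hs1
  rw [LSeries_one_eq_riemannZeta hs1] at h1
  have h2 : (riemannZeta s)⁻¹ = LSeries (fun n ↦ (ArithmeticFunction.moebius n : ℂ)) s :=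
    inv_eq_of_mul_eq_one_right h1
  rw [h2, LSeries]
  have hsum : Summable fun n : ℕ ↦ 1 / (n : ℝ) ^ x := Real.summable_one_div_nat_rpow.mpr hx
  refine tsum_of_norm_bounded hsum.hasSum fun n ↦ ?_
  rcases eq_or_ne n 0 with rfl | hn
  · simp [(by linarith : x ≠ 0)]
  · have hn1 : (1 : ℝ) ≤ n := by exact_mod_cast Nat.one_le_iff_ne_zero.mpr hn
    rw [term_of_ne_zero hn, norm_div, norm_natCast_cpow_of_pos (Nat.pos_of_ne_zero hn)]
    have h3 : ‖((ArithmeticFunction.moebius n : ℤ) : ℂ)‖ ≤ 1 := by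
      rw [norm_intCast]
      exact_mod_cast ArithmeticFunction.abs_moebius_le_one
    gcongr

/-- **Hadamard three circles theorem**, from the three lines theorem. -/
lemma three_circles {f : ℂ → ℂ} {c : ℂ} {r₁ r₃ R : ℝ} (h0 : 0 < r₁) (h13 : r₁ < r₃) (h3R : r₃ < R)
    (hf : DifferentiableOn ℂ f (ball c R)) {A B : ℝ}
    (hA : ∀ z, ‖z - c‖ = r₁ → ‖f z‖ ≤ A) (hB : ∀ z, ‖z - c‖ = r₃ → ‖f z‖ ≤ B)
    {z : ℂ} (hz1 : r₁ ≤ ‖z - c‖) (hz3 : ‖z - c‖ ≤ r₃) :
    ‖f z‖ ≤ A ^ (1 - (Real.log ‖z - c‖ - Real.log r₁) / (Real.log r₃ - Real.log r₁)) *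
      B ^ ((Real.log ‖z - c‖ - Real.log r₁) / (Real.log r₃ - Real.log r₁)) := by
  have h03 : 0 < r₃ := h0.trans h13
  have hlog : Real.log r₁ < Real.log r₃ := Real.log_lt_log h0 h13
  set g : ℂ → ℂ := fun w ↦ f (c + Complex.exp w) with hg
  have hzc : z - c ≠ 0 := by
    intro h; rw [h, norm_zero] at hz1; linarith
  have hzpos : 0 < ‖z - c‖ := norm_pos_iff.mpr hzc
  set w : ℂ := Complex.log (z - c) with hw
  have hgw : g w = f z := by
    simp only [hg, hw]
    rw [Complex.exp_log hzc]
    congr 1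
    ring
  have hwre : w.re = Real.log ‖z - c‖ := Complex.log_re _
  have hmemball : ∀ v : ℂ, v.re ≤ Real.log r₃ → c + Complex.exp v ∈ closedBall c r₃ := by
    intro v hv
    rw [mem_closedBall, dist_eq_norm, add_sub_cancel_left, Complex.norm_exp]
    calc Real.exp v.re ≤ Real.exp (Real.log r₃) := Real.exp_le_exp.mpr hv
      _ = r₃ := Real.exp_log h03
  have hsub : closedBall c r₃ ⊆ ball c R := closedBall_subset_ball h3R
  have hdiff : ∀ v : ℂ, v.re ≤ Real.log r₃ → DifferentiableAt ℂ g v := by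
    intro v hv
    have h1 : DifferentiableAt ℂ f (c + Complex.exp v) :=
      hf.differentiableAt (isOpen_ball.mem_nhds (hsub (hmemball v hv)))
    have h2 : DifferentiableAt ℂ (fun v ↦ c + Complex.exp v) v := by fun_prop
    exact DifferentiableAt.comp v h1 h2
  have hclosed : IsClosed (Complex.HadamardThreeLines.verticalClosedStrip (Real.log r₁)
      (Real.log r₃)) := isClosed_Icc.preimage continuous_re
  have hclsub : closure (Complex.HadamardThreeLines.verticalStrip (Real.log r₁) (Real.log r₃)) ⊆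
      Complex.HadamardThreeLines.verticalClosedStrip (Real.log r₁) (Real.log r₃) := by
    refine closure_minimal ?_ hclosed
    exact preimage_mono Ioo_subset_Icc_self
  have hd : DiffContOnCl ℂ g (Complex.HadamardThreeLines.verticalStrip (Real.log r₁)
      (Real.log r₃)) := by
    apply DifferentiableOn.diffContOnCl
    intro v hv
    exact (hdiff v (hclsub hv).2).differentiableWithinAt
  obtain ⟨M, hM⟩ := (isCompact_closedBall c r₃).exists_bound_of_continuousOn
    (hf.continuousOn.mono hsub)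
  have hbdd : BddAbove (norm ∘ g '' Complex.HadamardThreeLines.verticalClosedStrip (Real.log r₁)
      (Real.log r₃)) := by
    refine ⟨M, ?_⟩
    rintro _ ⟨v, hv, rfl⟩
    exact hM _ (hmemball v hv.2)
  have key := Complex.HadamardThreeLines.norm_le_interp_of_mem_verticalClosedStrip' (f := g)
    (z := w) (a := A) (b := B) hlog
    ⟨by rw [hwre]; exact Real.log_le_log h0 hz1, by rw [hwre]; exact Real.log_le_log hzpos hz3⟩
    hd hbdd ?_ ?_
  · rw [hgw, hwre] at key
    exact key
  · intro v hv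
    have hv' : v.re = Real.log r₁ := hv
    apply hA
    rw [add_sub_cancel_left, Complex.norm_exp, hv', Real.exp_log h0]
  · intro v hv
    have hv' : v.re = Real.log r₃ := hv
    apply hB
    rw [add_sub_cancel_left, Complex.norm_exp, hv', Real.exp_log h03]

end Pool.Agent.H6
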