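import Mathlib
import Pool.Agent.H6.LogBound

/-!
`log ζ(s) = O((log |t|) ^ a)` with `a < 1`, in a zero-free half-plane.
-/

open Complex LSeries Filter Topology MeasureTheory Set Metric

namespace Pool.Agent.H6

/-- centre of the discs -/
noncomputable def cen (t : ℝ) : ℂ := 2 + t * I

lemma cen_re (t : ℝ) : (cen t).re = 2 := by simp [cen]
lemma cen_im (t : ℝ) : (cen t).im = t := by simp [cen]

lemma re_im_of_mem_ball {t R : ℝ} {z : ℂ} (hz : ‖z - cen t‖ < R) :
    2 - R < z.re ∧ |z.im - t| < R := by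
  have h1 := (abs_re_le_norm (z - cen t)).trans_lt hz
  have h2 := (abs_im_le_norm (z - cen t)).trans_lt hz
  rw [sub_re, cen_re] at h1
  rw [sub_im, cen_im] at h2
  exact ⟨by linarith [(abs_lt.mp h1).1], h2⟩

lemma zeta_bound_on_ball {t R : ℝ} (ht : 2 ≤ |t|) (hR : R ≤ 3 / 2) {z : ℂ}
    (hz : ‖z - cen t‖ < R) : z ≠ 1 ∧ ‖riemannZeta z‖ ≤ |t| ^ (8 : ℕ) := by
  obtain ⟨hre, him⟩ := re_im_of_mem_ball hz
  have him2 : 1 / 2 ≤ |z.im| := by
    have h1 : |t| - |z.im| ≤ |z.im - t| := by
      rw [abs_sub_comm]; exact abs_sub_abs_le_abs_sub t z.im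
    linarith
  have hz1 : z ≠ 1 := by
    intro h
    rw [h, one_im, abs_zero] at him2
    linarith
  refine ⟨hz1, ?_⟩
  have h2 : 1 / 2 ≤ ‖z - 1‖ := by
    have := abs_im_le_norm (z - 1)
    rw [sub_im, one_im, sub_zero] at this
    linarith
  have h3 : ‖zetaPole z‖ ≤ 2 * (1 + ‖z‖) ^ 2 := norm_zetaPole_le (by linarith)
  rw [zetaPole_of_ne hz1, norm_mul] at h3
  have h4 : ‖z‖ ≤ |t| + 7 / 2 := by
    have h5 : ‖z‖ ≤ ‖z - cen t‖ + ‖cen t‖ := norm_le_norm_sub_add _ _
    have h6 : ‖cen t‖ ≤ 2 + |t| := by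
      unfold cen
      refine (norm_add_le _ _).trans ?_
      simp
    linarith
  have h7 : ‖riemannZeta z‖ ≤ 4 * (1 + ‖z‖) ^ 2 := by
    have := norm_nonneg (riemannZeta z)
    nlinarith
  have h8 : 1 + ‖z‖ ≤ 13 / 4 * |t| := by linarith
  have h9 : 4 * (1 + ‖z‖) ^ 2 ≤ 4 * (13 / 4 * |t|) ^ 2 := by
    have := norm_nonneg z
    gcongr
  have h10 : (64 : ℝ) ≤ |t| ^ 6 := by
    calc (64 : ℝ) = 2 ^ 6 := by norm_num
      _ ≤ |t| ^ 6 := by gcongr
  have h11 : 4 * (13 / 4 * |t|) ^ 2 ≤ |t| ^ 6 * |t| ^ 2 := by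
    nlinarith [sq_nonneg (|t|)]
  calc ‖riemannZeta z‖ ≤ _ := h7
    _ ≤ _ := h9
    _ ≤ _ := h11
    _ = |t| ^ (8 : ℕ) := by ring

/-- the main bound for the logarithm -/
theorem log_bound {θ : ℝ} (hθ : 1 / 2 ≤ θ) (hθ1 : θ < 1)
    (hZ : ∀ s : ℂ, θ < s.re → riemannZeta s ≠ 0) {σ : ℝ} (hσ : θ < σ) (hσ1 : σ ≤ 1) :
    ∃ K a : ℝ, 0 < K ∧ 0 < a ∧ a < 1 ∧ ∀ t : ℝ, 2 ≤ |t| → ∃ L : ℂ → ℂ,
      (∀ z ∈ ball (cen t) (2 - θ), HasDerivAt L (deriv riemannZeta z / riemannZeta z) z) ∧
      (∀ z ∈ ball (cen t) (2 - θ), Complex.exp (L z) = riemannZeta z) ∧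
      ∀ z, ‖z - cen t‖ ≤ 2 - σ → ‖L z‖ ≤ K * (Real.log |t|) ^ a := by
  set R : ℝ := 2 - θ with hR
  set r₂ : ℝ := 2 - σ with hr2
  set r₃ : ℝ := 2 - (θ + σ) / 2 with hr3
  have h12 : (1 / 2 : ℝ) < r₂ := by rw [hr2]; linarith
  have h23 : r₂ < r₃ := by rw [hr2, hr3]; linarith
  have h3R : r₃ < R := by rw [hr3, hR]; linarith
  set S : ℝ := ∑' n : ℕ, 1 / (n : ℝ) ^ (3 / 2 : ℝ) with hS
  have hSum : Summable fun n : ℕ ↦ 1 / (n : ℝ) ^ (3 / 2 : ℝ) :=
    Real.summable_one_div_nat_rpow.mpr (by norm_num)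
  have hS1 : 1 ≤ S := by
    have := hSum.le_tsum 1 (fun n _ ↦ by positivity)
    rw [hS]
    simpa using this
  set K₀ : ℝ := Real.log S + Real.pi with hK0
  have hK0pos : 0 < K₀ := by
    have := Real.log_nonneg hS1
    have := Real.pi_pos
    linarith
  set V : ℝ := ∑' n : ℕ, ArithmeticFunction.vonMangoldt n * (n : ℝ) ^ (-(3 / 2 : ℝ)) with hV
  have hVsum : Summable fun n : ℕ ↦ ArithmeticFunction.vonMangoldt n * (n : ℝ) ^ (-(3 / 2 : ℝ)) := by
    have h1 : LSeriesSummable (fun n ↦ (ArithmeticFunction.vonMangoldt n : ℂ)) ((3 / 2 : ℝ) : ℂ) :=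
      ArithmeticFunction.LSeriesSummable_vonMangoldt (by rw [ofReal_re]; norm_num)
    have h2 := h1.norm
    refine h2.congr fun n ↦ ?_
    rcases eq_or_ne n 0 with rfl | hn
    · simp
    · rw [norm_term_eq]
      simp only [hn, if_false, norm_real, Real.norm_eq_abs,
        abs_of_nonneg ArithmeticFunction.vonMangoldt_nonneg, ofReal_re]
      rw [Real.rpow_neg (Nat.cast_nonneg n), div_eq_mul_inv]
  have hV0 : 0 ≤ V := tsum_nonneg fun n ↦
    mul_nonneg ArithmeticFunction.vonMangoldt_nonneg (Real.rpow_nonneg (Nat.cast_nonneg n) _)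
  set K₁ : ℝ := K₀ + V with hK1
  have hK1pos : 0 < K₁ := by positivity
  have hlog2 : 0 < Real.log 2 := Real.log_pos (by norm_num)
  set C₁ : ℝ := 16 * R / (R - r₃) + 2 * R * K₀ / ((R - r₃) * Real.log 2) + K₁ / Real.log 2 with hC1
  have hRr : 0 < R - r₃ := by linarith
  have hRpos : 0 < R := by linarith
  have hC1pos : 0 < C₁ := by positivity
  set a : ℝ := (Real.log r₂ - Real.log (1 / 2)) / (Real.log r₃ - Real.log (1 / 2)) with ha
  have hl12 : Real.log (1 / 2) < Real.log r₂ := Real.log_lt_log (by norm_num) h12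
  have hl23 : Real.log r₂ < Real.log r₃ := Real.log_lt_log (by linarith) h23
  have ha0 : 0 < a := div_pos (by linarith) (by linarith)
  have ha1 : a < 1 := by
    rw [ha, div_lt_one (by linarith)]
    linarith
  refine ⟨K₁ ^ (1 - a) * C₁ ^ a, a, by positivity, ha0, ha1, fun t ht ↦ ?_⟩
  have hlogt : Real.log 2 ≤ Real.log |t| := Real.log_le_log (by norm_num) ht
  have hball : ∀ z ∈ ball (cen t) R, z ≠ 1 ∧ θ < z.re := by
    intro z hz
    rw [mem_ball, dist_eq_norm] at hz
    refine ⟨(zeta_bound_on_ball ht (by linarith) hz).1, ?_⟩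
    have := (re_im_of_mem_ball hz).1
    rw [hR] at this
    linarith
  have hdiff : DifferentiableOn ℂ riemannZeta (ball (cen t) R) := fun z hz ↦
    (differentiableAt_riemannZeta (hball z hz).1).differentiableWithinAt
  obtain ⟨L, hLc, hLd, hLe⟩ := exists_log_on_ball hRpos hdiff (fun z hz ↦ hZ z (hball z hz).2)
  refine ⟨L, hLd, hLe, ?_⟩
  -- bound at the centre
  have hcenL : ‖L (cen t)‖ ≤ K₀ := by
    rw [hLc]
    refine (norm_le_abs_re_add_abs_im _).trans ?_
    rw [log_re, log_im]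
    have hz1 : ‖riemannZeta (cen t)‖ ≤ S :=
      norm_riemannZeta_le (by norm_num) (by rw [cen_re]; norm_num)
    have hz2 : ‖(riemannZeta (cen t))⁻¹‖ ≤ S :=
      norm_inv_riemannZeta_le (by norm_num) (by rw [cen_re]; norm_num)
    have hz0 : riemannZeta (cen t) ≠ 0 := hZ _ (by rw [cen_re]; linarith)
    have hz3 : 0 < ‖riemannZeta (cen t)‖ := norm_pos_iff.mpr hz0
    have h1 : Real.log ‖riemannZeta (cen t)‖ ≤ Real.log S := Real.log_le_log hz3 hz1
    have h2 : -Real.log ‖riemannZeta (cen t)‖ ≤ Real.log S := by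
      rw [norm_inv] at hz2
      rw [← Real.log_inv]
      exact Real.log_le_log (by positivity) hz2
    have h3 : |Real.log ‖riemannZeta (cen t)‖| ≤ Real.log S := abs_le.mpr ⟨by linarith, h1⟩
    have h4 := abs_arg_le_pi (riemannZeta (cen t))
    linarith
  -- bound on the inner disc
  have hinner : ∀ z, ‖z - cen t‖ ≤ 1 / 2 → ‖L z‖ ≤ K₁ := by
    intro z hz
    have hsub : closedBall (cen t) (1 / 2) ⊆ ball (cen t) R :=
      closedBall_subset_ball (by linarith)
    have hderiv : ∀ w ∈ closedBall (cen t) (1 / 2),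
        HasDerivWithinAt L (deriv riemannZeta w / riemannZeta w) (closedBall (cen t) (1 / 2)) w :=
      fun w hw ↦ (hLd w (hsub hw)).hasDerivWithinAt
    have hbd : ∀ w ∈ closedBall (cen t) (1 / 2),
        ‖deriv riemannZeta w / riemannZeta w‖ ≤ V := by
      intro w hw
      rw [mem_closedBall, dist_eq_norm] at hw
      have hre : 3 / 2 ≤ w.re := by
        have h1 := (abs_re_le_norm (w - cen t)).trans hw
        rw [sub_re, cen_re] at h1
        linarith [(abs_le.mp h1).1]
      have h2 := ArithmeticFunction.LSeries_vonMangoldt_eq_deriv_riemannZeta_div (s := w) (by linarith)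
      have h3 : ‖deriv riemannZeta w / riemannZeta w‖
          = ‖LSeries (fun n ↦ (ArithmeticFunction.vonMangoldt n : ℂ)) w‖ := by
        rw [h2, neg_div, norm_neg]
      rw [h3]
      refine (norm_LSeries_le (fun n ↦ ArithmeticFunction.vonMangoldt_nonneg) (by simp)
        (ArithmeticFunction.LSeriesSummable_vonMangoldt (by linarith))).trans ?_
      rw [hV]
      refine Summable.tsum_le_tsum (fun n ↦ ?_) ?_ hVsum
      · rcases eq_or_ne n 0 with rfl | hn
        · simp
        · have hn1 : (1 : ℝ) ≤ n := by exact_mod_cast Nat.one_le_iff_ne_zero.mpr hn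
          have : (n : ℝ) ^ (-w.re) ≤ (n : ℝ) ^ (-(3 / 2 : ℝ)) :=
            Real.rpow_le_rpow_of_exponent_le hn1 (by linarith)
          exact mul_le_mul_of_nonneg_left this ArithmeticFunction.vonMangoldt_nonneg
      · have h1 : LSeriesSummable (fun n ↦ (ArithmeticFunction.vonMangoldt n : ℂ)) w :=
          ArithmeticFunction.LSeriesSummable_vonMangoldt (by linarith)
        refine h1.norm.congr fun n ↦ ?_
        rcases eq_or_ne n 0 with rfl | hn
        · simp
        · rw [norm_term_eq]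
          simp only [hn, if_false, norm_real, Real.norm_eq_abs,
            abs_of_nonneg ArithmeticFunction.vonMangoldt_nonneg]
          rw [Real.rpow_neg (Nat.cast_nonneg n), div_eq_mul_inv]
    have h5 := (convex_closedBall (cen t) (1 / 2)).norm_image_sub_le_of_norm_hasDerivWithin_le
      hderiv hbd (mem_closedBall_self (by norm_num)) (show z ∈ closedBall (cen t) (1 / 2) by
        rw [mem_closedBall, dist_eq_norm]; exact hz)
    have h6 : ‖L z‖ ≤ ‖L z - L (cen t)‖ + ‖L (cen t)‖ := norm_le_norm_sub_add _ _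
    have h7 : V * ‖z - cen t‖ ≤ V * 1 := by
      gcongr; linarith
    linarith
  -- Borel-Caratheodory on the large disc
  have hM : 0 < 8 * Real.log |t| := by linarith
  have hre : ∀ z ∈ ball (cen t) R, (L z).re ≤ 8 * Real.log |t| := by
    intro z hz
    have h1 : Real.exp (L z).re ≤ |t| ^ (8 : ℕ) := by
      rw [← Complex.norm_exp, hLe z hz]
      rw [mem_ball, dist_eq_norm] at hz
      exact (zeta_bound_on_ball ht (by linarith) hz).2
    have h2 : (L z).re ≤ Real.log (|t| ^ (8 : ℕ)) := by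
      rw [Real.le_log_iff_exp_le (by positivity)]
      exact h1
    rwa [Real.log_pow] at h2
  have houter : ∀ z, ‖z - cen t‖ ≤ r₃ → ‖L z‖ ≤ C₁ * Real.log |t| := by
    intro z hz
    set f : ℂ → ℂ := fun w ↦ L (w + cen t) with hf
    have hfd : DifferentiableOn ℂ f (ball 0 R) := by
      intro w hw
      have hw' : w + cen t ∈ ball (cen t) R := by
        rw [mem_ball, dist_eq_norm, add_sub_cancel_right]
        simpa using hw
      have h1 : DifferentiableAt ℂ L (w + cen t) := (hLd _ hw').differentiableAt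
      have h2 : DifferentiableAt ℂ (fun w ↦ w + cen t) w := by fun_prop
      exact (DifferentiableAt.comp w h1 h2).differentiableWithinAt
    have hfm : MapsTo f (ball 0 R) {z | z.re ≤ 8 * Real.log |t|} := by
      intro w hw
      have hw' : w + cen t ∈ ball (cen t) R := by
        rw [mem_ball, dist_eq_norm, add_sub_cancel_right]
        simpa using hw
      exact hre _ hw'
    have hzb : z - cen t ∈ ball (0 : ℂ) R := by
      rw [mem_ball_zero_iff]; linarith
    have h3 := Complex.borelCaratheodory hM hfd hfm hRpos hzb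
    have h4 : f (z - cen t) = L z := by simp [hf]
    have h5 : f 0 = L (cen t) := by simp [hf]
    rw [h4, h5] at h3
    refine h3.trans ?_
    have h6 : 0 < R - ‖z - cen t‖ := by linarith
    have h7 : 2 * (8 * Real.log |t|) * ‖z - cen t‖ / (R - ‖z - cen t‖)
        ≤ 16 * R / (R - r₃) * Real.log |t| := by
      have hlt : 0 < Real.log |t| := by linarith
      rw [div_mul_eq_mul_div]
      apply div_le_div₀ (by positivity) _ hRr (by linarith)
      have : ‖z - cen t‖ ≤ R := by linarith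
      nlinarith
    have h8 : ‖L (cen t)‖ * (R + ‖z - cen t‖) / (R - ‖z - cen t‖)
        ≤ 2 * R * K₀ / ((R - r₃) * Real.log 2) * Real.log |t| := by
      have h9 : ‖L (cen t)‖ * (R + ‖z - cen t‖) / (R - ‖z - cen t‖) ≤ 2 * R * K₀ / (R - r₃) := by
        apply div_le_div₀ (by positivity) _ hRr (by linarith)
        have h10 := norm_nonneg (L (cen t))
        have h11 := norm_nonneg (z - cen t)
        calc ‖L (cen t)‖ * (R + ‖z - cen t‖) ≤ K₀ * (R + R) := by gcongr; linarith
          _ = _ := by ring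
      refine h9.trans ?_
      rw [div_mul_eq_mul_div, div_le_div_iff₀ hRr (by positivity)]
      have h20 : 2 * R * K₀ * (R - r₃) * Real.log 2 ≤ 2 * R * K₀ * (R - r₃) * Real.log |t| := by
        gcongr
      calc 2 * R * K₀ * ((R - r₃) * Real.log 2) = 2 * R * K₀ * (R - r₃) * Real.log 2 := by ring
        _ ≤ 2 * R * K₀ * (R - r₃) * Real.log |t| := h20
        _ = 2 * R * K₀ * Real.log |t| * (R - r₃) := by ring
    have h12 : 0 ≤ K₁ / Real.log 2 * Real.log |t| := by
      have : 0 < Real.log |t| := by linarith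
      positivity
    have h21 : C₁ * Real.log |t| = 16 * R / (R - r₃) * Real.log |t| +
        2 * R * K₀ / ((R - r₃) * Real.log 2) * Real.log |t| + K₁ / Real.log 2 * Real.log |t| := by
      rw [hC1]; ring
    rw [h21]
    linarith
  -- interpolation
  set X : ℝ := C₁ * Real.log |t| with hX
  have hXK : K₁ ≤ X := by
    have h1 : K₁ / Real.log 2 * Real.log |t| ≤ X := by
      have : 0 < Real.log |t| := by linarith
      have h2 : 0 ≤ 16 * R / (R - r₃) * Real.log |t| := by positivity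
      have h3 : 0 ≤ 2 * R * K₀ / ((R - r₃) * Real.log 2) * Real.log |t| := by positivity
      have h21 : X = 16 * R / (R - r₃) * Real.log |t| +
          2 * R * K₀ / ((R - r₃) * Real.log 2) * Real.log |t| + K₁ / Real.log 2 * Real.log |t| := by
        rw [hX, hC1]; ring
      rw [h21]
      linarith
    refine le_trans ?_ h1
    rw [div_mul_eq_mul_div, le_div_iff₀ hlog2]
    gcongr
  have hXpos : 0 < X := lt_of_lt_of_le hK1pos hXK
  have htarget : K₁ ^ (1 - a) * C₁ ^ a * (Real.log |t|) ^ a = K₁ * (X / K₁) ^ a := by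
    rw [hX, mul_assoc, ← Real.mul_rpow hC1pos.le (by linarith), ← hX,
      Real.rpow_sub hK1pos, Real.rpow_one, Real.div_rpow hXpos.le hK1pos.le]
    ring
  rw [htarget]
  have hXK1 : 1 ≤ X / K₁ := by rw [le_div_iff₀ hK1pos]; linarith
  intro z hz
  rcases le_or_gt ‖z - cen t‖ (1 / 2) with hsmall | hlarge
  · refine (hinner z hsmall).trans ?_
    have : 1 ≤ (X / K₁) ^ a := Real.one_le_rpow hXK1 ha0.le
    nlinarith
  · have hLdiff : DifferentiableOn ℂ L (ball (cen t) R) := fun w hw ↦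
      (hLd w hw).differentiableAt.differentiableWithinAt
    have h3c := three_circles (f := L) (c := cen t) (r₁ := 1 / 2) (r₃ := r₃) (R := R)
      (A := K₁) (B := X) (by norm_num) (by linarith) h3R hLdiff
      (fun w hw ↦ hinner w hw.le) (fun w hw ↦ houter w hw.le) hlarge.le (by linarith)
    refine h3c.trans ?_
    set e : ℝ := (Real.log ‖z - cen t‖ - Real.log (1 / 2)) / (Real.log r₃ - Real.log (1 / 2)) with he
    have hea : e ≤ a := by
      rw [he, ha]
      have : Real.log ‖z - cen t‖ ≤ Real.log r₂ := Real.log_le_log (by linarith) hz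
      apply div_le_div_of_nonneg_right (by linarith) (by linarith)
    have h13 : K₁ ^ (1 - e) * X ^ e = K₁ * (X / K₁) ^ e := by
      rw [Real.rpow_sub hK1pos, Real.rpow_one, Real.div_rpow hXpos.le hK1pos.le]
      ring
    rw [h13]
    gcongr

end Pool.Agent.H6
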