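import Mathlib
import Pool.Agent.H6.LogBound2

/-!
`1/ζ(s) = O(|t| ^ η)` for every `η > 0`, uniformly in `σ ≤ re s ≤ 2`, in a zero-free half-plane.
-/

open Complex LSeries Filter Topology MeasureTheory Set Metric

namespace Pool.Agent.H6

lemma eventually_log_le {K a η : ℝ} (hη : 0 < η) (ha1 : a < 1) :
    ∃ T : ℝ, 2 ≤ T ∧ ∀ t : ℝ, T ≤ t → K * (Real.log t) ^ a ≤ η * Real.log t := by
  have h1 : Tendsto (fun x : ℝ ↦ x ^ (1 - a)) atTop atTop := tendsto_rpow_atTop (by linarith)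
  have h2 : ∀ᶠ x : ℝ in atTop, K / η ≤ x ^ (1 - a) := h1.eventually_ge_atTop _
  have h3 : ∀ᶠ t : ℝ in atTop, K / η ≤ (Real.log t) ^ (1 - a) :=
    Real.tendsto_log_atTop.eventually h2
  obtain ⟨T, hT⟩ := eventually_atTop.mp h3
  refine ⟨max T 2, le_max_right _ _, fun t ht ↦ ?_⟩
  have h4 := hT t ((le_max_left _ _).trans ht)
  have h5 : 2 ≤ t := (le_max_right _ _).trans ht
  have h6 : 0 < Real.log t := Real.log_pos (by linarith)
  rw [div_le_iff₀ hη] at h4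
  have h7 : 0 < (Real.log t) ^ a := Real.rpow_pos_of_pos h6 a
  calc K * (Real.log t) ^ a ≤ ((Real.log t) ^ (1 - a) * η) * (Real.log t) ^ a := by gcongr
    _ = η * ((Real.log t) ^ (1 - a) * (Real.log t) ^ a) := by ring
    _ = η * Real.log t := by
      rw [← Real.rpow_add h6]
      congr 1
      rw [sub_add_cancel, Real.rpow_one]

lemma mem_ball_of_strip {θ σ : ℝ} (hσ : θ < σ) {s : ℂ} (h1 : σ ≤ s.re) (h2 : s.re ≤ 2) :
    ‖s - cen s.im‖ ≤ 2 - σ ∧ s ∈ ball (cen s.im) (2 - θ) := by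
  have h3 : s - cen s.im = ((s.re - 2 : ℝ) : ℂ) := by
    apply Complex.ext
    · simp [cen]
    · simp [cen]
  have h4 : ‖s - cen s.im‖ ≤ 2 - σ := by
    rw [h3, norm_real, Real.norm_eq_abs, abs_le]
    constructor <;> linarith
  refine ⟨h4, ?_⟩
  rw [mem_ball, dist_eq_norm]
  linarith

theorem inv_zeta_bound {θ : ℝ} (hθ : 1 / 2 ≤ θ) (hθ1 : θ < 1)
    (hZ : ∀ s : ℂ, θ < s.re → riemannZeta s ≠ 0) {σ : ℝ} (hσ : θ < σ) {η : ℝ} (hη : 0 < η) :
    ∃ C : ℝ, 0 < C ∧ ∀ s : ℂ, σ ≤ s.re → s.re ≤ 2 →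
      ‖(s - 1) / zetaPole s‖ ≤ C * (1 + |s.im|) ^ η := by
  set σ' : ℝ := min σ 1 with hσ'
  have hσ'1 : σ' ≤ 1 := min_le_right _ _
  have hσ'θ : θ < σ' := lt_min hσ hθ1
  obtain ⟨K, a, hK, ha, ha1, hL⟩ := log_bound hθ hθ1 hZ hσ'θ hσ'1
  obtain ⟨T, hT2, hT⟩ := eventually_log_le (K := K) (a := a) hη ha1
  -- compact part
  have hzp : ∀ s : ℂ, θ < s.re → zetaPole s ≠ 0 := by
    intro s hs
    rcases eq_or_ne s 1 with rfl | h1
    · rw [zetaPole_one]; exact one_ne_zero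
    · rw [zetaPole_of_ne h1]
      exact mul_ne_zero (sub_ne_zero.mpr h1) (hZ s hs)
  have hcompact : IsCompact (Icc σ' 2 ×ℂ Icc (-T) T) := isCompact_Icc.reProdIm isCompact_Icc
  have hcont : ContinuousOn (fun s : ℂ ↦ (s - 1) / zetaPole s) (Icc σ' 2 ×ℂ Icc (-T) T) := by
    refine ContinuousOn.div (by fun_prop) zetaPole_differentiable.continuous.continuousOn ?_
    intro s hs
    exact hzp s (lt_of_lt_of_le hσ'θ (mem_reProdIm.mp hs).1.1)
  obtain ⟨M, hM⟩ := hcompact.exists_bound_of_continuousOn hcont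
  refine ⟨max M 1, lt_of_lt_of_le one_pos (le_max_right _ _), fun s hs hs2 ↦ ?_⟩
  have hσs : σ' ≤ s.re := (min_le_left _ _).trans hs
  have hbase : (1 : ℝ) ≤ 1 + |s.im| := by linarith [abs_nonneg s.im]
  rcases le_or_gt |s.im| T with hsm | hlg
  · have h1 := hM s (mem_reProdIm.mpr ⟨⟨hσs, hs2⟩, abs_le.mp hsm⟩)
    refine h1.trans ((le_max_left M 1).trans ?_)
    have h2 : (1 : ℝ) ≤ (1 + |s.im|) ^ η := Real.one_le_rpow hbase hη.le
    have h3 : (1 : ℝ) ≤ max M 1 := le_max_right _ _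
    nlinarith
  · have ht2 : 2 ≤ |s.im| := by linarith
    obtain ⟨L, hLd, hLe, hLb⟩ := hL s.im ht2
    obtain ⟨h1, h2⟩ := mem_ball_of_strip hσ'θ hσs hs2
    have h3 := hLb s h1
    have h4 := hT |s.im| hlg.le
    have hs1 : s ≠ 1 := by
      intro h
      rw [h, one_im, abs_zero] at ht2
      linarith
    have h5 : (s - 1) / zetaPole s = (riemannZeta s)⁻¹ := by
      rw [zetaPole_of_ne hs1]
      have h6 : s - 1 ≠ 0 := sub_ne_zero.mpr hs1
      have h7 := hZ s (lt_of_lt_of_le hσ'θ hσs)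
      field_simp
    have h6 : ‖(riemannZeta s)⁻¹‖ ≤ |s.im| ^ η := by
      rw [← hLe s h2, ← Complex.exp_neg, Complex.norm_exp]
      have h7 : (-L s).re ≤ ‖L s‖ := (re_le_norm _).trans (by rw [norm_neg])
      have h8 : 0 < |s.im| := by linarith
      rw [Real.rpow_def_of_pos h8]
      apply Real.exp_le_exp.mpr
      linarith
    rw [h5]
    refine h6.trans ?_
    have h7 : |s.im| ^ η ≤ (1 + |s.im|) ^ η := by
      apply Real.rpow_le_rpow (abs_nonneg _) (by linarith) hη.le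
    have h8 : 0 ≤ (1 + |s.im|) ^ η := by positivity
    have h9 : (1 : ℝ) ≤ max M 1 := le_max_right _ _
    nlinarith

end Pool.Agent.H6
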