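import Mathlib
import Pool.Agent.H6.LogBoundLoc
import Pool.Agent.H6.InvBound

/-!
`1/((s-1) ζ(s)) = O((1+|t|)^{η-1})` inside a zero-free rectangle, uniformly in its height.
-/

open Complex LSeries Filter Topology MeasureTheory Set Metric

namespace Pool.Agent.H6

theorem inv_zetaPole_loc {θ : ℝ} (hθ : 1 / 2 ≤ θ) (hθ1 : θ < 1) {σ : ℝ} (hσ : θ < σ) (hσ1 : σ ≤ 1)
    {η : ℝ} (hη : 0 < η) :
    ∃ C T₀ : ℝ, 0 < C ∧ 2 ≤ T₀ ∧ ∀ M : ℝ, T₀ ≤ M →
      (∀ s : ℂ, θ < s.re → |s.im| ≤ M → riemannZeta s ≠ 0) →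
      ∀ s : ℂ, σ ≤ s.re → s.re ≤ 2 → |s.im| ≤ M - 2 →
        ‖(zetaPole s)⁻¹‖ ≤ C * (1 + |s.im|) ^ (η - 1) := by
  obtain ⟨K, a, hK, ha, ha1, hL⟩ := log_bound_loc hθ hθ1 hσ hσ1
  obtain ⟨T, hT2, hT⟩ := eventually_log_le (K := K) (a := a) hη ha1
  have hcompact : IsCompact (Icc σ 2 ×ℂ Icc (-T) T) := isCompact_Icc.reProdIm isCompact_Icc
  by_cases hgood : ∀ s ∈ (Icc σ 2 ×ℂ Icc (-T) T), zetaPole s ≠ 0
  · have hcont : ContinuousOn (fun s : ℂ ↦ (zetaPole s)⁻¹ * ((1 + |s.im|) ^ (1 - η) : ℝ))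
        (Icc σ 2 ×ℂ Icc (-T) T) := by
      refine ContinuousOn.mul ?_ ?_
      · exact ContinuousOn.inv₀ zetaPole_differentiable.continuous.continuousOn hgood
      · apply Continuous.continuousOn
        refine continuous_ofReal.comp ?_
        refine Continuous.rpow_const (by fun_prop) fun s ↦ Or.inl ?_
        have := abs_nonneg s.im
        linarith
    obtain ⟨Q, hQ⟩ := hcompact.exists_bound_of_continuousOn hcont
    refine ⟨max Q 2, T, lt_of_lt_of_le (by norm_num) (le_max_right _ _), hT2,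
      fun M hM hZ s hs hs2 him ↦ ?_⟩
    have hpos : 0 < 1 + |s.im| := by linarith [abs_nonneg s.im]
    rcases le_or_gt |s.im| T with hsm | hlg
    · have h1 := hQ s (mem_reProdIm.mpr ⟨⟨hs, hs2⟩, abs_le.mp hsm⟩)
      rw [norm_mul, norm_real, Real.norm_of_nonneg (by positivity)] at h1
      have h2 : ‖(zetaPole s)⁻¹‖ = ‖(zetaPole s)⁻¹‖ * (1 + |s.im|) ^ (1 - η) *
          (1 + |s.im|) ^ (η - 1) := by
        rw [mul_assoc, ← Real.rpow_add hpos]
        simp
      rw [h2]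
      gcongr
      exact h1.trans (le_max_left _ _)
    · have ht2 : 2 ≤ |s.im| := by linarith
      have hball : ∀ z ∈ ball (cen s.im) (2 - θ), riemannZeta z ≠ 0 := by
        intro z hz
        rw [mem_ball, dist_eq_norm] at hz
        obtain ⟨h1, h2⟩ := re_im_of_mem_ball hz
        refine hZ z (by linarith) ?_
        have h3 : |z.im| ≤ |z.im - s.im| + |s.im| := by
          have := abs_add_le (z.im - s.im) s.im
          rwa [sub_add_cancel] at this
        linarith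
      obtain ⟨L, hLd, hLe, hLb⟩ := hL s.im ht2 hball
      obtain ⟨h1, h2⟩ := mem_ball_of_strip hσ hs hs2
      have h3 := hLb s h1
      have h4 := hT |s.im| hlg.le
      have hs1 : s ≠ 1 := by
        intro h
        rw [h, one_im, abs_zero] at ht2
        linarith
      have h6 : ‖(riemannZeta s)⁻¹‖ ≤ |s.im| ^ η := by
        rw [← hLe s h2, ← Complex.exp_neg, Complex.norm_exp]
        have h7 : (-L s).re ≤ ‖L s‖ := (re_le_norm _).trans (by rw [norm_neg])
        have h8 : 0 < |s.im| := by linarith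
        rw [Real.rpow_def_of_pos h8]
        apply Real.exp_le_exp.mpr
        linarith
      have h7 : |s.im| ^ η ≤ (1 + |s.im|) ^ η := by
        apply Real.rpow_le_rpow (abs_nonneg _) (by linarith) hη.le
      have h8 : (1 + |s.im|) / 2 ≤ ‖s - 1‖ := by
        have := abs_im_le_norm (s - 1)
        rw [sub_im, one_im, sub_zero] at this
        linarith
      rw [zetaPole_of_ne hs1, mul_inv, norm_mul, norm_inv]
      have h9 : ‖s - 1‖⁻¹ ≤ 2 * (1 + |s.im|)⁻¹ := by
        rw [inv_le_comm₀ (by linarith) (by positivity), mul_inv, inv_inv]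
        linarith
      have h10 : (1 + |s.im|) ^ (η - 1) = (1 + |s.im|)⁻¹ * (1 + |s.im|) ^ η := by
        rw [Real.rpow_sub hpos, Real.rpow_one]
        field_simp
      rw [h10]
      calc ‖s - 1‖⁻¹ * ‖(riemannZeta s)⁻¹‖ ≤ (2 * (1 + |s.im|)⁻¹) * (1 + |s.im|) ^ η := by
            gcongr
            exact h6.trans h7
        _ = 2 * ((1 + |s.im|)⁻¹ * (1 + |s.im|) ^ η) := by ring
        _ ≤ max Q 2 * ((1 + |s.im|)⁻¹ * (1 + |s.im|) ^ η) := by
            gcongr
            exact le_max_right _ _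
  · push Not at hgood
    obtain ⟨s₀, hs₀, hs₀z⟩ := hgood
    rw [mem_reProdIm] at hs₀
    refine ⟨1, T, one_pos, hT2, fun M hM hZ ↦ ?_⟩
    exfalso
    have hs1 : s₀ ≠ 1 := by
      intro h
      rw [h, zetaPole_one] at hs₀z
      exact one_ne_zero hs₀z
    rw [zetaPole_of_ne hs1] at hs₀z
    rcases mul_eq_zero.mp hs₀z with h | h
    · exact hs1 (sub_eq_zero.mp h)
    · exact hZ s₀ (lt_of_lt_of_le hσ hs₀.1.1) ((abs_le.mpr hs₀.2).trans hM) h

end Pool.Agent.H6
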