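import Mathlib

/-!
Shifting a vertical line of integration.
-/

open Complex Filter Topology MeasureTheory Set

namespace Pool.Agent.H6

lemma integrable_one_add_abs_rpow {p : ℝ} (hp : 1 < p) :
    Integrable fun y : ℝ ↦ (1 + |y|) ^ (-p) := by
  have := integrable_one_add_norm (E := ℝ) (μ := volume) (r := p) (by simpa using hp)
  simpa using this

lemma vertical_integrable {Φ : ℂ → ℂ} {x K p : ℝ} (hp : 1 < p)
    (hd : ∀ y : ℝ, ContinuousAt Φ ((x : ℂ) + y * I))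
    (hb : ∀ y : ℝ, ‖Φ ((x : ℂ) + y * I)‖ ≤ K * (1 + |y|) ^ (-p)) :
    Integrable fun y : ℝ ↦ Φ ((x : ℂ) + y * I) := by
  refine ((integrable_one_add_abs_rpow hp).const_mul K).mono' ?_ (Eventually.of_forall hb)
  refine Continuous.aestronglyMeasurable ?_
  rw [continuous_iff_continuousAt]
  intro y
  exact ContinuousAt.comp (f := fun y : ℝ ↦ (x : ℂ) + y * I) (hd y) (by fun_prop)

/-- two vertical lines give the same integral -/
theorem vertical_shift {Φ : ℂ → ℂ} {l u : ℝ} (hlu : l ≤ u)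
    (hΦ : ∀ s : ℂ, l ≤ s.re → s.re ≤ u → DifferentiableAt ℂ Φ s) {K p : ℝ} (hp : 1 < p)
    (hb : ∀ s : ℂ, l ≤ s.re → s.re ≤ u → ‖Φ s‖ ≤ K * (1 + |s.im|) ^ (-p)) :
    ∫ y : ℝ, Φ ((l : ℂ) + y * I) = ∫ y : ℝ, Φ ((u : ℂ) + y * I) := by
  have hre : ∀ x y : ℝ, ((x : ℂ) + y * I).re = x := by intro x y; simp
  have him : ∀ x y : ℝ, ((x : ℂ) + y * I).im = y := by intro x y; simp
  have hil : Integrable fun y : ℝ ↦ Φ ((l : ℂ) + y * I) := by
    refine vertical_integrable (K := K) hp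
      (fun y ↦ (hΦ _ (by rw [hre]) (by rw [hre]; exact hlu)).continuousAt) fun y ↦ ?_
    have := hb ((l : ℂ) + y * I) (by rw [hre]) (by rw [hre]; exact hlu)
    rwa [him] at this
  have hiu : Integrable fun y : ℝ ↦ Φ ((u : ℂ) + y * I) := by
    refine vertical_integrable (K := K) hp
      (fun y ↦ (hΦ _ (by rw [hre]; exact hlu) (by rw [hre])).continuousAt) fun y ↦ ?_
    have := hb ((u : ℂ) + y * I) (by rw [hre]; exact hlu) (by rw [hre])
    rwa [him] at this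
  have hrect : ∀ T : ℝ, 0 ≤ T →
      (∫ x : ℝ in l..u, Φ ((x : ℂ) + ((-T : ℝ) : ℂ) * I))
        - (∫ x : ℝ in l..u, Φ ((x : ℂ) + (T : ℂ) * I))
        + I * (∫ y : ℝ in (-T)..T, Φ ((u : ℂ) + y * I))
        - I * (∫ y : ℝ in (-T)..T, Φ ((l : ℂ) + y * I)) = 0 := by
    intro T hT
    have h := Complex.integral_boundary_rect_eq_zero_of_differentiableOn Φ
      ((l : ℂ) + ((-T : ℝ) : ℂ) * I) ((u : ℂ) + (T : ℂ) * I) ?_
    · simpa only [hre, him, smul_eq_mul] using h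
    · intro s hs
      rw [hre, hre, him, him, uIcc_of_le hlu, mem_reProdIm] at hs
      exact (hΦ s hs.1.1 hs.1.2).differentiableWithinAt
  have hK : 0 ≤ K := by
    have h1 := hb (l : ℂ) (by simp) (by simpa using hlu)
    have h2 := (norm_nonneg _).trans h1
    simpa using h2
  have hdecay : Tendsto (fun T : ℝ ↦ K * (1 + |T|) ^ (-p) * |u - l|) atTop (𝓝 0) := by
    have h1 : Tendsto (fun T : ℝ ↦ (1 + |T|) ^ (-p)) atTop (𝓝 0) := by
      have h2 : Tendsto (fun T : ℝ ↦ 1 + |T|) atTop atTop :=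
        tendsto_atTop_add_const_left _ _ tendsto_abs_atTop_atTop
      exact (tendsto_rpow_neg_atTop (by linarith : 0 < p)).comp h2
    have h3 := (h1.const_mul K).mul_const |u - l|
    simpa using h3
  have hhor : ∀ ε : ℝ, |ε| = 1 →
      Tendsto (fun T : ℝ ↦ ∫ x : ℝ in l..u, Φ ((x : ℂ) + ((ε * T : ℝ) : ℂ) * I)) atTop (𝓝 0) := by
    intro ε hε
    rw [tendsto_zero_iff_norm_tendsto_zero]
    refine squeeze_zero (fun T ↦ norm_nonneg _) (fun T ↦ ?_) hdecay
    refine intervalIntegral.norm_integral_le_of_norm_le_const fun x hx ↦ ?_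
    rw [uIoc_of_le hlu] at hx
    have := hb ((x : ℂ) + ((ε * T : ℝ) : ℂ) * I) (by rw [hre]; exact hx.1.le) (by rw [hre]; exact hx.2)
    rw [him, abs_mul, hε, one_mul] at this
    exact this
  have hvl : Tendsto (fun T : ℝ ↦ ∫ y : ℝ in (-T)..T, Φ ((l : ℂ) + y * I)) atTop
      (𝓝 (∫ y : ℝ, Φ ((l : ℂ) + y * I))) :=
    intervalIntegral_tendsto_integral hil tendsto_neg_atTop_atBot tendsto_id
  have hvu : Tendsto (fun T : ℝ ↦ ∫ y : ℝ in (-T)..T, Φ ((u : ℂ) + y * I)) atTop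
      (𝓝 (∫ y : ℝ, Φ ((u : ℂ) + y * I))) :=
    intervalIntegral_tendsto_integral hiu tendsto_neg_atTop_atBot tendsto_id
  have h1 := hhor (-1) (by norm_num)
  have h2 := hhor 1 (by norm_num)
  have htot := ((h1.sub h2).add (hvu.const_mul I)).sub (hvl.const_mul I)
  have hzero : Tendsto (fun T : ℝ ↦
      (∫ x : ℝ in l..u, Φ ((x : ℂ) + ((-1 * T : ℝ) : ℂ) * I))
        - (∫ x : ℝ in l..u, Φ ((x : ℂ) + ((1 * T : ℝ) : ℂ) * I))
        + I * (∫ y : ℝ in (-T)..T, Φ ((u : ℂ) + y * I))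
        - I * (∫ y : ℝ in (-T)..T, Φ ((l : ℂ) + y * I))) atTop (𝓝 0) := by
    refine tendsto_const_nhds.congr' ?_
    filter_upwards [eventually_ge_atTop 0] with T hT
    have := hrect T hT
    rw [neg_one_mul, one_mul, this]
  have h5 := tendsto_nhds_unique htot hzero
  have h6 : I * (∫ y : ℝ, Φ ((u : ℂ) + y * I)) = I * (∫ y : ℝ, Φ ((l : ℂ) + y * I)) := by
    linear_combination h5
  exact (mul_left_cancel₀ I_ne_zero h6).symm

end Pool.Agent.H6
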