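import Mathlib
import Pool.Agent.H6.InvBound
import Pool.Agent.H6.Perron
import Pool.Agent.H6.Shift

/-!
In a zero-free half-plane `re s > θ` the logarithmic partial sums of the Liouville function are
`O(N ^ (θ - 1 + ε))`.
-/

open Complex LSeries Filter Topology MeasureTheory Set

namespace Pool.Agent.H6

/-- Liouville's function as an integer valued completely multiplicative function -/
noncomputable def liouZ : ℕ →*₀ ℤ where
  toFun n := ArithmeticFunction.liouville n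
  map_zero' := by simp
  map_one' := ArithmeticFunction.liouville_apply_one
  map_mul' m n := ArithmeticFunction.liouville_apply_mul m n

lemma liouZ_eq {n : ℕ} (hn : n ≠ 0) : liouZ n = 1 ∨ liouZ n = -1 := by
  show ArithmeticFunction.liouville n = 1 ∨ ArithmeticFunction.liouville n = -1
  rw [ArithmeticFunction.liouville_apply hn]
  exact neg_one_pow_eq_or ℤ _

lemma liouZ_prime {p : ℕ} (hp : p.Prime) : liouZ p = -1 := by
  show ArithmeticFunction.liouville p = -1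
  rw [ArithmeticFunction.liouville_apply hp.ne_zero, ArithmeticFunction.cardFactors_apply_prime hp]
  simp

lemma norm_liouZ_le (n : ℕ) : ‖((liouZ n : ℤ) : ℂ)‖ ≤ 1 := by
  rcases eq_or_ne n 0 with rfl | hn
  · simp
  · rcases liouZ_eq hn with h | h <;> simp [h]

/-- the summand -/
noncomputable def liouSummandHom {s : ℂ} (hs : s ≠ 0) : ℕ →*₀ ℂ where
  toFun n := ((liouZ n : ℤ) : ℂ) * (n : ℂ) ^ (-s)
  map_zero' := by simp [hs]
  map_one' := by simp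
  map_mul' m n := by
    rw [map_mul]
    have := (riemannZetaSummandHom hs).map_mul m n
    simp only [riemannZetaSummandHom, MonoidWithZeroHom.coe_mk, ZeroHom.coe_mk] at this
    rw [this]
    push_cast
    ring

lemma summable_liouSummand {s : ℂ} (hs : 1 < s.re) :
    Summable (fun n ↦ ‖liouSummandHom (ne_zero_of_one_lt_re hs) n‖) := by
  simp only [liouSummandHom, MonoidWithZeroHom.coe_mk, ZeroHom.coe_mk, norm_mul]
  exact (summable_riemannZetaSummand hs).of_nonneg_of_le (fun _ ↦ by positivity)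
    (fun n ↦ mul_le_of_le_one_left (norm_nonneg _) (norm_liouZ_le n))

lemma tsum_liouSummand {s : ℂ} (hs : 1 < s.re) :
    ∑' (n : ℕ), liouSummandHom (ne_zero_of_one_lt_re hs) n
      = LSeries (fun n ↦ ((liouZ n : ℤ) : ℂ)) s := by
  simp only [liouSummandHom, cpow_neg, MonoidWithZeroHom.coe_mk, ZeroHom.coe_mk, LSeries,
    LSeries.term_of_ne_zero' (ne_zero_of_one_lt_re hs), div_eq_mul_inv]

/-- `∑ λ(n) n ^ (-s) = ζ(2 s) / ζ(s)` -/
lemma LSeries_liouville {s : ℂ} (hs : 1 < s.re) :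
    LSeries (fun n ↦ ((liouZ n : ℤ) : ℂ)) s = riemannZeta (2 * s) / riemannZeta s := by
  have h1 := riemannZeta_eulerProduct_hasProd hs
  have h2 : HasProd (fun p : Nat.Primes ↦ (1 - liouSummandHom (ne_zero_of_one_lt_re hs) p)⁻¹)
      (LSeries (fun n ↦ ((liouZ n : ℤ) : ℂ)) s) := by
    rw [← tsum_liouSummand hs]
    exact EulerProduct.eulerProduct_completely_multiplicative_hasProd (summable_liouSummand hs)
  have hs2 : 1 < (2 * s).re := by
    simp; linarith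
  have h3 := riemannZeta_eulerProduct_hasProd hs2
  have h4 := h1.mul h2
  have h5 : (fun p : Nat.Primes ↦ (1 - (p : ℂ) ^ (-s))⁻¹ *
      (1 - liouSummandHom (ne_zero_of_one_lt_re hs) p)⁻¹)
      = fun p : Nat.Primes ↦ (1 - (p : ℂ) ^ (-(2 * s)))⁻¹ := by
    ext p
    simp only [liouSummandHom, MonoidWithZeroHom.coe_mk, ZeroHom.coe_mk]
    rw [liouZ_prime p.2, ← mul_inv]
    congr 1
    have hp : ((p : ℕ) : ℂ) ≠ 0 := by exact_mod_cast p.2.ne_zero
    have h6 : ((p : ℕ) : ℂ) ^ (-(2 * s)) = ((p : ℕ) : ℂ) ^ (-s) * ((p : ℕ) : ℂ) ^ (-s) := by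
      rw [← cpow_add _ _ hp]
      congr 1
      ring
    rw [h6]
    push_cast
    ring
  rw [h5] at h4
  have h7 := h4.unique h3
  have h8 := riemannZeta_ne_zero_of_one_lt_re hs
  field_simp
  rw [← h7]
  ring

/-- the coefficients `λ(n) / n` -/
noncomputable def liouCoeff (n : ℕ) : ℂ := ((liouZ n : ℤ) : ℂ) / n

lemma term_liouCoeff (s : ℂ) : term liouCoeff s = term (fun n ↦ ((liouZ n : ℤ) : ℂ)) (s + 1) := by
  ext n
  rcases eq_or_ne n 0 with rfl | hn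
  · simp
  · rw [term_of_ne_zero hn, term_of_ne_zero hn, liouCoeff]
    have hn' : (n : ℂ) ≠ 0 := by exact_mod_cast hn
    rw [cpow_add _ _ hn', cpow_one]
    field_simp

lemma LSeriesSummable_liou {s : ℂ} (hs : 1 < s.re) :
    LSeriesSummable (fun n ↦ ((liouZ n : ℤ) : ℂ)) s :=
  LSeriesSummable_of_bounded_of_one_lt_re (m := 1) (fun n _ ↦ norm_liouZ_le n) hs

/-- bound for `1 / ((s - 1) ζ(s))` -/
lemma inv_zetaPole_bound {θ : ℝ} (hθ : 1 / 2 ≤ θ) (hθ1 : θ < 1)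
    (hZ : ∀ s : ℂ, θ < s.re → riemannZeta s ≠ 0) {σ : ℝ} (hσ : θ < σ) {η : ℝ} (hη : 0 < η) :
    ∃ C : ℝ, 0 < C ∧ ∀ s : ℂ, σ ≤ s.re → s.re ≤ 2 →
      ‖(zetaPole s)⁻¹‖ ≤ C * (1 + |s.im|) ^ (η - 1) := by
  obtain ⟨C, hC, hb⟩ := inv_zeta_bound hθ hθ1 hZ hσ hη
  have hzp : ∀ s : ℂ, θ < s.re → zetaPole s ≠ 0 := by
    intro s hs
    rcases eq_or_ne s 1 with rfl | h1
    · rw [zetaPole_one]; exact one_ne_zero
    · rw [zetaPole_of_ne h1]
      exact mul_ne_zero (sub_ne_zero.mpr h1) (hZ s hs)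
  have hcompact : IsCompact (Icc σ 2 ×ℂ Icc (-1) 1) := isCompact_Icc.reProdIm isCompact_Icc
  have hcont : ContinuousOn (fun s : ℂ ↦ (zetaPole s)⁻¹ * ((1 + |s.im|) ^ (1 - η) : ℝ))
      (Icc σ 2 ×ℂ Icc (-1) 1) := by
    refine ContinuousOn.mul ?_ ?_
    · refine ContinuousOn.inv₀ zetaPole_differentiable.continuous.continuousOn ?_
      intro s hs
      exact hzp s (lt_of_lt_of_le hσ (mem_reProdIm.mp hs).1.1)
    · apply Continuous.continuousOn
      refine continuous_ofReal.comp ?_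
      refine Continuous.rpow_const (by fun_prop) fun s ↦ Or.inl ?_
      have := abs_nonneg s.im
      linarith
  obtain ⟨M, hM⟩ := hcompact.exists_bound_of_continuousOn hcont
  refine ⟨max M (2 * C), lt_of_lt_of_le (by positivity) (le_max_right _ _), fun s hs hs2 ↦ ?_⟩
  have hpos : 0 < 1 + |s.im| := by linarith [abs_nonneg s.im]
  rcases le_or_gt |s.im| 1 with hsm | hlg
  · have h1 := hM s (mem_reProdIm.mpr ⟨⟨hs, hs2⟩, abs_le.mp hsm⟩)
    rw [norm_mul, norm_real, Real.norm_of_nonneg (by positivity)] at h1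
    have h2 : ‖(zetaPole s)⁻¹‖ = ‖(zetaPole s)⁻¹‖ * (1 + |s.im|) ^ (1 - η) *
        (1 + |s.im|) ^ (η - 1) := by
      rw [mul_assoc, ← Real.rpow_add hpos]
      simp
    rw [h2]
    gcongr
    exact h1.trans (le_max_left _ _)
  · have h1 := hb s hs hs2
    rw [div_eq_mul_inv, norm_mul] at h1
    have h2 : (1 + |s.im|) / 2 ≤ ‖s - 1‖ := by
      have := abs_im_le_norm (s - 1)
      rw [sub_im, one_im, sub_zero] at this
      linarith
    have h3 : (1 + |s.im|) / 2 * ‖(zetaPole s)⁻¹‖ ≤ C * (1 + |s.im|) ^ η := by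
      refine le_trans ?_ h1
      gcongr
    have h4 : ‖(zetaPole s)⁻¹‖ ≤ 2 * C * (1 + |s.im|) ^ (η - 1) := by
      rw [Real.rpow_sub hpos, Real.rpow_one]
      rw [← mul_div_assoc, le_div_iff₀ hpos]
      nlinarith
    refine h4.trans ?_
    gcongr
    exact le_max_right _ _

/-- the integrand after the shift `w = s + 1` -/
noncomputable def liouPhi (N : ℕ) (w : ℂ) : ℂ :=
  (((N + 1 : ℕ) : ℂ) ^ w - (N : ℂ) ^ w) / w * riemannZeta (2 * w) * (zetaPole w)⁻¹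

lemma kern_mul_LSeries {N : ℕ} {s : ℂ} (hs : 0 < s.re) :
    kern N s * LSeries liouCoeff s = liouPhi N (s + 1) := by
  have hL : LSeries liouCoeff s = riemannZeta (2 * (s + 1)) / riemannZeta (s + 1) := by
    rw [← LSeries_liouville (by simp; linarith), LSeries, LSeries, term_liouCoeff]
  have hs0 : s ≠ 0 := by intro h; rw [h, zero_re] at hs; exact lt_irrefl _ hs
  have hs1 : s + 1 ≠ 1 := by simpa using hs0
  have hz : riemannZeta (s + 1) ≠ 0 := riemannZeta_ne_zero_of_one_lt_re (by simp; linarith)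
  have hs2 : s + 1 ≠ 0 := by
    intro h
    have := congrArg Complex.re h
    simp at this
    linarith
  rw [hL, kern, liouPhi, zetaPole_of_ne hs1]
  have : s + 1 - 1 = s := by ring
  rw [this]
  field_simp

lemma one_add_abs_le_norm {w : ℂ} (hw : 1 / 2 ≤ w.re) : 1 + |w.im| ≤ 3 * ‖w‖ := by
  have h1 := abs_im_le_norm w
  have h2 := re_le_norm w
  linarith

lemma norm_pow_sub_pow_le {N : ℕ} (hN : 1 ≤ N) {w : ℂ} (h0 : 0 < w.re) (h1 : w.re ≤ 1) :
    ‖((N + 1 : ℕ) : ℂ) ^ w - (N : ℂ) ^ w‖ ≤ ‖w‖ * (N : ℝ) ^ (w.re - 1) := by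
  have hw : w ≠ 0 := by intro h; rw [h, zero_re] at h0; exact lt_irrefl _ h0
  have hN0 : (0 : ℝ) < N := by exact_mod_cast hN
  have hderiv : ∀ x ∈ Icc (N : ℝ) (N + 1), HasDerivWithinAt (fun x : ℝ ↦ (x : ℂ) ^ w)
      (w * (x : ℂ) ^ (w - 1)) (Icc (N : ℝ) (N + 1)) x := by
    intro x hx
    have hx0 : 0 < x := lt_of_lt_of_le hN0 hx.1
    exact (hasDerivAt_ofReal_cpow_const hx0.ne' hw).hasDerivWithinAt
  have hbd : ∀ x ∈ Icc (N : ℝ) (N + 1), ‖w * (x : ℂ) ^ (w - 1)‖ ≤ ‖w‖ * (N : ℝ) ^ (w.re - 1) := by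
    intro x hx
    have hx0 : 0 < x := lt_of_lt_of_le hN0 hx.1
    rw [norm_mul, norm_cpow_eq_rpow_re_of_pos hx0, sub_re, one_re]
    have : x ^ (w.re - 1) ≤ (N : ℝ) ^ (w.re - 1) :=
      Real.rpow_le_rpow_of_nonpos hN0 hx.1 (by linarith)
    gcongr
  have h2 := (convex_Icc (N : ℝ) (N + 1)).norm_image_sub_le_of_norm_hasDerivWithin_le hderiv hbd
    (show (N : ℝ) ∈ Icc (N : ℝ) (N + 1) from ⟨le_rfl, by linarith⟩)
    (show (N : ℝ) + 1 ∈ Icc (N : ℝ) (N + 1) from ⟨by linarith, le_rfl⟩)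
  have h3 : (N : ℝ) + 1 - N = 1 := by ring
  rw [h3, norm_one, mul_one] at h2
  push_cast at h2 ⊢
  exact h2

lemma norm_pow_sub_pow_le' {N : ℕ} (hN : 1 ≤ N) {w : ℂ} (h0 : 0 < w.re) :
    ‖((N + 1 : ℕ) : ℂ) ^ w - (N : ℂ) ^ w‖ ≤ 2 * ((N : ℝ) + 1) ^ w.re := by
  have hN0 : (0 : ℝ) < N := by exact_mod_cast hN
  refine (norm_sub_le _ _).trans ?_
  rw [norm_natCast_cpow_of_pos (by omega), norm_natCast_cpow_of_pos (by omega)]
  push_cast
  have : (N : ℝ) ^ w.re ≤ ((N : ℝ) + 1) ^ w.re := by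
    apply Real.rpow_le_rpow hN0.le (by linarith) h0.le
  linarith

/-- **Liouville sums in a zero-free half-plane.** -/
theorem liouville_logSum_bound {θ : ℝ} (hθ : 1 / 2 ≤ θ) (hθ1 : θ < 1)
    (hZ : ∀ s : ℂ, θ < s.re → riemannZeta s ≠ 0) {ε : ℝ} (hε : 0 < ε) :
    ∃ C : ℝ, ∀ N : ℕ, 1 ≤ N → ‖∑ n ∈ Finset.Icc 1 N, liouCoeff n‖ ≤ C * (N : ℝ) ^ (θ - 1 + ε) := by
  set ε' : ℝ := min ε (1 - θ) with hε'
  have hε'0 : 0 < ε' := lt_min hε (by linarith)
  set σ : ℝ := θ + ε' / 2 with hσ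
  have hσθ : θ < σ := by rw [hσ]; linarith
  have hσ1 : σ < 1 := by
    have := min_le_right ε (1 - θ)
    rw [hσ]; linarith
  set τ : ℝ := ε' / 2 with hτ
  have hτ0 : 0 < τ := by rw [hτ]; linarith
  have hτ1 : τ < 1 := by
    have := min_le_right ε (1 - θ)
    rw [hτ]; linarith
  obtain ⟨C, hC, hCb⟩ := inv_zetaPole_bound hθ hθ1 hZ hσθ (η := τ / 2) (by linarith)
  set Z₀ : ℝ := ∑' n : ℕ, 1 / (n : ℝ) ^ (2 * σ) with hZ0
  have hZ0nn : 0 ≤ Z₀ := tsum_nonneg fun n ↦ by positivity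
  have hz2 : ∀ w : ℂ, σ ≤ w.re → ‖riemannZeta (2 * w)‖ ≤ Z₀ := by
    intro w hw
    exact norm_riemannZeta_le (by linarith) (by simp; linarith)
  have hzp : ∀ s : ℂ, θ < s.re → zetaPole s ≠ 0 := by
    intro s hs
    rcases eq_or_ne s 1 with rfl | h1
    · rw [zetaPole_one]; exact one_ne_zero
    · rw [zetaPole_of_ne h1]
      exact mul_ne_zero (sub_ne_zero.mpr h1) (hZ s hs)
  set J : ℝ := ∫ y : ℝ, (1 + |y|) ^ (-(1 + τ / 2)) with hJ
  have hJnn : 0 ≤ J := integral_nonneg fun y ↦ by positivity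
  refine ⟨(12 * Z₀ * C) * J, fun N hN ↦ ?_⟩
  have hN0 : (0 : ℝ) < N := by exact_mod_cast hN
  have hN1 : (1 : ℝ) ≤ N := by exact_mod_cast hN
  -- Perron
  have hsum1 : LSeriesSummable liouCoeff ((1 : ℝ) : ℂ) := by
    unfold LSeriesSummable
    rw [term_liouCoeff]
    exact LSeriesSummable_liou (by simp)
  have hP := perron one_pos hsum1 hN
  have hPphi : ∀ y : ℝ, kern N (((1 : ℝ) : ℂ) + y * I) * LSeries liouCoeff (((1 : ℝ) : ℂ) + y * I)
      = liouPhi N (((2 : ℝ) : ℂ) + y * I) := by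
    intro y
    rw [kern_mul_LSeries (by simp)]
    congr 1
    push_cast
    ring
  rw [hP]
  simp_rw [hPphi]
  -- shift
  have hdiff : ∀ w : ℂ, σ ≤ w.re → w.re ≤ 2 → DifferentiableAt ℂ (liouPhi N) w := by
    intro w hw _
    have hw0 : w ≠ 0 := by intro h; rw [h, zero_re] at hw; linarith
    have h2w : (2 * w) ≠ 1 := by
      intro h
      have := congrArg Complex.re h
      simp at this
      linarith
    have hzw := hzp w (by linarith)
    have hNc : ((N + 1 : ℕ) : ℂ) ≠ 0 := by exact_mod_cast (by omega : N + 1 ≠ 0)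
    have hNc' : (N : ℂ) ≠ 0 := by exact_mod_cast (by omega : N ≠ 0)
    have d1 : DifferentiableAt ℂ (fun w : ℂ ↦ ((N + 1 : ℕ) : ℂ) ^ w) w :=
      differentiableAt_id.const_cpow (Or.inl hNc)
    have d2 : DifferentiableAt ℂ (fun w : ℂ ↦ (N : ℂ) ^ w) w :=
      differentiableAt_id.const_cpow (Or.inl hNc')
    have d3 : DifferentiableAt ℂ (fun w : ℂ ↦ riemannZeta (2 * w)) w :=
      DifferentiableAt.comp w (differentiableAt_riemannZeta h2w) (by fun_prop)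
    have d4 : DifferentiableAt ℂ (fun w : ℂ ↦ (zetaPole w)⁻¹) w :=
      (zetaPole_differentiable w).inv hzw
    exact (((d1.sub d2).div differentiableAt_id hw0).mul d3).mul d4
  have hstrip : ∀ w : ℂ, σ ≤ w.re → w.re ≤ 2 →
      ‖liouPhi N w‖ ≤ (2 * ((N : ℝ) + 1) ^ (2 : ℝ) * 3 * Z₀ * C) * (1 + |w.im|) ^ (-(2 - τ / 2)) := by
    intro w hw hw2
    have hpos : 0 < 1 + |w.im| := by linarith [abs_nonneg w.im]
    have hw3 := one_add_abs_le_norm (w := w) (by linarith)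
    have hwpos : 0 < ‖w‖ := by linarith
    have b1 : ‖((N + 1 : ℕ) : ℂ) ^ w - (N : ℂ) ^ w‖ ≤ 2 * ((N : ℝ) + 1) ^ (2 : ℝ) := by
      refine (norm_pow_sub_pow_le' hN (by linarith)).trans ?_
      have : ((N : ℝ) + 1) ^ w.re ≤ ((N : ℝ) + 1) ^ (2 : ℝ) :=
        Real.rpow_le_rpow_of_exponent_le (by linarith) hw2
      linarith
    have b2 : 1 / ‖w‖ ≤ 3 * (1 + |w.im|) ^ (-1 : ℝ) := by
      rw [Real.rpow_neg_one, ← div_eq_mul_inv, div_le_div_iff₀ hwpos hpos]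
      linarith
    have b3 := hz2 w hw
    have b4 := hCb w hw hw2
    rw [liouPhi, norm_mul, norm_mul, norm_div, div_eq_mul_one_div]
    calc ‖((N + 1 : ℕ) : ℂ) ^ w - (N : ℂ) ^ w‖ * (1 / ‖w‖) * ‖riemannZeta (2 * w)‖ * ‖(zetaPole w)⁻¹‖
        ≤ (2 * ((N : ℝ) + 1) ^ (2 : ℝ)) * (3 * (1 + |w.im|) ^ (-1 : ℝ)) * Z₀ *
          (C * (1 + |w.im|) ^ (τ / 2 - 1)) := by gcongr
      _ = (2 * ((N : ℝ) + 1) ^ (2 : ℝ) * 3 * Z₀ * C) *
          ((1 + |w.im|) ^ (-1 : ℝ) * (1 + |w.im|) ^ (τ / 2 - 1)) := by ring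
      _ = _ := by
        rw [← Real.rpow_add hpos]
        congr 2
        ring
  have hshift := vertical_shift (Φ := liouPhi N) (l := σ) (u := 2) (by linarith) hdiff
    (p := 2 - τ / 2) (by linarith) hstrip
  rw [← hshift, norm_mul]
  -- bound on the line `re = σ`
  have hline : ∀ y : ℝ, ‖liouPhi N ((σ : ℂ) + y * I)‖ ≤
      (12 * Z₀ * C) * (N : ℝ) ^ (θ - 1 + ε) * (1 + |y|) ^ (-(1 + τ / 2)) := by
    intro y
    set w : ℂ := (σ : ℂ) + y * I with hw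
    have hwre : w.re = σ := by simp [hw]
    have hwim : w.im = y := by simp [hw]
    have hpos : 0 < 1 + |y| := by linarith [abs_nonneg y]
    have hw3 := one_add_abs_le_norm (w := w) (by rw [hwre]; linarith)
    rw [hwim] at hw3
    have hwpos : 0 < ‖w‖ := by linarith
    have b1 : ‖((N + 1 : ℕ) : ℂ) ^ w - (N : ℂ) ^ w‖ ≤ 4 * (N : ℝ) ^ σ := by
      refine (norm_pow_sub_pow_le' hN (by rw [hwre]; linarith)).trans ?_
      rw [hwre]
      have : ((N : ℝ) + 1) ^ σ ≤ 2 * (N : ℝ) ^ σ := by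
        calc ((N : ℝ) + 1) ^ σ ≤ (2 * N) ^ σ := by
              apply Real.rpow_le_rpow (by linarith) (by linarith) (by linarith)
          _ = 2 ^ σ * (N : ℝ) ^ σ := Real.mul_rpow (by norm_num) hN0.le
          _ ≤ 2 ^ (1 : ℝ) * (N : ℝ) ^ σ := by
              gcongr
              · norm_num
          _ = 2 * (N : ℝ) ^ σ := by rw [Real.rpow_one]
      linarith
    have b1' : ‖((N + 1 : ℕ) : ℂ) ^ w - (N : ℂ) ^ w‖ ≤ ‖w‖ * (N : ℝ) ^ (σ - 1) := by
      have := norm_pow_sub_pow_le hN (w := w) (by rw [hwre]; linarith) (by rw [hwre]; linarith)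
      rwa [hwre] at this
    set D : ℝ := ‖((N + 1 : ℕ) : ℂ) ^ w - (N : ℂ) ^ w‖ with hD
    have hD0 : 0 ≤ D := norm_nonneg _
    have b2 : D ≤ 4 * (N : ℝ) ^ (σ - 1 + τ) * ‖w‖ ^ (1 - τ) := by
      have e1 : D ^ τ ≤ (4 * (N : ℝ) ^ σ) ^ τ := Real.rpow_le_rpow hD0 b1 hτ0.le
      have e2 : D ^ (1 - τ) ≤ (‖w‖ * (N : ℝ) ^ (σ - 1)) ^ (1 - τ) :=
        Real.rpow_le_rpow hD0 b1' (by linarith)
      have e3 : D = D ^ τ * D ^ (1 - τ) := by
        rw [← Real.rpow_add_of_nonneg hD0 hτ0.le (by linarith)]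
        simp
      have e4 : (4 : ℝ) ^ τ ≤ 4 := by
        calc (4 : ℝ) ^ τ ≤ 4 ^ (1 : ℝ) := Real.rpow_le_rpow_of_exponent_le (by norm_num) hτ1.le
          _ = 4 := Real.rpow_one 4
      have e5 : ((N : ℝ) ^ σ) ^ τ * ((N : ℝ) ^ (σ - 1)) ^ (1 - τ) = (N : ℝ) ^ (σ - 1 + τ) := by
        rw [← Real.rpow_mul hN0.le, ← Real.rpow_mul hN0.le, ← Real.rpow_add hN0]
        congr 1
        ring
      rw [e3]
      calc D ^ τ * D ^ (1 - τ) ≤ (4 * (N : ℝ) ^ σ) ^ τ * (‖w‖ * (N : ℝ) ^ (σ - 1)) ^ (1 - τ) := by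
            gcongr
        _ = 4 ^ τ * (((N : ℝ) ^ σ) ^ τ * ((N : ℝ) ^ (σ - 1)) ^ (1 - τ)) * ‖w‖ ^ (1 - τ) := by
            rw [Real.mul_rpow (by norm_num) (by positivity), Real.mul_rpow (by positivity)
              (by positivity)]
            ring
        _ = 4 ^ τ * (N : ℝ) ^ (σ - 1 + τ) * ‖w‖ ^ (1 - τ) := by rw [e5]
        _ ≤ _ := by gcongr
    have b3 := hz2 w (by rw [hwre])
    have b4 := hCb w (by rw [hwre]) (by rw [hwre]; linarith)
    rw [hwim] at b4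
    have b5 : ‖w‖ ^ (-τ) ≤ 3 * (1 + |y|) ^ (-τ) := by
      have f1 : (1 + |y|) / 3 ≤ ‖w‖ := by linarith
      have f2 : ‖w‖ ^ (-τ) ≤ ((1 + |y|) / 3) ^ (-τ) :=
        Real.rpow_le_rpow_of_nonpos (by positivity) f1 (by linarith)
      refine f2.trans ?_
      rw [Real.div_rpow hpos.le (by norm_num), Real.rpow_neg (by norm_num : (0:ℝ) ≤ 3),
        div_inv_eq_mul, mul_comm]
      gcongr
      calc (3 : ℝ) ^ τ ≤ 3 ^ (1 : ℝ) := Real.rpow_le_rpow_of_exponent_le (by norm_num) hτ1.le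
        _ = 3 := Real.rpow_one 3
    have b6 : (N : ℝ) ^ (σ - 1 + τ) ≤ (N : ℝ) ^ (θ - 1 + ε) := by
      apply Real.rpow_le_rpow_of_exponent_le hN1
      have := min_le_left ε (1 - θ)
      rw [hσ, hτ]
      linarith
    rw [liouPhi, norm_mul, norm_mul, norm_div, ← hD]
    have hwτ : ‖w‖ ^ (1 - τ) / ‖w‖ = ‖w‖ ^ (-τ) := by
      rw [div_eq_iff hwpos.ne', ← Real.rpow_add_one hwpos.ne']
      congr 1
      ring
    calc D / ‖w‖ * ‖riemannZeta (2 * w)‖ * ‖(zetaPole w)⁻¹‖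
        ≤ (4 * (N : ℝ) ^ (σ - 1 + τ) * ‖w‖ ^ (1 - τ)) / ‖w‖ * Z₀ *
          (C * (1 + |y|) ^ (τ / 2 - 1)) := by gcongr
      _ = 4 * Z₀ * C * (N : ℝ) ^ (σ - 1 + τ) * (‖w‖ ^ (1 - τ) / ‖w‖) * (1 + |y|) ^ (τ / 2 - 1) := by
          ring
      _ = 4 * Z₀ * C * (N : ℝ) ^ (σ - 1 + τ) * ‖w‖ ^ (-τ) * (1 + |y|) ^ (τ / 2 - 1) := by
          rw [hwτ]
      _ ≤ 4 * Z₀ * C * (N : ℝ) ^ (θ - 1 + ε) * (3 * (1 + |y|) ^ (-τ)) *
          (1 + |y|) ^ (τ / 2 - 1) := by gcongr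
      _ = (12 * Z₀ * C) * (N : ℝ) ^ (θ - 1 + ε) *
          ((1 + |y|) ^ (-τ) * (1 + |y|) ^ (τ / 2 - 1)) := by ring
      _ = _ := by
          rw [← Real.rpow_add hpos]
          congr 2
          ring
  have hint : ‖∫ y : ℝ, liouPhi N ((σ : ℂ) + y * I)‖ ≤
      (12 * Z₀ * C) * (N : ℝ) ^ (θ - 1 + ε) * J := by
    rw [hJ, ← integral_const_mul]
    refine norm_integral_le_of_norm_le ?_ (Eventually.of_forall hline)
    exact (integrable_one_add_abs_rpow (by linarith)).const_mul _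
  have hpi : ‖(1 / (2 * Real.pi) : ℂ)‖ ≤ 1 := by
    have h1 : (1 / (2 * Real.pi) : ℂ) = ((1 / (2 * Real.pi) : ℝ) : ℂ) := by push_cast; rfl
    rw [h1, norm_real, Real.norm_of_nonneg (by positivity), div_le_one (by positivity)]
    have := Real.pi_gt_three
    linarith
  calc ‖(1 / (2 * Real.pi) : ℂ)‖ * ‖∫ y : ℝ, liouPhi N ((σ : ℂ) + y * I)‖
      ≤ 1 * ((12 * Z₀ * C) * (N : ℝ) ^ (θ - 1 + ε) * J) := by gcongr
    _ = _ := by ring

end Pool.Agent.H6
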