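import Mathlib
import Pool.Agent.H6.Perron

/-!
Perron's formula with a trapezoidal weight.
-/

open Complex LSeries Filter Topology MeasureTheory Set

namespace Pool.Agent.H6

/-- trapezoidal Perron kernel -/
noncomputable def kernR (X₁ X₂ : ℝ) (s : ℂ) : ℂ :=
  ((X₂ : ℂ) ^ (s + 1) - (X₁ : ℂ) ^ (s + 1)) / (s * (s + 1))

lemma kernR_inversion {c : ℝ} (hc : 0 < c) {X₁ X₂ : ℝ} (h1 : 0 < X₁) (h2 : 0 < X₂) {n : ℕ}
    (hn : n ≠ 0) :
    ((max (X₂ - n) 0 - max (X₁ - n) 0 : ℝ) : ℂ) = (1 / (2 * Real.pi) : ℂ) *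
      ∫ y : ℝ, kernR X₁ X₂ ((c : ℂ) + y * I) * (n : ℂ) ^ (-((c : ℂ) + y * I)) := by
  have e1 := tri_inversion hc h2 hn
  have e2 := tri_inversion hc h1 hn
  have i1 := integrable_kern_part hc h2 n
  have i2 := integrable_kern_part hc h1 n
  have h1 : (fun y : ℝ ↦ kernR X₁ X₂ ((c : ℂ) + y * I) * (n : ℂ) ^ (-((c : ℂ) + y * I)))
      = fun y : ℝ ↦ ((X₂ : ℂ) ^ ((c : ℂ) + y * I + 1) /
          (((c : ℂ) + y * I) * ((c : ℂ) + y * I + 1)) * (n : ℂ) ^ (-((c : ℂ) + y * I)))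
        - ((X₁ : ℂ) ^ ((c : ℂ) + y * I + 1) /
          (((c : ℂ) + y * I) * ((c : ℂ) + y * I + 1)) * (n : ℂ) ^ (-((c : ℂ) + y * I))) := by
    ext y
    unfold kernR
    ring
  rw [h1, integral_sub i1 i2, mul_sub, ← e1, ← e2]
  push_cast
  ring

/-- **Perron formula** with trapezoidal weight -/
theorem perronR {a : ℕ → ℂ} {c : ℝ} (hc : 0 < c) (ha : LSeriesSummable a c) {X₁ X₂ : ℝ}
    (h1 : 0 < X₁) (h12 : X₁ ≤ X₂) {K : ℕ} (hK : X₂ ≤ K) :
    ∑ n ∈ Finset.Icc 1 K, a n * ((max (X₂ - n) 0 - max (X₁ - n) 0 : ℝ) : ℂ)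
      = (1 / (2 * Real.pi) : ℂ) *
      ∫ y : ℝ, kernR X₁ X₂ ((c : ℂ) + y * I) * LSeries a ((c : ℂ) + y * I) := by
  have h2 : 0 < X₂ := lt_of_lt_of_le h1 h12
  have hkint : Integrable fun y : ℝ ↦ kernR X₁ X₂ ((c : ℂ) + y * I) := by
    have i1 := integrable_kern_part hc h2 1
    have i2 := integrable_kern_part hc h1 1
    refine (i1.sub i2).congr (Eventually.of_forall fun y ↦ ?_)
    simp only [kernR, Pi.sub_apply]
    push_cast
    rw [one_cpow]
    ring
  set F : ℕ → ℝ → ℂ := fun n y ↦ kernR X₁ X₂ ((c : ℂ) + y * I) * term a ((c : ℂ) + y * I) n with hF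
  have hFeq : ∀ n, n ≠ 0 → F n = fun y : ℝ ↦ a n * (kernR X₁ X₂ ((c : ℂ) + y * I) *
      (n : ℂ) ^ (-((c : ℂ) + y * I))) := by
    intro n hn
    ext y
    simp only [hF]
    rw [term_of_ne_zero hn, cpow_neg, div_eq_mul_inv]
    ring
  have hF0 : F 0 = fun _ ↦ 0 := by
    ext y; simp [hF]
  have hFn : ∀ n y, ‖F n y‖ = ‖kernR X₁ X₂ ((c : ℂ) + y * I)‖ * ‖term a (c : ℂ) n‖ := by
    intro n y
    simp only [hF]
    rw [norm_mul, norm_term_eq, norm_term_eq]
    simp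
  have hFint : ∀ n, Integrable (F n) := by
    intro n
    rcases eq_or_ne n 0 with rfl | hn
    · rw [hF0]; exact integrable_zero _ _ _
    · rw [hFeq n hn]
      have i1 := (integrable_kern_part hc h2 n)
      have i2 := (integrable_kern_part hc h1 n)
      refine ((i1.sub i2).const_mul (a n)).congr (Eventually.of_forall fun y ↦ ?_)
      simp only [kernR, Pi.sub_apply]
      ring
  have hFsum : Summable fun n ↦ ∫ y, ‖F n y‖ := by
    have : (fun n ↦ ∫ y, ‖F n y‖)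
        = fun n ↦ (∫ y : ℝ, ‖kernR X₁ X₂ ((c : ℂ) + y * I)‖) * ‖term a (c : ℂ) n‖ := by
      ext n
      simp_rw [hFn n]
      rw [integral_mul_const]
    rw [this]
    exact ha.norm.mul_left _
  have key := hasSum_integral_of_summable_integral_norm hFint hFsum
  have hRHS : ∫ y : ℝ, kernR X₁ X₂ ((c : ℂ) + y * I) * LSeries a ((c : ℂ) + y * I)
      = ∫ y, ∑' n, F n y := by
    refine integral_congr_ae (Eventually.of_forall fun y ↦ ?_)
    simp only [hF]
    rw [tsum_mul_left, LSeries]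
  rw [hRHS, ← key.tsum_eq, ← tsum_mul_left]
  have hval : ∀ n, (1 / (2 * Real.pi) : ℂ) * ∫ y, F n y
      = if n = 0 then 0 else a n * ((max (X₂ - n) 0 - max (X₁ - n) 0 : ℝ) : ℂ) := by
    intro n
    rcases eq_or_ne n 0 with rfl | hn
    · rw [hF0]; simp
    · rw [hFeq n hn, integral_const_mul, ← mul_assoc, mul_comm _ (a n), mul_assoc,
        ← kernR_inversion hc h1 h2 hn, if_neg hn]
  simp_rw [hval]
  rw [tsum_eq_sum (s := Finset.Icc 1 K)]
  · refine Finset.sum_congr rfl fun n hn ↦ ?_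
    rw [Finset.mem_Icc] at hn
    rw [if_neg (by omega)]
  · intro n hn
    split_ifs with h
    · rfl
    · have h3 : K < n := by
        by_contra hcon
        exact hn (Finset.mem_Icc.mpr ⟨Nat.pos_of_ne_zero h, by omega⟩)
      have h4 : (K : ℝ) < n := by exact_mod_cast h3
      rw [max_eq_right (by linarith), max_eq_right (by linarith)]
      simp

end Pool.Agent.H6
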