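import Mathlib
import Pool.Agent.H6.PerronR
import Pool.Agent.H6.InvLoc
import Pool.Agent.H6.LiouvilleSum

/-!
Logarithmic sums of the Liouville function inside a zero-free rectangle.
-/

open Complex LSeries Filter Topology MeasureTheory Set

namespace Pool.Agent.H6

lemma rect_bound {Φ : ℂ → ℂ} {l u T H : ℝ} (hlu : l ≤ u) (hT : 0 ≤ T)
    (hΦ : ∀ s : ℂ, l ≤ s.re → s.re ≤ u → |s.im| ≤ T → DifferentiableAt ℂ Φ s)
    (hH : ∀ s : ℂ, l ≤ s.re → s.re ≤ u → |s.im| = T → ‖Φ s‖ ≤ H) :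
    ‖∫ y : ℝ in (-T)..T, Φ ((u : ℂ) + y * I)‖
      ≤ ‖∫ y : ℝ in (-T)..T, Φ ((l : ℂ) + y * I)‖ + 2 * (H * (u - l)) := by
  have hre : ∀ x y : ℝ, ((x : ℂ) + y * I).re = x := by intro x y; simp
  have him : ∀ x y : ℝ, ((x : ℂ) + y * I).im = y := by intro x y; simp
  have hrect :
      (∫ x : ℝ in l..u, Φ ((x : ℂ) + ((-T : ℝ) : ℂ) * I))
        - (∫ x : ℝ in l..u, Φ ((x : ℂ) + (T : ℂ) * I))
        + I * (∫ y : ℝ in (-T)..T, Φ ((u : ℂ) + y * I))
        - I * (∫ y : ℝ in (-T)..T, Φ ((l : ℂ) + y * I)) = 0 := by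
    have h := Complex.integral_boundary_rect_eq_zero_of_differentiableOn Φ
      ((l : ℂ) + ((-T : ℝ) : ℂ) * I) ((u : ℂ) + (T : ℂ) * I) ?_
    · simpa only [hre, him, smul_eq_mul] using h
    · intro s hs
      rw [hre, hre, him, him, uIcc_of_le hlu, uIcc_of_le (by linarith), mem_reProdIm] at hs
      exact (hΦ s hs.1.1 hs.1.2 (abs_le.mpr hs.2)).differentiableWithinAt
  have hhor : ∀ t : ℝ, |t| = T → ‖∫ x : ℝ in l..u, Φ ((x : ℂ) + (t : ℂ) * I)‖ ≤ H * (u - l) := by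
    intro t ht
    have h1 := intervalIntegral.norm_integral_le_of_norm_le_const (a := l) (b := u) (C := H)
      (f := fun x : ℝ ↦ Φ ((x : ℂ) + (t : ℂ) * I)) fun x hx ↦ by
        rw [uIoc_of_le hlu] at hx
        exact hH _ (by rw [hre]; exact hx.1.le) (by rw [hre]; exact hx.2) (by rw [him]; exact ht)
    rwa [abs_of_nonneg (by linarith)] at h1
  have h1 := hhor (-T) (by rw [abs_neg, abs_of_nonneg hT])
  have h2 := hhor T (abs_of_nonneg hT)
  set A := ∫ x : ℝ in l..u, Φ ((x : ℂ) + ((-T : ℝ) : ℂ) * I) with hA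
  set B := ∫ x : ℝ in l..u, Φ ((x : ℂ) + (T : ℂ) * I) with hB
  set U := ∫ y : ℝ in (-T)..T, Φ ((u : ℂ) + y * I) with hU
  set L := ∫ y : ℝ in (-T)..T, Φ ((l : ℂ) + y * I) with hL
  have h3 : U = L + I * (A - B) := by
    have h4 : I * I = -1 := I_mul_I
    linear_combination (-I) * hrect + (U - L) * h4
  rw [h3]
  refine (norm_add_le _ _).trans ?_
  rw [norm_mul, norm_I, one_mul]
  have h5 := norm_sub_le A B
  linarith

/-- the integrand -/
noncomputable def liouPhiR (X₁ X₂ : ℝ) (w : ℂ) : ℂ :=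
  ((X₂ : ℂ) ^ w - (X₁ : ℂ) ^ w) / w * riemannZeta (2 * w) * (zetaPole w)⁻¹

lemma kernR_mul_LSeries {X₁ X₂ : ℝ} {s : ℂ} (hs : 0 < s.re) :
    kernR X₁ X₂ s * LSeries liouCoeff s = liouPhiR X₁ X₂ (s + 1) := by
  have hL : LSeries liouCoeff s = riemannZeta (2 * (s + 1)) / riemannZeta (s + 1) := by
    rw [← LSeries_liouville (by simp; linarith), LSeries, LSeries, term_liouCoeff]
  have hs0 : s ≠ 0 := by intro h; rw [h, zero_re] at hs; exact lt_irrefl _ hs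
  have hs1 : s + 1 ≠ 1 := by simpa using hs0
  have hz : riemannZeta (s + 1) ≠ 0 := riemannZeta_ne_zero_of_one_lt_re (by simp; linarith)
  have hs2 : s + 1 ≠ 0 := by
    intro h
    have := congrArg Complex.re h
    simp at this
    linarith
  rw [hL, kernR, liouPhiR, zetaPole_of_ne hs1]
  have : s + 1 - 1 = s := by ring
  rw [this]
  field_simp

lemma norm_cpow_sub_le {X h : ℝ} (hX : 0 < X) (hh : 0 ≤ h) {w : ℂ} (h0 : 0 < w.re) (h1 : w.re ≤ 1) :
    ‖((X + h : ℝ) : ℂ) ^ w - (X : ℂ) ^ w‖ ≤ ‖w‖ * X ^ (w.re - 1) * h := by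
  have hw : w ≠ 0 := by intro h; rw [h, zero_re] at h0; exact lt_irrefl _ h0
  have hderiv : ∀ x ∈ Icc X (X + h), HasDerivWithinAt (fun x : ℝ ↦ (x : ℂ) ^ w)
      (w * (x : ℂ) ^ (w - 1)) (Icc X (X + h)) x := by
    intro x hx
    have hx0 : 0 < x := lt_of_lt_of_le hX hx.1
    exact (hasDerivAt_ofReal_cpow_const hx0.ne' hw).hasDerivWithinAt
  have hbd : ∀ x ∈ Icc X (X + h), ‖w * (x : ℂ) ^ (w - 1)‖ ≤ ‖w‖ * X ^ (w.re - 1) := by
    intro x hx
    have hx0 : 0 < x := lt_of_lt_of_le hX hx.1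
    rw [norm_mul, norm_cpow_eq_rpow_re_of_pos hx0, sub_re, one_re]
    have : x ^ (w.re - 1) ≤ X ^ (w.re - 1) :=
      Real.rpow_le_rpow_of_nonpos hX hx.1 (by linarith)
    gcongr
  have h2 := (convex_Icc X (X + h)).norm_image_sub_le_of_norm_hasDerivWithin_le hderiv hbd
    (show X ∈ Icc X (X + h) from ⟨le_rfl, by linarith⟩)
    (show X + h ∈ Icc X (X + h) from ⟨by linarith, le_rfl⟩)
  have h3 : ‖X + h - X‖ = h := by rw [add_sub_cancel_left, Real.norm_of_nonneg hh]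
  rw [h3] at h2
  exact h2

lemma norm_cpow_sub_le' {X h : ℝ} (hX : 1 ≤ X) (hh : 0 ≤ h) (hhX : h ≤ X) {w : ℂ}
    (h0 : 0 < w.re) (h2 : w.re ≤ 2) :
    ‖((X + h : ℝ) : ℂ) ^ w - (X : ℂ) ^ w‖ ≤ 8 * X ^ w.re := by
  refine (norm_sub_le _ _).trans ?_
  rw [norm_cpow_eq_rpow_re_of_pos (by linarith), norm_cpow_eq_rpow_re_of_pos (by linarith)]
  have h3 : (X + h) ^ w.re ≤ 4 * X ^ w.re := by
    calc (X + h) ^ w.re ≤ (2 * X) ^ w.re :=
          Real.rpow_le_rpow (by linarith) (by linarith) h0.le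
      _ = 2 ^ w.re * X ^ w.re := Real.mul_rpow (by norm_num) (by linarith)
      _ ≤ 4 * X ^ w.re := by
          have : (2 : ℝ) ^ w.re ≤ 4 := by
            calc (2 : ℝ) ^ w.re ≤ 2 ^ (2 : ℝ) := Real.rpow_le_rpow_of_exponent_le (by norm_num) h2
              _ = 4 := by norm_num
          have h5 : 0 ≤ X ^ w.re := by positivity
          nlinarith
  have h5 : 0 ≤ X ^ w.re := by positivity
  linarith

/-- unsmoothing -/
lemma unsmooth {M : ℕ} (hM : 1 ≤ M) {h : ℝ} (hh : 0 < h) :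
    ‖(h : ℂ) * ∑ n ∈ Finset.Icc 1 M, liouCoeff n‖ ≤
      ‖∑ n ∈ Finset.Icc 1 (2 * M), liouCoeff n *
        ((max ((M : ℝ) + h - n) 0 - max ((M : ℝ) - n) 0 : ℝ) : ℂ)‖ + h ^ 2 / M := by
  have hM0 : (0 : ℝ) < M := by exact_mod_cast hM
  have hsplit : ∑ n ∈ Finset.Icc 1 (2 * M), liouCoeff n *
        ((max ((M : ℝ) + h - n) 0 - max ((M : ℝ) - n) 0 : ℝ) : ℂ)
      = (h : ℂ) * ∑ n ∈ Finset.Icc 1 M, liouCoeff n
        + ∑ n ∈ Finset.Ioc M (2 * M), liouCoeff n * ((max ((M : ℝ) + h - n) 0 : ℝ) : ℂ) := by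
    have hU : Finset.Icc 1 (2 * M) = Finset.Icc 1 M ∪ Finset.Ioc M (2 * M) := by
      ext n
      simp only [Finset.mem_union, Finset.mem_Icc, Finset.mem_Ioc]
      omega
    rw [hU, Finset.sum_union]
    · congr 1
      · rw [Finset.mul_sum]
        refine Finset.sum_congr rfl fun n hn ↦ ?_
        rw [Finset.mem_Icc] at hn
        have : (n : ℝ) ≤ M := by exact_mod_cast hn.2
        rw [max_eq_left (by linarith), max_eq_left (by linarith)]
        push_cast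
        ring
      · refine Finset.sum_congr rfl fun n hn ↦ ?_
        rw [Finset.mem_Ioc] at hn
        have : (M : ℝ) ≤ n := by exact_mod_cast hn.1.le
        rw [max_eq_right (b := (0 : ℝ)) (a := (M : ℝ) - n) (by linarith), sub_zero]
    · rw [Finset.disjoint_left]
      intro n hn hn2
      rw [Finset.mem_Icc] at hn
      rw [Finset.mem_Ioc] at hn2
      omega
  have hE : ‖∑ n ∈ Finset.Ioc M (2 * M), liouCoeff n * ((max ((M : ℝ) + h - n) 0 : ℝ) : ℂ)‖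
      ≤ h ^ 2 / M := by
    refine (norm_sum_le _ _).trans ?_
    have h1 : ∀ n ∈ Finset.Ioc M (2 * M), ‖liouCoeff n * ((max ((M : ℝ) + h - n) 0 : ℝ) : ℂ)‖
        ≤ if n ≤ M + ⌊h⌋₊ then h / M else 0 := by
      intro n hn
      rw [Finset.mem_Ioc] at hn
      have hnr : (M : ℝ) ≤ n := by exact_mod_cast hn.1.le
      have hn0 : (0 : ℝ) < n := by linarith
      have h2 : ‖liouCoeff n‖ ≤ 1 / M := by
        unfold liouCoeff
        rw [norm_div, norm_natCast]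
        have := norm_liouZ_le n
        calc ‖((liouZ n : ℤ) : ℂ)‖ / (n : ℝ) ≤ 1 / n := by gcongr
          _ ≤ 1 / M := by gcongr
      rw [norm_mul, norm_real, Real.norm_of_nonneg (le_max_right _ _)]
      split_ifs with h3
      · have h4 : max ((M : ℝ) + h - n) 0 ≤ h := max_le (by linarith) hh.le
        calc ‖liouCoeff n‖ * max ((M : ℝ) + h - n) 0 ≤ 1 / M * h := by
              gcongr
          _ = h / M := by ring
      · push Not at h3
        have h4 : h < (⌊h⌋₊ : ℝ) + 1 := Nat.lt_floor_add_one h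
        have h5 : ((M + ⌊h⌋₊ + 1 : ℕ) : ℝ) ≤ n := by exact_mod_cast h3
        push_cast at h5
        rw [max_eq_right (by linarith), mul_zero]
    refine (Finset.sum_le_sum h1).trans ?_
    rw [← Finset.sum_filter, Finset.sum_const, nsmul_eq_mul]
    have h2 : ((Finset.Ioc M (2 * M)).filter (fun n ↦ n ≤ M + ⌊h⌋₊)).card ≤ ⌊h⌋₊ := by
      calc ((Finset.Ioc M (2 * M)).filter (fun n ↦ n ≤ M + ⌊h⌋₊)).card
          ≤ (Finset.Ioc M (M + ⌊h⌋₊)).card := by
            apply Finset.card_le_card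
            intro n hn
            rw [Finset.mem_filter, Finset.mem_Ioc] at hn
            rw [Finset.mem_Ioc]
            exact ⟨hn.1.1, hn.2⟩
        _ = ⌊h⌋₊ := by rw [Nat.card_Ioc]; omega
    have h3 : ((((Finset.Ioc M (2 * M)).filter (fun n ↦ n ≤ M + ⌊h⌋₊)).card : ℕ) : ℝ) ≤ h := by
      calc _ ≤ ((⌊h⌋₊ : ℕ) : ℝ) := by exact_mod_cast h2
        _ ≤ h := Nat.floor_le hh.le
    calc _ ≤ h * (h / M) := by gcongr
      _ = _ := by ring
  have h4 : (h : ℂ) * ∑ n ∈ Finset.Icc 1 M, liouCoeff n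
      = ∑ n ∈ Finset.Icc 1 (2 * M), liouCoeff n *
        ((max ((M : ℝ) + h - n) 0 - max ((M : ℝ) - n) 0 : ℝ) : ℂ)
        - ∑ n ∈ Finset.Ioc M (2 * M), liouCoeff n * ((max ((M : ℝ) + h - n) 0 : ℝ) : ℂ) := by
    rw [hsplit]; ring
  rw [h4]
  refine (norm_sub_le _ _).trans ?_
  linarith

end Pool.Agent.H6
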