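import Mathlib

/-!
The discrete kernel `Ψ_X(t) = ∑_{j ≤ X/t} t (X - t j)` and its monotonicity.
-/

open Finset

namespace Pool.Agent.H6

/-- twice the kernel, in closed form: `X (X - t) + r (t - r)`, `r = X mod t` -/
def psi2 (X t : ℕ) : ℤ := (X : ℤ) * (X - t) + ((X % t : ℕ) : ℤ) * (t - ((X % t : ℕ) : ℤ))

lemma sum_arith (M : ℕ) (X t : ℤ) :
    2 * ∑ j ∈ Icc 1 M, t * (X - t * j) = t * M * (2 * X - t * (M + 1)) := by
  induction M with
  | zero => simp
  | succ M ih =>
    rw [Finset.sum_Icc_succ_top (by omega), mul_add, ih]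
    push_cast
    ring

lemma psi2_eq (X t : ℕ) : 2 * ∑ j ∈ Icc 1 (X / t), (t : ℤ) * ((X : ℤ) - t * j) = psi2 X t := by
  rw [sum_arith, psi2]
  have h : ((X : ℕ) : ℤ) = t * ((X / t : ℕ) : ℤ) + ((X % t : ℕ) : ℤ) := by
    exact_mod_cast (Nat.div_add_mod X t).symm
  set M : ℤ := ((X / t : ℕ) : ℤ)
  set r : ℤ := ((X % t : ℕ) : ℤ)
  rw [h]
  ring

lemma psi2_self (X : ℕ) : psi2 X X = 0 := by
  simp [psi2]

lemma psi2_one (X : ℕ) : psi2 X 1 = X * (X - 1) := by
  simp [psi2, Nat.mod_one]

lemma four_mul_le (a b : ℤ) : 4 * (a * (b - a)) ≤ b ^ 2 := by nlinarith [sq_nonneg (2 * a - b)]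

/-- the kernel is non-increasing, with controlled steps -/
lemma psi2_step {X t : ℕ} (ht : 1 ≤ t) (htX : t < X) :
    psi2 X (t + 1) ≤ psi2 X t ∧ psi2 X t ≤ psi2 X (t + 1) + 4 * X := by
  have hr0 : (0 : ℤ) ≤ ((X % t : ℕ) : ℤ) := by positivity
  have hr1 : ((X % t : ℕ) : ℤ) < t := by exact_mod_cast Nat.mod_lt X (by omega)
  have hr0' : (0 : ℤ) ≤ ((X % (t + 1) : ℕ) : ℤ) := by positivity
  have hr1' : ((X % (t + 1) : ℕ) : ℤ) < t + 1 := by exact_mod_cast Nat.mod_lt X (by omega)
  have ht' : (1 : ℤ) ≤ t := by exact_mod_cast ht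
  have htX' : (t : ℤ) < X := by exact_mod_cast htX
  by_cases hbig : (t + 1) ^ 2 ≤ 4 * X
  · have hbig' : ((t : ℤ) + 1) ^ 2 ≤ 4 * X := by exact_mod_cast hbig
    unfold psi2
    rw [Nat.cast_add t 1, Nat.cast_one]
    generalize ((X % t : ℕ) : ℤ) = r at *
    generalize ((X % (t + 1) : ℕ) : ℤ) = r' at *
    have h1 := four_mul_le r t
    have h2 := four_mul_le r' (t + 1)
    have h3 : 0 ≤ r * (t - r) := mul_nonneg hr0 (by linarith)
    have h4 : 0 ≤ r' * (t + 1 - r') := mul_nonneg hr0' (by linarith)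
    have h5 : (t : ℤ) ^ 2 ≤ (t + 1) ^ 2 := by nlinarith
    constructor
    · nlinarith
    · nlinarith
  · push Not at hbig
    set M := X / t with hM
    set r := X % t with hr
    have hX : X = t * M + r := (Nat.div_add_mod X t).symm
    have hrt : r < t := Nat.mod_lt X (by omega)
    have hMt : M ≤ t := by
      by_contra hcon
      push Not at hcon
      have h1 : t * (t + 1) ≤ t * M := Nat.mul_le_mul_left t hcon
      nlinarith
    have hM1 : 1 ≤ M := by
      rw [hM]
      exact Nat.div_pos htX.le (by omega)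
    rcases Nat.lt_or_ge r M with hlt | hge
    · -- the quotient drops by one
      have hX2 : X = (r + t + 1 - M) + (t + 1) * (M - 1) := by
        have h0 : M ≤ r + t + 1 := by omega
        zify [h0, hM1]
        have hXz : (X : ℤ) = t * M + r := by exact_mod_cast hX
        rw [hXz]
        ring
      have hmod : X % (t + 1) = r + t + 1 - M := by
        rw [hX2, Nat.add_mul_mod_self_left]
        exact Nat.mod_eq_of_lt (by omega)
      unfold psi2
      rw [← hr, hmod]
      have hc : ((r + t + 1 - M : ℕ) : ℤ) = (r : ℤ) + t + 1 - M := by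
        have : M ≤ r + t + 1 := by omega
        push_cast [this]
        ring
      rw [hc]
      have hXz : (X : ℤ) = t * M + r := by exact_mod_cast hX
      have a1 : (0 : ℤ) ≤ r := by positivity
      have a2 : (r : ℤ) + 1 ≤ M := by exact_mod_cast hlt
      have a3 : (M : ℤ) ≤ t := by exact_mod_cast hMt
      have a4 : (r : ℤ) + 1 ≤ t := by exact_mod_cast hrt
      push_cast
      rw [hXz]
      constructor
      · nlinarith [mul_nonneg a1 (sub_nonneg.mpr a4)]
      · nlinarith [mul_nonneg a1 (sub_nonneg.mpr a4), mul_nonneg (sub_nonneg.mpr a3) (sub_nonneg.mpr a2),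
          mul_nonneg a1 (sub_nonneg.mpr a2), mul_nonneg (sub_nonneg.mpr a2) (by linarith : (0:ℤ) ≤ t)]
    · -- same quotient
      have hX2 : X = (r - M) + (t + 1) * M := by
        have : M ≤ r := hge
        zify [this]
        have hXz : (X : ℤ) = t * M + r := by exact_mod_cast hX
        rw [hXz]
        ring
      have hmod : X % (t + 1) = r - M := by
        rw [hX2, Nat.add_mul_mod_self_left]
        exact Nat.mod_eq_of_lt (by omega)
      unfold psi2
      rw [← hr, hmod]
      have hc : ((r - M : ℕ) : ℤ) = (r : ℤ) - M := by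
        push_cast [hge]
        ring
      rw [hc]
      have hXz : (X : ℤ) = t * M + r := by exact_mod_cast hX
      have a1 : (0 : ℤ) ≤ r := by positivity
      have a2 : (M : ℤ) ≤ r := by exact_mod_cast hge
      have a3 : (M : ℤ) ≤ t := by exact_mod_cast hMt
      have a4 : (r : ℤ) + 1 ≤ t := by exact_mod_cast hrt
      have a5 : (1 : ℤ) ≤ M := by exact_mod_cast hM1
      push_cast
      rw [hXz]
      constructor
      · nlinarith
      · nlinarith

/-- in the upper half of the range the steps are explicit -/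
lemma psi2_step_top {X t : ℕ} (htX : t < X) (h2 : X ≤ 2 * t) :
    psi2 X t = psi2 X (t + 1) + 2 * (2 * t + 1 - X) := by
  have h4 : X % (t + 1) = X - (t + 1) := by
    rw [Nat.mod_eq_sub_mod (by omega), Nat.mod_eq_of_lt (by omega)]
  have h5 : ((X - (t + 1) : ℕ) : ℤ) = X - (t + 1) := by
    have : t + 1 ≤ X := by omega
    push_cast [this]
    ring
  unfold psi2
  rw [h4, h5, Nat.cast_add t 1, Nat.cast_one]
  rcases Nat.lt_or_ge X (2 * t) with h | h
  · have h1 : X % t = X - t := by
      rw [Nat.mod_eq_sub_mod htX.le, Nat.mod_eq_of_lt (by omega)]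
    have h6 : ((X - t : ℕ) : ℤ) = X - t := by
      push_cast [htX.le]
      ring
    rw [h1, h6]
    ring
  · have h3 : X = 2 * t := le_antisymm h2 h
    have h1 : X % t = 0 := by rw [h3, Nat.mul_mod_left]
    have h6 : (X : ℤ) = 2 * t := by exact_mod_cast h3
    rw [h1, h6]
    push_cast
    ring

end Pool.Agent.H6
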