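import Mathlib
import Pool.Agent.H6.CertKernel

/-!
One-sided bounds for `∑_{n ≤ m} f(n)/n` control `1 * f` and the `L¹` size of the sums.
-/

open Finset

namespace Pool.Agent.H6

/-- `∑_{d ∣ k} f d` -/
def oneConv {R : Type*} [CommRing R] (f : ℕ → R) (k : ℕ) : R := ∑ d ∈ k.divisors, f d

lemma sum_oneConv_mul {R : Type*} [CommRing R] (f w : ℕ → R) (X : ℕ) :
    ∑ k ∈ Icc 1 X, oneConv f k * w k = ∑ d ∈ Icc 1 X, f d * ∑ j ∈ Icc 1 (X / d), w (d * j) := by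
  unfold oneConv
  simp_rw [Finset.sum_mul]
  rw [Finset.sum_comm' (t' := Icc 1 X) (s' := fun d ↦ (Icc 1 X).filter (d ∣ ·))]
  · refine Finset.sum_congr rfl fun d hd ↦ ?_
    rw [Finset.mem_Icc] at hd
    rw [← Finset.mul_sum]
    congr 1
    symm
    refine Finset.sum_bij (fun j _ ↦ d * j) ?_ ?_ ?_ ?_
    · intro j hj
      rw [Finset.mem_Icc] at hj
      rw [Finset.mem_filter, Finset.mem_Icc]
      refine ⟨⟨Nat.mul_pos hd.1 hj.1, ?_⟩, dvd_mul_right d j⟩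
      calc d * j ≤ d * (X / d) := Nat.mul_le_mul_left d hj.2
        _ ≤ X := Nat.mul_div_le X d
    · intro a _ b _ h
      exact Nat.eq_of_mul_eq_mul_left hd.1 h
    · intro k hk
      rw [Finset.mem_filter, Finset.mem_Icc] at hk
      obtain ⟨⟨h1, h2⟩, j, rfl⟩ := hk
      refine ⟨j, ?_, rfl⟩
      rw [Finset.mem_Icc]
      constructor
      · rcases Nat.eq_zero_or_pos j with rfl | h
        · simp at h1
        · exact h
      · rw [Nat.le_div_iff_mul_le hd.1]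
        rwa [mul_comm] at h2
    · intro j _
      rfl
  · intro k d
    simp only [Finset.mem_Icc, Nat.mem_divisors, Finset.mem_filter]
    constructor
    · rintro ⟨⟨h1, h2⟩, h3, h4⟩
      exact ⟨⟨⟨h1, h2⟩, h3⟩, Nat.pos_of_dvd_of_pos h3 h1, (Nat.le_of_dvd h1 h3).trans h2⟩
    · rintro ⟨⟨⟨h1, h2⟩, h3⟩, h4, h5⟩
      exact ⟨⟨h1, h2⟩, h3, by omega⟩

lemma abel_sum {R : Type*} [CommRing R] (a v : ℕ → R) (X : ℕ) :
    ∑ n ∈ Icc 1 X, a n * v n = (∑ n ∈ Icc 1 X, a n) * v X +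
      ∑ m ∈ Ico 1 X, (∑ n ∈ Icc 1 m, a n) * (v m - v (m + 1)) := by
  induction X with
  | zero => simp
  | succ X ih =>
    rw [Finset.sum_Icc_succ_top (by omega), Finset.sum_Icc_succ_top (by omega), ih]
    rcases Nat.eq_zero_or_pos X with rfl | hX
    · simp
    · rw [Finset.sum_Ico_succ_top hX]
      ring

/-- the logarithmic sums -/
noncomputable def lsum (f : ℕ → ℝ) (m : ℕ) : ℝ := ∑ n ∈ Icc 1 m, f n / n

/-- half of a step of the kernel -/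
noncomputable def kap (X m : ℕ) : ℝ := ((psi2 X m - psi2 X (m + 1) : ℤ) : ℝ) / 2

lemma kap_nonneg {X m : ℕ} (hm : 1 ≤ m) (hmX : m < X) : 0 ≤ kap X m := by
  have h := (psi2_step hm hmX).1
  have h2 : (0 : ℝ) ≤ ((psi2 X m - psi2 X (m + 1) : ℤ) : ℝ) := by exact_mod_cast sub_nonneg.mpr h
  unfold kap
  linarith

lemma kap_le {X m : ℕ} (hm : 1 ≤ m) (hmX : m < X) : kap X m ≤ 2 * X := by
  have h := (psi2_step hm hmX).2
  have h3 : psi2 X m - psi2 X (m + 1) ≤ 4 * X := by linarith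
  have h2 : ((psi2 X m - psi2 X (m + 1) : ℤ) : ℝ) ≤ 4 * X := by exact_mod_cast h3
  unfold kap
  linarith

lemma kap_top {X m : ℕ} (hmX : m < X) (h2 : X ≤ 2 * m) : kap X m = 2 * m + 1 - X := by
  have h := psi2_step_top hmX h2
  have h3 : psi2 X m - psi2 X (m + 1) = 2 * (2 * m + 1 - X) := by linarith
  unfold kap
  rw [h3]
  push_cast
  ring

/-- the basic identity -/
lemma sum_oneConv_linear (f : ℕ → ℝ) (X : ℕ) :
    ∑ k ∈ Icc 1 X, oneConv f k * ((X : ℝ) - k) = ∑ m ∈ Ico 1 X, lsum f m * kap X m := by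
  rw [sum_oneConv_mul]
  have h1 : ∀ d ∈ Icc 1 X, f d * ∑ j ∈ Icc 1 (X / d), ((X : ℝ) - ((d * j : ℕ) : ℝ))
      = (f d / d) * ((psi2 X d : ℝ) / 2) := by
    intro d hd
    rw [Finset.mem_Icc] at hd
    have hd0 : (d : ℝ) ≠ 0 := by
      have : 0 < d := hd.1
      positivity
    have h2 := psi2_eq X d
    have h3 : (psi2 X d : ℝ) = 2 * ∑ j ∈ Icc 1 (X / d), (d : ℝ) * ((X : ℝ) - d * j) := by
      rw [← h2]
      push_cast
      rfl
    rw [h3]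
    have h4 : ∑ j ∈ Icc 1 (X / d), (d : ℝ) * ((X : ℝ) - d * j)
        = d * ∑ j ∈ Icc 1 (X / d), ((X : ℝ) - ((d * j : ℕ) : ℝ)) := by
      rw [Finset.mul_sum]
      refine Finset.sum_congr rfl fun j _ ↦ ?_
      push_cast
      ring
    rw [h4]
    field_simp
  rw [Finset.sum_congr rfl h1, abel_sum, psi2_self]
  simp only [Int.cast_zero, zero_div, mul_zero, zero_add]
  refine Finset.sum_congr rfl fun m _ ↦ ?_
  unfold lsum kap
  push_cast
  ring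

lemma rpow_step {δ : ℝ} (hδ0 : 0 < δ) (hδ : δ ≤ 1 / 2) {m : ℕ} (hm : 1 ≤ m) :
    (m : ℝ) ^ (-δ) ≤ 2 * ((m : ℝ) ^ (1 - δ) - ((m : ℝ) - 1) ^ (1 - δ)) := by
  have hm0 : (0 : ℝ) < m := by exact_mod_cast hm
  have hm1 : (1 : ℝ) ≤ m := by exact_mod_cast hm
  have h1 : ((m : ℝ) - 1) = m * (1 + -(1 / m)) := by field_simp; ring
  have h2 : (-1 : ℝ) ≤ -(1 / m) := by
    rw [neg_le_neg_iff, div_le_one hm0]; exact hm1
  have h3 : (1 + -(1 / (m : ℝ))) ^ (1 - δ) ≤ 1 + (1 - δ) * -(1 / m) :=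
    rpow_one_add_le_one_add_mul_self h2 (by linarith) (by linarith)
  have h4 : ((m : ℝ) - 1) ^ (1 - δ) = (m : ℝ) ^ (1 - δ) * (1 + -(1 / m)) ^ (1 - δ) := by
    rw [← Real.mul_rpow hm0.le (by linarith), ← h1]
  have h5 : (m : ℝ) ^ (1 - δ) = m * (m : ℝ) ^ (-δ) := by
    rw [show (1 : ℝ) - δ = 1 + -δ by ring, Real.rpow_add hm0, Real.rpow_one]
  have h6 : 0 < (m : ℝ) ^ (-δ) := Real.rpow_pos_of_pos hm0 _
  rw [h4]
  have h7 : (m : ℝ) ^ (1 - δ) * (1 + -(1 / m)) ^ (1 - δ)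
      ≤ (m : ℝ) ^ (1 - δ) * (1 + (1 - δ) * -(1 / m)) := by
    gcongr
  have h8 : (m : ℝ) ^ (1 - δ) * (1 + (1 - δ) * -(1 / m))
      = (m : ℝ) ^ (1 - δ) - (1 - δ) * (m : ℝ) ^ (-δ) := by
    rw [h5]
    field_simp
    ring
  nlinarith

lemma sum_rpow_le {δ : ℝ} (hδ0 : 0 < δ) (hδ : δ ≤ 1 / 2) (X : ℕ) :
    ∑ m ∈ Icc 1 X, (m : ℝ) ^ (-δ) ≤ 2 * (X : ℝ) ^ (1 - δ) := by
  induction X with
  | zero => simp [Real.zero_rpow (by linarith : (1 : ℝ) - δ ≠ 0)]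
  | succ X ih =>
    rw [Finset.sum_Icc_succ_top (by omega)]
    have h := rpow_step hδ0 hδ (m := X + 1) (by omega)
    have h2 : (((X + 1 : ℕ) : ℝ) - 1) = X := by push_cast; ring
    rw [h2] at h
    linarith

/-- hypothesis: one-sided bound up to `N` -/
def OneSided (f : ℕ → ℝ) (δ C : ℝ) (N : ℕ) : Prop :=
  ∀ m : ℕ, 1 ≤ m → m ≤ N → lsum f m ≤ C * (m : ℝ) ^ (-δ)

lemma sum_kap_le {δ : ℝ} (hδ0 : 0 < δ) (hδ : δ ≤ 1 / 2) {C : ℝ} (hC : 0 ≤ C) {X : ℕ} :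
    ∑ m ∈ Ico 1 X, (C * (m : ℝ) ^ (-δ)) * kap X m ≤ 4 * C * (X : ℝ) ^ (2 - δ) := by
  have h1 : ∑ m ∈ Ico 1 X, (C * (m : ℝ) ^ (-δ)) * kap X m
      ≤ ∑ m ∈ Ico 1 X, (C * (m : ℝ) ^ (-δ)) * (2 * X) := by
    refine Finset.sum_le_sum fun m hm ↦ ?_
    rw [Finset.mem_Ico] at hm
    have := kap_le hm.1 hm.2
    gcongr
  have h2 : ∑ m ∈ Ico 1 X, (C * (m : ℝ) ^ (-δ)) * (2 * X)
      = 2 * C * X * ∑ m ∈ Ico 1 X, (m : ℝ) ^ (-δ) := by
    rw [Finset.mul_sum]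
    refine Finset.sum_congr rfl fun m _ ↦ ?_
    ring
  have h3 : ∑ m ∈ Ico 1 X, (m : ℝ) ^ (-δ) ≤ 2 * (X : ℝ) ^ (1 - δ) := by
    refine le_trans ?_ (sum_rpow_le hδ0 hδ X)
    refine Finset.sum_le_sum_of_subset_of_nonneg ?_ fun m _ _ ↦ by positivity
    intro m hm
    rw [Finset.mem_Ico] at hm
    rw [Finset.mem_Icc]
    omega
  rcases Nat.eq_zero_or_pos X with rfl | hX
  · simp [Real.zero_rpow (by linarith : (2 : ℝ) - δ ≠ 0)]
  have hX0 : (0 : ℝ) < X := by exact_mod_cast hX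
  have h4 : (X : ℝ) ^ (2 - δ) = X * (X : ℝ) ^ (1 - δ) := by
    rw [show (2 : ℝ) - δ = 1 + (1 - δ) by ring, Real.rpow_add hX0, Real.rpow_one]
  calc _ ≤ _ := h1
    _ = _ := h2
    _ ≤ 2 * C * X * (2 * (X : ℝ) ^ (1 - δ)) := by gcongr
    _ = _ := by rw [h4]; ring

/-- smoothed upper bound for `1 * f` -/
lemma smooth_oneConv_le {f : ℕ → ℝ} {δ : ℝ} (hδ0 : 0 < δ) (hδ : δ ≤ 1 / 2) {C : ℝ} (hC : 0 ≤ C)
    {N : ℕ} (hf : OneSided f δ C N) {X : ℕ} (hX : X ≤ N) :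
    ∑ k ∈ Icc 1 X, oneConv f k * ((X : ℝ) - k) ≤ 4 * C * (X : ℝ) ^ (2 - δ) := by
  rw [sum_oneConv_linear]
  refine le_trans ?_ (sum_kap_le hδ0 hδ hC)
  refine Finset.sum_le_sum fun m hm ↦ ?_
  rw [Finset.mem_Ico] at hm
  exact mul_le_mul_of_nonneg_right (hf m hm.1 (by omega)) (kap_nonneg hm.1 hm.2)

lemma sum_oneConv_le {f : ℕ → ℝ} (hg : ∀ k, 0 ≤ oneConv f k) {δ : ℝ} (hδ0 : 0 < δ)
    (hδ : δ ≤ 1 / 2) {C : ℝ} (hC : 0 ≤ C)
    {N : ℕ} (hf : OneSided f δ C N) {Y : ℕ} (hY : 2 * Y ≤ N) :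
    ∑ k ∈ Icc 1 Y, oneConv f k ≤ 16 * C * (Y : ℝ) ^ (1 - δ) := by
  rcases Nat.eq_zero_or_pos Y with rfl | hY0
  · simp [Real.zero_rpow (by linarith : (1 : ℝ) - δ ≠ 0)]
  have hY0' : (0 : ℝ) < Y := by exact_mod_cast hY0
  have h1 := smooth_oneConv_le hδ0 hδ hC hf hY
  have h2 : (∑ k ∈ Icc 1 Y, oneConv f k) * Y
      ≤ ∑ k ∈ Icc 1 (2 * Y), oneConv f k * (((2 * Y : ℕ) : ℝ) - k) := by
    rw [Finset.sum_mul]
    calc ∑ k ∈ Icc 1 Y, oneConv f k * (Y : ℝ)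
        ≤ ∑ k ∈ Icc 1 Y, oneConv f k * (((2 * Y : ℕ) : ℝ) - k) := by
          refine Finset.sum_le_sum fun k hk ↦ ?_
          rw [Finset.mem_Icc] at hk
          refine mul_le_mul_of_nonneg_left ?_ (hg k)
          have : (k : ℝ) ≤ Y := by exact_mod_cast hk.2
          push_cast
          linarith
      _ ≤ _ := by
          refine Finset.sum_le_sum_of_subset_of_nonneg ?_ ?_
          · intro k hk
            rw [Finset.mem_Icc] at hk ⊢
            omega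
          · intro k hk _
            rw [Finset.mem_Icc] at hk
            refine mul_nonneg (hg k) ?_
            have : (k : ℝ) ≤ ((2 * Y : ℕ) : ℝ) := by exact_mod_cast hk.2
            linarith
  have h3 : (((2 * Y : ℕ) : ℝ)) ^ (2 - δ) ≤ 4 * ((Y : ℝ) ^ (1 - δ) * Y) := by
    push_cast
    rw [Real.mul_rpow (by norm_num) hY0'.le]
    have h4 : (2 : ℝ) ^ (2 - δ) ≤ 4 := by
      calc (2 : ℝ) ^ (2 - δ) ≤ 2 ^ (2 : ℝ) :=
            Real.rpow_le_rpow_of_exponent_le (by norm_num) (by linarith)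
        _ = 4 := by norm_num
    have h5 : (Y : ℝ) ^ (2 - δ) = (Y : ℝ) ^ (1 - δ) * Y := by
      rw [show (2 : ℝ) - δ = (1 - δ) + 1 by ring, Real.rpow_add hY0', Real.rpow_one]
    rw [h5]
    gcongr
  have h6 : (∑ k ∈ Icc 1 Y, oneConv f k) * Y ≤ 16 * C * (Y : ℝ) ^ (1 - δ) * Y := by
    calc _ ≤ _ := h2
      _ ≤ _ := h1
      _ ≤ 4 * C * (4 * ((Y : ℝ) ^ (1 - δ) * Y)) := by gcongr
      _ = _ := by ring
  exact le_of_mul_le_mul_right h6 hY0'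

/-- the `L¹` norm of the logarithmic sums near the top -/
lemma sum_abs_top {f : ℕ → ℝ} (hg : ∀ k, 0 ≤ oneConv f k) {δ : ℝ} (hδ0 : 0 < δ)
    (hδ : δ ≤ 1 / 2) {C : ℝ} (hC : 0 ≤ C)
    {N : ℕ} (hf : OneSided f δ C N) {X : ℕ} (hX : X ≤ N) (hX1 : 1 ≤ X) :
    ∑ m ∈ (Ico 1 X).filter (fun m ↦ 3 * X ≤ 4 * m), |lsum f m| ≤ 16 * C * (X : ℝ) ^ (1 - δ) := by
  have hX0 : (0 : ℝ) < X := by exact_mod_cast hX1
  have h0 : 0 ≤ ∑ m ∈ Ico 1 X, lsum f m * kap X m := by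
    rw [← sum_oneConv_linear]
    refine Finset.sum_nonneg fun k hk ↦ ?_
    rw [Finset.mem_Icc] at hk
    refine mul_nonneg (hg k) ?_
    have : (k : ℝ) ≤ X := by exact_mod_cast hk.2
    linarith
  -- `|S| ≤ 2 C m^{-δ} - S`
  have h1 : ∀ m ∈ Ico 1 X, |lsum f m| ≤ 2 * (C * (m : ℝ) ^ (-δ)) - lsum f m := by
    intro m hm
    rw [Finset.mem_Ico] at hm
    have h2 := hf m hm.1 (by omega)
    have h3 : 0 ≤ C * (m : ℝ) ^ (-δ) := by positivity
    rw [abs_le]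
    constructor <;> linarith
  have h2 : ∑ m ∈ Ico 1 X, |lsum f m| * kap X m ≤ 8 * C * (X : ℝ) ^ (2 - δ) := by
    calc ∑ m ∈ Ico 1 X, |lsum f m| * kap X m
        ≤ ∑ m ∈ Ico 1 X, (2 * (C * (m : ℝ) ^ (-δ)) - lsum f m) * kap X m := by
          refine Finset.sum_le_sum fun m hm ↦ ?_
          have h3 := h1 m hm
          rw [Finset.mem_Ico] at hm
          exact mul_le_mul_of_nonneg_right h3 (kap_nonneg hm.1 hm.2)
      _ = 2 * ∑ m ∈ Ico 1 X, (C * (m : ℝ) ^ (-δ)) * kap X m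
          - ∑ m ∈ Ico 1 X, lsum f m * kap X m := by
          rw [Finset.mul_sum, ← Finset.sum_sub_distrib]
          refine Finset.sum_congr rfl fun m _ ↦ ?_
          ring
      _ ≤ 2 * (4 * C * (X : ℝ) ^ (2 - δ)) - 0 := by
          have := sum_kap_le hδ0 hδ hC (X := X)
          linarith
      _ = _ := by ring
  have h3 : (∑ m ∈ (Ico 1 X).filter (fun m ↦ 3 * X ≤ 4 * m), |lsum f m|) * (X / 2)
      ≤ ∑ m ∈ Ico 1 X, |lsum f m| * kap X m := by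
    rw [Finset.sum_mul]
    calc ∑ m ∈ (Ico 1 X).filter (fun m ↦ 3 * X ≤ 4 * m), |lsum f m| * ((X : ℝ) / 2)
        ≤ ∑ m ∈ (Ico 1 X).filter (fun m ↦ 3 * X ≤ 4 * m), |lsum f m| * kap X m := by
          refine Finset.sum_le_sum fun m hm ↦ ?_
          rw [Finset.mem_filter, Finset.mem_Ico] at hm
          refine mul_le_mul_of_nonneg_left ?_ (abs_nonneg _)
          rw [kap_top hm.1.2 (by omega)]
          have : (3 : ℝ) * X ≤ 4 * m := by exact_mod_cast hm.2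
          linarith
      _ ≤ _ := by
          refine Finset.sum_le_sum_of_subset_of_nonneg (Finset.filter_subset _ _) ?_
          intro m hm _
          rw [Finset.mem_Ico] at hm
          exact mul_nonneg (abs_nonneg _) (kap_nonneg hm.1 hm.2)
  have h4 : (X : ℝ) ^ (2 - δ) = (X : ℝ) ^ (1 - δ) * X := by
    rw [show (2 : ℝ) - δ = (1 - δ) + 1 by ring, Real.rpow_add hX0, Real.rpow_one]
  have h5 : (∑ m ∈ (Ico 1 X).filter (fun m ↦ 3 * X ≤ 4 * m), |lsum f m|) * (X / 2)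
      ≤ 16 * C * (X : ℝ) ^ (1 - δ) * (X / 2) := by
    calc _ ≤ _ := h3
      _ ≤ _ := h2
      _ = _ := by rw [h4]; ring
  exact le_of_mul_le_mul_right h5 (by positivity)

lemma abs_lsum_le {f : ℕ → ℝ} (hf1 : ∀ n, |f n| ≤ 1) (m : ℕ) : |lsum f m| ≤ m := by
  unfold lsum
  refine (Finset.abs_sum_le_sum_abs _ _).trans ?_
  calc ∑ n ∈ Icc 1 m, |f n / n| ≤ ∑ n ∈ Icc 1 m, (1 : ℝ) := by
        refine Finset.sum_le_sum fun n hn ↦ ?_
        rw [Finset.mem_Icc] at hn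
        have hn1 : (1 : ℝ) ≤ n := by exact_mod_cast hn.1
        rw [abs_div, Nat.abs_cast, div_le_one (by linarith)]
        exact (hf1 n).trans hn1
    _ = m := by simp

/-- **one-sided bounds are `L¹` bounds** -/
theorem sum_abs_le {f : ℕ → ℝ} (hf1 : ∀ n, |f n| ≤ 1) (hg : ∀ k, 0 ≤ oneConv f k) {δ : ℝ}
    (hδ0 : 0 < δ) (hδ : δ ≤ 1 / 2) {C : ℝ} (hC : 1 ≤ C)
    {N : ℕ} (hf : OneSided f δ C N) (X : ℕ) (hX : X ≤ N) :
    ∑ m ∈ Ico 1 X, |lsum f m| ≤ 256 * C * (X : ℝ) ^ (1 - δ) := by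
  induction X using Nat.strong_induction_on with
  | _ X ih =>
    rcases Nat.lt_or_ge X 6 with hsm | hlg
    · rcases Nat.eq_zero_or_pos X with rfl | hX0
      · simp [Real.zero_rpow (by linarith : (1 : ℝ) - δ ≠ 0)]
      have hX1 : (1 : ℝ) ≤ X := by exact_mod_cast hX0
      have h1 : (1 : ℝ) ≤ (X : ℝ) ^ (1 - δ) := Real.one_le_rpow hX1 (by linarith)
      have h2 : ∑ m ∈ Ico 1 X, |lsum f m| ≤ ∑ m ∈ Ico 1 X, (6 : ℝ) := by
        refine Finset.sum_le_sum fun m hm ↦ ?_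
        rw [Finset.mem_Ico] at hm
        refine (abs_lsum_le hf1 m).trans ?_
        have : m ≤ 6 := by omega
        exact_mod_cast this
      have h3 : ∑ m ∈ Ico 1 X, (6 : ℝ) ≤ 36 := by
        rw [Finset.sum_const, Nat.card_Ico, nsmul_eq_mul]
        have h4 : X - 1 ≤ 6 := by omega
        have h5 : ((X - 1 : ℕ) : ℝ) ≤ 6 := by exact_mod_cast h4
        linarith
      nlinarith
    · have hX0 : (0 : ℝ) < X := by
        have : 0 < X := by omega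
        exact_mod_cast this
      set X' : ℕ := (3 * X + 3) / 4 with hX'
      have hX'lt : X' < X := by omega
      have h1 := ih X' hX'lt (by omega)
      have h2 := sum_abs_top hg hδ0 hδ (by linarith) hf hX (by omega)
      have h3 : ∑ m ∈ Ico 1 X, |lsum f m| ≤ ∑ m ∈ Ico 1 X', |lsum f m| +
          ∑ m ∈ (Ico 1 X).filter (fun m ↦ 3 * X ≤ 4 * m), |lsum f m| := by
        rw [← Finset.sum_filter_add_sum_filter_not (Ico 1 X) (fun m ↦ 3 * X ≤ 4 * m), add_comm]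
        refine add_le_add ?_ le_rfl
        refine Finset.sum_le_sum_of_subset_of_nonneg ?_ fun _ _ _ ↦ abs_nonneg _
        intro m hm
        rw [Finset.mem_filter, Finset.mem_Ico] at hm
        rw [Finset.mem_Ico]
        omega
      have h4 : (X' : ℝ) ≤ 7 / 8 * X := by
        have h5 : 8 * X' ≤ 7 * X := by omega
        have h6 : (8 : ℝ) * X' ≤ 7 * X := by exact_mod_cast h5
        linarith
      have h5 : (X' : ℝ) ^ (1 - δ) ≤ 15 / 16 * (X : ℝ) ^ (1 - δ) := by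
        calc (X' : ℝ) ^ (1 - δ) ≤ (7 / 8 * X) ^ (1 - δ) :=
              Real.rpow_le_rpow (by positivity) h4 (by linarith)
          _ = (7 / 8) ^ (1 - δ) * (X : ℝ) ^ (1 - δ) := Real.mul_rpow (by norm_num) hX0.le
          _ ≤ (7 / 8) ^ (1 / 2 : ℝ) * (X : ℝ) ^ (1 - δ) := by
              refine mul_le_mul_of_nonneg_right ?_ (by positivity)
              exact Real.rpow_le_rpow_of_exponent_ge (by norm_num) (by norm_num) (by linarith)
          _ ≤ 15 / 16 * (X : ℝ) ^ (1 - δ) := by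
              refine mul_le_mul_of_nonneg_right ?_ (by positivity)
              rw [← Real.sqrt_eq_rpow, Real.sqrt_le_left (by norm_num)]
              norm_num
      calc ∑ m ∈ Ico 1 X, |lsum f m| ≤ _ := h3
        _ ≤ 256 * C * (15 / 16 * (X : ℝ) ^ (1 - δ)) + 16 * C * (X : ℝ) ^ (1 - δ) := by
            refine add_le_add (h1.trans ?_) h2
            gcongr
        _ = _ := by ring

end Pool.Agent.H6
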