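import Mathlib
import Pool.Agent.H6.CertSum
import Pool.Agent.H6.ZetaGrowth

/-!
Weighted sums of `1 * f` at a zero of `ζ`.
-/

open Complex Filter Topology MeasureTheory Set

namespace Pool.Agent.H6

/-- partial sums of `m ^ (-s)` -/
noncomputable def usum (s : ℂ) (M : ℕ) : ℂ := ∑ m ∈ Finset.Icc 1 M, (m : ℂ) ^ (-s)

lemma frInt_integrableOn {s : ℂ} (hs : 0 < s.re) :
    IntegrableOn (fun t : ℝ ↦ (t : ℂ) ^ (-s - 1) • fr t) (Ioi 1) := by
  refine Integrable.mono' (g := fun t ↦ t ^ (-s.re - 1))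
    (integrableOn_Ioi_rpow_of_lt (by linarith) one_pos) ?_ ?_
  · have hm : AEStronglyMeasurable (fun t : ℝ ↦ (t : ℂ) ^ (-s - 1)) (volume.restrict (Ioi 1)) := by
      refine ContinuousOn.aestronglyMeasurable ?_ measurableSet_Ioi
      intro t ht
      have ht0 : 0 < t := lt_trans one_pos ht
      exact (continuousAt_ofReal_cpow_const _ _ (Or.inr ht0.ne')).continuousWithinAt
    exact hm.smul fr_measurable.aestronglyMeasurable
  · filter_upwards [ae_restrict_mem measurableSet_Ioi] with t ht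
    have ht0 : 0 < t := lt_trans one_pos ht
    rw [norm_smul, norm_cpow_eq_rpow_re_of_pos ht0]
    have h2 : (-s - 1).re = -s.re - 1 := by simp
    rw [h2]
    have h3 : 0 ≤ t ^ (-s.re - 1) := Real.rpow_nonneg ht0.le _
    nlinarith [norm_fr_le t, norm_nonneg (fr t)]

lemma fr_step {s : ℂ} (hs0 : s ≠ 0) (hs1 : s ≠ 1) {M : ℕ} (hM : 1 ≤ M) :
    ∫ t in Ioc (M : ℝ) (M + 1), (t : ℂ) ^ (-s - 1) • fr t
      = (((M : ℂ) + 1) ^ (1 - s) - (M : ℂ) ^ (1 - s)) / (1 - s)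
        + M * ((((M : ℂ) + 1) ^ (-s) - (M : ℂ) ^ (-s)) / s) := by
  have hM0 : (0 : ℝ) < M := by exact_mod_cast hM
  have hM1 : (1 : ℝ) ≤ M := by exact_mod_cast hM
  have h1 : ∫ t in Ioc (M : ℝ) (M + 1), (t : ℂ) ^ (-s - 1) • fr t
      = ∫ t in Ioc (M : ℝ) (M + 1), ((t : ℂ) ^ (-s) - M * (t : ℂ) ^ (-s - 1)) := by
    rw [integral_Ioc_eq_integral_Ioo, integral_Ioc_eq_integral_Ioo]
    refine setIntegral_congr_fun measurableSet_Ioo fun t ht ↦ ?_
    have ht0 : 0 < t := lt_trans hM0 ht.1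
    have htc : (t : ℂ) ≠ 0 := by exact_mod_cast ht0.ne'
    have hfl : Int.fract t = t - M := by
      rw [Int.fract]
      congr 1
      have : ⌊t⌋ = (M : ℤ) := by
        rw [Int.floor_eq_iff]
        push_cast
        exact ⟨ht.1.le, ht.2⟩
      rw [this]
      push_cast
      rfl
    have h4 : fr t = (t : ℂ) - (M : ℂ) := by
      unfold fr
      rw [if_neg (by push Not; linarith [ht.1]), hfl]
      push_cast
      rfl
    have h6 : (t : ℂ) ^ (-s) = (t : ℂ) ^ (-s - 1) * t := by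
      rw [cpow_sub _ _ htc, cpow_one]
      field_simp
    simp only [smul_eq_mul]
    rw [h4, h6]
    ring
  have hlt : (M : ℝ) ≤ M + 1 := by linarith
  have hnotmem : (0 : ℝ) ∉ uIcc (M : ℝ) (M + 1) := by
    rw [uIcc_of_le hlt]
    intro h
    linarith [h.1]
  have i1 : IntervalIntegrable (fun t : ℝ ↦ (t : ℂ) ^ (-s)) volume (M : ℝ) (M + 1) :=
    intervalIntegral.intervalIntegrable_cpow (Or.inr hnotmem)
  have i2 : IntervalIntegrable (fun t : ℝ ↦ (t : ℂ) ^ (-s - 1)) volume (M : ℝ) (M + 1) :=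
    intervalIntegral.intervalIntegrable_cpow (Or.inr hnotmem)
  have e1 : ∫ t in (M : ℝ)..(M + 1), (t : ℂ) ^ (-s)
      = (((M : ℂ) + 1) ^ (1 - s) - (M : ℂ) ^ (1 - s)) / (1 - s) := by
    have hne : -s ≠ -1 := by
      intro h
      apply hs1
      linear_combination -h
    rw [integral_cpow (Or.inr ⟨hne, hnotmem⟩)]
    have : -s + 1 = 1 - s := by ring
    rw [this]
    push_cast
    rfl
  have e2 : ∫ t in (M : ℝ)..(M + 1), (t : ℂ) ^ (-s - 1)
      = -((((M : ℂ) + 1) ^ (-s) - (M : ℂ) ^ (-s)) / s) := by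
    have hne : -s - 1 ≠ -1 := by
      intro h
      apply hs0
      linear_combination -h
    rw [integral_cpow (Or.inr ⟨hne, hnotmem⟩)]
    have : -s - 1 + 1 = -s := by ring
    rw [this]
    push_cast
    rw [div_neg]
  rw [h1, ← intervalIntegral.integral_of_le hlt, intervalIntegral.integral_sub i1 (i2.const_mul _),
    intervalIntegral.integral_const_mul, e1, e2]
  ring

lemma usum_eq {s : ℂ} (hs : 0 < s.re) (hs1 : s ≠ 1) {M : ℕ} (hM : 1 ≤ M) :
    usum s M - (M : ℂ) ^ (1 - s) / (1 - s)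
      = s / (s - 1) - s * ∫ t in Ioc (1 : ℝ) M, (t : ℂ) ^ (-s - 1) • fr t := by
  have hs0 : s ≠ 0 := by intro h; rw [h, zero_re] at hs; exact lt_irrefl _ hs
  have h1s : (1 : ℂ) - s ≠ 0 := sub_ne_zero.mpr (Ne.symm hs1)
  have hs1' : s - 1 ≠ 0 := sub_ne_zero.mpr hs1
  induction M, hM using Nat.le_induction with
  | base =>
    simp only [usum, Finset.Icc_self, Finset.sum_singleton, Nat.cast_one, one_cpow, Ioc_self,
      Measure.restrict_empty, integral_zero_measure, mul_zero, sub_zero]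
    field_simp
    ring
  | succ M hM ih =>
    have hM1 : (1 : ℝ) ≤ M := by exact_mod_cast hM
    have hint := frInt_integrableOn hs
    have hsplit : ∫ t in Ioc (1 : ℝ) ((M + 1 : ℕ) : ℝ), (t : ℂ) ^ (-s - 1) • fr t
        = (∫ t in Ioc (1 : ℝ) M, (t : ℂ) ^ (-s - 1) • fr t)
          + ∫ t in Ioc (M : ℝ) (M + 1), (t : ℂ) ^ (-s - 1) • fr t := by
      have hU : Ioc (1 : ℝ) ((M + 1 : ℕ) : ℝ) = Ioc (1 : ℝ) M ∪ Ioc (M : ℝ) (M + 1) := by
        rw [Ioc_union_Ioc_eq_Ioc hM1 (by linarith)]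
        push_cast
        rfl
      rw [hU, setIntegral_union]
      · rw [Set.disjoint_left]
        intro x hx hx2
        linarith [hx.2, hx2.1]
      · exact measurableSet_Ioc
      · exact hint.mono_set Ioc_subset_Ioi_self
      · refine hint.mono_set fun t ht ↦ ?_
        exact lt_of_le_of_lt hM1 ht.1
    have hMc : (M : ℂ) ≠ 0 := by
      have : M ≠ 0 := by omega
      exact_mod_cast this
    have hMc1 : (M : ℂ) + 1 ≠ 0 := by
      have : M + 1 ≠ 0 := by omega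
      exact_mod_cast this
    have hu : usum s (M + 1) = usum s M + ((M : ℂ) + 1) ^ (-s) := by
      unfold usum
      rw [Finset.sum_Icc_succ_top (by omega)]
      push_cast
      rfl
    rw [hsplit, fr_step hs0 hs1 hM, hu]
    push_cast
    have p1 : ((M : ℂ) + 1) ^ (1 - s) = ((M : ℂ) + 1) * ((M : ℂ) + 1) ^ (-s) := by
      rw [sub_eq_add_neg, cpow_add _ _ hMc1, cpow_one]
    have p2 : (M : ℂ) ^ (1 - s) = (M : ℂ) * (M : ℂ) ^ (-s) := by
      rw [sub_eq_add_neg, cpow_add _ _ hMc, cpow_one]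
    have ih' : usum s M = (M : ℂ) ^ (1 - s) / (1 - s) + (s / (s - 1)
        - s * ∫ t in Ioc (1 : ℝ) M, (t : ℂ) ^ (-s - 1) • fr t) := by
      rw [← ih]; ring
    rw [ih', p1, p2]
    field_simp
    ring

/-- at a zero of `ζ` -/
lemma usum_zero {s : ℂ} (hs : 0 < s.re) (hs1 : s ≠ 1) (hz : riemannZeta s = 0) {M : ℕ}
    (hM : 1 ≤ M) :
    ‖usum s M - (M : ℂ) ^ (1 - s) / (1 - s)‖ ≤ ‖s‖ / s.re * (M : ℝ) ^ (-s.re) := by
  have hs0 : s ≠ 0 := by intro h; rw [h, zero_re] at hs; exact lt_irrefl _ hs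
  have hs1' : s - 1 ≠ 0 := sub_ne_zero.mpr hs1
  have hM1 : (1 : ℝ) ≤ M := by exact_mod_cast hM
  have hM0 : (0 : ℝ) < M := by linarith
  have h1 := zetaPole_eq hs
  rw [zetaPole_of_ne hs1, hz, mul_zero] at h1
  have h2 : frMellin s = 1 / (s - 1) := by
    rw [eq_div_iff hs1']
    apply mul_left_cancel₀ hs0
    linear_combination h1
  rw [frMellin_eq] at h2
  have hint := frInt_integrableOn hs
  have hsplit : ∫ t in Ioi (1 : ℝ), (t : ℂ) ^ (-s - 1) • fr t
      = (∫ t in Ioc (1 : ℝ) M, (t : ℂ) ^ (-s - 1) • fr t)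
        + ∫ t in Ioi (M : ℝ), (t : ℂ) ^ (-s - 1) • fr t := by
    rw [← Ioc_union_Ioi_eq_Ioi hM1, setIntegral_union]
    · rw [Set.disjoint_left]
      intro x hx hx2
      exact absurd hx.2 (not_le.mpr hx2)
    · exact measurableSet_Ioi
    · exact hint.mono_set Ioc_subset_Ioi_self
    · exact hint.mono_set (Ioi_subset_Ioi hM1)
  have h3 : usum s M - (M : ℂ) ^ (1 - s) / (1 - s)
      = s * ∫ t in Ioi (M : ℝ), (t : ℂ) ^ (-s - 1) • fr t := by
    rw [usum_eq hs hs1 hM]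
    have h4 : ∫ t in Ioc (1 : ℝ) M, (t : ℂ) ^ (-s - 1) • fr t
        = 1 / (s - 1) - ∫ t in Ioi (M : ℝ), (t : ℂ) ^ (-s - 1) • fr t := by
      rw [← h2, hsplit]; ring
    rw [h4]
    ring
  rw [h3, norm_mul]
  have h5 : ‖∫ t in Ioi (M : ℝ), (t : ℂ) ^ (-s - 1) • fr t‖ ≤ (M : ℝ) ^ (-s.re) / s.re := by
    have h6 : ∫ t in Ioi (M : ℝ), t ^ (-s.re - 1) = (M : ℝ) ^ (-s.re) / s.re := by
      rw [integral_Ioi_rpow_of_lt (by linarith) hM0]
      have : -s.re - 1 + 1 = -s.re := by ring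
      rw [this]
      field_simp
    rw [← h6]
    refine norm_integral_le_of_norm_le ?_ ?_
    · exact integrableOn_Ioi_rpow_of_lt (by linarith) hM0
    · filter_upwards [ae_restrict_mem measurableSet_Ioi] with t ht
      have ht0 : 0 < t := lt_trans hM0 ht
      rw [norm_smul, norm_cpow_eq_rpow_re_of_pos ht0]
      have h2 : (-s - 1).re = -s.re - 1 := by simp
      rw [h2]
      have h3 : 0 ≤ t ^ (-s.re - 1) := Real.rpow_nonneg ht0.le _
      nlinarith [norm_fr_le t, norm_nonneg (fr t)]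
  calc ‖s‖ * ‖∫ t in Ioi (M : ℝ), (t : ℂ) ^ (-s - 1) • fr t‖
      ≤ ‖s‖ * ((M : ℝ) ^ (-s.re) / s.re) := by gcongr
    _ = _ := by ring

/-- a zero of `ζ` is not close to `1` -/
lemma norm_sub_one_ge {s : ℂ} (hs : 0 < s.re) (hs1 : s ≠ 1) (hz : riemannZeta s = 0) :
    s.re ≤ ‖s - 1‖ := by
  have hs0 : s ≠ 0 := by intro h; rw [h, zero_re] at hs; exact lt_irrefl _ hs
  have hs1' : s - 1 ≠ 0 := sub_ne_zero.mpr hs1
  have h1 := zetaPole_eq hs
  rw [zetaPole_of_ne hs1, hz, mul_zero] at h1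
  have h2 : frMellin s = 1 / (s - 1) := by
    rw [eq_div_iff hs1']
    apply mul_left_cancel₀ hs0
    linear_combination h1
  have h3 := norm_frMellin_le hs
  rw [h2, norm_div, norm_one] at h3
  have h4 : 0 < ‖s - 1‖ := norm_pos_iff.mpr hs1'
  rwa [div_le_div_iff₀ h4 hs, one_mul, one_mul] at h3

end Pool.Agent.H6
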