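import Mathlib
import Pool.Agent.H6.CertSum

/-!
The multiplicative function `1 * f` and its truncated Euler product.
-/

open Complex Filter Topology Set

namespace Pool.Agent.H6

section basic

variable (f : ℕ →*₀ ℝ)

/-- the arithmetic function attached to `f` -/
def arith : ArithmeticFunction ℝ := ⟨fun n ↦ f n, map_zero f⟩

lemma arith_isMultiplicative : (arith f).IsMultiplicative :=
  ⟨map_one f, fun {m n} _ ↦ map_mul f m n⟩

lemma oneConv_eq (k : ℕ) : oneConv (fun n ↦ f n) k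
    = (((ArithmeticFunction.zeta : ArithmeticFunction ℕ) : ArithmeticFunction ℝ) * arith f) k := by
  rw [ArithmeticFunction.coe_zeta_mul_apply]
  rfl

lemma oneConv_one : oneConv (fun n ↦ f n) 1 = 1 := by
  simp [oneConv]

lemma oneConv_zero : oneConv (fun n ↦ f n) 0 = 0 := by
  simp [oneConv]

lemma oneConv_mul {m n : ℕ} (h : m.Coprime n) :
    oneConv (fun n ↦ f n) (m * n) = oneConv (fun n ↦ f n) m * oneConv (fun n ↦ f n) n := by
  rw [oneConv_eq, oneConv_eq, oneConv_eq]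
  exact (ArithmeticFunction.isMultiplicative_zeta.natCast.mul (arith_isMultiplicative f)).2 h

lemma oneConv_prime_pow {p : ℕ} (hp : p.Prime) (n : ℕ) :
    oneConv (fun n ↦ f n) (p ^ n) = ∑ i ∈ Finset.range (n + 1), f p ^ i := by
  unfold oneConv
  rw [Nat.sum_divisors_prime_pow hp]
  refine Finset.sum_congr rfl fun i _ ↦ ?_
  rw [map_pow]

lemma oneConv_prime {p : ℕ} (hp : p.Prime) : oneConv (fun n ↦ f n) p = 1 + f p := by
  have := oneConv_prime_pow f hp 1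
  rw [pow_one] at this
  rw [this]
  simp [Finset.sum_range_succ]

variable {f}

lemma geom_nonneg {x : ℝ} (h1 : -1 ≤ x) (h2 : x ≤ 1) (n : ℕ) :
    0 ≤ ∑ i ∈ Finset.range (n + 1), x ^ i := by
  rcases le_or_gt 0 x with h | h
  · exact Finset.sum_nonneg fun i _ ↦ by positivity
  · have h3 : (∑ i ∈ Finset.range (n + 1), x ^ i) * (1 - x) = 1 - x ^ (n + 1) := by
      have := geom_sum_mul_neg x (n + 1)
      exact this
    have h4 : 0 ≤ 1 - x ^ (n + 1) := by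
      have : |x ^ (n + 1)| ≤ 1 := by
        rw [abs_pow]
        exact pow_le_one₀ (abs_nonneg _) (abs_le.mpr ⟨h1, h2⟩)
      linarith [(abs_le.mp this).2]
    have h5 : 0 < 1 - x := by linarith
    by_contra hcon
    push Not at hcon
    nlinarith

lemma oneConv_nonneg (hf : ∀ n, |f n| ≤ 1) (k : ℕ) : 0 ≤ oneConv (fun n ↦ f n) k := by
  rcases eq_or_ne k 0 with rfl | hk
  · rw [oneConv_zero]
  · rw [Nat.multiplicative_factorization (fun k ↦ oneConv (fun n ↦ f n) k)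
      (fun x y h ↦ oneConv_mul f h) (oneConv_one f) hk]
    refine Finset.prod_nonneg fun p hp ↦ ?_
    have hpp : p.Prime := Nat.prime_of_mem_primeFactors (Nat.support_factorization k ▸ hp)
    simp only
    rw [oneConv_prime_pow f hpp]
    have := abs_le.mp (hf p)
    exact geom_nonneg this.1 this.2 _

lemma oneConv_prime_pow_le (hf : ∀ n, |f n| ≤ 1) {p : ℕ} (hp : p.Prime) (n : ℕ) :
    oneConv (fun n ↦ f n) (p ^ n) ≤ n + 1 := by
  rw [oneConv_prime_pow f hp]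
  calc ∑ i ∈ Finset.range (n + 1), f p ^ i ≤ ∑ i ∈ Finset.range (n + 1), (1 : ℝ) := by
        refine Finset.sum_le_sum fun i _ ↦ ?_
        have : |f p ^ i| ≤ 1 := by
          rw [abs_pow]
          exact pow_le_one₀ (abs_nonneg _) (hf p)
        exact (le_abs_self _).trans this
    _ = n + 1 := by simp

end basic

section series

variable {f : ℕ →*₀ ℝ}

/-- the terms `(1 * f)(k) k^{-s}` -/
noncomputable def gterm (f : ℕ →*₀ ℝ) (s : ℂ) (k : ℕ) : ℂ :=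
  ((oneConv (fun n ↦ f n) k : ℝ) : ℂ) * (k : ℂ) ^ (-s)

lemma gterm_zero (s : ℂ) : gterm f s 0 = 0 := by
  unfold gterm
  rw [oneConv_zero]
  simp

lemma gterm_one (s : ℂ) : gterm f s 1 = 1 := by
  unfold gterm
  rw [oneConv_one]
  simp

lemma gterm_mul (s : ℂ) {m n : ℕ} (h : m.Coprime n) :
    gterm f s (m * n) = gterm f s m * gterm f s n := by
  unfold gterm
  rw [oneConv_mul f h]
  push_cast
  have h1 : ((m : ℂ) * n) ^ (-s) = (m : ℂ) ^ (-s) * (n : ℂ) ^ (-s) := by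
    have := mul_cpow_ofReal_nonneg (a := (m : ℝ)) (b := (n : ℝ)) (by positivity) (by positivity) (-s)
    push_cast at this
    exact this
  rw [h1]
  ring

lemma gterm_prime_pow (s : ℂ) {p : ℕ} (hp : p.Prime) (n : ℕ) :
    gterm f s (p ^ n) = ∑ i ∈ Finset.range (n + 1),
      (((f p : ℝ) : ℂ) * (p : ℂ) ^ (-s)) ^ i * ((p : ℂ) ^ (-s)) ^ (n - i) := by
  unfold gterm
  rw [oneConv_prime_pow f hp]
  have h1 : (((p ^ n : ℕ) : ℂ)) ^ (-s) = ((p : ℂ) ^ (-s)) ^ n := by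
    push_cast
    rw [← natCast_cpow_natCast_mul, ← cpow_nat_mul]
  rw [h1]
  push_cast
  rw [Finset.sum_mul]
  refine Finset.sum_congr rfl fun i hi ↦ ?_
  rw [Finset.mem_range] at hi
  rw [mul_pow, mul_assoc, ← pow_add]
  congr 2
  omega

lemma norm_prime_cpow {p : ℕ} (hp : p.Prime) (s : ℂ) : ‖(p : ℂ) ^ (-s)‖ = (p : ℝ) ^ (-s.re) := by
  rw [norm_natCast_cpow_of_pos hp.pos]
  simp

lemma prime_rpow_lt_one {p : ℕ} (hp : p.Prime) {σ : ℝ} (hσ : 0 < σ) : (p : ℝ) ^ (-σ) < 1 :=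
  Real.rpow_lt_one_of_one_lt_of_neg (by exact_mod_cast hp.one_lt) (by linarith)

lemma euler_factor (hf : ∀ n, |f n| ≤ 1) {s : ℂ} (hs : 0 < s.re) {p : ℕ} (hp : p.Prime) :
    Summable (fun n : ℕ ↦ ‖gterm f s (p ^ n)‖) ∧
    ∑' n : ℕ, gterm f s (p ^ n) = (1 - (p : ℂ) ^ (-s))⁻¹ *
      (1 - ((f p : ℝ) : ℂ) * (p : ℂ) ^ (-s))⁻¹ := by
  set w : ℂ := (p : ℂ) ^ (-s) with hw
  set u : ℂ := ((f p : ℝ) : ℂ) * w with hu
  have hwn : ‖w‖ < 1 := by
    rw [hw, norm_prime_cpow hp]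
    exact prime_rpow_lt_one hp hs
  have hun : ‖u‖ < 1 := by
    rw [hu, norm_mul, norm_real, Real.norm_eq_abs]
    have := hf p
    nlinarith [norm_nonneg w]
  have h1 : Summable fun n : ℕ ↦ ‖u ^ n‖ := by
    simp_rw [norm_pow]
    exact summable_geometric_of_lt_one (norm_nonneg _) hun
  have h2 : Summable fun n : ℕ ↦ ‖w ^ n‖ := by
    simp_rw [norm_pow]
    exact summable_geometric_of_lt_one (norm_nonneg _) hwn
  have h3 : ∀ n : ℕ, gterm f s (p ^ n) = ∑ i ∈ Finset.range (n + 1), u ^ i * w ^ (n - i) :=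
    fun n ↦ gterm_prime_pow s hp n
  constructor
  · simp_rw [h3]
    exact summable_norm_sum_mul_range_of_summable_norm h1 h2
  · simp_rw [h3]
    rw [← tsum_mul_tsum_eq_tsum_sum_range_of_summable_norm h1 h2,
      tsum_geometric_of_norm_lt_one hun, tsum_geometric_of_norm_lt_one hwn]
    ring

/-- the truncated Euler product -/
lemma euler_product (hf : ∀ n, |f n| ≤ 1) {s : ℂ} (hs : 0 < s.re) (X : ℕ) :
    Summable (fun m : X.smoothNumbers ↦ ‖gterm f s m‖) ∧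
      HasSum (fun m : X.smoothNumbers ↦ gterm f s m)
        (∏ p ∈ X.primesBelow, ((1 - (p : ℂ) ^ (-s))⁻¹ *
          (1 - ((f p : ℝ) : ℂ) * (p : ℂ) ^ (-s))⁻¹)) := by
  have h := EulerProduct.summable_and_hasSum_smoothNumbers_prod_primesBelow_tsum
    (gterm_one (f := f) s) (fun {m n} h ↦ gterm_mul s h)
    (fun {p} hp ↦ (euler_factor hf hs hp).1) X
  refine ⟨h.1, ?_⟩
  have h2 : ∏ p ∈ X.primesBelow, ∑' n : ℕ, gterm f s (p ^ n)
      = ∏ p ∈ X.primesBelow, ((1 - (p : ℂ) ^ (-s))⁻¹ *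
          (1 - ((f p : ℝ) : ℂ) * (p : ℂ) ^ (-s))⁻¹) := by
    refine Finset.prod_congr rfl fun p hp ↦ ?_
    exact (euler_factor hf hs (Nat.prime_of_mem_primesBelow hp)).2
  rw [← h2]
  exact h.2

/-- lower bound for an Euler factor -/
lemma factor_lower (hf : ∀ n, |f n| ≤ 1) {s : ℂ} (hs : 0 < s.re) {p : ℕ} (hp : p.Prime) :
    Real.exp (-(oneConv (fun n ↦ f n) p * (p : ℝ) ^ (-s.re) + (p : ℝ) ^ (-(2 * s.re)))) ≤
      ‖(1 - (p : ℂ) ^ (-s))⁻¹ * (1 - ((f p : ℝ) : ℂ) * (p : ℂ) ^ (-s))⁻¹‖ := by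
  have hp0 : (0 : ℝ) < p := by exact_mod_cast hp.pos
  rw [← mul_inv, norm_inv, Real.exp_neg]
  have h1 : (1 - (p : ℂ) ^ (-s)) * (1 - ((f p : ℝ) : ℂ) * (p : ℂ) ^ (-s))
      = 1 - ((1 + f p : ℝ) : ℂ) * (p : ℂ) ^ (-s) + ((f p : ℝ) : ℂ) * ((p : ℂ) ^ (-s)) ^ 2 := by
    push_cast
    ring
  have h2 : ‖(1 - (p : ℂ) ^ (-s)) * (1 - ((f p : ℝ) : ℂ) * (p : ℂ) ^ (-s))‖
      ≤ 1 + (oneConv (fun n ↦ f n) p * (p : ℝ) ^ (-s.re) + (p : ℝ) ^ (-(2 * s.re))) := by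
    rw [h1]
    refine (norm_add_le _ _).trans ?_
    have h3 : ‖1 - ((1 + f p : ℝ) : ℂ) * (p : ℂ) ^ (-s)‖
        ≤ 1 + oneConv (fun n ↦ f n) p * (p : ℝ) ^ (-s.re) := by
      refine (norm_sub_le _ _).trans ?_
      rw [norm_one, norm_mul, norm_real, norm_prime_cpow hp, oneConv_prime f hp,
        Real.norm_of_nonneg]
      have := abs_le.mp (hf p)
      linarith
    have h4 : ‖((f p : ℝ) : ℂ) * ((p : ℂ) ^ (-s)) ^ 2‖ ≤ (p : ℝ) ^ (-(2 * s.re)) := by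
      rw [norm_mul, norm_pow, norm_prime_cpow hp, norm_real, Real.norm_eq_abs,
        ← Real.rpow_natCast, ← Real.rpow_mul hp0.le]
      have h5 : -s.re * ((2 : ℕ) : ℝ) = -(2 * s.re) := by push_cast; ring
      rw [h5]
      have := hf p
      have h6 : 0 ≤ (p : ℝ) ^ (-(2 * s.re)) := by positivity
      nlinarith
    linarith
  have hne : (1 - (p : ℂ) ^ (-s)) * (1 - ((f p : ℝ) : ℂ) * (p : ℂ) ^ (-s)) ≠ 0 := by
    have hwn : ‖(p : ℂ) ^ (-s)‖ < 1 := by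
      rw [norm_prime_cpow hp]
      exact prime_rpow_lt_one hp hs
    refine mul_ne_zero ?_ ?_
    · intro h
      rw [sub_eq_zero] at h
      rw [← h, norm_one] at hwn
      exact lt_irrefl _ hwn
    · intro h
      rw [sub_eq_zero] at h
      have h7 : ‖((f p : ℝ) : ℂ) * (p : ℂ) ^ (-s)‖ < 1 := by
        rw [norm_mul, norm_real, Real.norm_eq_abs]
        have := hf p
        nlinarith [norm_nonneg ((p : ℂ) ^ (-s))]
      rw [← h, norm_one] at h7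
      exact lt_irrefl _ h7
  have h8 : 0 < ‖(1 - (p : ℂ) ^ (-s)) * (1 - ((f p : ℝ) : ℂ) * (p : ℂ) ^ (-s))‖ :=
    norm_pos_iff.mpr hne
  apply inv_anti₀ h8
  refine h2.trans ?_
  have := Real.add_one_le_exp
    (oneConv (fun n ↦ f n) p * (p : ℝ) ^ (-s.re) + (p : ℝ) ^ (-(2 * s.re)))
  linarith

/-- upper bound for an Euler factor at a real point -/
lemma factor_upper (hf : ∀ n, |f n| ≤ 1) {σ : ℝ} (hσ : 1 / 2 ≤ σ) {p : ℕ} (hp : p.Prime) :
    ‖(1 - (p : ℂ) ^ (-(σ : ℂ)))⁻¹ * (1 - ((f p : ℝ) : ℂ) * (p : ℂ) ^ (-(σ : ℂ)))⁻¹‖ ≤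
      Real.exp (oneConv (fun n ↦ f n) p * (p : ℝ) ^ (-σ) + 32 * (p : ℝ) ^ (-(2 * σ))) := by
  have hp0 : (0 : ℝ) < p := by exact_mod_cast hp.pos
  have hp2 : (2 : ℝ) ≤ p := by exact_mod_cast hp.two_le
  set z : ℝ := (p : ℝ) ^ (-σ) with hz
  have hz0 : 0 < z := Real.rpow_pos_of_pos hp0 _
  have hz1 : z ≤ 3 / 4 := by
    have h1 : z ≤ (2 : ℝ) ^ (-σ) := Real.rpow_le_rpow_of_nonpos (by norm_num) hp2 (by linarith)
    have h2 : (2 : ℝ) ^ (-σ) ≤ 2 ^ (-(1 / 2) : ℝ) :=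
      Real.rpow_le_rpow_of_exponent_le (by norm_num) (by linarith)
    have h3 : (2 : ℝ) ^ (-(1 / 2) : ℝ) ≤ 3 / 4 := by
      rw [Real.rpow_neg (by norm_num), ← Real.sqrt_eq_rpow]
      rw [inv_le_comm₀ (by positivity) (by norm_num)]
      apply Real.le_sqrt_of_sq_le
      norm_num
    linarith
  have hzc : (p : ℂ) ^ (-(σ : ℂ)) = (z : ℂ) := by
    rw [hz, ofReal_cpow hp0.le]
    push_cast
    rfl
  have hzz : z ^ 2 = (p : ℝ) ^ (-(2 * σ)) := by
    rw [hz, ← Real.rpow_natCast, ← Real.rpow_mul hp0.le]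
    congr 1
    push_cast
    ring
  obtain ⟨hf1, hf2⟩ := abs_le.mp (hf p)
  rw [hzc, ← mul_inv, norm_inv]
  have h1 : (1 - (z : ℂ)) * (1 - ((f p : ℝ) : ℂ) * (z : ℂ)) = (((1 - z) * (1 - f p * z) : ℝ) : ℂ) := by
    push_cast; ring
  have hpos1 : 1 / 4 ≤ 1 - z := by linarith
  have hpos2 : 1 / 4 ≤ 1 - f p * z := by nlinarith
  have hpos : 0 < (1 - z) * (1 - f p * z) := by positivity
  rw [h1, norm_real, Real.norm_of_nonneg hpos.le, oneConv_prime f hp, ← hzz]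
  -- `((1-z)(1-fz))⁻¹ ≤ 1 + (1+f) z + 32 z²`
  have h2 : ((1 - z) * (1 - f p * z))⁻¹ ≤ 1 + ((1 + f p) * z + 32 * z ^ 2) := by
    rw [inv_le_iff_one_le_mul₀ hpos]
    have key : (1 + ((1 + f p) * z + 32 * z ^ 2)) * ((1 - z) * (1 - f p * z)) - 1
        = z ^ 2 * (32 * ((1 - z) * (1 - f p * z)) - (1 + f p) ^ 2 + f p + f p * (1 + f p) * z) := by
      ring
    have h3 : 0 ≤ 32 * ((1 - z) * (1 - f p * z)) - (1 + f p) ^ 2 + f p + f p * (1 + f p) * z := by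
      have e1 : 32 * ((1 - z) * (1 - f p * z)) - (1 + f p) ^ 2 + f p + f p * (1 + f p) * z
          = (7 - 25 / 4 * f p - 1 / 4 * f p ^ 2)
            + (3 / 4 - z) * (32 - 17 * f p - f p ^ 2 + 32 * f p * (3 / 4 - z)) := by ring
      have e2 : 0 ≤ 7 - 25 / 4 * f p - 1 / 4 * f p ^ 2 := by nlinarith
      have e3 : 0 ≤ 32 - 17 * f p - f p ^ 2 + 32 * f p * (3 / 4 - z) := by
        rcases le_or_gt 0 (f p) with h | h
        · have : 0 ≤ f p * (3 / 4 - z) := mul_nonneg h (by linarith)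
          nlinarith
        · have : f p * (3 / 4 - z) ≥ -(3 / 4) := by nlinarith
          nlinarith
      rw [e1]
      have e4 : 0 ≤ (3 / 4 - z) * (32 - 17 * f p - f p ^ 2 + 32 * f p * (3 / 4 - z)) :=
        mul_nonneg (by linarith) e3
      linarith
    nlinarith [mul_nonneg (sq_nonneg z) h3]
  refine h2.trans ?_
  have := Real.add_one_le_exp ((1 + f p) * z + 32 * z ^ 2)
  linarith

end series

end Pool.Agent.H6
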