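import Mathlib
import Pool.Agent.H6.LandauOde

/-!
Landau's lemma for Laplace / Mellin integrals of nonnegative functions, in terms of
`ProbabilityTheory.complexMGF`.
-/

open Complex Filter Topology MeasureTheory ProbabilityTheory

namespace Pool.Agent.H6

variable {Ω : Type*} {mΩ : MeasurableSpace Ω} {μ : Measure Ω} {X : Ω → ℝ}

/-- **Landau's lemma**, local form, for a nonpositive random variable. -/
theorem landau_mgf (hX : ∀ ω, X ω ≤ 0) {c r : ℝ}
    (hc : c ∈ interior (integrableExpSet X μ))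
    {G : ℂ → ℂ} (hG : DifferentiableOn ℂ G (Metric.ball (c : ℂ) r))
    (hGL : G =ᶠ[𝓝 (c : ℂ)] complexMGF X μ)
    {t : ℝ} (ht : c - r < t) (htc : t ≤ c) :
    t ∈ integrableExpSet X μ := by
  have hXm : AEMeasurable X μ := aemeasurable_of_mem_interior_integrableExpSet hc
  have hc' : ((c : ℂ)).re ∈ interior (integrableExpSet X μ) := by simpa using hc
  have hct : 0 ≤ c - t := by linarith
  set F : ℕ → Ω → ℝ := fun n ω ↦
    ((n.factorial : ℝ))⁻¹ * (c - t) ^ n * ((- X ω) ^ n * Real.exp (c * X ω)) with hF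
  have hFnonneg : ∀ n ω, 0 ≤ F n ω := by
    intro n ω
    simp only [hF]
    have h1 : 0 ≤ - X ω := by linarith [hX ω]
    positivity
  have hFint : ∀ n, Integrable (F n) μ := by
    intro n
    have h1 := integrable_pow_mul_exp_of_mem_interior_integrableExpSet hc n
    have h2 : F n = fun ω ↦ ((n.factorial : ℝ))⁻¹ * (c - t) ^ n * (-1) ^ n *
        (X ω ^ n * Real.exp (c * X ω)) := by
      ext ω
      simp only [hF]
      rw [neg_pow]; ring
    rw [h2]
    exact h1.const_mul _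
  have htb : (t : ℂ) ∈ Metric.ball (c : ℂ) r := by
    rw [Metric.mem_ball, dist_eq_norm, ← ofReal_sub, norm_real, Real.norm_eq_abs, abs_lt]
    constructor <;> linarith
  have hTaylor := Complex.hasSum_taylorSeries_on_ball hG htb
  have hiter : ∀ m : ℕ, iteratedDeriv m G (c : ℂ)
      = ((∫ ω, X ω ^ m * Real.exp (c * X ω) ∂μ : ℝ) : ℂ) := by
    intro m
    rw [hGL.iteratedDeriv_eq m, iteratedDeriv_complexMGF hc', ← integral_complex_ofReal]
    refine integral_congr_ae (ae_of_all _ fun ω ↦ ?_)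
    push_cast
    rfl
  have hsum : Summable fun m : ℕ ↦ ∫ ω, F m ω ∂μ := by
    have h1 : Summable fun m : ℕ ↦ ((m.factorial : ℂ)⁻¹ • ((t : ℂ) - c) ^ m •
          iteratedDeriv m G (c : ℂ)) := hTaylor.summable
    have h2 : (fun m : ℕ ↦ ((m.factorial : ℂ)⁻¹ • ((t : ℂ) - c) ^ m •
          iteratedDeriv m G (c : ℂ))) = fun m : ℕ ↦ ((∫ ω, F m ω ∂μ : ℝ) : ℂ) := by
      ext m
      rw [hiter m]
      have h3 : ∫ ω, F m ω ∂μ = ((m.factorial : ℝ))⁻¹ * (t - c) ^ m *
          ∫ ω, X ω ^ m * Real.exp (c * X ω) ∂μ := by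
        rw [← integral_const_mul]
        refine integral_congr_ae (ae_of_all _ fun ω ↦ ?_)
        simp only [hF]
        have h4 : (t - c) ^ m = (c - t) ^ m * (-1) ^ m := by
          rw [← mul_pow]; congr 1; ring
        rw [h4, neg_pow]; ring
      rw [h3]
      push_cast
      simp only [smul_eq_mul]
      ring
    rw [h2] at h1
    exact_mod_cast h1
  -- the pointwise sum
  have hval : ∀ ω, HasSum (fun n ↦ F n ω) (Real.exp (t * X ω)) := by
    intro ω
    have h5 : ∀ m : ℕ, F m ω = (((c - t) * (- X ω)) ^ m / (m.factorial : ℝ)) *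
        Real.exp (c * X ω) := by
      intro m
      simp only [hF]
      rw [mul_pow]
      field_simp
    have h6 : HasSum (fun m : ℕ ↦ ((c - t) * (- X ω)) ^ m / (m.factorial : ℝ))
        (Real.exp ((c - t) * (- X ω))) := by
      rw [Real.exp_eq_exp_ℝ]
      exact NormedSpace.expSeries_div_hasSum_exp _
    have h7 := h6.mul_right (Real.exp (c * X ω))
    rw [← Real.exp_add] at h7
    have h8 : (c - t) * (- X ω) + c * X ω = t * X ω := by ring
    rw [h8] at h7
    simpa [h5] using h7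
  have hfin : ∫⁻ ω, ENNReal.ofReal (Real.exp (t * X ω)) ∂μ < ⊤ := by
    have h9 : ∀ ω, ENNReal.ofReal (Real.exp (t * X ω)) = ∑' n, ENNReal.ofReal (F n ω) := by
      intro ω
      rw [← (hval ω).tsum_eq, ENNReal.ofReal_tsum_of_nonneg (fun n ↦ hFnonneg n ω)
        (hval ω).summable]
    simp_rw [h9]
    rw [lintegral_tsum (fun n ↦ (hFint n).1.aemeasurable.ennreal_ofReal)]
    have h10 : ∀ n, ∫⁻ ω, ENNReal.ofReal (F n ω) ∂μ = ENNReal.ofReal (∫ ω, F n ω ∂μ) := by
      intro n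
      rw [ofReal_integral_eq_lintegral_ofReal (hFint n) (ae_of_all _ (hFnonneg n))]
    simp_rw [h10]
    rw [← ENNReal.ofReal_tsum_of_nonneg (fun n ↦ integral_nonneg (hFnonneg n)) hsum]
    exact ENNReal.ofReal_lt_top
  have hm : AEStronglyMeasurable (fun ω ↦ Real.exp (t * X ω)) μ :=
    (Real.measurable_exp.comp_aemeasurable (hXm.const_mul t)).aestronglyMeasurable
  exact (lintegral_ofReal_ne_top_iff_integrable hm (ae_of_all _ fun ω ↦ (Real.exp_pos _).le)).mp
    hfin.ne

lemma integrableExpSet_upward (hX : ∀ ω, X ω ≤ 0) (hXm : AEMeasurable X μ) {t u : ℝ}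
    (ht : t ∈ integrableExpSet X μ) (htu : t ≤ u) : u ∈ integrableExpSet X μ := by
  have h1 : Integrable (fun ω ↦ Real.exp (t * X ω)) μ := ht
  refine Integrable.mono' h1
    (Real.measurable_exp.comp_aemeasurable (hXm.const_mul u)).aestronglyMeasurable
    (ae_of_all _ fun ω ↦ ?_)
  rw [Real.norm_eq_abs, abs_of_pos (Real.exp_pos _)]
  apply Real.exp_le_exp.mpr
  nlinarith [hX ω]

lemma mem_interior_of_lt (hX : ∀ ω, X ω ≤ 0) (hXm : AEMeasurable X μ) {t u : ℝ}
    (ht : t ∈ integrableExpSet X μ) (htu : t < u) : u ∈ interior (integrableExpSet X μ) := by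
  rw [mem_interior_iff_mem_nhds]
  filter_upwards [lt_mem_nhds htu] with v hv
  exact integrableExpSet_upward hX hXm ht hv.le

/-- a solution of `Z' = W Z` on a half-plane that is not identically zero has no zeros -/
lemma ne_zero_of_linear_ode {Z W : ℂ → ℂ} {x : ℝ} (hZ : DifferentiableOn ℂ Z {s | x < s.re})
    (hW : DifferentiableOn ℂ W {s | x < s.re})
    (hode : ∀ s : ℂ, x < s.re → deriv Z s = W s * Z s)
    {z0 : ℂ} (hz0 : x < z0.re) (hZ0 : Z z0 ≠ 0) {s : ℂ} (hs : x < s.re) : Z s ≠ 0 := by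
  -- reduce to a ball containing both points
  obtain ⟨R, hR, hRx, hR0, hRs⟩ : ∃ R : ℝ, 0 < R ∧ (∀ w ∈ Metric.ball ((x + R : ℝ) : ℂ) R, x < w.re) ∧
      z0 ∈ Metric.ball ((x + R : ℝ) : ℂ) R ∧ s ∈ Metric.ball ((x + R : ℝ) : ℂ) R := by
    have hball : ∀ w : ℂ, x < w.re → ∀ᶠ R : ℝ in atTop, w ∈ Metric.ball ((x + R : ℝ) : ℂ) R := by
      intro w hw
      filter_upwards [eventually_gt_atTop (((w.re - x) ^ 2 + w.im ^ 2) / (2 * (w.re - x))),
        eventually_gt_atTop 0] with R hR hR0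
      have hpos : 0 < 2 * (w.re - x) := by linarith
      rw [div_lt_iff₀ hpos] at hR
      rw [Metric.mem_ball, dist_eq_norm]
      refine lt_of_pow_lt_pow_left₀ 2 hR0.le ?_
      rw [← normSq_eq_norm_sq, normSq_apply]
      simp only [sub_re, sub_im, ofReal_re, ofReal_im, sub_zero]
      nlinarith
    obtain ⟨R, h1, h2, h3⟩ := ((hball z0 hz0).and ((hball s hs).and (eventually_gt_atTop 0))).exists
    refine ⟨R, h3, fun w hw ↦ ?_, h1, h2⟩
    rw [Metric.mem_ball, dist_eq_norm] at hw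
    have h4 := (abs_re_le_norm (w - ((x + R : ℝ) : ℂ))).trans_lt hw
    rw [sub_re, ofReal_re, abs_lt] at h4
    linarith
  have hWb : DifferentiableOn ℂ W (Metric.ball ((x + R : ℝ) : ℂ) R) := hW.mono hRx
  obtain ⟨P, hP⟩ := hWb.isExactOn_ball
  have hopen : IsOpen (Metric.ball ((x + R : ℝ) : ℂ) R) := Metric.isOpen_ball
  have hconst : ∀ a ∈ Metric.ball ((x + R : ℝ) : ℂ) R, ∀ b ∈ Metric.ball ((x + R : ℝ) : ℂ) R,
      Z a * cexp (- P a) = Z b * cexp (- P b) := by
    intro a ha b hb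
    have hd : ∀ w ∈ Metric.ball ((x + R : ℝ) : ℂ) R,
        HasDerivAt (fun w ↦ Z w * cexp (- P w)) 0 w := by
      intro w hw
      have h1 : HasDerivAt Z (W w * Z w) w := by
        rw [← hode w (hRx w hw)]
        exact (hZ.differentiableAt ((isOpen_re_gt x).mem_nhds (hRx w hw))).hasDerivAt
      have h2 : HasDerivAt P (W w) w := hP w hw
      have h3 : HasDerivAt (fun w ↦ Z w * cexp (- P w))
          (W w * Z w * cexp (- P w) + Z w * (cexp (- P w) * - W w)) w := h1.mul (h2.neg.cexp)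
      have h4 : W w * Z w * cexp (- P w) + Z w * (cexp (- P w) * - W w) = 0 := by ring
      rwa [h4] at h3
    have hdiff : DifferentiableOn ℂ (fun w ↦ Z w * cexp (- P w)) (Metric.ball ((x + R : ℝ) : ℂ) R) :=
      fun w hw ↦ (hd w hw).differentiableAt.differentiableWithinAt
    exact hopen.is_const_of_deriv_eq_zero (convex_ball _ _).isPreconnected hdiff
      (fun w hw ↦ (hd w hw).deriv) ha hb
  intro hcon
  have h := hconst z0 hR0 s hRs
  rw [hcon, zero_mul] at h
  exact hZ0 ((mul_eq_zero.mp h).resolve_right (Complex.exp_ne_zero _))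

/-- **Global Landau lemma for Mellin transforms.** -/
theorem landau_mgf_ode (hX : ∀ ω, X ω ≤ 0) (hXm : AEMeasurable X μ) {x0 x1 : ℝ}
    (hx1 : ∀ t : ℝ, x1 < t → t ∈ integrableExpSet X μ)
    {Z A g : ℂ → ℂ} (hZ : DifferentiableOn ℂ Z {s | x0 < s.re})
    (hA : DifferentiableOn ℂ A {s | x0 < s.re}) (hg : DifferentiableOn ℂ g {s | x0 < s.re})
    (hg0 : ∀ s : ℂ, x0 < s.re → g s ≠ 0)
    (hreal : ∀ t : ℝ, x0 < t → Z t ≠ 0)
    (hode : ∀ s : ℂ, x1 < s.re → deriv Z s = (complexMGF X μ s + A s) * g s * Z s) :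
    (∀ t : ℝ, x0 < t → t ∈ integrableExpSet X μ) ∧ ∀ s : ℂ, x0 < s.re → Z s ≠ 0 := by
  have hcm : ∀ y : ℝ, (∀ t : ℝ, y < t → t ∈ integrableExpSet X μ) →
      DifferentiableOn ℂ (complexMGF X μ) {s | y < s.re} := by
    intro y hy s hs
    have hs' : y < s.re := hs
    have h1 : s.re ∈ interior (integrableExpSet X μ) :=
      mem_interior_of_lt hX hXm (hy ((y + s.re) / 2) (by linarith)) (by linarith)
    exact (hasDerivAt_complexMGF h1).differentiableAt.differentiableWithinAt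
  have hprop : ∀ y : ℝ, x0 ≤ y → (∀ t : ℝ, y < t → t ∈ integrableExpSet X μ) →
      (∀ s : ℂ, y < s.re → deriv Z s = (complexMGF X μ s + A s) * g s * Z s) ∧
      ∀ s : ℂ, y < s.re → Z s ≠ 0 := by
    intro y hy hyt
    have hmono : {s : ℂ | y < s.re} ⊆ {s : ℂ | x0 < s.re} := fun s hs ↦ lt_of_le_of_lt hy hs
    have hZy := hZ.mono hmono
    have hWy : DifferentiableOn ℂ (fun s ↦ (complexMGF X μ s + A s) * g s) {s | y < s.re} :=
      ((hcm y hyt).add (hA.mono hmono)).mul (hg.mono hmono)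
    have h1 : AnalyticOnNhd ℂ (deriv Z) {s | y < s.re} :=
      (hZy.deriv (isOpen_re_gt y)).analyticOnNhd (isOpen_re_gt y)
    have h2 : AnalyticOnNhd ℂ (fun s ↦ (complexMGF X μ s + A s) * g s * Z s) {s | y < s.re} :=
      (hWy.mul hZy).analyticOnNhd (isOpen_re_gt y)
    have hpre : IsPreconnected {s : ℂ | y < s.re} := (convex_halfSpace_re_gt y).isPreconnected
    set z0 : ℂ := ((max y x1 + 1 : ℝ) : ℂ) with hz0
    have hz0re : z0.re = max y x1 + 1 := by simp [hz0]
    have hmem : z0 ∈ {s : ℂ | y < s.re} := by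
      show y < z0.re
      rw [hz0re]
      have := le_max_left y x1
      linarith
    have hev : deriv Z =ᶠ[𝓝 z0] fun s ↦ (complexMGF X μ s + A s) * g s * Z s := by
      have : {s : ℂ | x1 < s.re} ∈ 𝓝 z0 := by
        apply (isOpen_re_gt x1).mem_nhds
        show x1 < z0.re
        rw [hz0re]
        have := le_max_right y x1
        linarith
      filter_upwards [this] with s hs
      exact hode s hs
    have hode' : ∀ s : ℂ, y < s.re → deriv Z s = (complexMGF X μ s + A s) * g s * Z s :=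
      fun s hs ↦ h1.eqOn_of_preconnected_of_eventuallyEq h2 hpre hmem hev hs
    refine ⟨hode', fun s hs ↦ ?_⟩
    refine ne_zero_of_linear_ode hZy hWy hode' (z0 := z0) hmem ?_ hs
    rw [hz0]
    exact hreal _ (lt_of_le_of_lt hy (by have := le_max_left y x1; linarith))
  suffices hkey : ∀ t : ℝ, x0 < t → t ∈ integrableExpSet X μ from
    ⟨hkey, (hprop x0 le_rfl hkey).2⟩
  by_contra hcon
  push Not at hcon
  obtain ⟨t1, ht1, ht1'⟩ := hcon
  set S : Set ℝ := {t : ℝ | t ∈ integrableExpSet X μ} with hS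
  have hSne : S.Nonempty := ⟨x1 + 1, hx1 _ (by linarith)⟩
  have hlow : ∀ t ∈ S, t1 < t := by
    intro t ht
    by_contra hle
    rw [not_lt] at hle
    exact ht1' (integrableExpSet_upward hX hXm ht hle)
  have hbdd : BddBelow S := ⟨t1, fun t ht ↦ (hlow t ht).le⟩
  set σ : ℝ := sInf S with hσ
  have hσ1 : t1 ≤ σ := le_csInf hSne fun t ht ↦ (hlow t ht).le
  have hσ0 : x0 < σ := lt_of_lt_of_le ht1 hσ1
  have hσt : ∀ t : ℝ, σ < t → t ∈ integrableExpSet X μ := by
    intro t ht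
    obtain ⟨u, hu, hut⟩ := exists_lt_of_csInf_lt hSne ht
    exact integrableExpSet_upward hX hXm hu hut.le
  obtain ⟨hode', hne⟩ := hprop σ hσ0.le hσt
  have hZσ : Z (σ : ℂ) ≠ 0 := hreal σ hσ0
  have hcont : ContinuousAt Z (σ : ℂ) :=
    (hZ.differentiableAt ((isOpen_re_gt x0).mem_nhds (by simpa using hσ0))).continuousAt
  have hnhds : {s : ℂ | x0 < s.re} ∩ {s | Z s ≠ 0} ∈ 𝓝 (σ : ℂ) :=
    inter_mem ((isOpen_re_gt x0).mem_nhds (by simpa using hσ0)) (hcont.eventually_ne hZσ)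
  obtain ⟨ρ, hρ, hball⟩ := Metric.mem_nhds_iff.mp hnhds
  set c : ℝ := σ + ρ / 4 with hc
  set r : ℝ := ρ / 2 with hr
  have hsub : Metric.ball (c : ℂ) r ⊆ Metric.ball (σ : ℂ) ρ := by
    apply Metric.ball_subset_ball'
    rw [dist_eq_norm, ← ofReal_sub, norm_real, Real.norm_eq_abs, hc, hr]
    rw [show σ + ρ / 4 - σ = ρ / 4 by ring, abs_of_pos (by linarith)]
    linarith
  have hG : DifferentiableOn ℂ (fun s ↦ deriv Z s / (g s * Z s) - A s)
      (Metric.ball (c : ℂ) r) := by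
    have hd : DifferentiableOn ℂ (deriv Z) {s | x0 < s.re} := hZ.deriv (isOpen_re_gt x0)
    have hm : Metric.ball (c : ℂ) r ⊆ {s | x0 < s.re} := fun z hz ↦ (hball (hsub hz)).1
    refine ((hd.mono hm).div ((hg.mono hm).mul (hZ.mono hm)) ?_).sub (hA.mono hm)
    intro z hz
    exact mul_ne_zero (hg0 z (hm hz)) (hball (hsub hz)).2
  have hcσ : σ < c := by rw [hc]; linarith
  have hGL : (fun s ↦ deriv Z s / (g s * Z s) - A s) =ᶠ[𝓝 (c : ℂ)] complexMGF X μ := by
    filter_upwards [(isOpen_re_gt σ).mem_nhds (show (c : ℂ) ∈ {s : ℂ | σ < s.re} by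
      simpa using hcσ)] with s hs
    have hs' : σ < s.re := hs
    rw [hode' s hs]
    have h1 := hne s hs
    have h2 := hg0 s (lt_trans hσ0 hs')
    field_simp
    ring
  have hcint : c ∈ interior (integrableExpSet X μ) :=
    mem_interior_of_lt hX hXm (hσt ((σ + c) / 2) (by linarith)) (by linarith)
  have hmem := landau_mgf hX hcint hG hGL (t := σ - ρ / 8) (by rw [hc, hr]; linarith)
    (by rw [hc]; linarith)
  have h8 : σ ≤ σ - ρ / 8 := csInf_le hbdd hmem
  linarith

end Pool.Agent.H6
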