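import Mathlib
import Pool.Agent.H6.LandauMellin
import Pool.Agent.H6.Rigidity
import Pool.Agent.H6.ZetaGrowth

/-!
The function `F(y) = ∑ Λ(n) e^{-n y}` and one-sided bounds for it as `y → 0`.
-/

open Complex Filter Topology MeasureTheory ProbabilityTheory Set LSeries
open scoped ArithmeticFunction.vonMangoldt

namespace Pool.Agent.H6

/-- `F(y) = ∑ Λ(n) e^{-n y}` -/
noncomputable def lamExp (y : ℝ) : ℝ := ∑' n : ℕ, Λ n * Real.exp (-(n * y))

lemma lam_le (n : ℕ) : Λ n ≤ n := by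
  rcases Nat.eq_zero_or_pos n with rfl | hn
  · simp
  · exact ArithmeticFunction.vonMangoldt_le_log.trans
      ((Real.log_le_sub_one_of_pos (by exact_mod_cast hn)).trans (by linarith))

lemma summable_poly_exp (K : ℕ) {y : ℝ} (hy : 0 < y) :
    Summable fun n : ℕ ↦ (n : ℝ) ^ K * Real.exp (-(n * y)) := by
  have := Real.summable_pow_mul_exp_neg_nat_mul K hy
  refine this.congr fun n ↦ ?_
  congr 2
  ring

lemma summable_lamExp {y : ℝ} (hy : 0 < y) : Summable fun n : ℕ ↦ Λ n * Real.exp (-(n * y)) := by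
  refine Summable.of_nonneg_of_le
    (fun _ ↦ mul_nonneg ArithmeticFunction.vonMangoldt_nonneg (Real.exp_pos _).le)
    (fun n ↦ ?_) (summable_poly_exp 1 hy)
  rw [pow_one]
  exact mul_le_mul_of_nonneg_right (lam_le n) (Real.exp_pos _).le

lemma lamExp_nonneg (y : ℝ) : 0 ≤ lamExp y :=
  tsum_nonneg fun _ ↦ mul_nonneg ArithmeticFunction.vonMangoldt_nonneg (Real.exp_pos _).le

lemma lamExp_continuousOn : ContinuousOn lamExp (Ioi 0) := by
  intro y hy
  have hy' : (0 : ℝ) < y := hy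
  have h : ContinuousOn lamExp (Ici (y / 2)) := by
    refine continuousOn_tsum (u := fun n : ℕ ↦ Λ n * Real.exp (-(n * (y / 2))))
      (fun n ↦ by fun_prop) (summable_lamExp (by linarith)) ?_
    intro n x hx
    have hx' : y / 2 ≤ x := hx
    rw [norm_mul, Real.norm_of_nonneg ArithmeticFunction.vonMangoldt_nonneg,
      Real.norm_of_nonneg (Real.exp_pos _).le]
    refine mul_le_mul_of_nonneg_left ?_ ArithmeticFunction.vonMangoldt_nonneg
    apply Real.exp_le_exp.mpr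
    have : (0 : ℝ) ≤ n := Nat.cast_nonneg n
    nlinarith
  exact (h.continuousAt (Ici_mem_nhds (by linarith))).continuousWithinAt

lemma exists_rpow_le_exp (t : ℝ) : ∃ C : ℝ, 0 < C ∧ ∀ u : ℝ, 0 < u → u ^ t ≤ C * Real.exp u ∨ u < 1 := by
  refine ⟨(⌈t⌉₊.factorial : ℝ), by positivity, fun u hu ↦ ?_⟩
  rcases lt_or_ge u 1 with h | h
  · exact Or.inr h
  left
  have h1 : u ^ t ≤ u ^ (⌈t⌉₊ : ℝ) := Real.rpow_le_rpow_of_exponent_le h (Nat.le_ceil t)
  rw [Real.rpow_natCast] at h1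
  have h2 := Real.pow_div_factorial_le_exp u hu.le ⌈t⌉₊
  rw [div_le_iff₀ (by positivity)] at h2
  linarith

lemma exists_rpow_mul_exp_le {t : ℝ} (ht : 0 ≤ t) : ∃ C : ℝ, 0 < C ∧ ∀ u : ℝ, 0 < u →
    u ^ t * Real.exp (-u) ≤ C := by
  obtain ⟨C, hC, h⟩ := exists_rpow_le_exp t
  refine ⟨C + 1, by linarith, fun u hu ↦ ?_⟩
  rcases h u hu with h1 | h1
  · have h2 : u ^ t * Real.exp (-u) ≤ C * Real.exp u * Real.exp (-u) :=
      mul_le_mul_of_nonneg_right h1 (Real.exp_pos _).le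
    rw [mul_assoc, ← Real.exp_add, add_neg_cancel, Real.exp_zero, mul_one] at h2
    linarith
  · have h2 : u ^ t ≤ 1 := Real.rpow_le_one hu.le h1.le ht
    have h3 : Real.exp (-u) ≤ 1 := Real.exp_le_one_iff.mpr (by linarith)
    have h4 : u ^ t * Real.exp (-u) ≤ 1 * 1 :=
      mul_le_mul h2 h3 (Real.exp_pos _).le (by norm_num)
    linarith

lemma summable_lam_rpow {t : ℝ} (ht : 1 < t) : Summable fun n : ℕ ↦ Λ n / (n : ℝ) ^ t := by
  have h := ArithmeticFunction.LSeriesSummable_vonMangoldt (s := (t : ℂ)) (by simpa using ht)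
  unfold LSeriesSummable at h
  have h2 := h.norm
  refine h2.congr fun n ↦ ?_
  rcases eq_or_ne n 0 with rfl | hn
  · simp
  · rw [norm_term_eq, if_neg hn, norm_real, Real.norm_of_nonneg
      ArithmeticFunction.vonMangoldt_nonneg]
    simp

lemma lamExp_le {t : ℝ} (ht : 1 < t) : ∃ C : ℝ, 0 < C ∧ ∀ y : ℝ, 0 < y → lamExp y ≤ C * y ^ (-t) := by
  obtain ⟨C, hC, h⟩ := exists_rpow_mul_exp_le (t := t) (by linarith)
  have hS := summable_lam_rpow ht
  set S : ℝ := ∑' n : ℕ, Λ n / (n : ℝ) ^ t with hSdef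
  have hS0 : 0 ≤ S := tsum_nonneg fun n ↦
    div_nonneg ArithmeticFunction.vonMangoldt_nonneg (Real.rpow_nonneg (Nat.cast_nonneg _) _)
  refine ⟨C * (S + 1), by positivity, fun y hy ↦ ?_⟩
  have h1 : ∀ n : ℕ, Λ n * Real.exp (-(n * y)) ≤ C * y ^ (-t) * (Λ n / (n : ℝ) ^ t) := by
    intro n
    rcases Nat.eq_zero_or_pos n with rfl | hn
    · simp
    have hn' : (0 : ℝ) < n := by exact_mod_cast hn
    have h2 := h (n * y) (by positivity)
    rw [Real.mul_rpow hn'.le hy.le] at h2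
    have h3 : Real.exp (-(n * y)) ≤ C * y ^ (-t) / (n : ℝ) ^ t := by
      rw [le_div_iff₀ (by positivity), Real.rpow_neg hy.le, ← div_eq_mul_inv,
        le_div_iff₀ (by positivity)]
      linarith
    calc Λ n * Real.exp (-(n * y)) ≤ Λ n * (C * y ^ (-t) / (n : ℝ) ^ t) :=
          mul_le_mul_of_nonneg_left h3 ArithmeticFunction.vonMangoldt_nonneg
      _ = _ := by ring
  calc lamExp y ≤ ∑' n : ℕ, C * y ^ (-t) * (Λ n / (n : ℝ) ^ t) :=
        (summable_lamExp hy).tsum_le_tsum h1 (hS.mul_left _)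
    _ = C * y ^ (-t) * S := by rw [tsum_mul_left]
    _ ≤ C * y ^ (-t) * (S + 1) := by
      have : 0 ≤ C * y ^ (-t) := by positivity
      nlinarith
    _ = _ := by ring

lemma lamExp_le_exp : ∃ C : ℝ, 0 < C ∧ ∀ y : ℝ, 1 ≤ y → lamExp y ≤ C * Real.exp (-y) := by
  have hS := summable_lamExp (y := 1 / 2) (by norm_num)
  set S : ℝ := lamExp (1 / 2) with hSdef
  have hS0 : 0 ≤ S := lamExp_nonneg _
  refine ⟨S + 1, by positivity, fun y hy ↦ ?_⟩
  have h1 : ∀ n : ℕ, Λ n * Real.exp (-(n * y)) ≤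
      Real.exp (-y) * (Λ n * Real.exp (-(n * (1 / 2)))) := by
    intro n
    rcases lt_or_ge n 2 with hn | hn
    · interval_cases n <;> simp
    have hn' : (2 : ℝ) ≤ n := by exact_mod_cast hn
    have h3 : Real.exp (-(n * y)) ≤ Real.exp (-y) * Real.exp (-(n * (1 / 2))) := by
      rw [← Real.exp_add]
      apply Real.exp_le_exp.mpr
      nlinarith
    calc Λ n * Real.exp (-(n * y)) ≤ Λ n * (Real.exp (-y) * Real.exp (-(n * (1 / 2)))) :=
          mul_le_mul_of_nonneg_left h3 ArithmeticFunction.vonMangoldt_nonneg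
      _ = _ := by ring
  calc lamExp y ≤ ∑' n : ℕ, Real.exp (-y) * (Λ n * Real.exp (-(n * (1 / 2)))) :=
        (summable_lamExp (by linarith)).tsum_le_tsum h1 (hS.mul_left _)
    _ = Real.exp (-y) * S := by rw [tsum_mul_left]; rfl
    _ ≤ (S + 1) * Real.exp (-y) := by
      have : 0 ≤ Real.exp (-y) := (Real.exp_pos _).le
      nlinarith

/-- the complexification -/
noncomputable def cF (y : ℝ) : ℂ := ((lamExp y : ℝ) : ℂ)

lemma cF_locallyIntegrableOn : LocallyIntegrableOn cF (Ioi 0) := by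
  refine ContinuousOn.locallyIntegrableOn ?_ measurableSet_Ioi
  exact continuous_ofReal.comp_continuousOn lamExp_continuousOn

lemma cF_isBigO_top : cF =O[atTop] fun t : ℝ ↦ Real.exp (-1 * t) := by
  obtain ⟨C, hC, h⟩ := lamExp_le_exp
  refine Asymptotics.IsBigO.of_bound C ?_
  filter_upwards [eventually_ge_atTop 1] with t ht
  rw [cF, norm_real, Real.norm_of_nonneg (lamExp_nonneg _), Real.norm_of_nonneg (Real.exp_pos _).le]
  have := h t ht
  rwa [neg_one_mul]

lemma cF_isBigO_zero {b : ℝ} (hb : 1 < b) : cF =O[𝓝[>] 0] fun t : ℝ ↦ t ^ (-b) := by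
  obtain ⟨C, hC, h⟩ := lamExp_le hb
  refine Asymptotics.IsBigO.of_bound C ?_
  filter_upwards [self_mem_nhdsWithin] with t ht
  have ht' : (0 : ℝ) < t := ht
  rw [cF, norm_real, Real.norm_of_nonneg (lamExp_nonneg _),
    Real.norm_of_nonneg (Real.rpow_nonneg ht'.le _)]
  exact h t ht'

lemma mellinConvergent_cF {s : ℂ} (hs : 1 < s.re) : MellinConvergent cF s :=
  mellinConvergent_of_isBigO_rpow_exp one_pos cF_locallyIntegrableOn cF_isBigO_top
    (cF_isBigO_zero (b := (1 + s.re) / 2) (by linarith)) (by linarith)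

lemma mellin_cF {s : ℂ} (hs : 1 < s.re) :
    mellin cF s = Gamma s * LSeries (fun n ↦ ((Λ n : ℝ) : ℂ)) s := by
  have h := hasSum_mellin (a := fun n : ℕ ↦ ((Λ n : ℝ) : ℂ)) (p := fun n : ℕ ↦ (n : ℝ)) (F := cF)
    (s := s) (fun n ↦ ?_) (by linarith) (fun t ht ↦ ?_) ?_
  · rw [← h.tsum_eq, LSeries, ← tsum_mul_left]
    refine tsum_congr fun n ↦ ?_
    rcases eq_or_ne n 0 with rfl | hn
    · simp
    · rw [term_of_ne_zero hn, mul_div_assoc]
      simp
  · rcases Nat.eq_zero_or_pos n with rfl | hn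
    · left; simp
    · right; exact_mod_cast hn
  · have ht' : (0 : ℝ) < t := ht
    have h1 := (summable_lamExp ht').hasSum
    have h2 := Complex.hasSum_ofReal.mpr h1
    have h3 : (fun n : ℕ ↦ ((Λ n : ℝ) : ℂ) * ((Real.exp (-(n : ℝ) * t) : ℝ) : ℂ))
        = fun n : ℕ ↦ ((Λ n * Real.exp (-(n * t)) : ℝ) : ℂ) := by
      ext n
      rw [neg_mul]
      push_cast
      rfl
    rw [h3]
    exact h2
  · refine (summable_lam_rpow hs).congr fun n ↦ ?_
    rw [norm_real, Real.norm_of_nonneg ArithmeticFunction.vonMangoldt_nonneg]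

end Pool.Agent.H6
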