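import Mathlib
import Pool.Agent.H6.LamExp

/-!
One-sided bounds for `F(y) = ∑ Λ(n) e^{-n y}` as `y → 0` force a zero-free half-plane.
-/

open Complex Filter Topology MeasureTheory ProbabilityTheory Set LSeries
open scoped ArithmeticFunction.vonMangoldt

namespace Pool.Agent.H6

section measureSide

variable {h : ℝ → ℝ}

/-- the measure `h(y) dy / y` on `(0, 1]` -/
noncomputable def mMeas (h : ℝ → ℝ) : Measure ℝ :=
  (volume.restrict (Ioc 0 1)).withDensity fun y ↦ ENNReal.ofReal (h y / y)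

/-- the random variable `log y` on `(0, 1]` -/
noncomputable def mVar (y : ℝ) : ℝ := min (Real.log y) 0

lemma mVar_nonpos (y : ℝ) : mVar y ≤ 0 := min_le_right _ _

lemma mVar_measurable : Measurable mVar := Real.measurable_log.min measurable_const

lemma mVar_eq {y : ℝ} (hy : y ∈ Ioc (0 : ℝ) 1) : mVar y = Real.log y :=
  min_eq_left (Real.log_nonpos hy.1.le hy.2)

lemma mem_integrableExpSet_iff (hh : ∀ y ∈ Ioc (0 : ℝ) 1, 0 ≤ h y)
    (hm : AEMeasurable h (volume.restrict (Ioc 0 1))) {t : ℝ} :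
    t ∈ integrableExpSet mVar (mMeas h) ↔ IntegrableOn (fun y ↦ y ^ (t - 1) * h y) (Ioc 0 1) := by
  have hm' : AEMeasurable (fun y ↦ ENNReal.ofReal (h y / y)) (volume.restrict (Ioc 0 1)) :=
    (hm.div measurable_id.aemeasurable).ennreal_ofReal
  unfold integrableExpSet mMeas
  rw [mem_ofPred_eq, integrable_withDensity_iff_integrable_smul₀' hm'
    (ae_of_all _ fun _ ↦ ENNReal.ofReal_lt_top)]
  unfold IntegrableOn
  apply integrable_congr
  filter_upwards [ae_restrict_mem measurableSet_Ioc] with y hy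
  rw [mVar_eq hy, ENNReal.toReal_ofReal (div_nonneg (hh y hy) hy.1.le), smul_eq_mul,
    mul_comm t, ← Real.rpow_def_of_pos hy.1, Real.rpow_sub hy.1, Real.rpow_one]
  ring

lemma complexMGF_eq (hh : ∀ y ∈ Ioc (0 : ℝ) 1, 0 ≤ h y)
    (hm : AEMeasurable h (volume.restrict (Ioc 0 1))) (s : ℂ) :
    complexMGF mVar (mMeas h) s = mellin (indicator (Ioc 0 1) (fun y ↦ ((h y : ℝ) : ℂ))) s := by
  have hm' : AEMeasurable (fun y ↦ ENNReal.ofReal (h y / y)) (volume.restrict (Ioc 0 1)) :=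
    (hm.div measurable_id.aemeasurable).ennreal_ofReal
  unfold complexMGF mMeas mellin
  rw [integral_withDensity_eq_integral_toReal_smul₀ hm'
    (ae_of_all _ fun _ ↦ ENNReal.ofReal_lt_top)]
  have h1 : ∀ y : ℝ, (y : ℂ) ^ (s - 1) • indicator (Ioc 0 1) (fun y ↦ ((h y : ℝ) : ℂ)) y
      = indicator (Ioc 0 1) (fun y : ℝ ↦ (y : ℂ) ^ (s - 1) • ((h y : ℝ) : ℂ)) y := by
    intro y
    by_cases hy : y ∈ Ioc (0 : ℝ) 1
    · rw [indicator_of_mem hy, indicator_of_mem hy]
    · rw [indicator_of_notMem hy, indicator_of_notMem hy, smul_zero]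
  simp_rw [h1]
  rw [setIntegral_indicator measurableSet_Ioc, inter_eq_right.mpr Ioc_subset_Ioi_self]
  refine setIntegral_congr_fun measurableSet_Ioc fun y hy ↦ ?_
  have hy0 : (y : ℂ) ≠ 0 := by exact_mod_cast hy.1.ne'
  rw [mVar_eq hy, ENNReal.toReal_ofReal (div_nonneg (hh y hy) hy.1.le), cpow_sub _ _ hy0,
    cpow_one, cpow_def_of_ne_zero hy0, ofReal_log hy.1.le, mul_comm s, real_smul, smul_eq_mul]
  push_cast
  field_simp

end measureSide

lemma ind_locallyIntegrableOn (S : Set ℝ) (hS : MeasurableSet S) :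
    LocallyIntegrableOn (indicator S cF) (Ioi 0) := by
  intro x hx
  obtain ⟨t, ht, hti⟩ := cF_locallyIntegrableOn x hx
  exact ⟨t, ht, hti.indicator hS⟩

lemma mellinConvergent_ind {S : Set ℝ} (hS : MeasurableSet S) {s : ℂ} (hs : 1 < s.re) :
    MellinConvergent (indicator S cF) s := by
  have h := mellinConvergent_cF hs
  unfold MellinConvergent at h ⊢
  have h1 : (fun t : ℝ ↦ (t : ℂ) ^ (s - 1) • indicator S cF t)
      = indicator S (fun t : ℝ ↦ (t : ℂ) ^ (s - 1) • cF t) := by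
    ext t
    by_cases ht : t ∈ S
    · rw [indicator_of_mem ht, indicator_of_mem ht]
    · rw [indicator_of_notMem ht, indicator_of_notMem ht, smul_zero]
  rw [h1]
  exact h.indicator hS

lemma mellin_split {s : ℂ} (hs : 1 < s.re) :
    mellin cF s = mellin (indicator (Ioc 0 1) cF) s + mellin (indicator (Ioi 1) cF) s := by
  have h1 := mellinConvergent_ind (measurableSet_Ioc (a := (0 : ℝ)) (b := 1)) hs
  have h2 := mellinConvergent_ind (measurableSet_Ioi (a := (1 : ℝ))) hs
  have h3 := hasMellin_add h1 h2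
  rw [← h3.2]
  unfold mellin
  refine setIntegral_congr_fun measurableSet_Ioi fun t ht ↦ ?_
  have ht0 : (0 : ℝ) < t := ht
  simp only
  congr 1
  rcases le_or_gt t 1 with h | h
  · rw [indicator_of_mem (show t ∈ Ioc (0 : ℝ) 1 from ⟨ht0, h⟩),
      indicator_of_notMem (show t ∉ Ioi (1 : ℝ) from not_lt.mpr h), add_zero]
  · rw [indicator_of_notMem (show t ∉ Ioc (0 : ℝ) 1 from fun h' ↦ not_le.mpr h h'.2),
      indicator_of_mem (show t ∈ Ioi (1 : ℝ) from h), zero_add]

/-- the contribution of `y > 1` -/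
noncomputable def tailMellin (s : ℂ) : ℂ := mellin (indicator (Ioi 1) cF) s

lemma tailMellin_differentiable : Differentiable ℂ tailMellin := by
  intro s
  refine mellin_differentiableAt_of_isBigO_rpow_exp (a := 1) (b := s.re - 1) one_pos
    (ind_locallyIntegrableOn _ measurableSet_Ioi) ?_ ?_ (by linarith)
  · refine Asymptotics.IsBigO.congr' cF_isBigO_top ?_ (Eventually.of_forall fun _ ↦ rfl)
    filter_upwards [eventually_gt_atTop 1] with t ht
    rw [indicator_of_mem (show t ∈ Ioi (1 : ℝ) from ht)]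
  · refine Asymptotics.IsBigO.of_bound 1 ?_
    have : Iio (1 : ℝ) ∈ 𝓝[>] (0 : ℝ) := mem_nhdsWithin_of_mem_nhds (Iio_mem_nhds one_pos)
    filter_upwards [this] with t ht
    have ht' : t < 1 := ht
    rw [indicator_of_notMem (show t ∉ Ioi (1 : ℝ) from not_lt.mpr ht'.le), norm_zero]
    positivity

/-- the comparison function -/
noncomputable def cmp (σ C δ : ℝ) (y : ℝ) : ℝ := σ * (y ^ (-1 : ℝ) - lamExp y) + C * y ^ (δ - 1)

lemma hasMellin_cmp (σ C : ℝ) {δ : ℝ} (hδ : 0 < δ) {s : ℂ} (hs : 1 < s.re) :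
    HasMellin (indicator (Ioc 0 1) (fun y ↦ ((cmp σ C δ y : ℝ) : ℂ))) s
      (σ * (1 / (s - 1) - mellin (indicator (Ioc 0 1) cF) s) + C * (1 / (s + δ - 1))) := by
  have h1 := hasMellin_cpow_Ioc (-1) (s := s) (by simp; linarith)
  have h2 := hasMellin_cpow_Ioc ((δ - 1 : ℝ) : ℂ) (s := s) (by simp; linarith)
  have h3 := mellinConvergent_ind (measurableSet_Ioc (a := (0 : ℝ)) (b := 1)) hs
  have h4 := hasMellin_sub h1.1 h3
  rw [h1.2] at h4
  have h5 : HasMellin (fun t ↦ (σ : ℂ) • (indicator (Ioc 0 1) (fun t : ℝ ↦ (t : ℂ) ^ (-1 : ℂ)) t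
      - indicator (Ioc 0 1) cF t)) s
      ((σ : ℂ) • (1 / (s + -1) - mellin (indicator (Ioc 0 1) cF) s)) := by
    refine ⟨h4.1.const_smul _, ?_⟩
    rw [mellin_const_smul, h4.2]
  have h6 : HasMellin (fun t ↦ (C : ℂ) •
      (indicator (Ioc 0 1) (fun t : ℝ ↦ (t : ℂ) ^ ((δ - 1 : ℝ) : ℂ)) t)) s
      ((C : ℂ) • (1 / (s + ((δ - 1 : ℝ) : ℂ)))) := by
    refine ⟨h2.1.const_smul _, ?_⟩
    rw [mellin_const_smul, h2.2]
  have h7 := hasMellin_add h5.1 h6.1
  rw [h5.2, h6.2] at h7
  have h8 : (fun t : ℝ ↦ (σ : ℂ) • (indicator (Ioc 0 1) (fun t : ℝ ↦ (t : ℂ) ^ (-1 : ℂ)) t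
      - indicator (Ioc 0 1) cF t) + (C : ℂ) •
      (indicator (Ioc 0 1) (fun t : ℝ ↦ (t : ℂ) ^ ((δ - 1 : ℝ) : ℂ)) t))
      = indicator (Ioc 0 1) (fun y ↦ ((cmp σ C δ y : ℝ) : ℂ)) := by
    ext t
    by_cases ht : t ∈ Ioc (0 : ℝ) 1
    · simp only [indicator_of_mem ht, cmp, cF, smul_eq_mul]
      have e1 : ((t : ℂ)) ^ (-1 : ℂ) = ((t ^ (-1 : ℝ) : ℝ) : ℂ) := by
        rw [ofReal_cpow ht.1.le]; norm_num
      have e2 : ((t : ℂ)) ^ ((δ - 1 : ℝ) : ℂ) = ((t ^ (δ - 1) : ℝ) : ℂ) := by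
        rw [ofReal_cpow ht.1.le]
      rw [e1, e2]
      push_cast
      ring
    · simp only [indicator_of_notMem ht, sub_zero, smul_zero, add_zero]
  have h9 : (σ : ℂ) • (1 / (s + -1) - mellin (indicator (Ioc 0 1) cF) s) + (C : ℂ) •
      (1 / (s + ((δ - 1 : ℝ) : ℂ))) =
      (σ * (1 / (s - 1) - mellin (indicator (Ioc 0 1) cF) s) + C * (1 / (s + δ - 1))) := by
    simp only [smul_eq_mul]
    push_cast
    rw [← sub_eq_add_neg, add_sub_assoc]
  rw [h9] at h7
  rw [← h8]
  exact h7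

lemma zetaPole_real_ne_zero {t : ℝ} (ht : 0 < t) : zetaPole (t : ℂ) ≠ 0 := by
  rcases lt_or_ge t 1 with h1 | h1
  · -- `(t - 1) ζ(t) = t + t (1 - t) ∫ {x} x^{-t-1} > 0`
    rw [zetaPole_eq (by simpa using ht)]
    have h2 : ∃ r : ℝ, 0 ≤ r ∧ frMellin (t : ℂ) = r := by
      rw [frMellin_eq]
      refine ⟨∫ x in Ioi (1 : ℝ), x ^ (-t - 1) * (if x < 1 then 0 else Int.fract x), ?_, ?_⟩
      · refine setIntegral_nonneg measurableSet_Ioi fun x hx ↦ ?_
        have hx0 : (1 : ℝ) < x := hx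
        have : 0 ≤ (if x < 1 then 0 else Int.fract x) := by
          split_ifs
          · exact le_rfl
          · exact Int.fract_nonneg x
        positivity
      · rw [← integral_complex_ofReal]
        refine setIntegral_congr_fun measurableSet_Ioi fun x hx ↦ ?_
        have hx0 : (0 : ℝ) < x := lt_trans one_pos hx
        simp only [fr, smul_eq_mul]
        push_cast
        rw [ofReal_cpow hx0.le]
        push_cast
        congr 1
        split_ifs <;> simp
    obtain ⟨r, hr, hr'⟩ := h2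
    rw [hr']
    intro hcon
    have h3 : ((t - t * (t - 1) * r : ℝ) : ℂ) = 0 := by push_cast; exact hcon
    have h4 : t - t * (t - 1) * r = 0 := by exact_mod_cast h3
    have h5 : 0 ≤ t * (1 - t) * r := by
      have : 0 ≤ 1 - t := by linarith
      positivity
    nlinarith
  · rcases eq_or_lt_of_le h1 with h2 | h2
    · rw [← h2, ofReal_one, zetaPole_one]; exact one_ne_zero
    · have h3 : (t : ℂ) ≠ 1 := by
        intro h; have : t = 1 := by exact_mod_cast h
        linarith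
      rw [zetaPole_of_ne h3]
      exact mul_ne_zero (sub_ne_zero.mpr h3) (riemannZeta_ne_zero_of_one_lt_re (by simpa using h2))

lemma deriv_zetaPole_eq {s : ℂ} (hs : 1 < s.re) :
    deriv zetaPole s = (1 / (s - 1) - LSeries (fun n ↦ ((Λ n : ℝ) : ℂ)) s) * zetaPole s := by
  have hs1 : s ≠ 1 := by intro h; rw [h, one_re] at hs; exact lt_irrefl _ hs
  have h2 : zetaPole =ᶠ[𝓝 s] fun s ↦ (s - 1) * riemannZeta s := by
    filter_upwards [isOpen_ne.mem_nhds hs1] with z hz
    exact zetaPole_of_ne hz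
  rw [h2.deriv_eq, zetaPole_of_ne hs1]
  have h3 : HasDerivAt (fun s ↦ (s - 1) * riemannZeta s)
      (1 * riemannZeta s + (s - 1) * deriv riemannZeta s) s :=
    ((hasDerivAt_id s).sub_const 1).mul (differentiableAt_riemannZeta hs1).hasDerivAt
  rw [h3.deriv]
  have h4 : LSeries (fun n ↦ ((Λ n : ℝ) : ℂ)) s = - deriv riemannZeta s / riemannZeta s :=
    ArithmeticFunction.LSeries_vonMangoldt_eq_deriv_riemannZeta_div hs
  rw [h4]
  have h5 := riemannZeta_ne_zero_of_one_lt_re hs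
  have h6 : s - 1 ≠ 0 := sub_ne_zero.mpr hs1
  field_simp
  ring

/-- **One-sided bounds for `F(y)` imply a zero-free half-plane.** -/
theorem zeta_ne_zero_of_lamExp {σ C δ : ℝ} (hσ : σ = 1 ∨ σ = -1) (hδ : 0 < δ) (hδ1 : δ ≤ 1)
    (hpos : ∀ y ∈ Ioc (0 : ℝ) 1, 0 ≤ cmp σ C δ y) :
    ∀ s : ℂ, 1 - δ < s.re → zetaPole s ≠ 0 := by
  have hcont : ContinuousOn (cmp σ C δ) (Ioi 0) := by
    unfold cmp
    have e1 : ContinuousOn (fun y : ℝ ↦ y ^ (-1 : ℝ)) (Ioi 0) := fun y hy ↦
      (Real.continuousAt_rpow_const _ _ (Or.inl (ne_of_gt hy))).continuousWithinAt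
    have e2 : ContinuousOn (fun y : ℝ ↦ y ^ (δ - 1)) (Ioi 0) := fun y hy ↦
      (Real.continuousAt_rpow_const _ _ (Or.inl (ne_of_gt hy))).continuousWithinAt
    exact (continuousOn_const.mul (e1.sub lamExp_continuousOn)).add (continuousOn_const.mul e2)
  have hm : AEMeasurable (cmp σ C δ) (volume.restrict (Ioc 0 1)) :=
    (hcont.mono Ioc_subset_Ioi_self).aemeasurable measurableSet_Ioc
  have hσ2 : (σ : ℂ) * σ = 1 := by rcases hσ with h | h <;> rw [h] <;> norm_num
  have key := landau_mgf_ode (μ := mMeas (cmp σ C δ)) (X := mVar) mVar_nonpos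
    mVar_measurable.aemeasurable (x0 := 1 - δ) (x1 := 1) (Z := zetaPole)
    (A := fun s ↦ σ * dslope Gamma 1 s - C * (1 / (s + δ - 1)) - σ * tailMellin s)
    (g := fun s ↦ σ / Gamma s) ?_ ?_ ?_ ?_ ?_ ?_ ?_
  · exact key.2
  · intro t ht
    rw [mem_integrableExpSet_iff hpos hm]
    have h1 := (hasMellin_cmp σ C hδ (s := (t : ℂ)) (by simpa using ht)).1
    unfold MellinConvergent at h1
    have h2 : IntegrableOn (fun y : ℝ ↦ (y : ℂ) ^ ((t : ℂ) - 1) • indicator (Ioc 0 1)
      (fun y ↦ ((cmp σ C δ y : ℝ) : ℂ)) y) (Ioc 0 1) := h1.mono_set Ioc_subset_Ioi_self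
    have h3 : IntegrableOn (fun y : ℝ ↦ ‖(y : ℂ) ^ ((t : ℂ) - 1) • indicator (Ioc 0 1)
      (fun y ↦ ((cmp σ C δ y : ℝ) : ℂ)) y‖) (Ioc 0 1) := h2.norm
    refine h3.congr_fun (fun y hy ↦ ?_) measurableSet_Ioc
    simp only
    rw [indicator_of_mem hy, norm_smul, norm_real, Real.norm_of_nonneg (hpos y hy),
      norm_cpow_eq_rpow_re_of_pos hy.1]
    simp
  · exact zetaPole_differentiable.differentiableOn
  · intro s hs
    have hs' : 1 - δ < s.re := hs
    refine DifferentiableAt.differentiableWithinAt ?_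
    have e1 : DifferentiableAt ℂ (dslope Gamma 1) s := by
      have hG : DifferentiableOn ℂ Gamma {s : ℂ | 0 < s.re} := by
        intro z hz
        refine (differentiableAt_Gamma z fun m ↦ ?_).differentiableWithinAt
        intro h
        have hz' : 0 < z.re := hz
        rw [h] at hz'
        simp at hz'
        have : (0 : ℝ) ≤ m := Nat.cast_nonneg m
        linarith
      have h1 : {s : ℂ | 0 < s.re} ∈ 𝓝 (1 : ℂ) := (isOpen_re_gt 0).mem_nhds (by simp)
      have h2 := (differentiableOn_dslope h1).mpr hG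
      exact h2.differentiableAt ((isOpen_re_gt 0).mem_nhds (show (0:ℝ) < s.re by linarith))
    have e2 : DifferentiableAt ℂ (fun s : ℂ ↦ 1 / (s + δ - 1)) s := by
      have : s + δ - 1 ≠ 0 := by
        intro h
        have := congrArg Complex.re h
        simp at this
        linarith
      fun_prop (disch := assumption)
    exact ((e1.const_mul _).sub (e2.const_mul _)).sub ((tailMellin_differentiable s).const_mul _)
  · intro s hs
    have hs' : 1 - δ < s.re := hs
    refine DifferentiableAt.differentiableWithinAt ?_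
    refine (differentiableAt_const _).div ?_ (Gamma_ne_zero_of_re_pos (by linarith))
    refine differentiableAt_Gamma s fun m ↦ ?_
    intro h
    rw [h] at hs'
    simp at hs'
    have : (0 : ℝ) ≤ m := Nat.cast_nonneg m
    linarith
  · intro s hs
    refine div_ne_zero ?_ (Gamma_ne_zero_of_re_pos (by linarith))
    rcases hσ with h | h <;> rw [h] <;> norm_num
  · intro t ht
    exact zetaPole_real_ne_zero (by linarith)
  · intro s hs
    have hs1 : s ≠ 1 := by intro h; rw [h, one_re] at hs; exact lt_irrefl _ hs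
    have h1 := (hasMellin_cmp σ C hδ hs).2
    have h2 := mellin_split hs
    rw [mellin_cF hs] at h2
    have h3 : Gamma s ≠ 0 := Gamma_ne_zero_of_re_pos (by linarith)
    have h4 : dslope Gamma 1 s = (Gamma s - 1) / (s - 1) := by
      rw [dslope_of_ne _ hs1, slope_def_field, Gamma_one]
    rw [deriv_zetaPole_eq hs, complexMGF_eq hpos hm, h1]
    congr 1
    rw [h4]
    have h5 : LSeries (fun n ↦ ((Λ n : ℝ) : ℂ)) s =
        (mellin (indicator (Ioc 0 1) cF) s + tailMellin s) / Gamma s := by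
      rw [eq_div_iff h3, mul_comm]; exact h2
    rw [h5]
    have h6 : s - 1 ≠ 0 := sub_ne_zero.mpr hs1
    set MF := mellin (indicator (Ioc 0 1) cF) s
    set MT := tailMellin s
    have h7 : (σ * (1 / (s - 1) - MF) + C * (1 / (s + δ - 1)) +
        (σ * ((Gamma s - 1) / (s - 1)) - C * (1 / (s + δ - 1)) - σ * MT)) * (σ / Gamma s)
        = (σ * σ) * (1 / (s - 1) - MF + (Gamma s - 1) / (s - 1) - MT) / Gamma s := by ring
    rw [h7, hσ2]
    field_simp
    ring

end Pool.Agent.H6
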