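import Mathlib
import Pool.Agent.H6.LamMellin

/-!
Additive convolutions and their exponential generating sums `∑ c_n e^{-n y}`.
-/

open Filter Topology Set PowerSeries
open scoped ArithmeticFunction.vonMangoldt

namespace Pool.Agent.H6

/-- `∑ c_n e^{-n y}` -/
noncomputable def evp (p : PowerSeries ℝ) (y : ℝ) : ℝ := ∑' n : ℕ, coeff n p * Real.exp (-(n * y))

/-- absolute convergence of `∑ c_n e^{-n y}` -/
def Sev (p : PowerSeries ℝ) (y : ℝ) : Prop := Summable fun n : ℕ ↦ ‖coeff n p * Real.exp (-(n * y))‖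

lemma coeff_mul_exp (p q : PowerSeries ℝ) (y : ℝ) (n : ℕ) :
    coeff n (p * q) * Real.exp (-(n * y)) = ∑ kl ∈ Finset.HasAntidiagonal.antidiagonal n,
      (coeff kl.1 p * Real.exp (-(kl.1 * y))) * (coeff kl.2 q * Real.exp (-(kl.2 * y))) := by
  rw [coeff_mul, Finset.sum_mul]
  refine Finset.sum_congr rfl fun kl hkl ↦ ?_
  have h : (n : ℝ) = kl.1 + kl.2 := by
    rw [Finset.HasAntidiagonal.mem_antidiagonal] at hkl
    exact_mod_cast hkl.symm
  have h2 : Real.exp (-(n * y)) = Real.exp (-(kl.1 * y)) * Real.exp (-(kl.2 * y)) := by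
    rw [← Real.exp_add, h]; congr 1; ring
  rw [h2]; ring

lemma Sev.mul {p q : PowerSeries ℝ} {y : ℝ} (hp : Sev p y) (hq : Sev q y) : Sev (p * q) y := by
  have h := summable_norm_sum_mul_antidiagonal_of_summable_norm
    (f := fun n : ℕ ↦ coeff n p * Real.exp (-(n * y)))
    (g := fun n : ℕ ↦ coeff n q * Real.exp (-(n * y))) hp hq
  unfold Sev
  refine h.congr fun n ↦ ?_
  rw [coeff_mul_exp]

lemma evp_mul {p q : PowerSeries ℝ} {y : ℝ} (hp : Sev p y) (hq : Sev q y) :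
    evp (p * q) y = evp p y * evp q y := by
  have h := tsum_mul_tsum_eq_tsum_sum_antidiagonal_of_summable_norm
    (f := fun n : ℕ ↦ coeff n p * Real.exp (-(n * y)))
    (g := fun n : ℕ ↦ coeff n q * Real.exp (-(n * y))) hp hq
  unfold evp
  rw [h]
  exact tsum_congr fun n ↦ coeff_mul_exp p q y n

lemma Sev_one (y : ℝ) : Sev 1 y := by
  unfold Sev
  refine summable_of_ne_finset_zero (s := {0}) fun n hn ↦ ?_
  rw [coeff_one, if_neg (by simpa using hn)]
  simp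

lemma evp_one (y : ℝ) : evp 1 y = 1 := by
  unfold evp
  rw [tsum_eq_single 0 fun n hn ↦ by rw [coeff_one, if_neg hn, zero_mul]]
  simp

lemma Sev.pow {p : PowerSeries ℝ} {y : ℝ} (hp : Sev p y) (k : ℕ) : Sev (p ^ k) y := by
  induction k with
  | zero => rw [pow_zero]; exact Sev_one y
  | succ k ih => rw [pow_succ]; exact ih.mul hp

lemma evp_pow {p : PowerSeries ℝ} {y : ℝ} (hp : Sev p y) (k : ℕ) : evp (p ^ k) y = evp p y ^ k := by
  induction k with
  | zero => rw [pow_zero, pow_zero]; exact evp_one y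
  | succ k ih => rw [pow_succ, pow_succ, evp_mul (hp.pow k) hp, ih]

/-- `∑ X^n` -/
noncomputable def U : PowerSeries ℝ := PowerSeries.mk fun _ ↦ (1 : ℝ)

/-- `∑ Λ(n) X^n` -/
noncomputable def P : PowerSeries ℝ := PowerSeries.mk fun n ↦ Λ n

lemma Sev_of_bound {p : PowerSeries ℝ} {C : ℝ} {K : ℕ} (h : ∀ n : ℕ, |coeff n p| ≤ C * ((n : ℝ) + 1) ^ K)
    {y : ℝ} (hy : 0 < y) : Sev p y := by
  have hs : Summable fun n : ℕ ↦ C * (((n : ℝ) + 1) ^ K * Real.exp (-(n * y))) := by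
    apply Summable.mul_left
    have h1 := (summable_nat_add_iff 1).mpr (summable_poly_exp K hy)
    have h2 := h1.mul_left (Real.exp y)
    refine h2.congr fun n ↦ ?_
    push_cast
    rw [mul_left_comm, ← Real.exp_add]
    congr 2
    ring
  refine Summable.of_nonneg_of_le (fun _ ↦ norm_nonneg _) (fun n ↦ ?_) hs
  rw [norm_mul, Real.norm_eq_abs, Real.norm_of_nonneg (Real.exp_pos _).le]
  calc |coeff n p| * Real.exp (-(n * y)) ≤ (C * ((n : ℝ) + 1) ^ K) * Real.exp (-(n * y)) := by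
        gcongr
        exact h n
    _ = _ := by ring

lemma Sev_U {y : ℝ} (hy : 0 < y) : Sev U y :=
  Sev_of_bound (C := 1) (K := 0) (fun n ↦ by simp [U]) hy

lemma Sev_P {y : ℝ} (hy : 0 < y) : Sev P y :=
  Sev_of_bound (C := 1) (K := 1) (fun n ↦ by
    rw [P, coeff_mk, abs_of_nonneg ArithmeticFunction.vonMangoldt_nonneg]
    have := lam_le n
    linarith) hy

lemma evp_P (y : ℝ) : evp P y = lamExp y := by
  unfold evp lamExp P
  simp_rw [coeff_mk]

lemma evp_U {y : ℝ} (hy : 0 < y) : evp U y = (1 - Real.exp (-y))⁻¹ := by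
  unfold evp U
  simp_rw [coeff_mk, one_mul]
  have h1 : ∀ n : ℕ, Real.exp (-(n * y)) = (Real.exp (-y)) ^ n := by
    intro n
    rw [← Real.exp_nat_mul]
    congr 1; ring
  simp_rw [h1]
  exact tsum_geometric_of_lt_one (Real.exp_pos _).le (Real.exp_lt_one_iff.mpr (by linarith))

lemma one_le_mul_evp_U {y : ℝ} (hy : 0 < y) : 1 ≤ y * evp U y := by
  rw [evp_U hy, ← div_eq_mul_inv, le_div_iff₀ (by linarith [Real.exp_lt_one_iff.mpr (show -y < 0 by linarith)])]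
  linarith [Real.add_one_le_exp (-y)]

lemma mul_evp_U_le {y : ℝ} (hy : 0 < y) : y * evp U y ≤ 1 + y := by
  have h0 : Real.exp (-y) < 1 := Real.exp_lt_one_iff.mpr (by linarith)
  rw [evp_U hy, ← div_eq_mul_inv, div_le_iff₀ (by linarith)]
  have h1 : Real.exp (-y) * (1 + y) ≤ 1 := by
    have h2 := Real.add_one_le_exp y
    calc Real.exp (-y) * (1 + y) ≤ Real.exp (-y) * Real.exp y := by
          gcongr
          linarith
      _ = 1 := by rw [← Real.exp_add]; simp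
  nlinarith

lemma coeff_mul_U (p : PowerSeries ℝ) (N : ℕ) :
    coeff N (p * U) = ∑ n ∈ Finset.range (N + 1), coeff n p := by
  rw [coeff_mul, Finset.Nat.sum_antidiagonal_eq_sum_range_succ_mk]
  simp [U]

lemma coeff_U_pow (k N : ℕ) : coeff N (U ^ (k + 1)) = (Nat.choose (k + N) k : ℝ) := by
  have h := PowerSeries.mk_one_pow_eq_mk_choose_add ℝ k
  have hU : U = PowerSeries.mk (1 : ℕ → ℝ) := rfl
  rw [hU, h, coeff_mk]

lemma coeff_pow_nonneg {p : PowerSeries ℝ} (hp : ∀ n, 0 ≤ coeff n p) (k n : ℕ) :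
    0 ≤ coeff n (p ^ k) := by
  induction k generalizing n with
  | zero => rw [pow_zero, coeff_one]; split_ifs <;> norm_num
  | succ k ih =>
    rw [pow_succ, coeff_mul]
    exact Finset.sum_nonneg fun kl _ ↦ mul_nonneg (ih _) (hp _)

lemma coeff_mul_nonneg {p q : PowerSeries ℝ} (hp : ∀ n, 0 ≤ coeff n p) (hq : ∀ n, 0 ≤ coeff n q)
    (n : ℕ) : 0 ≤ coeff n (p * q) := by
  rw [coeff_mul]
  exact Finset.sum_nonneg fun kl _ ↦ mul_nonneg (hp _) (hq _)

lemma coeff_P_nonneg (n : ℕ) : 0 ≤ coeff n P := by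
  rw [P, coeff_mk]; exact ArithmeticFunction.vonMangoldt_nonneg

lemma coeff_U_nonneg (n : ℕ) : 0 ≤ coeff n U := by
  rw [U, coeff_mk]; exact zero_le_one

/-- monotonicity of `evp` -/
lemma evp_mono {p q : PowerSeries ℝ} {y : ℝ} (hp : Sev p y) (hq : Sev q y)
    (h : ∀ n, coeff n p ≤ coeff n q) : evp p y ≤ evp q y := by
  refine Summable.tsum_le_tsum (fun n ↦ ?_) hp.of_norm hq.of_norm
  exact mul_le_mul_of_nonneg_right (h n) (Real.exp_pos _).le

/-- **The error term.** -/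
lemma exists_error_bound {b : PowerSeries ℝ} (hb0 : ∀ n, 0 ≤ coeff n b) {CB : ℝ} {K : ℕ}
    (hbK : ∀ n : ℕ, coeff n b ≤ CB * ((n : ℝ) + 1) ^ K) {n₀ : ℕ} (hn₀ : 0 < coeff n₀ b)
    {γ ε : ℝ} (hγ : 0 ≤ γ) (hε : 0 < ε) :
    ∃ C : ℝ, 0 < C ∧ ∀ y : ℝ, 0 < y → y ≤ 1 →
      Sev (PowerSeries.mk fun n : ℕ ↦ ((n : ℝ) + 1) ^ γ * coeff n b) y ∧
      evp (PowerSeries.mk fun n : ℕ ↦ ((n : ℝ) + 1) ^ γ * coeff n b) y ≤ C * y ^ (-γ - ε) * evp b y := by
  have hCB : 0 ≤ CB := by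
    by_contra hcon
    rw [not_le] at hcon
    have h1 := (hb0 0).trans (hbK 0)
    simp at h1
    linarith
  set ε' : ℝ := ε / (γ + 1) with hε'
  have hε'0 : 0 < ε' := by positivity
  set κ : ℝ := ε' / (1 + ε') with hκ
  have hκ0 : 0 < κ := by positivity
  obtain ⟨D, hD, hDb⟩ := exists_rpow_mul_exp_le (t := (γ + K + 2) / κ) (by positivity)
  -- summable majorant
  have hsum2 : Summable fun n : ℕ ↦ ((n : ℝ) + 1) ^ (-2 : ℝ) := by
    have := (summable_nat_add_iff 1).mpr (Real.summable_nat_rpow.mpr (by norm_num : (-2 : ℝ) < -1))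
    simpa using this
  set S₂ : ℝ := ∑' n : ℕ, ((n : ℝ) + 1) ^ (-2 : ℝ) with hS₂
  have hS₂0 : 0 ≤ S₂ := tsum_nonneg fun n ↦ by positivity
  set Q : ℝ := Real.exp 1 * CB * D with hQ
  have hQ0 : 0 ≤ Q := by positivity
  have hpt : ∀ y : ℝ, 0 < y → y ≤ 1 → ∀ n : ℕ,
      ((n : ℝ) + 1) ^ γ * coeff n b * Real.exp (-(n * y)) ≤
      y ^ (-γ - ε) * (coeff n b * Real.exp (-(n * y))) + Q * ((n : ℝ) + 1) ^ (-2 : ℝ) := by
    intro y hy hy1 n
    have hM : (1 : ℝ) ≤ (n : ℝ) + 1 := by linarith [(Nat.cast_nonneg n : (0 : ℝ) ≤ n)]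
    have hM0 : (0 : ℝ) < (n : ℝ) + 1 := by linarith
    have hbn := hb0 n
    have hexp := (Real.exp_pos (-(n * y))).le
    rcases le_or_gt ((n : ℝ) + 1) (y ^ (-(1 + ε'))) with h | h
    · have h1 : ((n : ℝ) + 1) ^ γ ≤ y ^ (-γ - ε) := by
        calc ((n : ℝ) + 1) ^ γ ≤ (y ^ (-(1 + ε'))) ^ γ := Real.rpow_le_rpow hM0.le h hγ
          _ = y ^ (-(1 + ε') * γ) := by rw [← Real.rpow_mul hy.le]
          _ ≤ y ^ (-γ - ε) := by
            apply Real.rpow_le_rpow_of_exponent_ge hy hy1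
            have h2 : ε' * γ ≤ ε := by
              rw [hε', div_mul_eq_mul_div, div_le_iff₀ (by positivity)]
              nlinarith
            nlinarith
      have h3 : 0 ≤ Q * ((n : ℝ) + 1) ^ (-2 : ℝ) := by positivity
      calc ((n : ℝ) + 1) ^ γ * coeff n b * Real.exp (-(n * y))
          = ((n : ℝ) + 1) ^ γ * (coeff n b * Real.exp (-(n * y))) := by ring
        _ ≤ y ^ (-γ - ε) * (coeff n b * Real.exp (-(n * y))) := by gcongr
        _ ≤ _ := by linarith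
    · -- `y > M ^ (-1/(1+ε'))`
      have h1 : ((n : ℝ) + 1) ^ (-(1 + ε')⁻¹) ≤ y := by
        have h2 : (y ^ (-(1 + ε'))) ^ (-(1 + ε')⁻¹) = y := by
          rw [← Real.rpow_mul hy.le]
          have : -(1 + ε') * -(1 + ε')⁻¹ = 1 := by field_simp
          rw [this, Real.rpow_one]
        calc ((n : ℝ) + 1) ^ (-(1 + ε')⁻¹) ≤ (y ^ (-(1 + ε'))) ^ (-(1 + ε')⁻¹) := by
              apply Real.rpow_le_rpow_of_nonpos (by positivity) h.le
              rw [neg_nonpos]; positivity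
          _ = y := h2
      have h2 : ((n : ℝ) + 1) ^ κ ≤ ((n : ℝ) + 1) * y := by
        calc ((n : ℝ) + 1) ^ κ = ((n : ℝ) + 1) ^ (1 + -(1 + ε')⁻¹) := by
              congr 1; rw [hκ]; field_simp; ring
          _ = ((n : ℝ) + 1) * ((n : ℝ) + 1) ^ (-(1 + ε')⁻¹) := by
              rw [Real.rpow_add hM0, Real.rpow_one]
          _ ≤ _ := by gcongr
      have h3 : Real.exp (-(n * y)) ≤ Real.exp 1 * Real.exp (-(((n : ℝ) + 1) ^ κ)) := by
        rw [← Real.exp_add]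
        apply Real.exp_le_exp.mpr
        nlinarith
      have h4 : ((n : ℝ) + 1) ^ (γ + K + 2) * Real.exp (-(((n : ℝ) + 1) ^ κ)) ≤ D := by
        have h5 := hDb (((n : ℝ) + 1) ^ κ) (by positivity)
        have h6 : (((n : ℝ) + 1) ^ κ) ^ ((γ + K + 2) / κ) = ((n : ℝ) + 1) ^ (γ + K + 2) := by
          rw [← Real.rpow_mul hM0.le]
          congr 1
          field_simp
        rwa [h6] at h5
      have h7 : ((n : ℝ) + 1) ^ γ * ((n : ℝ) + 1) ^ (K : ℝ) * Real.exp (-(((n : ℝ) + 1) ^ κ)) ≤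
          D * ((n : ℝ) + 1) ^ (-2 : ℝ) := by
        rw [Real.rpow_neg hM0.le, ← div_eq_mul_inv, le_div_iff₀ (by positivity)]
        calc ((n : ℝ) + 1) ^ γ * ((n : ℝ) + 1) ^ (K : ℝ) * Real.exp (-(((n : ℝ) + 1) ^ κ)) *
              ((n : ℝ) + 1) ^ (2 : ℝ)
            = (((n : ℝ) + 1) ^ γ * ((n : ℝ) + 1) ^ (K : ℝ) * ((n : ℝ) + 1) ^ (2 : ℝ)) *
              Real.exp (-(((n : ℝ) + 1) ^ κ)) := by ring
          _ = ((n : ℝ) + 1) ^ (γ + K + 2) * Real.exp (-(((n : ℝ) + 1) ^ κ)) := by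
              rw [← Real.rpow_add hM0, ← Real.rpow_add hM0]
          _ ≤ D := h4
      rw [Real.rpow_natCast] at h7
      have h8 : 0 ≤ y ^ (-γ - ε) * (coeff n b * Real.exp (-(n * y))) := by positivity
      calc ((n : ℝ) + 1) ^ γ * coeff n b * Real.exp (-(n * y))
          ≤ ((n : ℝ) + 1) ^ γ * (CB * ((n : ℝ) + 1) ^ K) *
            (Real.exp 1 * Real.exp (-(((n : ℝ) + 1) ^ κ))) := by
            gcongr
            exact hbK n
        _ = Real.exp 1 * CB * (((n : ℝ) + 1) ^ γ * ((n : ℝ) + 1) ^ K *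
            Real.exp (-(((n : ℝ) + 1) ^ κ))) := by ring
        _ ≤ Real.exp 1 * CB * (D * ((n : ℝ) + 1) ^ (-2 : ℝ)) := by gcongr
        _ = Q * ((n : ℝ) + 1) ^ (-2 : ℝ) := by rw [hQ]; ring
        _ ≤ _ := by linarith
  have hlow : ∀ y : ℝ, 0 < y → y ≤ 1 → coeff n₀ b * Real.exp (-n₀) ≤ evp b y := by
    intro y hy hy1
    have hSb : Sev b y := Sev_of_bound (C := CB) (K := K)
      (fun n ↦ by rw [abs_of_nonneg (hb0 n)]; exact hbK n) hy
    have h1 : coeff n₀ b * Real.exp (-(n₀ * y)) ≤ evp b y :=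
      hSb.of_norm.le_tsum n₀ fun n _ ↦ mul_nonneg (hb0 n) (Real.exp_pos _).le
    refine le_trans ?_ h1
    gcongr
    have : (0 : ℝ) ≤ n₀ := Nat.cast_nonneg _
    nlinarith
  have hlow0 : 0 < coeff n₀ b * Real.exp (-n₀) := by positivity
  refine ⟨1 + Q * S₂ / (coeff n₀ b * Real.exp (-n₀)), by positivity, fun y hy hy1 ↦ ?_⟩
  have hSb : Sev b y := Sev_of_bound (C := CB) (K := K)
      (fun n ↦ by rw [abs_of_nonneg (hb0 n)]; exact hbK n) hy
  have hmaj : Summable fun n : ℕ ↦ y ^ (-γ - ε) * (coeff n b * Real.exp (-(n * y))) +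
      Q * ((n : ℝ) + 1) ^ (-2 : ℝ) := (hSb.of_norm.mul_left _).add (hsum2.mul_left _)
  have hSev : Sev (PowerSeries.mk fun n : ℕ ↦ ((n : ℝ) + 1) ^ γ * coeff n b) y := by
    refine Summable.of_nonneg_of_le (fun _ ↦ norm_nonneg _) (fun n ↦ ?_) hmaj
    rw [coeff_mk, Real.norm_of_nonneg]
    · exact hpt y hy hy1 n
    · have := hb0 n
      positivity
  refine ⟨hSev, ?_⟩
  have h1 : evp (PowerSeries.mk fun n : ℕ ↦ ((n : ℝ) + 1) ^ γ * coeff n b) y ≤
      y ^ (-γ - ε) * evp b y + Q * S₂ := by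
    unfold evp
    rw [← tsum_mul_left, hS₂, ← tsum_mul_left,
      ← (hSb.of_norm.mul_left _).tsum_add (hsum2.mul_left _)]
    refine hSev.of_norm.tsum_le_tsum (fun n ↦ ?_) hmaj
    rw [coeff_mk]
    exact hpt y hy hy1 n
  have h2 := hlow y hy hy1
  have h3 : (1 : ℝ) ≤ y ^ (-γ - ε) :=
    Real.one_le_rpow_of_pos_of_le_one_of_nonpos hy hy1 (by linarith)
  have h4 : Q * S₂ ≤ Q * S₂ / (coeff n₀ b * Real.exp (-n₀)) * y ^ (-γ - ε) * evp b y := by
    have h5 : 0 ≤ Q * S₂ / (coeff n₀ b * Real.exp (-n₀)) := by positivity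
    calc Q * S₂ = Q * S₂ / (coeff n₀ b * Real.exp (-n₀)) * 1 * (coeff n₀ b * Real.exp (-n₀)) := by
          field_simp
      _ ≤ Q * S₂ / (coeff n₀ b * Real.exp (-n₀)) * y ^ (-γ - ε) * evp b y := by
          gcongr
  calc _ ≤ y ^ (-γ - ε) * evp b y + Q * S₂ := h1
    _ ≤ y ^ (-γ - ε) * evp b y + Q * S₂ / (coeff n₀ b * Real.exp (-n₀)) * y ^ (-γ - ε) * evp b y := by
        linarith
    _ = _ := by ring

end Pool.Agent.H6
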