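import Mathlib
import Pool.Agent.H6.CertEuler

/-!
Lower bound for the Riesz mean of `(1 * f)(k) k^{-s}` when `1 * f` is small on average.
-/

open Complex Filter Topology Set

namespace Pool.Agent.H6

/-- the zeta sum -/
noncomputable def zsum (τ : ℝ) : ℝ := ∑' m : ℕ, 1 / (m : ℝ) ^ τ

lemma zsum_nonneg (τ : ℝ) : 0 ≤ zsum τ := tsum_nonneg fun n ↦ by positivity

lemma finset_le_zsum {τ : ℝ} (hτ : 1 < τ) (S : Finset ℕ) :
    ∑ m ∈ S, (m : ℝ) ^ (-τ) ≤ zsum τ := by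
  have h : ∀ m : ℕ, (m : ℝ) ^ (-τ) = 1 / (m : ℝ) ^ τ := by
    intro m
    rw [Real.rpow_neg (Nat.cast_nonneg m), one_div]
  simp_rw [h]
  exact (Real.summable_one_div_nat_rpow.mpr hτ).sum_le_tsum S fun n _ ↦ by positivity

lemma rpow_neg_step {σ : ℝ} (h0 : 0 ≤ σ) (h1 : σ ≤ 1) {m : ℕ} (hm : 1 ≤ m) :
    (m : ℝ) ^ (-σ) - ((m + 1 : ℕ) : ℝ) ^ (-σ) ≤ (m : ℝ) ^ (-σ - 1) := by
  have hm0 : (0 : ℝ) < m := by exact_mod_cast hm
  have e1 : ((m + 1 : ℕ) : ℝ) = m * (1 + 1 / m) := by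
    push_cast
    field_simp
  have hx : (0 : ℝ) ≤ 1 / m := by positivity
  have h2 : (1 + 1 / (m : ℝ)) ^ σ ≤ 1 + σ * (1 / m) :=
    rpow_one_add_le_one_add_mul_self (by linarith) h0 h1
  have h3 : 0 < (1 + 1 / (m : ℝ)) ^ σ := by positivity
  have h4 : 1 - σ * (1 / m) ≤ (1 + 1 / (m : ℝ)) ^ (-σ) := by
    rw [Real.rpow_neg (by positivity), ← one_div, le_div_iff₀ h3]
    have h5 : 0 ≤ σ * (1 / (m : ℝ)) := by positivity
    rcases le_or_gt (1 - σ * (1 / (m : ℝ))) 0 with h6 | h6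
    · nlinarith
    · nlinarith
  have h5 : ((m + 1 : ℕ) : ℝ) ^ (-σ) = (m : ℝ) ^ (-σ) * (1 + 1 / (m : ℝ)) ^ (-σ) := by
    rw [e1, Real.mul_rpow hm0.le (by positivity)]
  have h6 : (m : ℝ) ^ (-σ - 1) = (m : ℝ) ^ (-σ) * (1 / m) := by
    rw [Real.rpow_sub hm0, Real.rpow_one]
    ring
  have h7 : 0 < (m : ℝ) ^ (-σ) := by positivity
  rw [h5, h6]
  have h8 : (m : ℝ) ^ (-σ) * (1 - σ * (1 / m)) ≤ (m : ℝ) ^ (-σ) * (1 + 1 / (m : ℝ)) ^ (-σ) := by
    gcongr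
  have h9 : (m : ℝ) ^ (-σ) * (σ * (1 / m)) ≤ (m : ℝ) ^ (-σ) * (1 * (1 / m)) := by gcongr
  nlinarith

/-- partial summation -/
lemma weighted_le {g : ℕ → ℝ} {δ A : ℝ} (hA : 0 ≤ A) {X : ℕ}
    (hG : ∀ Y, Y ≤ X → ∑ k ∈ Finset.Icc 1 Y, g k ≤ A * (Y : ℝ) ^ (1 - δ))
    {σ : ℝ} (h0 : 0 ≤ σ) (h1 : σ ≤ 1) (hσ : 1 - δ < σ) :
    ∑ k ∈ Finset.Icc 1 X, g k * (k : ℝ) ^ (-σ) ≤ A * (1 + zsum (σ + δ)) := by
  rcases Nat.eq_zero_or_pos X with rfl | hX
  · simp only [Finset.Icc_eq_empty_of_lt one_pos, Finset.sum_empty]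
    have := zsum_nonneg (σ + δ)
    positivity
  have hX0 : (0 : ℝ) < X := by exact_mod_cast hX
  have hX1 : (1 : ℝ) ≤ X := by exact_mod_cast hX
  rw [abel_sum]
  have t1 : (∑ k ∈ Finset.Icc 1 X, g k) * (X : ℝ) ^ (-σ) ≤ A := by
    calc (∑ k ∈ Finset.Icc 1 X, g k) * (X : ℝ) ^ (-σ)
        ≤ (A * (X : ℝ) ^ (1 - δ)) * (X : ℝ) ^ (-σ) := by
          have := hG X le_rfl
          gcongr
      _ = A * (X : ℝ) ^ (1 - δ - σ) := by
          rw [mul_assoc, ← Real.rpow_add hX0]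
          ring_nf
      _ ≤ A * 1 := by
          have : (X : ℝ) ^ (1 - δ - σ) ≤ 1 := Real.rpow_le_one_of_one_le_of_nonpos hX1 (by linarith)
          gcongr
      _ = A := mul_one A
  have t2 : ∑ m ∈ Finset.Ico 1 X, (∑ k ∈ Finset.Icc 1 m, g k) *
      ((m : ℝ) ^ (-σ) - ((m + 1 : ℕ) : ℝ) ^ (-σ)) ≤ A * zsum (σ + δ) := by
    calc ∑ m ∈ Finset.Ico 1 X, (∑ k ∈ Finset.Icc 1 m, g k) *
          ((m : ℝ) ^ (-σ) - ((m + 1 : ℕ) : ℝ) ^ (-σ))
        ≤ ∑ m ∈ Finset.Ico 1 X, A * (m : ℝ) ^ (-(σ + δ)) := by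
          refine Finset.sum_le_sum fun m hm ↦ ?_
          rw [Finset.mem_Ico] at hm
          have hm0 : (0 : ℝ) < m := by exact_mod_cast hm.1
          have h2 := rpow_neg_step h0 h1 hm.1
          have h3 : 0 ≤ (m : ℝ) ^ (-σ) - ((m + 1 : ℕ) : ℝ) ^ (-σ) := by
            rw [sub_nonneg]
            apply Real.rpow_le_rpow_of_nonpos hm0 _ (by linarith)
            push_cast; linarith
          have h4 := hG m hm.2.le
          calc (∑ k ∈ Finset.Icc 1 m, g k) * ((m : ℝ) ^ (-σ) - ((m + 1 : ℕ) : ℝ) ^ (-σ))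
              ≤ (A * (m : ℝ) ^ (1 - δ)) * ((m : ℝ) ^ (-σ) - ((m + 1 : ℕ) : ℝ) ^ (-σ)) := by gcongr
            _ ≤ (A * (m : ℝ) ^ (1 - δ)) * (m : ℝ) ^ (-σ - 1) := by gcongr
            _ = A * (m : ℝ) ^ (-(σ + δ)) := by
                rw [mul_assoc, ← Real.rpow_add hm0]
                ring_nf
      _ = A * ∑ m ∈ Finset.Ico 1 X, (m : ℝ) ^ (-(σ + δ)) := by rw [Finset.mul_sum]
      _ ≤ A * zsum (σ + δ) := by
          have := finset_le_zsum (τ := σ + δ) (by linarith) (Finset.Ico 1 X)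
          gcongr
  linarith

section
variable {f : ℕ →*₀ ℝ}

lemma gterm_ofReal (σ : ℝ) (m : ℕ) :
    gterm f (σ : ℂ) m = ((oneConv (fun n ↦ f n) m * (m : ℝ) ^ (-σ) : ℝ) : ℂ) := by
  unfold gterm
  push_cast
  rw [ofReal_cpow (Nat.cast_nonneg m)]
  push_cast
  rfl

lemma norm_gterm (hf : ∀ n, |f n| ≤ 1) (s : ℂ) {m : ℕ} (hm : m ≠ 0) :
    ‖gterm f s m‖ = oneConv (fun n ↦ f n) m * (m : ℝ) ^ (-s.re) := by
  unfold gterm
  rw [norm_mul, norm_real, Real.norm_of_nonneg (oneConv_nonneg hf m),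
    norm_natCast_cpow_of_pos (Nat.pos_of_ne_zero hm), neg_re]

/-- primes below `X + 1` -/
lemma prime_sum_le {δ A : ℝ} (hf : ∀ n, |f n| ≤ 1) (hA : 0 ≤ A) {X : ℕ}
    (hG : ∀ Y, Y ≤ X → ∑ k ∈ Finset.Icc 1 Y, oneConv (fun n ↦ f n) k ≤ A * (Y : ℝ) ^ (1 - δ))
    {σ₀ : ℝ} (h0 : 1 / 2 < σ₀) (h1 : σ₀ ≤ 1) (hσ : 1 - δ < σ₀) {c : ℝ} (hc : 0 ≤ c) (hc2 : c ≤ 32)
    {β : ℝ} (hβ : σ₀ ≤ β) :
    ∑ p ∈ (X + 1).primesBelow, (oneConv (fun n ↦ f n) p * (p : ℝ) ^ (-β) + c * (p : ℝ) ^ (-(2 * β)))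
      ≤ A * (1 + zsum (σ₀ + δ)) + 32 * zsum (2 * σ₀) := by
  rw [Finset.sum_add_distrib]
  have hsub : (X + 1).primesBelow ⊆ Finset.Icc 1 X := by
    intro p hp
    rw [Nat.mem_primesBelow] at hp
    rw [Finset.mem_Icc]
    have := hp.2.one_lt
    omega
  refine add_le_add ?_ ?_
  · calc ∑ p ∈ (X + 1).primesBelow, oneConv (fun n ↦ f n) p * (p : ℝ) ^ (-β)
        ≤ ∑ p ∈ Finset.Icc 1 X, oneConv (fun n ↦ f n) p * (p : ℝ) ^ (-β) := by
          refine Finset.sum_le_sum_of_subset_of_nonneg hsub fun p _ _ ↦ ?_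
          exact mul_nonneg (oneConv_nonneg hf p) (by positivity)
      _ ≤ ∑ p ∈ Finset.Icc 1 X, oneConv (fun n ↦ f n) p * (p : ℝ) ^ (-σ₀) := by
          refine Finset.sum_le_sum fun p hp ↦ ?_
          rw [Finset.mem_Icc] at hp
          have hp1 : (1 : ℝ) ≤ p := by exact_mod_cast hp.1
          refine mul_le_mul_of_nonneg_left ?_ (oneConv_nonneg hf p)
          exact Real.rpow_le_rpow_of_exponent_le hp1 (by linarith)
      _ ≤ _ := weighted_le hA hG (by linarith) h1 hσ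
  · rw [← Finset.mul_sum]
    have h2 : ∑ p ∈ (X + 1).primesBelow, (p : ℝ) ^ (-(2 * β)) ≤ zsum (2 * σ₀) := by
      calc ∑ p ∈ (X + 1).primesBelow, (p : ℝ) ^ (-(2 * β))
          ≤ ∑ p ∈ (X + 1).primesBelow, (p : ℝ) ^ (-(2 * σ₀)) := by
            refine Finset.sum_le_sum fun p hp ↦ ?_
            have hp1 : (1 : ℝ) ≤ p := by exact_mod_cast (Nat.prime_of_mem_primesBelow hp).one_lt.le
            exact Real.rpow_le_rpow_of_exponent_le hp1 (by linarith)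
        _ ≤ _ := finset_le_zsum (by linarith) _
    have h3 := zsum_nonneg (2 * σ₀)
    have h4 : 0 ≤ ∑ p ∈ (X + 1).primesBelow, (p : ℝ) ^ (-(2 * β)) :=
      Finset.sum_nonneg fun p _ ↦ by positivity
    nlinarith

/-- **lower bound** for the Riesz mean -/
theorem riesz_lower (hf : ∀ n, |f n| ≤ 1) {δ A : ℝ} (hA : 0 ≤ A) {X : ℕ} (hX : 1 ≤ X)
    (hG : ∀ Y, Y ≤ X → ∑ k ∈ Finset.Icc 1 Y, oneConv (fun n ↦ f n) k ≤ A * (Y : ℝ) ^ (1 - δ))
    {σ₀ : ℝ} (h0 : 1 / 2 < σ₀) (h1 : σ₀ ≤ 1) (hσ : 1 - δ < σ₀) {s : ℂ} (hs : σ₀ ≤ s.re)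
    (hs' : s.re ≤ 1) :
    Real.exp (-(A * (1 + zsum (σ₀ + δ)) + 32 * zsum (2 * σ₀)))
      - (X : ℝ) ^ (-(s.re - σ₀)) * Real.exp (A * (1 + zsum (σ₀ + δ)) + 32 * zsum (2 * σ₀))
      ≤ ‖∑ k ∈ Finset.Icc 1 X, gterm f s k * (1 - (k : ℂ) / X)‖ := by
  set B : ℝ := A * (1 + zsum (σ₀ + δ)) + 32 * zsum (2 * σ₀) with hB
  have hX0 : (0 : ℝ) < X := by exact_mod_cast hX
  obtain ⟨hsn, hss⟩ := euler_product (f := f) hf (s := s) (by linarith) (X + 1)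
  obtain ⟨hrn, hrs⟩ := euler_product (f := f) hf (s := (σ₀ : ℂ)) (by simp; linarith) (X + 1)
  set P : ℂ := ∏ p ∈ (X + 1).primesBelow, ((1 - (p : ℂ) ^ (-s))⁻¹ *
          (1 - ((f p : ℝ) : ℂ) * (p : ℂ) ^ (-s))⁻¹) with hP
  set Q : ℂ := ∏ p ∈ (X + 1).primesBelow, ((1 - (p : ℂ) ^ (-(σ₀ : ℂ)))⁻¹ *
          (1 - ((f p : ℝ) : ℂ) * (p : ℂ) ^ (-(σ₀ : ℂ)))⁻¹) with hQ
  -- lower bound for `P`
  have hPlow : Real.exp (-B) ≤ ‖P‖ := by
    rw [hP, norm_prod]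
    calc Real.exp (-B) ≤ Real.exp (-∑ p ∈ (X + 1).primesBelow,
          (oneConv (fun n ↦ f n) p * (p : ℝ) ^ (-s.re) + 1 * (p : ℝ) ^ (-(2 * s.re)))) := by
          apply Real.exp_le_exp.mpr
          have := prime_sum_le hf hA hG h0 h1 hσ (c := 1) (by norm_num) (by norm_num) hs
          linarith
      _ = ∏ p ∈ (X + 1).primesBelow, Real.exp
          (-(oneConv (fun n ↦ f n) p * (p : ℝ) ^ (-s.re) + (p : ℝ) ^ (-(2 * s.re)))) := by
          rw [← Finset.sum_neg_distrib, Real.exp_sum]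
          simp only [one_mul]
      _ ≤ _ := by
          refine Finset.prod_le_prod (fun p _ ↦ (Real.exp_pos _).le) fun p hp ↦ ?_
          exact factor_lower hf (by linarith) (Nat.prime_of_mem_primesBelow hp)
  -- upper bound for `Q`
  have hQup : ‖Q‖ ≤ Real.exp B := by
    rw [hQ, norm_prod]
    calc ∏ p ∈ (X + 1).primesBelow, ‖(1 - (p : ℂ) ^ (-(σ₀ : ℂ)))⁻¹ *
          (1 - ((f p : ℝ) : ℂ) * (p : ℂ) ^ (-(σ₀ : ℂ)))⁻¹‖
        ≤ ∏ p ∈ (X + 1).primesBelow, Real.exp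
          (oneConv (fun n ↦ f n) p * (p : ℝ) ^ (-σ₀) + 32 * (p : ℝ) ^ (-(2 * σ₀))) := by
          refine Finset.prod_le_prod (fun p _ ↦ norm_nonneg _) fun p hp ↦ ?_
          exact factor_upper hf h0.le (Nat.prime_of_mem_primesBelow hp)
      _ = Real.exp (∑ p ∈ (X + 1).primesBelow,
          (oneConv (fun n ↦ f n) p * (p : ℝ) ^ (-σ₀) + 32 * (p : ℝ) ^ (-(2 * σ₀)))) := by
          rw [Real.exp_sum]
      _ ≤ Real.exp B := by
          apply Real.exp_le_exp.mpr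
          exact prime_sum_le hf hA hG h0 h1 hσ (c := 32) (by norm_num) le_rfl le_rfl
  -- the norm sum
  have hnorm : ∑' m : (X + 1).smoothNumbers, ‖gterm f (σ₀ : ℂ) m‖ ≤ ‖Q‖ := by
    have e1 : ∀ m : (X + 1).smoothNumbers, ‖gterm f (σ₀ : ℂ) m‖ = (gterm f (σ₀ : ℂ) m).re := by
      intro m
      rw [gterm_ofReal, norm_real, ofReal_re, Real.norm_of_nonneg]
      exact mul_nonneg (oneConv_nonneg hf _) (by positivity)
    simp_rw [e1]
    have e2 := (hasSum_re hrs).tsum_eq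
    rw [e2]
    exact re_le_norm Q
  -- the Riesz mean as a sum over smooth numbers
  set h : ℕ → ℂ := fun m ↦ gterm f s m * ((max (1 - (m : ℝ) / X) 0 : ℝ) : ℂ) with hh
  have hΓ : ∑' m : (X + 1).smoothNumbers, h m
      = ∑ k ∈ Finset.Icc 1 X, gterm f s k * (1 - (k : ℂ) / X) := by
    rw [tsum_subtype, tsum_eq_sum (s := Finset.Icc 1 X)]
    · refine Finset.sum_congr rfl fun k hk ↦ ?_
      rw [Finset.mem_Icc] at hk
      rw [Set.indicator_of_mem (Nat.mem_smoothNumbers_of_lt hk.1 (by omega))]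
      simp only [hh]
      have : (k : ℝ) / X ≤ 1 := by
        rw [div_le_one hX0]
        exact_mod_cast hk.2
      rw [max_eq_left (by linarith)]
      push_cast
      rfl
    · intro m hm
      rw [Set.indicator_apply]
      split_ifs
      · simp only [hh]
        rcases Nat.eq_zero_or_pos m with rfl | hm0
        · rw [gterm_zero, zero_mul]
        · have h2 : X < m := by
            by_contra hcon
            exact hm (Finset.mem_Icc.mpr ⟨hm0, by omega⟩)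
          have h3 : 1 ≤ (m : ℝ) / X := by
            rw [le_div_iff₀ hX0, one_mul]
            exact_mod_cast h2.le
          rw [max_eq_right (by linarith)]
          simp
      · rfl
  -- pointwise bound
  have hpt : ∀ m : (X + 1).smoothNumbers, ‖gterm f s m - h m‖
      ≤ (X : ℝ) ^ (-(s.re - σ₀)) * ‖gterm f (σ₀ : ℂ) m‖ := by
    rintro ⟨m, hm⟩
    have hm0 : m ≠ 0 := Nat.ne_zero_of_mem_smoothNumbers hm
    have hmr : (0 : ℝ) < m := by
      have : 0 < m := Nat.pos_of_ne_zero hm0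
      exact_mod_cast this
    simp only [hh]
    have e1 : gterm f s m - gterm f s m * ((max (1 - (m : ℝ) / X) 0 : ℝ) : ℂ)
        = gterm f s m * ((1 - max (1 - (m : ℝ) / X) 0 : ℝ) : ℂ) := by
      push_cast; ring
    rw [e1, norm_mul, norm_gterm hf s hm0, norm_gterm hf _ hm0, norm_real, ofReal_re]
    have hx : 0 ≤ (m : ℝ) / X := by positivity
    have e2 : 0 ≤ 1 - max (1 - (m : ℝ) / X) 0 := by
      rw [sub_nonneg]
      exact max_le (by linarith) zero_le_one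
    have e3 : 1 - max (1 - (m : ℝ) / X) 0 ≤ ((m : ℝ) / X) ^ (s.re - σ₀) := by
      rcases le_or_gt ((m : ℝ) / X) 1 with h4 | h4
      · rw [max_eq_left (by linarith)]
        have h5 : 1 - (1 - (m : ℝ) / X) = ((m : ℝ) / X) ^ (1 : ℝ) := by rw [Real.rpow_one]; ring
        rw [h5]
        exact Real.rpow_le_rpow_of_exponent_ge (by positivity) h4 (by linarith)
      · rw [max_eq_right (by linarith), sub_zero]
        exact Real.one_le_rpow h4.le (by linarith)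
    rw [Real.norm_of_nonneg e2]
    have e4 : (m : ℝ) ^ (-s.re) * ((m : ℝ) / X) ^ (s.re - σ₀)
        = (X : ℝ) ^ (-(s.re - σ₀)) * (m : ℝ) ^ (-σ₀) := by
      rw [Real.div_rpow hmr.le hX0.le, Real.rpow_neg hX0.le (s.re - σ₀), div_eq_mul_inv,
        ← mul_assoc, ← Real.rpow_add hmr, mul_comm]
      congr 2
      ring
    have e5 := oneConv_nonneg hf m
    calc oneConv (fun n ↦ f n) m * (m : ℝ) ^ (-s.re) * (1 - max (1 - (m : ℝ) / X) 0)
        ≤ oneConv (fun n ↦ f n) m * (m : ℝ) ^ (-s.re) * ((m : ℝ) / X) ^ (s.re - σ₀) := by gcongr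
      _ = oneConv (fun n ↦ f n) m * ((m : ℝ) ^ (-s.re) * ((m : ℝ) / X) ^ (s.re - σ₀)) := by ring
      _ = _ := by rw [e4]; ring
  have hsumm : Summable fun m : (X + 1).smoothNumbers ↦
      (X : ℝ) ^ (-(s.re - σ₀)) * ‖gterm f (σ₀ : ℂ) m‖ := hrn.mul_left _
  have hdsum : Summable fun m : (X + 1).smoothNumbers ↦ ‖gterm f s m - h m‖ :=
    Summable.of_nonneg_of_le (fun _ ↦ norm_nonneg _) hpt hsumm
  have hdiff : ‖P - ∑ k ∈ Finset.Icc 1 X, gterm f s k * (1 - (k : ℂ) / X)‖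
      ≤ (X : ℝ) ^ (-(s.re - σ₀)) * Real.exp B := by
    have hhs : Summable fun m : (X + 1).smoothNumbers ↦ h m := by
      have e1 : Summable fun m : (X + 1).smoothNumbers ↦ gterm f s m - (gterm f s m - h m) :=
        hss.summable.sub hdsum.of_norm
      refine e1.congr fun m ↦ ?_
      ring
    rw [← hΓ, ← hss.tsum_eq, ← Summable.tsum_sub hss.summable hhs]
    refine (norm_tsum_le_tsum_norm hdsum).trans ?_
    refine (Summable.tsum_le_tsum hpt hdsum hsumm).trans ?_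
    rw [tsum_mul_left]
    have : 0 ≤ (X : ℝ) ^ (-(s.re - σ₀)) := by positivity
    gcongr
    exact hnorm.trans hQup
  have h9 : ‖P‖ ≤ ‖P - ∑ k ∈ Finset.Icc 1 X, gterm f s k * (1 - (k : ℂ) / X)‖
      + ‖∑ k ∈ Finset.Icc 1 X, gterm f s k * (1 - (k : ℂ) / X)‖ := norm_le_norm_sub_add _ _
  linarith

end

end Pool.Agent.H6
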