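import Mathlib
import Pool.Agent.H6.CertZero

/-!
The second order remainder at a zero of `ζ`.
-/

open Complex Filter Topology MeasureTheory Set

namespace Pool.Agent.H6

/-- `∑ m^{-s} (y - m)_+` over `m ≤ B` -/
noncomputable def vfun (s : ℂ) (B : ℕ) (y : ℝ) : ℂ :=
  ∑ m ∈ Finset.Icc 1 B, (m : ℂ) ^ (-s) * ((max (y - m) 0 : ℝ) : ℂ)

/-- the remainder -/
noncomputable def rem (s : ℂ) (B : ℕ) (y : ℝ) : ℂ :=
  vfun s B y - (y : ℂ) ^ (2 - s) / ((1 - s) * (2 - s))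

lemma hasDerivWithinAt_max (m y : ℝ) :
    HasDerivWithinAt (fun x : ℝ ↦ ((max (x - m) 0 : ℝ) : ℂ)) (if m ≤ y then 1 else 0) (Ici y) y := by
  split_ifs with h
  · have h1 : HasDerivWithinAt (fun x : ℝ ↦ ((x - m : ℝ) : ℂ)) 1 (Ici y) y := by
      have h2 : HasDerivAt (fun x : ℝ ↦ (x - m)) 1 y := (hasDerivAt_id y).sub_const m
      have h3 := h2.ofReal_comp
      simpa using h3.hasDerivWithinAt
    refine h1.congr (fun x hx ↦ ?_) ?_
    · rw [max_eq_left]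
      have : y ≤ x := hx
      linarith
    · rw [max_eq_left]
      linarith
  · push Not at h
    have h1 : HasDerivWithinAt (fun _ : ℝ ↦ (0 : ℂ)) 0 (Ici y) y := hasDerivWithinAt_const _ _ _
    refine h1.congr_of_eventuallyEq ?_ ?_
    · have : Iio m ∈ 𝓝[Ici y] y := mem_nhdsWithin_of_mem_nhds (Iio_mem_nhds h)
      filter_upwards [this] with x hx
      have hx' : x < m := hx
      rw [max_eq_right (by linarith)]
      simp
    · rw [max_eq_right (by linarith)]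
      simp

lemma vfun_hasDerivWithinAt (s : ℂ) {B : ℕ} {y : ℝ} (hy : 0 ≤ y) (hyB : y < (B : ℝ) + 1) :
    HasDerivWithinAt (vfun s B) (usum s ⌊y⌋₊) (Ici y) y := by
  have h1 : HasDerivWithinAt (vfun s B)
      (∑ m ∈ Finset.Icc 1 B, (m : ℂ) ^ (-s) * (if (m : ℝ) ≤ y then 1 else 0)) (Ici y) y := by
    unfold vfun
    refine HasDerivWithinAt.fun_sum fun m _ ↦ ?_
    exact (hasDerivWithinAt_max m y).const_mul _
  have h2 : ∑ m ∈ Finset.Icc 1 B, (m : ℂ) ^ (-s) * (if (m : ℝ) ≤ y then (1 : ℂ) else 0)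
      = usum s ⌊y⌋₊ := by
    unfold usum
    simp_rw [mul_ite, mul_one, mul_zero]
    rw [← Finset.sum_filter]
    refine Finset.sum_congr ?_ fun _ _ ↦ rfl
    ext m
    simp only [Finset.mem_filter, Finset.mem_Icc]
    rw [← Nat.le_floor_iff hy]
    constructor
    · rintro ⟨⟨a, b⟩, c⟩
      exact ⟨a, c⟩
    · rintro ⟨a, c⟩
      refine ⟨⟨a, ?_⟩, c⟩
      have h3 : ⌊y⌋₊ < B + 1 := by
        rw [Nat.floor_lt hy]
        push_cast
        exact hyB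
      omega
  rw [h2] at h1
  exact h1

lemma vfun_continuous (s : ℂ) (B : ℕ) : Continuous (vfun s B) := by
  unfold vfun
  fun_prop

lemma cpow_hasDerivAt {w : ℂ} (hw : w ≠ 0) {y : ℝ} (hy : 0 < y) :
    HasDerivAt (fun y : ℝ ↦ (y : ℂ) ^ w) (w * (y : ℂ) ^ (w - 1)) y :=
  hasDerivAt_ofReal_cpow_const hy.ne' hw

lemma rem_hasDerivWithinAt {s : ℂ} (hs1 : s ≠ 1) (hs2 : s ≠ 2) {B : ℕ} {y : ℝ} (hy : 0 < y)
    (hyB : y < (B : ℝ) + 1) :
    HasDerivWithinAt (rem s B) (usum s ⌊y⌋₊ - (y : ℂ) ^ (1 - s) / (1 - s)) (Ici y) y := by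
  have h2s : (2 : ℂ) - s ≠ 0 := sub_ne_zero.mpr (Ne.symm hs2)
  have h1s : (1 : ℂ) - s ≠ 0 := sub_ne_zero.mpr (Ne.symm hs1)
  have h1 := vfun_hasDerivWithinAt s hy.le hyB
  have h2 := ((cpow_hasDerivAt h2s hy).div_const ((1 - s) * (2 - s))).hasDerivWithinAt (s := Ici y)
  have h3 := h1.sub h2
  have h4 : (2 - s) * (y : ℂ) ^ (2 - s - 1) / ((1 - s) * (2 - s)) = (y : ℂ) ^ (1 - s) / (1 - s) := by
    have : 2 - s - 1 = 1 - s := by ring
    rw [this]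
    field_simp
  rw [h4] at h3
  exact h3

lemma rem_continuousOn {s : ℂ} {B : ℕ} {a b : ℝ} (ha : 0 < a) :
    ContinuousOn (rem s B) (Icc a b) := by
  unfold rem
  refine (vfun_continuous s B).continuousOn.sub ?_
  refine ContinuousOn.div_const ?_ _
  intro y hy
  have hy0 : 0 < y := lt_of_lt_of_le ha hy.1
  exact (continuousAt_ofReal_cpow_const _ _ (Or.inr hy0.ne')).continuousWithinAt

/-- the first order remainder for real arguments -/
lemma first_rem {s : ℂ} (hs : 1 / 2 ≤ s.re) (hs' : s.re < 1) (hz : riemannZeta s = 0) {y : ℝ}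
    (hy : 1 ≤ y) :
    ‖usum s ⌊y⌋₊ - (y : ℂ) ^ (1 - s) / (1 - s)‖ ≤ 4 * (1 + ‖s‖) * y ^ (-s.re) := by
  have hs0 : 0 < s.re := by linarith
  have hs1 : s ≠ 1 := by intro h; rw [h, one_re] at hs'; exact lt_irrefl _ hs'
  set M : ℕ := ⌊y⌋₊ with hM
  have hM1 : 1 ≤ M := by
    rw [hM]
    exact (Nat.one_le_floor_iff y).mpr hy
  have hMr : (1 : ℝ) ≤ M := by exact_mod_cast hM1
  have hM0 : (0 : ℝ) < M := by linarith
  have hMy : (M : ℝ) ≤ y := Nat.floor_le (by linarith)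
  have hyM : y < M + 1 := Nat.lt_floor_add_one y
  have h1 := usum_zero hs0 hs1 hz hM1
  have h1s : (1 : ℂ) - s ≠ 0 := sub_ne_zero.mpr (Ne.symm hs1)
  -- difference of the main terms
  have h2 : ‖(y : ℂ) ^ (1 - s) / (1 - s) - ((M : ℝ) : ℂ) ^ (1 - s) / (1 - s)‖
      ≤ (M : ℝ) ^ (-s.re) := by
    have hderiv : ∀ x ∈ Icc (M : ℝ) y, HasDerivWithinAt (fun x : ℝ ↦ (x : ℂ) ^ (1 - s) / (1 - s))
        ((x : ℂ) ^ (-s)) (Icc (M : ℝ) y) x := by
      intro x hx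
      have hx0 : 0 < x := lt_of_lt_of_le hM0 hx.1
      have h3 := ((cpow_hasDerivAt h1s hx0).div_const (1 - s)).hasDerivWithinAt (s := Icc (M : ℝ) y)
      have h4 : (1 - s) * (x : ℂ) ^ (1 - s - 1) / (1 - s) = (x : ℂ) ^ (-s) := by
        have : 1 - s - 1 = -s := by ring
        rw [this]
        field_simp
      rwa [h4] at h3
    have hbd : ∀ x ∈ Icc (M : ℝ) y, ‖(x : ℂ) ^ (-s)‖ ≤ (M : ℝ) ^ (-s.re) := by
      intro x hx
      have hx0 : 0 < x := lt_of_lt_of_le hM0 hx.1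
      rw [norm_cpow_eq_rpow_re_of_pos hx0, neg_re]
      exact Real.rpow_le_rpow_of_nonpos hM0 hx.1 (by linarith)
    have h5 := (convex_Icc (M : ℝ) y).norm_image_sub_le_of_norm_hasDerivWithin_le hderiv hbd
      (left_mem_Icc.mpr hMy) (right_mem_Icc.mpr hMy)
    refine h5.trans ?_
    have h6 : ‖y - (M : ℝ)‖ ≤ 1 := by
      rw [Real.norm_eq_abs, abs_le]
      constructor <;> linarith
    have h7 : 0 ≤ (M : ℝ) ^ (-s.re) := by positivity
    nlinarith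
  have h3 : usum s M - (y : ℂ) ^ (1 - s) / (1 - s)
      = (usum s M - (M : ℂ) ^ (1 - s) / (1 - s))
        - ((y : ℂ) ^ (1 - s) / (1 - s) - ((M : ℝ) : ℂ) ^ (1 - s) / (1 - s)) := by
    push_cast
    ring
  rw [h3]
  refine (norm_sub_le _ _).trans ?_
  have h4 : ‖s‖ / s.re ≤ 2 * ‖s‖ := by
    rw [div_le_iff₀ hs0]
    nlinarith [norm_nonneg s]
  have h5 : (M : ℝ) ^ (-s.re) ≤ 2 * y ^ (-s.re) := by
    have h6 : y / 2 ≤ M := by linarith
    have h7 : (M : ℝ) ^ (-s.re) ≤ (y / 2) ^ (-s.re) :=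
      Real.rpow_le_rpow_of_nonpos (by linarith) h6 (by linarith)
    refine h7.trans ?_
    rw [Real.div_rpow (by linarith) (by norm_num), Real.rpow_neg (by norm_num : (0 : ℝ) ≤ 2),
      div_inv_eq_mul, mul_comm]
    have h8 : (2 : ℝ) ^ s.re ≤ 2 := by
      calc (2 : ℝ) ^ s.re ≤ 2 ^ (1 : ℝ) := Real.rpow_le_rpow_of_exponent_le (by norm_num) hs'.le
        _ = 2 := Real.rpow_one 2
    gcongr
  have h6 : 0 ≤ (M : ℝ) ^ (-s.re) := by positivity
  calc ‖usum s M - (M : ℂ) ^ (1 - s) / (1 - s)‖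
        + ‖(y : ℂ) ^ (1 - s) / (1 - s) - ((M : ℝ) : ℂ) ^ (1 - s) / (1 - s)‖
      ≤ ‖s‖ / s.re * (M : ℝ) ^ (-s.re) + (M : ℝ) ^ (-s.re) := add_le_add h1 h2
    _ ≤ 2 * ‖s‖ * (M : ℝ) ^ (-s.re) + 2 * (M : ℝ) ^ (-s.re) := by
        have := mul_le_mul_of_nonneg_right h4 h6
        linarith
    _ = 2 * (1 + ‖s‖) * (M : ℝ) ^ (-s.re) := by ring
    _ ≤ 2 * (1 + ‖s‖) * (2 * y ^ (-s.re)) := by gcongr
    _ = _ := by ring

/-- increments of the remainder -/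
lemma rem_sub_le {s : ℂ} (hs : 1 / 2 ≤ s.re) (hs' : s.re < 1) (hz : riemannZeta s = 0) {B : ℕ}
    {a b : ℝ} (ha : 1 ≤ a) (hab : a ≤ b) (hb : b ≤ B) :
    ‖rem s B b - rem s B a‖ ≤ 4 * (1 + ‖s‖) * a ^ (-s.re) * (b - a) := by
  have hs1 : s ≠ 1 := by intro h; rw [h, one_re] at hs'; exact lt_irrefl _ hs'
  have hs2 : s ≠ 2 := by intro h; rw [h] at hs'; norm_num at hs'
  refine norm_image_sub_le_of_norm_deriv_right_le_segment (f := rem s B)
    (f' := fun y ↦ usum s ⌊y⌋₊ - (y : ℂ) ^ (1 - s) / (1 - s))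
    (rem_continuousOn (by linarith)) ?_ ?_ b (right_mem_Icc.mpr hab)
  · intro x hx
    exact rem_hasDerivWithinAt hs1 hs2 (by linarith [hx.1]) (by linarith [hx.2])
  · intro x hx
    refine (first_rem hs hs' hz (by linarith [hx.1])).trans ?_
    have : x ^ (-s.re) ≤ a ^ (-s.re) := Real.rpow_le_rpow_of_nonpos (by linarith) hx.1 (by linarith)
    gcongr

/-- size of the remainder -/
lemma rem_le {s : ℂ} {κ : ℝ} (hκ0 : 0 < κ) (hκ : κ ≤ 1 / 2) (hs : 1 - κ ≤ s.re) (hs' : s.re < 1)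
    (hz : riemannZeta s = 0) {B : ℕ} {y : ℝ} (hy : 1 ≤ y) (hb : y ≤ B) :
    ‖rem s B y‖ ≤ 6 * (1 + ‖s‖) / κ * y ^ κ := by
  have hs1 : s ≠ 1 := by intro h; rw [h, one_re] at hs'; exact lt_irrefl _ hs'
  have hs2 : s ≠ 2 := by intro h; rw [h] at hs'; norm_num at hs'
  have hsn : 0 ≤ ‖s‖ := norm_nonneg s
  have hfun : ∀ x : ℝ, 0 < x → HasDerivAt (fun x : ℝ ↦ 4 * (1 + ‖s‖) / κ * x ^ κ + 2)
      (4 * (1 + ‖s‖) * x ^ (κ - 1)) x := by
    intro x hx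
    have h1 := ((Real.hasDerivAt_rpow_const (p := κ) (Or.inl hx.ne')).const_mul
      (4 * (1 + ‖s‖) / κ)).add_const 2
    have h2 : 4 * (1 + ‖s‖) / κ * (κ * x ^ (κ - 1)) = 4 * (1 + ‖s‖) * x ^ (κ - 1) := by
      field_simp
    rwa [h2] at h1
  have h := image_norm_le_of_norm_deriv_right_le_deriv_boundary' (f := rem s B) (a := 1) (b := y)
    (f' := fun y ↦ usum s ⌊y⌋₊ - (y : ℂ) ^ (1 - s) / (1 - s))
    (rem_continuousOn one_pos) (fun x hx ↦
      rem_hasDerivWithinAt hs1 hs2 (by linarith [hx.1]) (by linarith [hx.2]))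
    (B := fun x : ℝ ↦ 4 * (1 + ‖s‖) / κ * x ^ κ + 2)
    (B' := fun x : ℝ ↦ 4 * (1 + ‖s‖) * x ^ (κ - 1)) ?_ ?_ ?_ ?_ (right_mem_Icc.mpr hy)
  · refine h.trans ?_
    have h1 : 1 ≤ y ^ κ := Real.one_le_rpow hy hκ0.le
    have h2 : 2 ≤ 2 * (1 + ‖s‖) / κ * y ^ κ := by
      have h3 : 2 ≤ 2 * (1 + ‖s‖) / κ := by
        rw [le_div_iff₀ hκ0]
        nlinarith
      nlinarith
    calc 4 * (1 + ‖s‖) / κ * y ^ κ + 2 ≤ 4 * (1 + ‖s‖) / κ * y ^ κ + 2 * (1 + ‖s‖) / κ * y ^ κ := by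
          linarith
      _ = _ := by ring
  · -- initial value
    have h1 : vfun s B 1 = 0 := by
      unfold vfun
      refine Finset.sum_eq_zero fun m hm ↦ ?_
      rw [Finset.mem_Icc] at hm
      have : (1 : ℝ) ≤ m := by exact_mod_cast hm.1
      rw [max_eq_right (by linarith)]
      simp
    unfold rem
    rw [h1, ofReal_one, one_cpow, zero_sub, norm_neg, norm_div, norm_one, norm_mul]
    have h3 : 1 / 2 ≤ ‖1 - s‖ := by
      rw [norm_sub_rev]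
      have := norm_sub_one_ge (by linarith) hs1 hz
      linarith
    have h4 : 1 ≤ ‖2 - s‖ := by
      have := re_le_norm (2 - s)
      simp only [sub_re] at this
      norm_num at this
      linarith
    have h5 : 1 / (‖1 - s‖ * ‖2 - s‖) ≤ 2 := by
      rw [div_le_iff₀ (by positivity)]
      nlinarith
    have h6 : 0 ≤ 4 * (1 + ‖s‖) / κ * (1 : ℝ) ^ κ := by positivity
    linarith
  · intro x hx
    exact (hfun x (by linarith [hx.1])).continuousAt.continuousWithinAt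
  · intro x hx
    exact (hfun x (by linarith [hx.1])).hasDerivWithinAt
  · intro x hx
    have hx1 : 1 ≤ x := hx.1
    refine (first_rem (by linarith) hs' hz hx1).trans ?_
    have : x ^ (-s.re) ≤ x ^ (κ - 1) := Real.rpow_le_rpow_of_exponent_le hx1 (by linarith)
    gcongr

end Pool.Agent.H6
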