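import Mathlib
import Pool.Agent.H6.CertZero2

/-!
The weighted sum `∑ (1 * f)(k) k^{-ρ} (N - k)` at a zero `ρ` of `ζ`.
-/

open Complex Filter Topology MeasureTheory Set

namespace Pool.Agent.H6

/-- the weight `t^{2-s} V(N/t)` -/
noncomputable def wfun (s : ℂ) (N : ℕ) (t : ℕ) : ℂ :=
  ((t : ℝ) : ℂ) ^ (2 - s) * vfun s N ((N : ℝ) / t)

lemma wfun_eq {s : ℂ} {N t : ℕ} (ht : 1 ≤ t) :
    wfun s N t = (N : ℂ) ^ (2 - s) / ((1 - s) * (2 - s))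
      + ((t : ℝ) : ℂ) ^ (2 - s) * rem s N ((N : ℝ) / t) := by
  have ht0 : (0 : ℝ) < t := by exact_mod_cast ht
  have h1 : ((t : ℝ) : ℂ) ^ (2 - s) * (((N : ℝ) / t : ℝ) : ℂ) ^ (2 - s) = (N : ℂ) ^ (2 - s) := by
    rw [← mul_cpow_ofReal_nonneg ht0.le (by positivity), ← ofReal_mul]
    congr 1
    have : (t : ℝ) * ((N : ℝ) / t) = N := by field_simp
    rw [this]
    push_cast
    rfl
  unfold wfun rem
  rw [← h1]
  ring

lemma wfun_self {s : ℂ} {N : ℕ} (hN : 1 ≤ N) : wfun s N N = 0 := by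
  have hN0 : (0 : ℝ) < N := by exact_mod_cast hN
  unfold wfun
  have h1 : vfun s N ((N : ℝ) / N) = 0 := by
    rw [div_self hN0.ne']
    unfold vfun
    refine Finset.sum_eq_zero fun m hm ↦ ?_
    rw [Finset.mem_Icc] at hm
    have : (1 : ℝ) ≤ m := by exact_mod_cast hm.1
    rw [max_eq_right (by linarith)]
    simp
  rw [h1, mul_zero]

lemma norm_pow_sub_succ {w : ℂ} (hw : w ≠ 0) (h1 : 1 ≤ w.re) {t : ℕ} (ht : 1 ≤ t) :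
    ‖((t : ℝ) : ℂ) ^ w - (((t + 1 : ℕ) : ℝ) : ℂ) ^ w‖ ≤ ‖w‖ * ((t + 1 : ℕ) : ℝ) ^ (w.re - 1) := by
  have ht0 : (0 : ℝ) < t := by exact_mod_cast ht
  have hle : (t : ℝ) ≤ ((t + 1 : ℕ) : ℝ) := by push_cast; linarith
  have hderiv : ∀ x ∈ Icc (t : ℝ) ((t + 1 : ℕ) : ℝ), HasDerivWithinAt (fun x : ℝ ↦ (x : ℂ) ^ w)
      (w * (x : ℂ) ^ (w - 1)) (Icc (t : ℝ) ((t + 1 : ℕ) : ℝ)) x := by
    intro x hx
    exact (cpow_hasDerivAt hw (lt_of_lt_of_le ht0 hx.1)).hasDerivWithinAt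
  have hbd : ∀ x ∈ Icc (t : ℝ) ((t + 1 : ℕ) : ℝ), ‖w * (x : ℂ) ^ (w - 1)‖
      ≤ ‖w‖ * ((t + 1 : ℕ) : ℝ) ^ (w.re - 1) := by
    intro x hx
    have hx0 : 0 < x := lt_of_lt_of_le ht0 hx.1
    rw [norm_mul, norm_cpow_eq_rpow_re_of_pos hx0, sub_re, one_re]
    have : x ^ (w.re - 1) ≤ ((t + 1 : ℕ) : ℝ) ^ (w.re - 1) :=
      Real.rpow_le_rpow hx0.le hx.2 (by linarith)
    gcongr
  have h2 := (convex_Icc (t : ℝ) ((t + 1 : ℕ) : ℝ)).norm_image_sub_le_of_norm_hasDerivWithin_le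
    hderiv hbd (right_mem_Icc.mpr hle) (left_mem_Icc.mpr hle)
  refine h2.trans ?_
  have h3 : ‖(t : ℝ) - ((t + 1 : ℕ) : ℝ)‖ = 1 := by
    rw [Real.norm_eq_abs]
    push_cast
    rw [show (t : ℝ) - (t + 1) = -1 by ring]
    simp
  rw [h3, mul_one]

/-- the steps of the weight -/
lemma wfun_step {s : ℂ} {κ : ℝ} (hκ0 : 0 < κ) (hκ : κ ≤ 1 / 2) (hs : 1 - κ ≤ s.re)
    (hs' : s.re < 1) (hz : riemannZeta s = 0) {N t : ℕ} (ht : 1 ≤ t) (htN : t < N) :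
    ‖wfun s N t - wfun s N (t + 1)‖ ≤ 40 * (1 + ‖s‖) ^ 2 / κ * (N : ℝ) ^ κ := by
  have ht0 : (0 : ℝ) < t := by exact_mod_cast ht
  have ht1 : (1 : ℝ) ≤ t := by exact_mod_cast ht
  have hN0 : (0 : ℝ) < N := by
    have : 0 < N := by omega
    exact_mod_cast this
  have hN1 : (1 : ℝ) ≤ N := by
    have : 1 ≤ N := by omega
    exact_mod_cast this
  have htN' : ((t + 1 : ℕ) : ℝ) ≤ N := by exact_mod_cast htN
  have ht1' : ((t + 1 : ℕ) : ℝ) = t + 1 := by push_cast; ring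
  have ht1p : (0 : ℝ) < ((t + 1 : ℕ) : ℝ) := by positivity
  have hsn : 0 ≤ ‖s‖ := norm_nonneg s
  have hs2 : (2 : ℂ) - s ≠ 0 := by
    intro h
    have := congrArg Complex.re h
    simp at this
    linarith
  have hre2 : ((2 : ℂ) - s).re = 2 - s.re := by simp
  rw [wfun_eq ht, wfun_eq (by omega : 1 ≤ t + 1)]
  set a : ℝ := (N : ℝ) / ((t + 1 : ℕ) : ℝ) with ha
  set b : ℝ := (N : ℝ) / t with hb
  have ha1 : 1 ≤ a := by rw [ha, le_div_iff₀ ht1p]; linarith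
  have hab : a ≤ b := by
    rw [ha, hb]
    apply div_le_div_of_nonneg_left hN0.le ht0
    rw [ht1']; linarith
  have hbN : b ≤ N := by rw [hb, div_le_iff₀ ht0]; nlinarith
  have e1 : (N : ℂ) ^ (2 - s) / ((1 - s) * (2 - s)) + ((t : ℝ) : ℂ) ^ (2 - s) * rem s N b
      - ((N : ℂ) ^ (2 - s) / ((1 - s) * (2 - s)) + (((t + 1 : ℕ) : ℝ) : ℂ) ^ (2 - s) * rem s N a)
      = (((t : ℝ) : ℂ) ^ (2 - s) - (((t + 1 : ℕ) : ℝ) : ℂ) ^ (2 - s)) * rem s N b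
        + (((t + 1 : ℕ) : ℝ) : ℂ) ^ (2 - s) * (rem s N b - rem s N a) := by ring
  rw [e1]
  refine (norm_add_le _ _).trans ?_
  rw [norm_mul, norm_mul]
  have h1 := norm_pow_sub_succ hs2 (by rw [hre2]; linarith) ht
  rw [hre2] at h1
  have h2 := rem_le hκ0 hκ hs hs' hz (ha1.trans hab) hbN
  have h3 := rem_sub_le (by linarith : 1 / 2 ≤ s.re) hs' hz ha1 hab hbN
  have h4 : ‖(((t + 1 : ℕ) : ℝ) : ℂ) ^ (2 - s)‖ = ((t + 1 : ℕ) : ℝ) ^ (2 - s.re) := by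
    rw [norm_cpow_eq_rpow_re_of_pos ht1p, hre2]
  have h5 : ‖(2 : ℂ) - s‖ ≤ 2 * (1 + ‖s‖) := by
    refine (norm_sub_le _ _).trans ?_
    simp
    linarith
  -- first term
  have h6 : ((t + 1 : ℕ) : ℝ) ^ (2 - s.re - 1) * b ^ κ ≤ 2 * (N : ℝ) ^ κ := by
    have h7 : ((t + 1 : ℕ) : ℝ) ^ (2 - s.re - 1) ≤ 2 * (t : ℝ) ^ κ := by
      calc ((t + 1 : ℕ) : ℝ) ^ (2 - s.re - 1) ≤ ((t + 1 : ℕ) : ℝ) ^ κ := by
            apply Real.rpow_le_rpow_of_exponent_le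
            · rw [ht1']; linarith
            · linarith
        _ ≤ (2 * t) ^ κ := by
            apply Real.rpow_le_rpow ht1p.le _ hκ0.le
            rw [ht1']; linarith
        _ = 2 ^ κ * (t : ℝ) ^ κ := Real.mul_rpow (by norm_num) ht0.le
        _ ≤ 2 * (t : ℝ) ^ κ := by
            have : (2 : ℝ) ^ κ ≤ 2 := by
              calc (2 : ℝ) ^ κ ≤ 2 ^ (1 : ℝ) :=
                    Real.rpow_le_rpow_of_exponent_le (by norm_num) (by linarith)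
                _ = 2 := Real.rpow_one 2
            gcongr
    have h8 : (t : ℝ) ^ κ * b ^ κ = (N : ℝ) ^ κ := by
      rw [← Real.mul_rpow ht0.le (by positivity), hb]
      congr 1
      field_simp
    have h9 : 0 ≤ b ^ κ := by positivity
    calc ((t + 1 : ℕ) : ℝ) ^ (2 - s.re - 1) * b ^ κ ≤ (2 * (t : ℝ) ^ κ) * b ^ κ := by gcongr
      _ = 2 * ((t : ℝ) ^ κ * b ^ κ) := by ring
      _ = _ := by rw [h8]
  have hA : ‖((t : ℝ) : ℂ) ^ (2 - s) - (((t + 1 : ℕ) : ℝ) : ℂ) ^ (2 - s)‖ * ‖rem s N b‖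
      ≤ 24 * (1 + ‖s‖) ^ 2 / κ * (N : ℝ) ^ κ := by
    calc ‖((t : ℝ) : ℂ) ^ (2 - s) - (((t + 1 : ℕ) : ℝ) : ℂ) ^ (2 - s)‖ * ‖rem s N b‖
        ≤ (‖(2 : ℂ) - s‖ * ((t + 1 : ℕ) : ℝ) ^ (2 - s.re - 1)) *
          (6 * (1 + ‖s‖) / κ * b ^ κ) := by gcongr
      _ ≤ (2 * (1 + ‖s‖) * ((t + 1 : ℕ) : ℝ) ^ (2 - s.re - 1)) *
          (6 * (1 + ‖s‖) / κ * b ^ κ) := by gcongr
      _ = 12 * (1 + ‖s‖) ^ 2 / κ * (((t + 1 : ℕ) : ℝ) ^ (2 - s.re - 1) * b ^ κ) := by ring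
      _ ≤ 12 * (1 + ‖s‖) ^ 2 / κ * (2 * (N : ℝ) ^ κ) := by gcongr
      _ = _ := by ring
  -- second term
  have hba : b - a = (N : ℝ) / (t * ((t + 1 : ℕ) : ℝ)) := by
    rw [ha, hb, ht1']
    field_simp
    ring
  have h10 : ((t + 1 : ℕ) : ℝ) ^ (2 - s.re) * (a ^ (-s.re) * (b - a)) ≤ 2 * (N : ℝ) ^ κ := by
    have h11 : a ^ (-s.re) = (N : ℝ) ^ (-s.re) * ((t + 1 : ℕ) : ℝ) ^ s.re := by
      rw [ha, Real.div_rpow hN0.le ht1p.le, Real.rpow_neg ht1p.le, div_inv_eq_mul]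
    have h12 : ((t + 1 : ℕ) : ℝ) ^ (2 - s.re) * ((t + 1 : ℕ) : ℝ) ^ s.re
        = ((t + 1 : ℕ) : ℝ) ^ 2 := by
      rw [← Real.rpow_add ht1p]
      have : 2 - s.re + s.re = ((2 : ℕ) : ℝ) := by push_cast; ring
      rw [this, Real.rpow_natCast]
    have h13 : (N : ℝ) ^ (-s.re) * N ≤ (N : ℝ) ^ κ := by
      calc (N : ℝ) ^ (-s.re) * N = (N : ℝ) ^ (-s.re + 1) := by
            rw [Real.rpow_add hN0, Real.rpow_one]
        _ ≤ (N : ℝ) ^ κ := Real.rpow_le_rpow_of_exponent_le hN1 (by linarith)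
    have h14 : ((t + 1 : ℕ) : ℝ) / t ≤ 2 := by
      rw [div_le_iff₀ ht0, ht1']; linarith
    have h15 : 0 ≤ (N : ℝ) ^ (-s.re) * N := by positivity
    calc ((t + 1 : ℕ) : ℝ) ^ (2 - s.re) * (a ^ (-s.re) * (b - a))
        = (((t + 1 : ℕ) : ℝ) ^ (2 - s.re) * ((t + 1 : ℕ) : ℝ) ^ s.re) *
          ((N : ℝ) ^ (-s.re) * ((N : ℝ) / (t * ((t + 1 : ℕ) : ℝ)))) := by
          rw [h11, hba]; ring
      _ = (((t + 1 : ℕ) : ℝ) / t) * ((N : ℝ) ^ (-s.re) * N) := by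
          rw [h12]
          field_simp
      _ ≤ 2 * (N : ℝ) ^ κ := by gcongr
  have hB : ‖(((t + 1 : ℕ) : ℝ) : ℂ) ^ (2 - s)‖ * ‖rem s N b - rem s N a‖
      ≤ 8 * (1 + ‖s‖) * (N : ℝ) ^ κ := by
    rw [h4]
    calc ((t + 1 : ℕ) : ℝ) ^ (2 - s.re) * ‖rem s N b - rem s N a‖
        ≤ ((t + 1 : ℕ) : ℝ) ^ (2 - s.re) * (4 * (1 + ‖s‖) * a ^ (-s.re) * (b - a)) := by gcongr
      _ = 4 * (1 + ‖s‖) * (((t + 1 : ℕ) : ℝ) ^ (2 - s.re) * (a ^ (-s.re) * (b - a))) := by ring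
      _ ≤ 4 * (1 + ‖s‖) * (2 * (N : ℝ) ^ κ) := by gcongr
      _ = _ := by ring
  have h16 : 8 * (1 + ‖s‖) ≤ 16 * (1 + ‖s‖) ^ 2 / κ := by
    rw [le_div_iff₀ hκ0]
    nlinarith
  have h17 : 0 ≤ (N : ℝ) ^ κ := by positivity
  calc _ ≤ 24 * (1 + ‖s‖) ^ 2 / κ * (N : ℝ) ^ κ + 8 * (1 + ‖s‖) * (N : ℝ) ^ κ := add_le_add hA hB
    _ ≤ 24 * (1 + ‖s‖) ^ 2 / κ * (N : ℝ) ^ κ + 16 * (1 + ‖s‖) ^ 2 / κ * (N : ℝ) ^ κ := by
        have := mul_le_mul_of_nonneg_right h16 h17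
        linarith
    _ = _ := by ring

lemma inner_sum {s : ℂ} {N n : ℕ} (hn : 1 ≤ n) :
    ∑ j ∈ Finset.Icc 1 (N / n), ((n * j : ℕ) : ℂ) ^ (-s) * ((N : ℂ) - ((n * j : ℕ) : ℂ))
      = wfun s N n / n := by
  have hn0 : (0 : ℝ) < n := by exact_mod_cast hn
  have hnc : (n : ℂ) ≠ 0 := by exact_mod_cast hn0.ne'
  unfold wfun vfun
  have h1 : ∑ m ∈ Finset.Icc 1 N, (m : ℂ) ^ (-s) * ((max ((N : ℝ) / n - m) 0 : ℝ) : ℂ)
      = ∑ m ∈ Finset.Icc 1 (N / n), (m : ℂ) ^ (-s) * (((N : ℝ) / n - m : ℝ) : ℂ) := by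
    symm
    rw [← Finset.sum_subset (s₁ := Finset.Icc 1 (N / n)) (s₂ := Finset.Icc 1 N)]
    · refine Finset.sum_congr rfl fun m hm ↦ ?_
      rw [Finset.mem_Icc] at hm
      have h2 : (m : ℝ) ≤ (N : ℝ) / n := by
        rw [le_div_iff₀ hn0]
        have := (Nat.le_div_iff_mul_le (by omega : 0 < n)).mp hm.2
        exact_mod_cast this
      rw [max_eq_left (by linarith)]
    · intro m hm
      rw [Finset.mem_Icc] at hm ⊢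
      exact ⟨hm.1, hm.2.trans (Nat.div_le_self N n)⟩
    · intro m hm hm2
      rw [Finset.mem_Icc] at hm hm2
      have h3 : N / n < m := by
        by_contra hcon
        exact hm2 ⟨hm.1, by omega⟩
      have h4 : (N : ℝ) / n ≤ m := by
        rw [div_le_iff₀ hn0]
        have := (Nat.div_lt_iff_lt_mul (by omega : 0 < n)).mp h3
        exact_mod_cast this.le
      rw [max_eq_right (by linarith)]
      simp
  rw [h1, Finset.mul_sum, Finset.sum_div]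
  refine Finset.sum_congr rfl fun j hj ↦ ?_
  have h5 : ((n * j : ℕ) : ℂ) ^ (-s) = ((n : ℝ) : ℂ) ^ (-s) * (j : ℂ) ^ (-s) := by
    have h6 : ((n * j : ℕ) : ℂ) = ((n : ℝ) : ℂ) * ((j : ℝ) : ℂ) := by push_cast; ring
    rw [h6, mul_cpow_ofReal_nonneg hn0.le (by positivity)]
    simp
  have h7 : ((n : ℝ) : ℂ) ^ (2 - s) = ((n : ℝ) : ℂ) ^ (-s) * (n : ℂ) ^ 2 := by
    have h8 : (2 : ℂ) - s = -s + 2 := by ring
    rw [h8, cpow_add _ _ (by exact_mod_cast hn0.ne')]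
    congr 1
    push_cast
    have : ((n : ℂ)) ^ (2 : ℂ) = (n : ℂ) ^ ((2 : ℕ) : ℂ) := by norm_num
    rw [this, cpow_natCast]
  rw [h5, h7]
  push_cast
  field_simp

/-- **the weighted sum at a zero** -/
theorem weighted_sum_le (f : ℕ → ℝ) {s : ℂ} {κ : ℝ} (hκ0 : 0 < κ) (hκ : κ ≤ 1 / 2)
    (hs : 1 - κ ≤ s.re) (hs' : s.re < 1) (hz : riemannZeta s = 0) (N : ℕ) :
    ‖∑ k ∈ Finset.Icc 1 N, ((oneConv f k : ℝ) : ℂ) * ((k : ℂ) ^ (-s) * ((N : ℂ) - k))‖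
      ≤ 40 * (1 + ‖s‖) ^ 2 / κ * (N : ℝ) ^ κ * ∑ m ∈ Finset.Ico 1 N, |lsum f m| := by
  rcases Nat.eq_zero_or_pos N with rfl | hN
  · simp
  have hcast : ∀ k : ℕ, ((oneConv f k : ℝ) : ℂ) = oneConv (fun n ↦ (f n : ℂ)) k := by
    intro k
    unfold oneConv
    push_cast
    rfl
  simp_rw [hcast]
  rw [sum_oneConv_mul (fun n ↦ (f n : ℂ)) (fun k : ℕ ↦ (k : ℂ) ^ (-s) * ((N : ℂ) - k))]
  have h1 : ∀ n ∈ Finset.Icc 1 N, (f n : ℂ) * ∑ j ∈ Finset.Icc 1 (N / n),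
      (((n * j : ℕ) : ℂ) ^ (-s) * ((N : ℂ) - ((n * j : ℕ) : ℂ)))
      = ((f n : ℂ) / n) * wfun s N n := by
    intro n hn
    rw [Finset.mem_Icc] at hn
    rw [inner_sum hn.1]
    ring
  rw [Finset.sum_congr rfl h1, abel_sum, wfun_self hN, mul_zero, zero_add, Finset.mul_sum]
  refine (norm_sum_le _ _).trans ?_
  refine Finset.sum_le_sum fun m hm ↦ ?_
  rw [Finset.mem_Ico] at hm
  rw [norm_mul]
  have h2 : ‖∑ n ∈ Finset.Icc 1 m, (f n : ℂ) / n‖ = |lsum f m| := by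
    unfold lsum
    rw [← Real.norm_eq_abs, ← norm_real]
    congr 1
    push_cast
    rfl
  rw [h2, mul_comm]
  have h3 := wfun_step hκ0 hκ hs hs' hz hm.1 hm.2
  have h4 : 0 ≤ |lsum f m| := abs_nonneg _
  gcongr

end Pool.Agent.H6
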