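import Mathlib
import Pool.Agent.H6.CertLower
import Pool.Agent.H6.CertZero3

/-!
A completely multiplicative function with one-sidedly small logarithmic sums up to `N` certifies
a zero-free rectangle of `ζ`.
-/

open Complex Filter Topology Set

namespace Pool.Agent.H6

theorem certificate {δ κ : ℝ} (C : ℝ) (hκ0 : 0 < κ) (hκδ : κ < δ) (hδ : δ ≤ 1 / 2) :
    ∃ A : ℝ, 1 ≤ A ∧ ∀ (N : ℕ) (f : ℕ →*₀ ℝ), (∀ n, |f n| ≤ 1) →
      (∀ m : ℕ, 1 ≤ m → m ≤ N → ∑ n ∈ Finset.Icc 1 m, f n / n ≤ C * (m : ℝ) ^ (-δ)) →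
      ∀ s : ℂ, 1 - κ ≤ s.re → A * (1 + |s.im|) ^ (2 / (δ - κ)) ≤ N → riemannZeta s ≠ 0 := by
  set C' : ℝ := max C 1 with hC'
  have hC'1 : 1 ≤ C' := le_max_right _ _
  set σ₀ : ℝ := 1 - (δ + κ) / 2 with hσ0
  have h0 : 1 / 2 < σ₀ := by rw [hσ0]; linarith
  have h1 : σ₀ ≤ 1 := by rw [hσ0]; linarith
  have hσ : 1 - δ < σ₀ := by rw [hσ0]; linarith
  set B : ℝ := 16 * C' * (1 + zsum (σ₀ + δ)) + 32 * zsum (2 * σ₀) with hB
  have hB0 : 0 ≤ B := by
    have := zsum_nonneg (σ₀ + δ)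
    have := zsum_nonneg (2 * σ₀)
    positivity
  set η : ℝ := (δ - κ) / 2 with hη
  have hη0 : 0 < η := by rw [hη]; linarith
  set R : ℝ := 2 * Real.exp (2 * B) + 81920 * (C' / κ) * Real.exp B + 1 with hR
  have hR1 : 1 ≤ R := by
    have : 0 ≤ 81920 * (C' / κ) * Real.exp B := by positivity
    have := Real.exp_pos (2 * B)
    linarith
  set W : ℝ := R ^ (1 / η) with hW
  have hW1 : 1 ≤ W := Real.one_le_rpow hR1 (by positivity)
  have hWη : W ^ η = R := by
    rw [hW, ← Real.rpow_mul (by linarith)]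
    rw [one_div, inv_mul_cancel₀ hη0.ne', Real.rpow_one]
  refine ⟨4 * W, by linarith, fun N f hf hsum s hs hN hz ↦ ?_⟩
  -- preliminary facts
  set τ : ℝ := 1 + |s.im| with hτ
  have hτ1 : 1 ≤ τ := by have := abs_nonneg s.im; linarith
  have hτp : 1 ≤ τ ^ (2 / (δ - κ)) := Real.one_le_rpow hτ1 (by
    have : 0 < δ - κ := by linarith
    positivity)
  have hN4 : (4 : ℝ) ≤ N := by nlinarith
  have hN4' : 4 ≤ N := by exact_mod_cast hN4
  have hs' : s.re < 1 := by
    by_contra hcon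
    push Not at hcon
    exact riemannZeta_ne_zero_of_one_le_re hcon hz
  have hone : OneSided (fun n ↦ f n) δ C' N := by
    intro m hm hmN
    refine (hsum m hm hmN).trans ?_
    have : C ≤ C' := le_max_left _ _
    gcongr
  set X : ℕ := N / 2 with hX
  have hX1 : 1 ≤ X := by omega
  have hX0 : (0 : ℝ) < X := by exact_mod_cast hX1
  have hXN : (N : ℝ) / 4 ≤ X := by
    have : N ≤ 4 * X := by omega
    have h2 : (N : ℝ) ≤ 4 * X := by exact_mod_cast this
    linarith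
  have hgnn : ∀ k, 0 ≤ oneConv (fun n ↦ f n) k := oneConv_nonneg hf
  have hG : ∀ Y, Y ≤ X → ∑ k ∈ Finset.Icc 1 Y, oneConv (fun n ↦ f n) k
      ≤ 16 * C' * (Y : ℝ) ^ (1 - δ) := by
    intro Y hY
    exact sum_oneConv_le hgnn (by linarith) hδ (by linarith) hone (by omega)
  have hlow := riesz_lower hf (by positivity) hX1 hG h0 h1 hσ (s := s) (by linarith) hs'.le
  rw [← hB] at hlow
  have hup := weighted_sum_le (fun n ↦ f n) hκ0 (by linarith) hs hs' hz X
  have hL1 := sum_abs_le (f := fun n ↦ f n) hf hgnn (by linarith) hδ hC'1 hone X (by omega)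
  -- relation of the two sums
  have hrel : ∑ k ∈ Finset.Icc 1 X, ((oneConv (fun n ↦ f n) k : ℝ) : ℂ) *
      ((k : ℂ) ^ (-s) * ((X : ℂ) - k))
      = (X : ℂ) * ∑ k ∈ Finset.Icc 1 X, gterm f s k * (1 - (k : ℂ) / X) := by
    rw [Finset.mul_sum]
    refine Finset.sum_congr rfl fun k _ ↦ ?_
    have : (X : ℂ) ≠ 0 := by exact_mod_cast hX0.ne'
    unfold gterm
    field_simp
  rw [hrel, norm_mul, norm_natCast] at hup
  set Γ : ℝ := ‖∑ k ∈ Finset.Icc 1 X, gterm f s k * (1 - (k : ℂ) / X)‖ with hΓ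
  have hsn : 1 + ‖s‖ ≤ 2 * τ := by
    have := norm_le_abs_re_add_abs_im s
    have h2 : |s.re| ≤ 1 := by
      rw [abs_le]
      constructor <;> linarith
    rw [hτ]
    linarith [abs_nonneg s.im]
  have hsn0 : 0 ≤ ‖s‖ := norm_nonneg s
  -- upper bound for `Γ`
  have hΓup : Γ ≤ 40960 * (C' / κ) * τ ^ 2 * (X : ℝ) ^ (-(2 * η)) := by
    have e1 : (X : ℝ) * Γ ≤ (40 * (2 * τ) ^ 2 / κ * (X : ℝ) ^ κ) *
        (256 * C' * (X : ℝ) ^ (1 - δ)) := by
      refine hup.trans ?_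
      gcongr
    have e2 : (X : ℝ) ^ κ * (X : ℝ) ^ (1 - δ) = X * (X : ℝ) ^ (-(2 * η)) := by
      rw [← Real.rpow_add hX0]
      have : κ + (1 - δ) = 1 + -(2 * η) := by rw [hη]; ring
      rw [this, Real.rpow_add hX0, Real.rpow_one]
    have e3 : (40 * (2 * τ) ^ 2 / κ * (X : ℝ) ^ κ) * (256 * C' * (X : ℝ) ^ (1 - δ))
        = X * (40960 * (C' / κ) * τ ^ 2 * (X : ℝ) ^ (-(2 * η))) := by
      calc _ = 40960 * (C' / κ) * τ ^ 2 * ((X : ℝ) ^ κ * (X : ℝ) ^ (1 - δ)) := by ring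
        _ = _ := by rw [e2]; ring
    rw [e3] at e1
    exact le_of_mul_le_mul_left e1 hX0
  -- size of `X`
  have hWX : W * τ ^ (1 / η) ≤ X := by
    have e1 : 2 / (δ - κ) = 1 / η := by
      rw [hη]
      have : δ - κ ≠ 0 := by linarith
      field_simp
    rw [e1] at hN
    linarith
  have hWX2 : R * τ ≤ (X : ℝ) ^ η := by
    have e1 : (W * τ ^ (1 / η)) ^ η ≤ (X : ℝ) ^ η := Real.rpow_le_rpow (by positivity) hWX hη0.le
    rw [Real.mul_rpow (by positivity) (by positivity), hWη, ← Real.rpow_mul (by linarith), one_div,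
      inv_mul_cancel₀ hη0.ne', Real.rpow_one] at e1
    exact e1
  have hXη : 0 < (X : ℝ) ^ η := by positivity
  have hXR : R ≤ (X : ℝ) ^ η := by nlinarith
  have hinv : (X : ℝ) ^ (-η) * (X : ℝ) ^ η = 1 := by
    rw [← Real.rpow_add hX0]; simp
  -- first error
  have herr1 : (X : ℝ) ^ (-(s.re - σ₀)) * Real.exp B < Real.exp (-B) / 2 := by
    have hX1r : (1 : ℝ) ≤ X := by exact_mod_cast hX1
    have e1 : (X : ℝ) ^ (-(s.re - σ₀)) ≤ (X : ℝ) ^ (-η) := by
      apply Real.rpow_le_rpow_of_exponent_le hX1r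
      rw [hη, hσ0]
      linarith
    have e2 : Real.exp (2 * B) * 2 < (X : ℝ) ^ η := by
      have : 0 ≤ 81920 * (C' / κ) * Real.exp B := by positivity
      linarith
    have e3 : Real.exp (2 * B) = Real.exp B * Real.exp B := by rw [← Real.exp_add]; ring_nf
    have e4 : Real.exp (-B) * Real.exp B = 1 := by rw [← Real.exp_add]; simp
    have e5 := Real.exp_pos B
    have e6 := Real.exp_pos (-B)
    have e7 : 0 < (X : ℝ) ^ (-η) := by positivity
    have e8 : (X : ℝ) ^ (-η) * (Real.exp (2 * B) * 2) < 1 := by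
      calc (X : ℝ) ^ (-η) * (Real.exp (2 * B) * 2) < (X : ℝ) ^ (-η) * (X : ℝ) ^ η := by gcongr
        _ = 1 := hinv
    calc (X : ℝ) ^ (-(s.re - σ₀)) * Real.exp B ≤ (X : ℝ) ^ (-η) * Real.exp B := by gcongr
      _ = ((X : ℝ) ^ (-η) * (Real.exp (2 * B) * 2)) * (Real.exp (-B) / 2) := by
          rw [e3]
          linear_combination (-(X : ℝ) ^ (-η) * Real.exp B) * e4
      _ < 1 * (Real.exp (-B) / 2) := by gcongr
      _ = _ := one_mul _
  -- second error
  have herr2 : Γ < Real.exp (-B) / 2 := by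
    refine lt_of_le_of_lt hΓup ?_
    have e1 : (X : ℝ) ^ (-(2 * η)) = (X : ℝ) ^ (-η) * (X : ℝ) ^ (-η) := by
      rw [← Real.rpow_add hX0]; ring_nf
    have e7 : 0 < (X : ℝ) ^ (-η) := by positivity
    have e2 : (X : ℝ) ^ (-η) * (R * τ) ≤ 1 := by
      calc (X : ℝ) ^ (-η) * (R * τ) ≤ (X : ℝ) ^ (-η) * (X : ℝ) ^ η := by gcongr
        _ = 1 := hinv
    have e3 : 81920 * (C' / κ) * Real.exp B < R := by
      have := Real.exp_pos (2 * B)
      linarith
    have e4 : Real.exp (-B) * Real.exp B = 1 := by rw [← Real.exp_add]; simp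
    have e6 := Real.exp_pos (-B)
    have hτ0 : 0 < τ := by linarith
    set u : ℝ := (X : ℝ) ^ (-η) with hu
    have e8 : (u * τ) * R ≤ 1 := by linarith
    have e9 : u * τ ≤ 1 := by
      have : 0 < u * τ := by positivity
      nlinarith
    have e10 : 81920 * (C' / κ) * Real.exp B * (u * τ) ^ 2 < 1 := by
      have h2 : 0 < u * τ := by positivity
      calc 81920 * (C' / κ) * Real.exp B * (u * τ) ^ 2 < R * (u * τ) ^ 2 := by gcongr
        _ = ((u * τ) * R) * (u * τ) := by ring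
        _ ≤ 1 * 1 := by gcongr
        _ = 1 := one_mul 1
    rw [e1]
    calc 40960 * (C' / κ) * τ ^ 2 * (u * u)
        = (81920 * (C' / κ) * Real.exp B * (u * τ) ^ 2) * (Real.exp (-B) / 2) := by
          linear_combination (-(40960 * (C' / κ) * τ ^ 2 * (u * u))) * e4
      _ < 1 * (Real.exp (-B) / 2) := by gcongr
      _ = _ := one_mul _
  linarith

end Pool.Agent.H6
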