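import Mathlib
import Pool.Agent.H6.Rigidity

/-!
Compactness: finite completely multiplicative patterns with uniformly decaying logarithmic sums
have a limit.
-/

open Complex Filter Topology Set

namespace Pool.Agent.H6

/-- the constraints at level `N` -/
def levelSet (C δ : ℝ) (N : ℕ) : Set (ℕ → ℂ) :=
  {f | (∀ n : ℕ, f n ∈ Metric.closedBall (0 : ℂ) (3 * C * (n : ℝ) ^ (1 - δ))) ∧ f 0 = 0 ∧ f 1 = 1 ∧
    (∀ a b, a * b ≤ N → a ≠ 0 → b ≠ 0 → f (a * b) = f a * f b) ∧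
    (∀ q, q ≤ N → IsPrimePow q → -1 ≤ (f q).re) ∧
    ∀ m, 1 ≤ m → m ≤ N → ‖logSum f m‖ ≤ C * (m : ℝ) ^ (-δ)}

lemma levelSet_isClosed (C δ : ℝ) (N : ℕ) : IsClosed (levelSet C δ N) := by
  have h1 : IsClosed {f : ℕ → ℂ | ∀ n : ℕ, f n ∈ Metric.closedBall (0 : ℂ) (3 * C * (n : ℝ) ^ (1 - δ))} := by
    rw [Set.ofPred_forall]
    exact isClosed_iInter fun n ↦ Metric.isClosed_closedBall.preimage (continuous_apply n)
  have h2 : IsClosed {f : ℕ → ℂ | f 0 = 0} := isClosed_eq (continuous_apply 0) continuous_const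
  have h3 : IsClosed {f : ℕ → ℂ | f 1 = 1} := isClosed_eq (continuous_apply 1) continuous_const
  have h4 : IsClosed {f : ℕ → ℂ | ∀ a b, a * b ≤ N → a ≠ 0 → b ≠ 0 → f (a * b) = f a * f b} := by
    simp only [Set.ofPred_forall]
    refine isClosed_iInter fun a ↦ isClosed_iInter fun b ↦ isClosed_iInter fun _ ↦
      isClosed_iInter fun _ ↦ isClosed_iInter fun _ ↦ ?_
    exact isClosed_eq (continuous_apply _) ((continuous_apply a).mul (continuous_apply b))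
  have h5 : IsClosed {f : ℕ → ℂ | ∀ q, q ≤ N → IsPrimePow q → -1 ≤ (f q).re} := by
    simp only [Set.ofPred_forall]
    refine isClosed_iInter fun q ↦ isClosed_iInter fun _ ↦ isClosed_iInter fun _ ↦ ?_
    exact isClosed_le continuous_const (continuous_re.comp (continuous_apply q))
  have h6 : IsClosed {f : ℕ → ℂ | ∀ m, 1 ≤ m → m ≤ N → ‖logSum f m‖ ≤ C * (m : ℝ) ^ (-δ)} := by
    simp only [Set.ofPred_forall]
    refine isClosed_iInter fun m ↦ isClosed_iInter fun _ ↦ isClosed_iInter fun _ ↦ ?_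
    refine isClosed_le (Continuous.norm ?_) continuous_const
    unfold logSum
    exact continuous_finsetSum _ fun n _ ↦ (continuous_apply n).div_const _
  have : levelSet C δ N = _ ∩ (_ ∩ (_ ∩ (_ ∩ (_ ∩ _)))) := rfl
  rw [this]
  exact h1.inter (h2.inter (h3.inter (h4.inter (h5.inter h6))))

lemma levelSet_subset (C δ : ℝ) (N : ℕ) : levelSet C δ (N + 1) ⊆ levelSet C δ N := by
  rintro f ⟨h1, h2, h3, h4, h5, h6⟩
  exact ⟨h1, h2, h3, fun a b hab ↦ h4 a b (by omega), fun q hq ↦ h5 q (by omega),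
    fun m hm hmN ↦ h6 m hm (by omega)⟩

lemma levelSet_isCompact (C δ : ℝ) (N : ℕ) : IsCompact (levelSet C δ N) := by
  have h : IsCompact (Set.pi univ fun n : ℕ ↦
      Metric.closedBall (0 : ℂ) (3 * C * (n : ℝ) ^ (1 - δ))) :=
    isCompact_univ_pi fun n ↦ isCompact_closedBall _ _
  refine h.of_isClosed_subset (levelSet_isClosed C δ N) ?_
  rintro f ⟨h1, -⟩ n -
  exact h1 n

/-- coefficients up to `N` are controlled by the logarithmic sums up to `N` -/
lemma norm_coeff_le' {g : ℕ → ℂ} {C δ : ℝ} (hδ : 0 < δ) (hδ1 : δ ≤ 1) {N : ℕ}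
    (hS : ∀ m : ℕ, 1 ≤ m → m ≤ N → ‖logSum g m‖ ≤ C * (m : ℝ) ^ (-δ)) :
    ∀ n : ℕ, n ≠ 0 → n ≤ N → ‖g n‖ ≤ 3 * C * (n : ℝ) ^ (1 - δ) := by
  intro n hn hnN
  have hC : 0 ≤ C := by
    have := (norm_nonneg _).trans (hS 1 le_rfl (by omega))
    simpa using this
  rcases Nat.exists_eq_succ_of_ne_zero hn with ⟨m, rfl⟩
  rcases Nat.eq_zero_or_pos m with rfl | hm
  · have h1 := hS 1 le_rfl (by omega)
    simp [logSum] at h1 ⊢
    linarith
  · have h1 := hS (m + 1) (by omega) (by omega)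
    have h2 := hS m hm (by omega)
    have h3 : g (m + 1) / ((m + 1 : ℕ) : ℂ) = logSum g (m + 1) - logSum g m := by
      unfold logSum
      rw [Finset.sum_Icc_succ_top (by omega)]
      ring
    have hmpos : (0 : ℝ) < m := by exact_mod_cast hm
    have hm1 : (1 : ℝ) ≤ m := by exact_mod_cast hm
    have h4 : (m : ℝ) ^ (-δ) ≤ 2 * ((m + 1 : ℕ) : ℝ) ^ (-δ) := by
      have h5 : (((m + 1 : ℕ) : ℝ) / 2) ≤ m := by push_cast; linarith
      have h6 : (m : ℝ) ^ (-δ) ≤ (((m + 1 : ℕ) : ℝ) / 2) ^ (-δ) :=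
        Real.rpow_le_rpow_of_nonpos (by positivity) h5 (by linarith)
      refine h6.trans ?_
      rw [Real.div_rpow (by positivity) (by norm_num), Real.rpow_neg (by norm_num : (0:ℝ) ≤ 2),
        div_inv_eq_mul, mul_comm]
      gcongr
      calc (2 : ℝ) ^ δ ≤ 2 ^ (1 : ℝ) := Real.rpow_le_rpow_of_exponent_le (by norm_num) hδ1
        _ = 2 := Real.rpow_one 2
    have h7 : ‖g (m + 1) / ((m + 1 : ℕ) : ℂ)‖ ≤ 3 * C * ((m + 1 : ℕ) : ℝ) ^ (-δ) := by
      rw [h3]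
      calc ‖logSum g (m + 1) - logSum g m‖ ≤ ‖logSum g (m + 1)‖ + ‖logSum g m‖ :=
            norm_sub_le _ _
        _ ≤ C * ((m + 1 : ℕ) : ℝ) ^ (-δ) + C * (m : ℝ) ^ (-δ) := add_le_add h1 h2
        _ ≤ C * ((m + 1 : ℕ) : ℝ) ^ (-δ) + C * (2 * ((m + 1 : ℕ) : ℝ) ^ (-δ)) := by gcongr
        _ = _ := by ring
    have hpos : (0 : ℝ) < ((m + 1 : ℕ) : ℝ) := by positivity
    rw [norm_div, norm_natCast, div_le_iff₀ hpos] at h7
    calc ‖g (m + 1)‖ ≤ 3 * C * ((m + 1 : ℕ) : ℝ) ^ (-δ) * ((m + 1 : ℕ) : ℝ) := h7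
      _ = 3 * C * ((m + 1 : ℕ) : ℝ) ^ (1 - δ) := by
        rw [mul_assoc, sub_eq_neg_add, Real.rpow_add hpos, Real.rpow_one]

/-- **Compactness.** -/
theorem exists_limit {C δ : ℝ} (hδ : 0 < δ) (hδ1 : δ ≤ 1)
    (h : ∀ N : ℕ, ∃ f : ℕ →*₀ ℂ, (∀ q : ℕ, IsPrimePow q → -1 ≤ (f q).re) ∧
      ∀ m : ℕ, 1 ≤ m → m ≤ N → ‖logSum (fun n ↦ f n) m‖ ≤ C * (m : ℝ) ^ (-δ)) :
    ∃ f : ℕ →*₀ ℂ, (∀ q : ℕ, IsPrimePow q → -1 ≤ (f q).re) ∧
      ∀ m : ℕ, 1 ≤ m → ‖logSum (fun n ↦ f n) m‖ ≤ C * (m : ℝ) ^ (-δ) := by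
  have hC1 : 1 ≤ C := by
    obtain ⟨f, -, hf⟩ := h 1
    have := hf 1 le_rfl le_rfl
    simpa [logSum] using this
  have hne : ∀ N, (levelSet C δ N).Nonempty := by
    intro N
    obtain ⟨f, hf1, hf2⟩ := h (N + 1)
    refine ⟨fun n ↦ if n ≤ N + 1 then f n else 0, ?_, by simp, by simp, ?_, ?_, ?_⟩
    · intro n
      rw [mem_closedBall_zero_iff]
      have hnn : 0 ≤ 3 * C * (n : ℝ) ^ (1 - δ) := by positivity
      show ‖(if n ≤ N + 1 then f n else 0 : ℂ)‖ ≤ _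
      split_ifs with hn
      · rcases eq_or_ne n 0 with rfl | hn0
        · simpa using hnn
        · exact norm_coeff_le' hδ hδ1 hf2 n hn0 hn
      · simpa using hnn
    · intro a b hab ha hb
      have ha' : a ≤ N + 1 := by
        have := Nat.le_mul_of_pos_right a (Nat.pos_of_ne_zero hb)
        omega
      have hb' : b ≤ N + 1 := by
        have := Nat.le_mul_of_pos_left b (Nat.pos_of_ne_zero ha)
        omega
      simp only
      rw [if_pos (by omega), if_pos ha', if_pos hb', map_mul]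
    · intro q hq hqp
      simp only
      rw [if_pos (by omega)]
      exact hf1 q hqp
    · intro m hm hmN
      have : logSum (fun n ↦ if n ≤ N + 1 then f n else 0) m = logSum (fun n ↦ f n) m := by
        unfold logSum
        refine Finset.sum_congr rfl fun n hn ↦ ?_
        rw [Finset.mem_Icc] at hn
        have hn2 : n ≤ N + 1 := by omega
        simp only [hn2, if_true]
      rw [this]
      exact hf2 m hm (by omega)
  obtain ⟨g, hg⟩ := IsCompact.nonempty_iInter_of_sequence_nonempty_isCompact_isClosed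
    (levelSet C δ) (levelSet_subset C δ) hne (levelSet_isCompact C δ 0)
    (levelSet_isClosed C δ)
  rw [mem_iInter] at hg
  have hmul : ∀ a b, g (a * b) = g a * g b := by
    intro a b
    rcases eq_or_ne a 0 with rfl | ha
    · rw [zero_mul, (hg 0).2.1, zero_mul]
    rcases eq_or_ne b 0 with rfl | hb
    · rw [mul_zero, (hg 0).2.1, mul_zero]
    exact (hg (a * b)).2.2.2.1 a b le_rfl ha hb
  refine ⟨⟨⟨g, (hg 0).2.1⟩, (hg 0).2.2.1, hmul⟩, ?_, ?_⟩
  · intro q hq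
    exact (hg q).2.2.2.2.1 q le_rfl hq
  · intro m hm
    exact (hg m).2.2.2.2.2 m hm le_rfl

end Pool.Agent.H6
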