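import Mathlib

/-!
Bounded error approximation of the logarithmic derivative of the Gamma function on a vertical
strip: `Γ'/Γ(s) = log |im s| + O(1)`.
-/

open Complex Filter Topology MeasureTheory Set Metric

namespace Pool.Agent.H6

lemma norm_GammaSeq_le {s : ℂ} (hs : 0 < s.re) {n : ℕ} (hn : n ≠ 0) :
    ‖GammaSeq s n‖ ≤ Real.Gamma s.re := by
  have hn0 : (0 : ℝ) ≤ n := Nat.cast_nonneg n
  rw [GammaSeq_eq_approx_Gamma_integral hs hn, intervalIntegral.integral_of_le hn0]
  have hint := Real.GammaIntegral_convergent hs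
  have hint' : IntegrableOn (fun x : ℝ ↦ Real.exp (-x) * x ^ (s.re - 1)) (Ioc 0 (n : ℝ)) :=
    hint.mono_set Ioc_subset_Ioi_self
  have h1 : ‖∫ x in Ioc 0 (n : ℝ), (((1 - x / n) ^ n : ℝ) : ℂ) * (x : ℂ) ^ (s - 1)‖ ≤
      ∫ x in Ioc 0 (n : ℝ), Real.exp (-x) * x ^ (s.re - 1) := by
    refine norm_integral_le_of_norm_le hint' ?_
    filter_upwards [ae_restrict_mem measurableSet_Ioc] with x hx
    rw [norm_mul, norm_real, norm_cpow_eq_rpow_re_of_pos hx.1, sub_re, one_re]
    have h2 : 0 ≤ 1 - x / n := by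
      rw [sub_nonneg, div_le_one (by exact_mod_cast Nat.pos_of_ne_zero hn)]
      exact hx.2
    rw [Real.norm_of_nonneg (pow_nonneg h2 n)]
    have h3 : (1 - x / n) ^ n ≤ Real.exp (-x) := Real.one_sub_div_pow_le_exp_neg hx.2
    have : 0 ≤ x ^ (s.re - 1) := Real.rpow_nonneg hx.1.le _
    gcongr
  refine h1.trans ?_
  rw [Real.Gamma_eq_integral hs]
  refine setIntegral_mono_set hint ?_ (Eventually.of_forall Ioc_subset_Ioi_self)
  filter_upwards [ae_restrict_mem measurableSet_Ioi] with x hx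
  have hx' : (0 : ℝ) < x := hx
  positivity

lemma GammaSeq_differentiableAt {s : ℂ} (hs : 0 < s.re) {n : ℕ} (hn : n ≠ 0) :
    DifferentiableAt ℂ (fun z ↦ GammaSeq z n) s := by
  unfold GammaSeq
  have h1 : DifferentiableAt ℂ (fun z : ℂ ↦ (n : ℂ) ^ z) s :=
    differentiableAt_id.const_cpow (Or.inl (by exact_mod_cast hn))
  have h2 : DifferentiableAt ℂ (fun z : ℂ ↦ ∏ j ∈ Finset.range (n + 1), (z + j)) s := by fun_prop
  refine (h1.mul_const _).div h2 ?_
  rw [Finset.prod_ne_zero_iff]
  intro j _ h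
  have := congrArg Complex.re h
  simp at this
  have hj : (0 : ℝ) ≤ j := Nat.cast_nonneg j
  linarith

/-- convergence of the derivatives -/
lemma deriv_GammaSeq_tendsto {s : ℂ} (hs : 0 < s.re) :
    Tendsto (fun n : ℕ ↦ deriv (fun z ↦ GammaSeq z n) s) atTop (𝓝 (deriv Gamma s)) := by
  set r : ℝ := s.re / 2 with hr
  have hr0 : 0 < r := by rw [hr]; linarith
  set V : Set ℂ := {z : ℂ | 0 < z.re} with hV
  have hVo : IsOpen V := isOpen_lt continuous_const continuous_re
  have hsub : closedBall s r ⊆ V := by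
    intro z hz
    rw [mem_closedBall, dist_eq_norm] at hz
    have h1 := (abs_re_le_norm (z - s)).trans hz
    rw [sub_re] at h1
    have h2 := (abs_le.mp h1).1
    show 0 < z.re
    rw [hr] at h2
    linarith
  have hG : DifferentiableOn ℂ Gamma V := by
    intro z hz
    have hz' : 0 < z.re := hz
    refine (differentiableAt_Gamma z fun m h ↦ ?_).differentiableWithinAt
    rw [h] at hz'
    simp at hz'
    have : (0 : ℝ) ≤ m := Nat.cast_nonneg m
    linarith
  have hlim := two_pi_I_inv_smul_circleIntegral_sub_sq_inv_smul_of_differentiable hVo hsub hG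
    (mem_ball_self hr0)
  rw [← hlim]
  have hseq : ∀ᶠ n : ℕ in atTop, deriv (fun z ↦ GammaSeq z n) s =
      ((2 * Real.pi * I : ℂ)⁻¹ • ∮ z in C(s, r), ((z - s) ^ 2)⁻¹ • GammaSeq z n) := by
    filter_upwards [eventually_ne_atTop 0] with n hn
    refine (two_pi_I_inv_smul_circleIntegral_sub_sq_inv_smul_of_differentiable hVo hsub ?_
      (mem_ball_self hr0)).symm
    exact fun z hz ↦ (GammaSeq_differentiableAt hz hn).differentiableWithinAt
  refine Tendsto.congr' (hseq.mono fun n hn ↦ hn.symm) ?_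
  apply Tendsto.const_smul
  -- bound for the real Gamma function
  have hcomp : IsCompact (Icc (s.re - r) (s.re + r)) := isCompact_Icc
  have hcont : ContinuousOn Real.Gamma (Icc (s.re - r) (s.re + r)) := by
    intro x hx
    have hx0 : 0 < x := by
      have := hx.1
      rw [hr] at this
      linarith
    refine (Real.differentiableAt_Gamma fun m ↦ ?_).continuousAt.continuousWithinAt
    intro h
    have : (0 : ℝ) ≤ m := Nat.cast_nonneg m
    linarith
  obtain ⟨B, hB⟩ := hcomp.exists_bound_of_continuousOn hcont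
  unfold circleIntegral
  refine intervalIntegral.tendsto_integral_filter_of_dominated_convergence
    (fun _ ↦ r * ((r ^ 2)⁻¹ * B)) ?_ ?_ ?_ ?_
  · filter_upwards [eventually_ne_atTop 0] with n hn
    refine Continuous.aestronglyMeasurable ?_
    have hc1 : Continuous fun θ : ℝ ↦ GammaSeq (circleMap s r θ) n := by
      rw [continuous_iff_continuousAt]
      intro θ
      have hmem : circleMap s r θ ∈ V := hsub (circleMap_mem_closedBall s hr0.le θ)
      exact (GammaSeq_differentiableAt hmem hn).continuousAt.comp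
        (continuous_circleMap s r).continuousAt
    have hc2 : Continuous fun θ : ℝ ↦ deriv (circleMap s r) θ := by
      simp only [deriv_circleMap]
      fun_prop
    have hc3 : Continuous fun θ : ℝ ↦ ((circleMap s r θ - s) ^ 2)⁻¹ := by
      refine Continuous.inv₀ (by fun_prop) fun θ h ↦ ?_
      have h1 := sq_eq_zero_iff.mp h
      have h2 : ‖circleMap s r θ - s‖ = r := by simp [hr0.le]
      rw [h1, norm_zero] at h2
      linarith
    exact hc2.smul (hc3.smul hc1)
  · filter_upwards [eventually_ne_atTop 0] with n hn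
    filter_upwards with θ _
    rw [norm_smul, norm_smul, norm_inv, norm_pow, deriv_circleMap]
    have h2 : ‖circleMap s r θ - s‖ = r := by simp [hr0.le]
    rw [h2]
    have h3 : ‖circleMap 0 r θ * I‖ = r := by simp [hr0.le]
    rw [h3]
    have hmem : circleMap s r θ ∈ V := hsub (circleMap_mem_closedBall s hr0.le θ)
    have h4 := norm_GammaSeq_le hmem hn
    have h5 : (circleMap s r θ).re ∈ Icc (s.re - r) (s.re + r) := by
      have h6 := abs_re_le_norm (circleMap s r θ - s)
      rw [h2, sub_re] at h6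
      have := abs_le.mp h6
      constructor <;> linarith
    have h7 := hB _ h5
    rw [Real.norm_of_nonneg (Real.Gamma_pos_of_pos hmem).le] at h7
    gcongr
    exact h4.trans h7
  · exact intervalIntegrable_const
  · filter_upwards with θ _
    exact ((GammaSeq_tendsto_Gamma _).const_smul _).const_smul _

/-- the logarithmic derivative of `GammaSeq` -/
lemma logDeriv_GammaSeq {s : ℂ} (hs : 0 < s.re) {n : ℕ} (hn : n ≠ 0) :
    deriv (fun z ↦ GammaSeq z n) s / GammaSeq s n =
      (Real.log n : ℝ) - ∑ j ∈ Finset.range (n + 1), 1 / (s + j) := by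
  have hne : ∀ j : ℕ, s + j ≠ 0 := by
    intro j h
    have := congrArg Complex.re h
    simp at this
    have hj : (0 : ℝ) ≤ j := Nat.cast_nonneg j
    linarith
  have hn' : (n : ℂ) ≠ 0 := by exact_mod_cast hn
  have hf : (n.factorial : ℂ) ≠ 0 := by exact_mod_cast n.factorial_ne_zero
  have hp : (∏ j ∈ Finset.range (n + 1), (s + j)) ≠ 0 :=
    Finset.prod_ne_zero_iff.mpr fun j _ ↦ hne j
  have d1 : DifferentiableAt ℂ (fun z : ℂ ↦ (n : ℂ) ^ z) s :=
    differentiableAt_id.const_cpow (Or.inl hn')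
  have d2 : DifferentiableAt ℂ (fun z : ℂ ↦ ∏ j ∈ Finset.range (n + 1), (z + j)) s := by fun_prop
  have hpow : (n : ℂ) ^ s ≠ 0 := by
    rw [Ne, cpow_eq_zero_iff]; exact fun h ↦ hn' h.1
  show logDeriv (fun z ↦ GammaSeq z n) s = _
  have e : (fun z ↦ GammaSeq z n) = fun z : ℂ ↦
      ((n : ℂ) ^ z * n.factorial) / ∏ j ∈ Finset.range (n + 1), (z + j) := rfl
  rw [e, logDeriv_div (f := fun z : ℂ ↦ (n : ℂ) ^ z * n.factorial) s (mul_ne_zero hpow hf) hp
    (d1.mul_const _) d2,
    logDeriv_mul_const (f := fun z : ℂ ↦ (n : ℂ) ^ z) s _ hf]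
  congr 1
  · rw [logDeriv_apply]
    have h1 : HasDerivAt (fun z : ℂ ↦ (n : ℂ) ^ z) ((n : ℂ) ^ s * Complex.log n) s := by
      have := (hasDerivAt_id s).const_cpow (c := (n : ℂ)) (Or.inl hn')
      simpa using this
    rw [h1.deriv, mul_div_cancel_left₀ _ hpow, natCast_log]
  · have := logDeriv_prod (s := Finset.range (n + 1)) (f := fun (j : ℕ) (z : ℂ) ↦ z + j) (x := s)
      (fun j _ ↦ hne j) (fun j _ ↦ by fun_prop)
    rw [this]
    refine Finset.sum_congr rfl fun j _ ↦ ?_
    rw [logDeriv_apply]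
    simp

lemma log_step {s : ℂ} (hs : 0 < s.re) :
    ‖1 / s - (Complex.log (s + 1) - Complex.log s)‖ ≤ 1 / ‖s‖ ^ 2 := by
  have hs0 : s ≠ 0 := by intro h; rw [h, zero_re] at hs; exact lt_irrefl _ hs
  set φ : ℝ → ℂ := fun x ↦ x / s - Complex.log (s + x) with hφ
  have hre : ∀ x : ℝ, 0 ≤ x → 0 < (s + x).re := by
    intro x hx
    simp
    linarith
  have hd : ∀ x ∈ Icc (0 : ℝ) 1, HasDerivWithinAt φ (1 / s - 1 / (s + x)) (Icc 0 1) x := by
    intro x hx
    have h1 : HasDerivAt (fun x : ℝ ↦ (x : ℂ) / s) (1 / s) x := by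
      have := (hasDerivAt_id x).ofReal_comp
      simpa using this.div_const s
    have h2 : HasDerivAt (fun x : ℝ ↦ s + (x : ℂ)) 1 x := by
      have := (hasDerivAt_id x).ofReal_comp
      simpa using this.const_add s
    have h3 : HasDerivAt (fun x : ℝ ↦ Complex.log (s + x)) (1 / (s + x)) x := by
      have := h2.clog_real (Or.inl (hre x hx.1))
      simpa using this
    exact (h1.sub h3).hasDerivWithinAt
  have hb : ∀ x ∈ Ico (0 : ℝ) 1, ‖1 / s - 1 / (s + x)‖ ≤ 1 / ‖s‖ ^ 2 := by
    intro x hx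
    have hx0 := hre x hx.1
    have hne : s + x ≠ 0 := by intro h; rw [h, zero_re] at hx0; exact lt_irrefl _ hx0
    have h1 : 1 / s - 1 / (s + x) = x / (s * (s + x)) := by
      field_simp
      ring
    have h2 : ‖s‖ ≤ ‖s + x‖ := by
      rw [← abs_of_nonneg (norm_nonneg s), ← abs_of_nonneg (norm_nonneg (s + x)), ← sq_le_sq,
        ← normSq_eq_norm_sq, ← normSq_eq_norm_sq, normSq_apply, normSq_apply]
      simp only [add_re, ofReal_re, add_im, ofReal_im, add_zero]
      nlinarith [hx.1]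
    have h3 : 0 < ‖s‖ := norm_pos_iff.mpr hs0
    rw [h1, norm_div, norm_mul, norm_real, Real.norm_of_nonneg hx.1]
    calc x / (‖s‖ * ‖s + x‖) ≤ 1 / (‖s‖ * ‖s‖) := by
          gcongr
          exact hx.2.le
      _ = _ := by rw [sq]
  have h := norm_image_sub_le_of_norm_deriv_le_segment_01' hd hb
  have e : φ 1 - φ 0 = 1 / s - (Complex.log (s + 1) - Complex.log s) := by
    simp only [hφ]
    push_cast
    rw [zero_div, add_zero]
    ring
  rwa [e] at h

lemma summable_sq_one : Summable fun j : ℕ ↦ 1 / ((j : ℝ) ^ 2 + 1) := by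
  have h := (summable_nat_add_iff 1).mpr
    (Real.summable_one_div_nat_pow.mpr (by norm_num : 1 < 2))
  refine Summable.of_nonneg_of_le (fun j ↦ by positivity) (fun j ↦ ?_) (h.mul_left 2)
  rw [mul_one_div, div_le_div_iff₀ (by positivity) (by positivity)]
  push_cast
  nlinarith [sq_nonneg ((j : ℝ) - 1)]

/-- **The logarithmic derivative of Gamma** up to a bounded error. -/
theorem digamma_bound : ∃ C : ℝ, 0 < C ∧ ∀ s : ℂ, 0 < s.re → 1 ≤ |s.im| →
    ‖deriv Gamma s / Gamma s - Complex.log s‖ ≤ C := by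
  set S : ℝ := ∑' j : ℕ, 1 / ((j : ℝ) ^ 2 + 1) with hS
  refine ⟨S + 1, ?_, fun s hs hs1 ↦ ?_⟩
  · have : 0 ≤ S := tsum_nonneg fun j ↦ by positivity
    linarith
  have hs0 : s ≠ 0 := by intro h; rw [h, zero_re] at hs; exact lt_irrefl _ hs
  have hlim : Tendsto (fun n : ℕ ↦ deriv (fun z ↦ GammaSeq z n) s / GammaSeq s n) atTop
      (𝓝 (deriv Gamma s / Gamma s)) :=
    (deriv_GammaSeq_tendsto hs).div (GammaSeq_tendsto_Gamma s) (Gamma_ne_zero_of_re_pos hs)
  -- the telescoping sum
  have htel : ∀ n : ℕ, ‖∑ j ∈ Finset.range n, 1 / (s + j) - (Complex.log (s + n) - Complex.log s)‖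
      ≤ S := by
    intro n
    have h1 : ∑ j ∈ Finset.range n, 1 / (s + j) - (Complex.log (s + n) - Complex.log s) =
        ∑ j ∈ Finset.range n, (1 / (s + j) - (Complex.log (s + j + 1) - Complex.log (s + j))) := by
      rw [Finset.sum_sub_distrib]
      congr 1
      have := Finset.sum_range_sub (fun j : ℕ ↦ Complex.log (s + j)) n
      simp only [Nat.cast_zero, add_zero] at this
      rw [← this]
      refine Finset.sum_congr rfl fun j _ ↦ ?_
      push_cast
      rw [add_assoc]
    rw [h1]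
    refine (norm_sum_le _ _).trans ?_
    have h2 : ∑ j ∈ Finset.range n, ‖1 / (s + j) - (Complex.log (s + j + 1) - Complex.log (s + j))‖
        ≤ ∑ j ∈ Finset.range n, 1 / ((j : ℝ) ^ 2 + 1) := by
      refine Finset.sum_le_sum fun j _ ↦ ?_
      have hj : (0 : ℝ) ≤ j := Nat.cast_nonneg j
      refine (log_step (s := s + j) (by simp; linarith)).trans ?_
      have h3 : (j : ℝ) ^ 2 + 1 ≤ ‖s + j‖ ^ 2 := by
        rw [← normSq_eq_norm_sq, normSq_apply]
        simp only [add_re, natCast_re, add_im, natCast_im, add_zero]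
        have h4 : 1 ≤ s.im * s.im := by
          rw [← abs_mul_abs_self s.im]
          nlinarith
        nlinarith
      gcongr
    refine h2.trans ?_
    exact summable_sq_one.sum_le_tsum _ fun j _ ↦ by positivity
  -- the limit of `log n - log (s + n + 1)`
  have hlog : Tendsto (fun n : ℕ ↦ ((Real.log n : ℝ) : ℂ) - Complex.log (s + ((n + 1 : ℕ) : ℂ)))
      atTop (𝓝 0) := by
    have h1 : Tendsto (fun n : ℕ ↦ 1 + (s + 1) / (n : ℂ)) atTop (𝓝 (1 + 0)) := by
      apply Tendsto.const_add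
      exact tendsto_const_div_atTop_nhds_zero_nat (s + 1)
    rw [add_zero] at h1
    have h2 : Tendsto (fun n : ℕ ↦ Complex.log (1 + (s + 1) / (n : ℂ))) atTop (𝓝 0) := by
      have := (continuousAt_clog (x := 1) (by simp)).tendsto.comp h1
      simpa [Function.comp_def] using this
    have h3 : Tendsto (fun n : ℕ ↦ - Complex.log (1 + (s + 1) / (n : ℂ))) atTop (𝓝 0) := by
      simpa using h2.neg
    refine h3.congr' ?_
    filter_upwards [eventually_ne_atTop 0] with n hn
    have hn0 : (0 : ℝ) < n := by exact_mod_cast Nat.pos_of_ne_zero hn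
    have hnc : (n : ℂ) ≠ 0 := by exact_mod_cast hn
    have h4 : s + ((n + 1 : ℕ) : ℂ) = ((n : ℝ) : ℂ) * (1 + (s + 1) / (n : ℂ)) := by
      push_cast
      field_simp
      ring
    have h5 : 1 + (s + 1) / (n : ℂ) ≠ 0 := by
      intro h
      have h6 := congrArg Complex.re h
      have e : (s + 1) / (n : ℂ) = (s + 1) / ((n : ℝ) : ℂ) := by push_cast; rfl
      rw [add_re, one_re, e, div_ofReal_re, add_re, one_re, zero_re] at h6
      have : 0 < (s.re + 1) / (n : ℝ) := by positivity
      linarith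
    rw [h4, Complex.log_ofReal_mul hn0 h5]
    ring
  -- pass to the limit
  have hbound : ∀ᶠ n : ℕ in atTop,
      ‖deriv (fun z ↦ GammaSeq z n) s / GammaSeq s n - Complex.log s‖ ≤ S +
        ‖((Real.log n : ℝ) : ℂ) - Complex.log (s + ((n + 1 : ℕ) : ℂ))‖ := by
    filter_upwards [eventually_ne_atTop 0] with n hn
    rw [logDeriv_GammaSeq hs hn]
    have h1 : ((Real.log n : ℝ) : ℂ) - ∑ j ∈ Finset.range (n + 1), 1 / (s + j) - Complex.log s =
        -(∑ j ∈ Finset.range (n + 1), 1 / (s + j) -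
          (Complex.log (s + ((n + 1 : ℕ) : ℂ)) - Complex.log s)) +
        (((Real.log n : ℝ) : ℂ) - Complex.log (s + ((n + 1 : ℕ) : ℂ))) := by ring
    rw [h1]
    refine (norm_add_le _ _).trans ?_
    rw [norm_neg]
    have := htel (n + 1)
    linarith
  have h1 : Tendsto (fun n : ℕ ↦ ‖deriv (fun z ↦ GammaSeq z n) s / GammaSeq s n - Complex.log s‖)
      atTop (𝓝 ‖deriv Gamma s / Gamma s - Complex.log s‖) := (hlim.sub_const _).norm
  have h2 : Tendsto (fun n : ℕ ↦ S +
        ‖((Real.log n : ℝ) : ℂ) - Complex.log (s + ((n + 1 : ℕ) : ℂ))‖) atTop (𝓝 (S + 0)) := by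
    apply Tendsto.const_add
    simpa using hlog.norm
  have h3 := le_of_tendsto_of_tendsto h1 h2 hbound
  linarith

end Pool.Agent.H6
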