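import Mathlib
import Pool.Agent.H6.Digamma

/-!
The factor `X(s)` of the functional equation `ζ(1 - s) = X(s) ζ(s)`, its size and its logarithmic
derivative in vertical strips.
-/

open Complex Filter Topology MeasureTheory Set Metric

namespace Pool.Agent.H6

/-- `X(s) = 2 (2π)^{-s} Γ(s) cos(π s / 2)` -/
noncomputable def Xf (s : ℂ) : ℂ :=
  2 * (2 * Real.pi) ^ (-s) * Gamma s * Complex.cos (Real.pi * s / 2)

lemma ne_neg_nat_of_im {s : ℂ} (hs : s.im ≠ 0) (n : ℕ) : s ≠ -n := by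
  intro h
  rw [h] at hs
  simp at hs

lemma ne_one_of_im {s : ℂ} (hs : s.im ≠ 0) : s ≠ 1 := by
  intro h
  rw [h] at hs
  simp at hs

lemma zeta_one_sub {s : ℂ} (hs : s.im ≠ 0) : riemannZeta (1 - s) = Xf s * riemannZeta s :=
  riemannZeta_one_sub (ne_neg_nat_of_im hs) (ne_one_of_im hs)

/-- lower bound for `|cos|` -/
lemma norm_cos_ge (z : ℂ) : (Real.exp |z.im| - Real.exp (-|z.im|)) / 2 ≤ ‖Complex.cos z‖ := by
  have h1 : ‖cexp (z * I)‖ = Real.exp (-z.im) := by rw [Complex.norm_exp]; simp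
  have h2 : ‖cexp (-z * I)‖ = Real.exp (z.im) := by rw [Complex.norm_exp]; simp
  have h3 : Complex.cos z = (cexp (z * I) + cexp (-z * I)) / 2 := rfl
  rw [h3, norm_div, Complex.norm_ofNat]
  have h4 := abs_norm_sub_norm_le (cexp (z * I)) (-cexp (-z * I))
  rw [norm_neg, sub_neg_eq_add, h1, h2] at h4
  have h5 : Real.exp |z.im| - Real.exp (-|z.im|) ≤ |Real.exp (-z.im) - Real.exp z.im| := by
    rcases le_or_gt 0 z.im with h | h
    · rw [abs_of_nonneg h, abs_sub_comm]
      exact le_abs_self _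
    · rw [abs_of_neg h, neg_neg]
      exact le_abs_self _
  linarith

lemma norm_sin_le (z : ℂ) : ‖Complex.sin z‖ ≤ (Real.exp |z.im| + Real.exp (-|z.im|)) / 2 := by
  have h1 : ‖cexp (z * I)‖ = Real.exp (-z.im) := by rw [Complex.norm_exp]; simp
  have h2 : ‖cexp (-z * I)‖ = Real.exp (z.im) := by rw [Complex.norm_exp]; simp
  have h3 : Complex.sin z = (cexp (-z * I) - cexp (z * I)) * I / 2 := rfl
  rw [h3, norm_div, Complex.norm_ofNat, norm_mul, norm_I, mul_one]
  have h4 := norm_sub_le (cexp (-z * I)) (cexp (z * I))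
  rw [h1, h2] at h4
  have h5 : Real.exp z.im + Real.exp (-z.im) = Real.exp |z.im| + Real.exp (-|z.im|) := by
    rcases le_or_gt 0 z.im with h | h
    · rw [abs_of_nonneg h]
    · rw [abs_of_neg h, neg_neg, add_comm]
  linarith

lemma im_half (s : ℂ) : (Real.pi * s / 2 : ℂ).im = Real.pi * s.im / 2 := by
  have : (Real.pi * s / 2 : ℂ) = ((Real.pi / 2 : ℝ) : ℂ) * s := by push_cast; ring
  rw [this, im_ofReal_mul]
  ring

lemma cos_ne_zero_of_im {s : ℂ} (hs : s.im ≠ 0) : Complex.cos (Real.pi * s / 2) ≠ 0 := by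
  have h := norm_cos_ge (Real.pi * s / 2)
  rw [im_half] at h
  have h1 : 0 < |Real.pi * s.im / 2| := by
    have := Real.pi_pos
    positivity
  have h2 : Real.exp (-|Real.pi * s.im / 2|) < Real.exp |Real.pi * s.im / 2| :=
    Real.exp_lt_exp.mpr (by linarith)
  intro h3
  rw [h3, norm_zero] at h
  linarith

lemma tan_bound {s : ℂ} (hs : 1 ≤ |s.im|) :
    ‖Complex.sin (Real.pi * s / 2) / Complex.cos (Real.pi * s / 2)‖ ≤ 2 := by
  have h1 := norm_cos_ge (Real.pi * s / 2)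
  have h2 := norm_sin_le (Real.pi * s / 2)
  rw [im_half] at h1 h2
  set y : ℝ := |Real.pi * s.im / 2| with hy
  have hy1 : 1 ≤ y := by
    rw [hy, abs_div, abs_mul, abs_of_pos Real.pi_pos, abs_two, le_div_iff₀ (by norm_num)]
    nlinarith [Real.pi_gt_three]
  have h3 : 3 * Real.exp (-y) ≤ Real.exp y := by
    have h4 : Real.exp y = Real.exp (2 * y) * Real.exp (-y) := by
      rw [← Real.exp_add]; congr 1; ring
    rw [h4]
    have h5 : 3 ≤ Real.exp (2 * y) := by
      have := Real.add_one_le_exp (2 * y)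
      linarith
    have := (Real.exp_pos (-y)).le
    nlinarith
  have h6 : 0 < Real.exp (-y) := Real.exp_pos _
  have h7 : 0 < ‖Complex.cos (Real.pi * s / 2)‖ := by linarith
  rw [norm_div, div_le_iff₀ h7]
  linarith

lemma two_pi_ne : (2 * Real.pi : ℂ) ≠ 0 := by
  have := Real.pi_ne_zero
  exact mul_ne_zero two_ne_zero (by exact_mod_cast this)

lemma Xf_ne_zero {s : ℂ} (hs : s.im ≠ 0) : Xf s ≠ 0 := by
  unfold Xf
  refine mul_ne_zero (mul_ne_zero (mul_ne_zero two_ne_zero ?_) ?_) (cos_ne_zero_of_im hs)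
  · rw [Ne, cpow_eq_zero_iff]; exact fun h ↦ two_pi_ne h.1
  · exact Gamma_ne_zero (ne_neg_nat_of_im hs)

lemma Xf_differentiableAt {s : ℂ} (hs : s.im ≠ 0) : DifferentiableAt ℂ Xf s := by
  unfold Xf
  have h1 : DifferentiableAt ℂ (fun s : ℂ ↦ (2 * Real.pi : ℂ) ^ (-s)) s :=
    differentiableAt_id.neg.const_cpow (Or.inl two_pi_ne)
  have h2 := differentiableAt_Gamma s (ne_neg_nat_of_im hs)
  have h3 : DifferentiableAt ℂ (fun s : ℂ ↦ Complex.cos (Real.pi * s / 2)) s := by fun_prop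
  exact ((h1.const_mul 2).mul h2).mul h3

lemma Xf_logDeriv {s : ℂ} (hs : s.im ≠ 0) :
    deriv Xf s / Xf s = - (Real.log (2 * Real.pi) : ℝ) + deriv Gamma s / Gamma s -
      (Real.pi / 2) * (Complex.sin (Real.pi * s / 2) / Complex.cos (Real.pi * s / 2)) := by
  have h1 : HasDerivAt (fun s : ℂ ↦ (2 * Real.pi : ℂ) ^ (-s))
      ((2 * Real.pi : ℂ) ^ (-s) * Complex.log (2 * Real.pi) * (-1)) s :=
    (hasDerivAt_id s).neg.const_cpow (Or.inl two_pi_ne)
  have h2 : HasDerivAt Gamma (deriv Gamma s) s :=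
    (differentiableAt_Gamma s (ne_neg_nat_of_im hs)).hasDerivAt
  have h3 : HasDerivAt (fun s : ℂ ↦ Complex.cos (Real.pi * s / 2))
      (-Complex.sin (Real.pi * s / 2) * (Real.pi / 2)) s := by
    have h4 : HasDerivAt (fun s : ℂ ↦ (Real.pi * s / 2 : ℂ)) (Real.pi / 2) s := by
      have := ((hasDerivAt_id s).const_mul (Real.pi : ℂ)).div_const 2
      simpa using this
    exact h4.ccos
  have h5 := ((h1.const_mul 2).mul h2).mul h3
  have h6 : HasDerivAt Xf _ s := h5
  rw [h6.deriv]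
  have hp : (2 * Real.pi : ℂ) ^ (-s) ≠ 0 := by
    rw [Ne, cpow_eq_zero_iff]; exact fun h ↦ two_pi_ne h.1
  have hg := Gamma_ne_zero (ne_neg_nat_of_im hs)
  have hc := cos_ne_zero_of_im hs
  have hl : Complex.log (2 * Real.pi) = ((Real.log (2 * Real.pi) : ℝ) : ℂ) := by
    rw [ofReal_log (by positivity)]
    push_cast
    rfl
  rw [hl]
  simp only [Pi.mul_apply]
  unfold Xf
  field_simp
  ring

/-- `X'/X(s) = log |im s| + O(1)` -/
theorem Xf_logDeriv_bound' {B : ℝ} (hB : 0 < B) : ∃ C : ℝ, 0 < C ∧ ∀ s : ℂ, 0 < s.re → s.re ≤ B →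
    1 ≤ |s.im| → ‖deriv Xf s / Xf s - (Real.log |s.im| : ℝ)‖ ≤ C := by
  obtain ⟨C, hC, h⟩ := digamma_bound
  refine ⟨|Real.log (2 * Real.pi)| + C + (Real.log (B + 1) + Real.pi) + Real.pi, ?_,
    fun s h0 h3 h1 ↦ ?_⟩
  · have := Real.pi_pos
    have := Real.log_nonneg (by linarith : (1:ℝ) ≤ B + 1)
    positivity
  have him : s.im ≠ 0 := by intro h; rw [h, abs_zero] at h1; linarith
  have hlog : ‖Complex.log s - (Real.log |s.im| : ℝ)‖ ≤ Real.log (B + 1) + Real.pi := by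
    have e : Complex.log s - (Real.log |s.im| : ℝ) =
        ((Real.log ‖s‖ - Real.log |s.im| : ℝ) : ℂ) + (s.arg : ℝ) * I := by
      apply Complex.ext
      · simp [Complex.log_re]
      · simp [Complex.log_im]
    rw [e]
    refine (norm_add_le _ _).trans ?_
    rw [norm_real, norm_mul, norm_I, mul_one, norm_real, Real.norm_eq_abs, Real.norm_eq_abs]
    have hpos : 0 < |s.im| := by linarith
    have h4 : |s.im| ≤ ‖s‖ := abs_im_le_norm s
    have h5 : ‖s‖ ≤ (B + 1) * |s.im| := by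
      have := norm_le_abs_re_add_abs_im s
      rw [abs_of_pos h0] at this
      nlinarith
    have h6 : Real.log |s.im| ≤ Real.log ‖s‖ := Real.log_le_log hpos h4
    have h7 : Real.log ‖s‖ ≤ Real.log (B + 1) + Real.log |s.im| := by
      rw [← Real.log_mul (by linarith) hpos.ne']
      exact Real.log_le_log (by linarith) h5
    have h8 := abs_arg_le_pi s
    rw [abs_of_nonneg (by linarith)]
    linarith
  rw [Xf_logDeriv him]
  have e : -((Real.log (2 * Real.pi) : ℝ) : ℂ) + deriv Gamma s / Gamma s -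
      (Real.pi / 2) * (Complex.sin (Real.pi * s / 2) / Complex.cos (Real.pi * s / 2)) -
      ((Real.log |s.im| : ℝ) : ℂ) = -((Real.log (2 * Real.pi) : ℝ) : ℂ) +
      (deriv Gamma s / Gamma s - Complex.log s) + (Complex.log s - (Real.log |s.im| : ℝ)) -
      ((Real.pi / 2 : ℝ) : ℂ) * (Complex.sin (Real.pi * s / 2) / Complex.cos (Real.pi * s / 2)) := by
    push_cast; ring
  rw [e]
  have t1 := h s h0 h1
  have t2 := tan_bound h1
  calc _ ≤ ‖-((Real.log (2 * Real.pi) : ℝ) : ℂ)‖ + ‖deriv Gamma s / Gamma s - Complex.log s‖ +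
        ‖Complex.log s - (Real.log |s.im| : ℝ)‖ +
        ‖((Real.pi / 2 : ℝ) : ℂ) * (Complex.sin (Real.pi * s / 2) / Complex.cos (Real.pi * s / 2))‖ :=
        (norm_sub_le _ _).trans (add_le_add ((norm_add_le _ _).trans
          (add_le_add (norm_add_le _ _) le_rfl)) le_rfl)
    _ ≤ |Real.log (2 * Real.pi)| + C + (Real.log (B + 1) + Real.pi) + Real.pi := by
        rw [norm_neg, norm_real, Real.norm_eq_abs, norm_mul, norm_real, Real.norm_of_nonneg
          (by have := Real.pi_pos; positivity)]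
        have : Real.pi / 2 * ‖Complex.sin (Real.pi * s / 2) / Complex.cos (Real.pi * s / 2)‖ ≤
            Real.pi / 2 * 2 := by
          have := Real.pi_pos
          gcongr
        linarith

theorem Xf_logDeriv_bound : ∃ C : ℝ, 0 < C ∧ ∀ s : ℂ, 0 < s.re → s.re ≤ 3 → 1 ≤ |s.im| →
    ‖deriv Xf s / Xf s - (Real.log |s.im| : ℝ)‖ ≤ C := Xf_logDeriv_bound' (by norm_num)

/-- the reflection `X(s) X(1 - s) = 1` -/
lemma Xf_mul_Xf {s : ℂ} (hs : s.im ≠ 0) : Xf s * Xf (1 - s) = 1 := by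
  unfold Xf
  have hsin : Complex.sin (Real.pi * s) ≠ 0 := by
    rw [Complex.sin_ne_zero_iff]
    intro k h
    have hpi : (Real.pi : ℂ) ≠ 0 := by exact_mod_cast Real.pi_ne_zero
    have h1 : s = k := by
      have h2 : (Real.pi : ℂ) * (s - k) = 0 := by rw [mul_sub, h]; ring
      exact sub_eq_zero.mp ((mul_eq_zero.mp h2).resolve_left hpi)
    rw [h1] at hs
    simp at hs
  have hG := Gamma_mul_Gamma_one_sub s
  have hc : Complex.cos (Real.pi * (1 - s) / 2) = Complex.sin (Real.pi * s / 2) := by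
    rw [← Complex.cos_pi_div_two_sub]
    congr 1
    ring
  have hd : Complex.sin (Real.pi * s) = 2 * Complex.sin (Real.pi * s / 2) *
      Complex.cos (Real.pi * s / 2) := by
    rw [← Complex.sin_two_mul]
    congr 1
    ring
  have hp : (2 * Real.pi : ℂ) ^ (-s) * (2 * Real.pi : ℂ) ^ (-(1 - s)) = (2 * Real.pi : ℂ)⁻¹ := by
    rw [← cpow_add _ _ two_pi_ne]
    rw [show -s + -(1 - s) = -1 by ring, cpow_neg_one]
  have hpi : (Real.pi : ℂ) ≠ 0 := by exact_mod_cast Real.pi_ne_zero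
  calc 2 * (2 * Real.pi : ℂ) ^ (-s) * Gamma s * Complex.cos (Real.pi * s / 2) *
        (2 * (2 * Real.pi : ℂ) ^ (-(1 - s)) * Gamma (1 - s) * Complex.cos (Real.pi * (1 - s) / 2))
      = 2 * ((2 * Real.pi : ℂ) ^ (-s) * (2 * Real.pi : ℂ) ^ (-(1 - s))) * (Gamma s * Gamma (1 - s)) *
        (2 * Complex.sin (Real.pi * s / 2) * Complex.cos (Real.pi * s / 2)) := by
        rw [hc]; ring
    _ = 1 := by
        rw [hp, hG, ← hd]
        field_simp

lemma Xf_conj (s : ℂ) : Xf ((starRingEnd ℂ) s) = (starRingEnd ℂ) (Xf s) := by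
  unfold Xf
  have h1 : (2 * Real.pi : ℂ) ^ (-(starRingEnd ℂ) s) = (starRingEnd ℂ) ((2 * Real.pi : ℂ) ^ (-s)) := by
    have harg : (2 * Real.pi : ℂ).arg ≠ Real.pi := by
      have : (2 * Real.pi : ℂ) = ((2 * Real.pi : ℝ) : ℂ) := by push_cast; rfl
      rw [this, arg_ofReal_of_nonneg (by positivity)]
      exact Real.pi_ne_zero.symm
    rw [← map_neg, cpow_conj _ _ harg]
    congr 1
    rw [map_mul, conj_ofReal, map_ofNat]
  have h2 : Complex.cos (Real.pi * (starRingEnd ℂ) s / 2) =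
      (starRingEnd ℂ) (Complex.cos (Real.pi * s / 2)) := by
    rw [← Complex.cos_conj, map_div₀, map_mul, conj_ofReal, map_ofNat]
  rw [h1, h2, Gamma_conj, map_mul, map_mul, map_mul, map_ofNat]

lemma norm_Xf_half (t : ℝ) (ht : t ≠ 0) : ‖Xf (1 / 2 + t * I)‖ = 1 := by
  set s : ℂ := 1 / 2 + t * I with hs
  have him : s.im = t := by simp [hs]
  have h1 := Xf_mul_Xf (s := s) (by rw [him]; exact ht)
  have h2 : 1 - s = (starRingEnd ℂ) s := by
    apply Complex.ext
    · simp [hs]; norm_num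
    · simp [hs]
  rw [h2, Xf_conj] at h1
  have h3 := congrArg norm h1
  rw [norm_mul, norm_one, RCLike.norm_conj] at h3
  have h4 := norm_nonneg (Xf s)
  nlinarith

/-- the size of `X` -/
theorem Xf_norm_bound : ∃ C : ℝ, 0 < C ∧ ∀ s : ℂ, 1 / 2 ≤ s.re → s.re ≤ 3 → 1 ≤ |s.im| →
    abs (Real.log ‖Xf s‖ - (s.re - 1 / 2) * Real.log |s.im|) ≤ C := by
  obtain ⟨C, hC, h⟩ := Xf_logDeriv_bound
  refine ⟨C * 3, by positivity, fun s h0 h3 h1 ↦ ?_⟩
  have him : s.im ≠ 0 := by intro h; rw [h, abs_zero] at h1; linarith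
  set t : ℝ := s.im with ht
  set Λ : ℝ := Real.log |t| with hΛ
  set φ : ℝ → ℝ := fun x ↦ Real.log ‖Xf (x + t * I)‖ - (x - 1 / 2) * Λ with hφ
  have hline : ∀ x : ℝ, ((x : ℂ) + t * I).im = t ∧ ((x : ℂ) + t * I).re = x := by
    intro x; constructor <;> simp
  have hd : ∀ x ∈ Icc (1 / 2 : ℝ) 3, HasDerivWithinAt φ
      ((deriv Xf (x + t * I) / Xf (x + t * I)).re - Λ) (Icc (1 / 2) 3) x := by
    intro x hx
    have hz : ((x : ℂ) + t * I).im ≠ 0 := by rw [(hline x).1]; exact him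
    have hX := Xf_ne_zero hz
    have d1 : HasDerivAt (fun x : ℝ ↦ Xf ((x : ℂ) + t * I)) (deriv Xf (x + t * I)) x := by
      have e1 : HasDerivAt (fun z : ℂ ↦ Xf (z + t * I)) (deriv Xf (x + t * I)) (x : ℂ) := by
        have := (Xf_differentiableAt hz).hasDerivAt.comp_add_const (x : ℂ) (t * I)
        exact this
      exact e1.comp_ofReal
    have d2 : HasDerivAt (fun x : ℝ ↦ Real.log ‖Xf ((x : ℂ) + t * I)‖)
        (deriv Xf (x + t * I) / Xf (x + t * I)).re x := by
      have e2 : HasDerivAt (fun x : ℝ ↦ ‖Xf ((x : ℂ) + t * I)‖ ^ 2)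
          (2 * (Xf (x + t * I) * (starRingEnd ℂ) (deriv Xf (x + t * I))).re) x := by
        have e3 := d1.norm_sq
        convert e3 using 1
        rw [Complex.inner]
        congr 1
        rw [← Complex.conj_re]
        congr 1
        rw [map_mul, Complex.conj_conj, mul_comm]
      have hn : ‖Xf ((x : ℂ) + t * I)‖ ^ 2 ≠ 0 := by
        have := norm_pos_iff.mpr hX
        positivity
      have e4 := e2.log hn
      have e5 : (fun x : ℝ ↦ Real.log (‖Xf ((x : ℂ) + t * I)‖ ^ 2)) =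
          fun x : ℝ ↦ 2 * Real.log ‖Xf ((x : ℂ) + t * I)‖ := by
        ext y
        rw [Real.log_pow]; push_cast; rfl
      rw [e5] at e4
      have e6 := e4.const_mul (1 / 2 : ℝ)
      have e7 : (fun x : ℝ ↦ 1 / 2 * (2 * Real.log ‖Xf ((x : ℂ) + t * I)‖)) =
          fun x : ℝ ↦ Real.log ‖Xf ((x : ℂ) + t * I)‖ := by ext y; ring
      rw [e7] at e6
      have e8 : deriv Xf (x + t * I) / Xf (x + t * I) =
          (deriv Xf (x + t * I) * (starRingEnd ℂ) (Xf (x + t * I))) / ((‖Xf (x + t * I)‖ ^ 2 : ℝ) : ℂ) := by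
        rw [div_eq_div_iff hX (by exact_mod_cast hn), mul_assoc, mul_comm ((starRingEnd ℂ) _),
          Complex.mul_conj, normSq_eq_norm_sq]
      have e9 : (deriv Xf (x + t * I) * (starRingEnd ℂ) (Xf (x + t * I))).re =
          (Xf (x + t * I) * (starRingEnd ℂ) (deriv Xf (x + t * I))).re := by
        rw [← Complex.conj_re (Xf (x + t * I) * (starRingEnd ℂ) (deriv Xf (x + t * I)))]
        congr 1
        rw [map_mul, Complex.conj_conj, mul_comm]
      have e10 : (deriv Xf (x + t * I) / Xf (x + t * I)).re =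
          1 / 2 * (2 * (Xf (x + t * I) * (starRingEnd ℂ) (deriv Xf (x + t * I))).re /
            ‖Xf (x + t * I)‖ ^ 2) := by
        rw [e8, div_ofReal_re, e9]
        ring
      rw [e10]
      exact e6
    have d3 : HasDerivAt (fun x : ℝ ↦ (x - 1 / 2) * Λ) Λ x := by
      have := ((hasDerivAt_id x).sub_const (1 / 2)).mul_const Λ
      simpa using this
    exact (d2.sub d3).hasDerivWithinAt
  have hb : ∀ x ∈ Icc (1 / 2 : ℝ) 3, ‖(deriv Xf (x + t * I) / Xf (x + t * I)).re - Λ‖ ≤ C := by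
    intro x hx
    have h4 := h (x + t * I) (by rw [(hline x).2]; linarith [hx.1]) (by rw [(hline x).2]; exact hx.2)
      (by rw [(hline x).1]; exact h1)
    rw [(hline x).1] at h4
    have h5 := abs_re_le_norm (deriv Xf (x + t * I) / Xf (x + t * I) - ((Real.log |t| : ℝ) : ℂ))
    rw [sub_re, ofReal_re] at h5
    rw [Real.norm_eq_abs]
    exact h5.trans h4
  have hm := (convex_Icc (1 / 2 : ℝ) 3).norm_image_sub_le_of_norm_hasDerivWithin_le hd hb
    (show (1 / 2 : ℝ) ∈ Icc (1 / 2 : ℝ) 3 by constructor <;> norm_num)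
    (show s.re ∈ Icc (1 / 2 : ℝ) 3 from ⟨h0, h3⟩)
  have e1 : φ (1 / 2) = 0 := by
    simp only [hφ]
    have := norm_Xf_half t him
    push_cast
    rw [this]
    simp
  have e2 : φ s.re = Real.log ‖Xf s‖ - (s.re - 1 / 2) * Λ := by
    simp only [hφ]
    rw [ht, Complex.re_add_im]
  rw [e1, e2, sub_zero, Real.norm_eq_abs, Real.norm_eq_abs] at hm
  refine hm.trans ?_
  have : |s.re - 1 / 2| ≤ 3 := by rw [abs_le]; constructor <;> linarith
  gcongr

end Pool.Agent.H6
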