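import Mathlib
import Pool.Agent.H6.Perron
import Pool.Agent.H6.Shift
import Pool.Agent.H6.LiouvilleSum

/-!
Power-saving bounds for partial sums from analytic continuation with subpolynomial growth.
-/

open Complex Filter Topology MeasureTheory Set LSeries

namespace Pool.Agent.H6

lemma norm_kern_le {N : ℕ} (hN : 1 ≤ N) {s : ℂ} (hs : 1 / 2 ≤ s.re) {τ : ℝ} (hτ : 0 ≤ τ) (hτ1 : τ ≤ 1) :
    ‖kern N s‖ ≤ 18 * ((N : ℝ) + 1) ^ (s.re + τ) * (1 + |s.im|) ^ (-(1 + τ)) := by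
  have hN0 : (0 : ℝ) < N := by exact_mod_cast hN
  have hM : (0 : ℝ) < (N : ℝ) + 1 := by linarith
  have hpos : 0 < 1 + |s.im| := by linarith [abs_nonneg s.im]
  have h1 : 1 + |s.im| ≤ 3 * ‖s‖ := one_add_abs_le_norm hs
  have h2 : 1 + |s.im| ≤ 3 * ‖s + 1‖ := by
    have := one_add_abs_le_norm (w := s + 1) (by simp; linarith)
    simpa using this
  have hs0 : 0 < ‖s‖ := by linarith
  have hs1 : 0 < ‖s + 1‖ := by linarith
  -- two bounds for the numerator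
  have b1 : ‖((N + 1 : ℕ) : ℂ) ^ (s + 1) - (N : ℂ) ^ (s + 1)‖ ≤ ‖s + 1‖ * ((N : ℝ) + 1) ^ s.re := by
    have hw : s + 1 ≠ 0 := norm_pos_iff.mp hs1
    have hderiv : ∀ x ∈ Icc (N : ℝ) (N + 1), HasDerivWithinAt (fun x : ℝ ↦ (x : ℂ) ^ (s + 1))
        ((s + 1) * (x : ℂ) ^ (s + 1 - 1)) (Icc (N : ℝ) (N + 1)) x := by
      intro x hx
      have hx0 : 0 < x := lt_of_lt_of_le hN0 hx.1
      exact (hasDerivAt_ofReal_cpow_const hx0.ne' hw).hasDerivWithinAt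
    have hbd : ∀ x ∈ Icc (N : ℝ) (N + 1), ‖(s + 1) * (x : ℂ) ^ (s + 1 - 1)‖ ≤
        ‖s + 1‖ * ((N : ℝ) + 1) ^ s.re := by
      intro x hx
      have hx0 : 0 < x := lt_of_lt_of_le hN0 hx.1
      rw [norm_mul, add_sub_cancel_right, norm_cpow_eq_rpow_re_of_pos hx0]
      have : x ^ s.re ≤ ((N : ℝ) + 1) ^ s.re := Real.rpow_le_rpow hx0.le hx.2 (by linarith)
      gcongr
    have h2 := (convex_Icc (N : ℝ) (N + 1)).norm_image_sub_le_of_norm_hasDerivWithin_le hderiv hbd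
      (show (N : ℝ) ∈ Icc (N : ℝ) (N + 1) from ⟨le_rfl, by linarith⟩)
      (show (N : ℝ) + 1 ∈ Icc (N : ℝ) (N + 1) from ⟨by linarith, le_rfl⟩)
    have h3 : (N : ℝ) + 1 - N = 1 := by ring
    rw [h3, norm_one, mul_one] at h2
    push_cast at h2 ⊢
    exact h2
  have b2 : ‖((N + 1 : ℕ) : ℂ) ^ (s + 1) - (N : ℂ) ^ (s + 1)‖ ≤
      2 * (((N : ℝ) + 1) ^ s.re * ((N : ℝ) + 1)) := by
    have := norm_pow_sub_pow_le' hN (w := s + 1) (by simp; linarith)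
    rwa [add_re, one_re, Real.rpow_add hM, Real.rpow_one] at this
  -- interpolation
  have hA : 0 < ‖s + 1‖ * ((N : ℝ) + 1) ^ s.re := by positivity
  have b3 : ‖((N + 1 : ℕ) : ℂ) ^ (s + 1) - (N : ℂ) ^ (s + 1)‖ ≤
      (‖s + 1‖ * ((N : ℝ) + 1) ^ s.re) ^ (1 - τ) *
        (2 * (((N : ℝ) + 1) ^ s.re * ((N : ℝ) + 1))) ^ τ := by
    rcases (norm_nonneg (((N + 1 : ℕ) : ℂ) ^ (s + 1) - (N : ℂ) ^ (s + 1))).eq_or_lt with h0 | h0
    · rw [← h0]; positivity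
    · set D := ‖((N + 1 : ℕ) : ℂ) ^ (s + 1) - (N : ℂ) ^ (s + 1)‖
      calc D = D ^ (1 - τ) * D ^ τ := by
            rw [← Real.rpow_add h0]; simp
        _ ≤ _ := by
            apply mul_le_mul
            · exact Real.rpow_le_rpow h0.le b1 (by linarith)
            · exact Real.rpow_le_rpow h0.le b2 hτ
            · positivity
            · positivity
  have b4 : (‖s + 1‖ * ((N : ℝ) + 1) ^ s.re) ^ (1 - τ) *
        (2 * (((N : ℝ) + 1) ^ s.re * ((N : ℝ) + 1))) ^ τ =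
      ‖s + 1‖ ^ (1 - τ) * (2 : ℝ) ^ τ * ((N : ℝ) + 1) ^ (s.re + τ) := by
    rw [Real.mul_rpow hs1.le (by positivity), Real.mul_rpow (by norm_num) (by positivity),
      Real.mul_rpow (by positivity) hM.le]
    have e1 : (((N : ℝ) + 1) ^ s.re) ^ (1 - τ) * (((N : ℝ) + 1) ^ s.re) ^ τ = ((N : ℝ) + 1) ^ s.re := by
      rw [← Real.rpow_add (by positivity)]; simp
    rw [Real.rpow_add hM]
    calc _ = ‖s + 1‖ ^ (1 - τ) * (2 : ℝ) ^ τ *
          ((((N : ℝ) + 1) ^ s.re) ^ (1 - τ) * (((N : ℝ) + 1) ^ s.re) ^ τ) * ((N : ℝ) + 1) ^ τ := by ring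
      _ = _ := by rw [e1]; ring
  have b5 : (2 : ℝ) ^ τ ≤ 2 := by
    calc (2 : ℝ) ^ τ ≤ 2 ^ (1 : ℝ) := Real.rpow_le_rpow_of_exponent_le (by norm_num) hτ1
      _ = 2 := Real.rpow_one 2
  have hinv : ∀ r : ℝ, 0 < r → 1 + |s.im| ≤ 3 * r → 1 / r ≤ 3 * (1 + |s.im|) ^ (-1 : ℝ) := by
    intro r hr h
    rw [Real.rpow_neg_one, ← div_eq_mul_inv, div_le_div_iff₀ hr hpos]
    linarith
  have b6 := hinv _ hs0 h1
  have b7 : (‖s + 1‖ ^ τ)⁻¹ ≤ 3 * (1 + |s.im|) ^ (-τ) := by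
    rw [Real.rpow_neg hpos.le, ← div_eq_mul_inv, ← one_div, div_le_div_iff₀ (by positivity)
      (by positivity), one_mul]
    calc (1 + |s.im|) ^ τ ≤ (3 * ‖s + 1‖) ^ τ := Real.rpow_le_rpow hpos.le h2 hτ
      _ = 3 ^ τ * ‖s + 1‖ ^ τ := Real.mul_rpow (by norm_num) hs1.le
      _ ≤ 3 * ‖s + 1‖ ^ τ := by
        gcongr
        calc (3 : ℝ) ^ τ ≤ 3 ^ (1 : ℝ) := Real.rpow_le_rpow_of_exponent_le (by norm_num) hτ1
          _ = 3 := Real.rpow_one 3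
  rw [kern, norm_div, norm_mul]
  calc ‖((N + 1 : ℕ) : ℂ) ^ (s + 1) - (N : ℂ) ^ (s + 1)‖ / (‖s‖ * ‖s + 1‖)
      ≤ (‖s + 1‖ ^ (1 - τ) * (2 : ℝ) ^ τ * ((N : ℝ) + 1) ^ (s.re + τ)) / (‖s‖ * ‖s + 1‖) := by
        rw [← b4]; gcongr
    _ = (2 : ℝ) ^ τ * ((N : ℝ) + 1) ^ (s.re + τ) * (1 / ‖s‖) * (‖s + 1‖ ^ τ)⁻¹ := by
        rw [Real.rpow_sub hs1, Real.rpow_one]
        field_simp
    _ ≤ 2 * ((N : ℝ) + 1) ^ (s.re + τ) * (3 * (1 + |s.im|) ^ (-1 : ℝ)) *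
          (3 * (1 + |s.im|) ^ (-τ)) := by gcongr
    _ = 18 * ((N : ℝ) + 1) ^ (s.re + τ) * ((1 + |s.im|) ^ (-1 : ℝ) * (1 + |s.im|) ^ (-τ)) := by ring
    _ = _ := by
        rw [← Real.rpow_add hpos]
        congr 2
        ring

lemma kern_differentiableAt {N : ℕ} (hN : 1 ≤ N) {s : ℂ} (hs : 0 < s.re) :
    DifferentiableAt ℂ (kern N) s := by
  have hNc : ((N + 1 : ℕ) : ℂ) ≠ 0 := by exact_mod_cast (by omega : N + 1 ≠ 0)
  have hNc' : (N : ℂ) ≠ 0 := by exact_mod_cast (by omega : N ≠ 0)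
  have d0 : DifferentiableAt ℂ (fun s : ℂ ↦ s + 1) s := by fun_prop
  have d1 : DifferentiableAt ℂ (fun w : ℂ ↦ ((N + 1 : ℕ) : ℂ) ^ (w + 1)) s :=
    d0.const_cpow (Or.inl hNc)
  have d2 : DifferentiableAt ℂ (fun w : ℂ ↦ (N : ℂ) ^ (w + 1)) s := d0.const_cpow (Or.inl hNc')
  have hne : s * (s + 1) ≠ 0 := by
    refine mul_ne_zero ?_ ?_
    · intro h; rw [h, zero_re] at hs; exact lt_irrefl _ hs
    · intro h
      have := congrArg Complex.re h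
      simp at this
      linarith
  exact (d1.sub d2).div (differentiableAt_id.mul d0) hne

/-- **Partial sums from continuation with subpolynomial growth.** -/
theorem perron_bound {a : ℕ → ℂ} {G : ℂ → ℂ} {θ : ℝ} (hθ : 1 / 2 ≤ θ) (hθ1 : θ < 2)
    (ha : LSeriesSummable a ((2 : ℝ) : ℂ))
    (hG : ∀ s : ℂ, θ < s.re → DifferentiableAt ℂ G s)
    (hGa : ∀ y : ℝ, G (((2 : ℝ) : ℂ) + y * I) = LSeries a (((2 : ℝ) : ℂ) + y * I))
    (hb : ∀ σ : ℝ, θ < σ → ∀ η : ℝ, 0 < η → ∃ C : ℝ, ∀ s : ℂ, σ ≤ s.re → s.re ≤ 2 →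
      ‖G s‖ ≤ C * (1 + |s.im|) ^ η) {ε : ℝ} (hε : 0 < ε) :
    ∃ C : ℝ, ∀ N : ℕ, 1 ≤ N → ‖∑ n ∈ Finset.Icc 1 N, a n‖ ≤ C * (N : ℝ) ^ (θ + ε) := by
  set ε' : ℝ := min ε (min (2 - θ) 1) with hε'
  have hε'0 : 0 < ε' := lt_min hε (lt_min (by linarith) one_pos)
  have hε'1 : ε' ≤ ε := min_le_left _ _
  have hε'2 : ε' ≤ 2 - θ := (min_le_right _ _).trans (min_le_left _ _)
  have hε'3 : ε' ≤ 1 := (min_le_right _ _).trans (min_le_right _ _)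
  set σ : ℝ := θ + ε' / 2 with hσ
  set τ : ℝ := ε' / 2 with hτ
  have hτ0 : 0 < τ := by rw [hτ]; linarith
  have hτ1 : τ ≤ 1 := by rw [hτ]; linarith
  obtain ⟨C, hCb⟩ := hb σ (by rw [hσ]; linarith) (τ / 2) (by linarith)
  have hC : 0 ≤ C := by
    have h1 := hCb ((2 : ℝ) : ℂ) (by rw [ofReal_re, hσ]; linarith) (by rw [ofReal_re])
    have h2 := (norm_nonneg _).trans h1
    simpa using h2
  set J : ℝ := ∫ y : ℝ, (1 + |y|) ^ (-(1 + τ / 2)) with hJ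
  have hJnn : 0 ≤ J := integral_nonneg fun y ↦ by positivity
  refine ⟨18 * 2 ^ (θ + ε) * C * J, fun N hN ↦ ?_⟩
  have hN0 : (0 : ℝ) < N := by exact_mod_cast hN
  have hN1 : (1 : ℝ) ≤ N := by exact_mod_cast hN
  have hP := perron (c := 2) two_pos ha hN
  simp_rw [← hGa] at hP
  rw [hP]
  set Φ : ℂ → ℂ := fun s ↦ kern N s * G s with hΦ
  have hdiff : ∀ w : ℂ, σ ≤ w.re → w.re ≤ 2 → DifferentiableAt ℂ Φ w := by
    intro w hw _
    exact (kern_differentiableAt hN (by rw [hσ] at hw; linarith)).mul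
      (hG w (by rw [hσ] at hw; linarith))
  have hstrip : ∀ w : ℂ, σ ≤ w.re → w.re ≤ 2 →
      ‖Φ w‖ ≤ (18 * ((N : ℝ) + 1) ^ (3 : ℝ) * C) * (1 + |w.im|) ^ (-(2 - τ / 2)) := by
    intro w hw hw2
    have hpos : 0 < 1 + |w.im| := by linarith [abs_nonneg w.im]
    have b1 := norm_kern_le hN (s := w) (by rw [hσ] at hw; linarith) (τ := 1) zero_le_one le_rfl
    have b2 := hCb w hw hw2
    have b3 : ((N : ℝ) + 1) ^ (w.re + 1) ≤ ((N : ℝ) + 1) ^ (3 : ℝ) :=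
      Real.rpow_le_rpow_of_exponent_le (by linarith) (by linarith)
    rw [hΦ]
    simp only
    rw [norm_mul]
    calc ‖kern N w‖ * ‖G w‖ ≤ (18 * ((N : ℝ) + 1) ^ (3 : ℝ) * (1 + |w.im|) ^ (-(1 + 1 : ℝ))) *
          (C * (1 + |w.im|) ^ (τ / 2)) := by
          refine mul_le_mul (b1.trans ?_) b2 (norm_nonneg _) (by positivity)
          gcongr
      _ = (18 * ((N : ℝ) + 1) ^ (3 : ℝ) * C) *
          ((1 + |w.im|) ^ (-(1 + 1 : ℝ)) * (1 + |w.im|) ^ (τ / 2)) := by ring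
      _ = _ := by
        rw [← Real.rpow_add hpos]
        congr 2
        ring
  have hshift := vertical_shift (Φ := Φ) (l := σ) (u := 2) (by rw [hσ]; linarith) hdiff
    (p := 2 - τ / 2) (by linarith) hstrip
  have hshift' : ∫ y : ℝ, kern N (((2 : ℝ) : ℂ) + y * I) * G (((2 : ℝ) : ℂ) + y * I)
      = ∫ y : ℝ, Φ ((σ : ℂ) + y * I) := by rw [hshift]
  rw [hshift', norm_mul]
  have hline : ∀ y : ℝ, ‖Φ ((σ : ℂ) + y * I)‖ ≤
      (18 * 2 ^ (θ + ε) * C) * (N : ℝ) ^ (θ + ε) * (1 + |y|) ^ (-(1 + τ / 2)) := by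
    intro y
    set w : ℂ := (σ : ℂ) + y * I with hw
    have hwre : w.re = σ := by simp [hw]
    have hwim : w.im = y := by simp [hw]
    have hpos : 0 < 1 + |y| := by linarith [abs_nonneg y]
    have b1 := norm_kern_le hN (s := w) (by rw [hwre, hσ]; linarith) hτ0.le hτ1
    have b2 := hCb w hwre.ge (by rw [hwre, hσ]; linarith)
    rw [hwre, hwim] at b1
    rw [hwim] at b2
    have b3 : ((N : ℝ) + 1) ^ (σ + τ) ≤ 2 ^ (θ + ε) * (N : ℝ) ^ (θ + ε) := by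
      rw [← Real.mul_rpow (by norm_num) hN0.le]
      calc ((N : ℝ) + 1) ^ (σ + τ) ≤ (2 * (N : ℝ)) ^ (σ + τ) :=
            Real.rpow_le_rpow (by linarith) (by linarith) (by rw [hσ]; linarith)
        _ ≤ (2 * (N : ℝ)) ^ (θ + ε) :=
            Real.rpow_le_rpow_of_exponent_le (by linarith) (by rw [hσ, hτ]; linarith)
    show ‖kern N w * G w‖ ≤ _
    rw [norm_mul]
    calc ‖kern N w‖ * ‖G w‖ ≤ (18 * (2 ^ (θ + ε) * (N : ℝ) ^ (θ + ε)) * (1 + |y|) ^ (-(1 + τ))) *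
          (C * (1 + |y|) ^ (τ / 2)) := by
          refine mul_le_mul (b1.trans ?_) b2 (norm_nonneg _) (by positivity)
          gcongr
      _ = (18 * 2 ^ (θ + ε) * C) * (N : ℝ) ^ (θ + ε) *
          ((1 + |y|) ^ (-(1 + τ)) * (1 + |y|) ^ (τ / 2)) := by ring
      _ = _ := by
        rw [← Real.rpow_add hpos]
        congr 2
        ring
  have hint : ‖∫ y : ℝ, Φ ((σ : ℂ) + y * I)‖ ≤
      (18 * 2 ^ (θ + ε) * C) * (N : ℝ) ^ (θ + ε) * J := by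
    rw [hJ, ← integral_const_mul]
    exact norm_integral_le_of_norm_le
      ((integrable_one_add_abs_rpow (by linarith)).const_mul _) (Eventually.of_forall hline)
  have hpi : ‖(1 / (2 * Real.pi) : ℂ)‖ ≤ 1 := by
    rw [norm_div, norm_one, norm_mul, norm_real, Real.norm_of_nonneg Real.pi_pos.le]
    simp only [Complex.norm_ofNat]
    rw [div_le_one (by positivity)]
    linarith [Real.pi_gt_three]
  calc ‖(1 / (2 * Real.pi) : ℂ)‖ * ‖∫ y : ℝ, Φ ((σ : ℂ) + y * I)‖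
      ≤ 1 * ((18 * 2 ^ (θ + ε) * C) * (N : ℝ) ^ (θ + ε) * J) := by
        apply mul_le_mul hpi hint (norm_nonneg _) zero_le_one
    _ = _ := by ring

end Pool.Agent.H6
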