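import Mathlib
import Pool.Agent.H6.PerronBound
import Pool.Agent.H6.InvBound
import Pool.Agent.H6.LamMellin

/-!
`ψ(N) = N + O(N ^ (θ + ε))` if `ζ` has no zeros in `re s > θ`.
-/

open Complex Filter Topology MeasureTheory Set LSeries Metric
open scoped ArithmeticFunction.vonMangoldt

namespace Pool.Agent.H6

/-- `-ζ'/ζ - ζ`, continued -/
noncomputable def psiG (s : ℂ) : ℂ := - deriv zetaPole s / zetaPole s - dslope zetaPole 1 s

lemma zetaPole_ne_zero_of {θ : ℝ} (hZ : ∀ s : ℂ, θ < s.re → riemannZeta s ≠ 0) :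
    ∀ s : ℂ, θ < s.re → zetaPole s ≠ 0 := by
  intro s hs
  rcases eq_or_ne s 1 with rfl | h1
  · rw [zetaPole_one]; exact one_ne_zero
  · rw [zetaPole_of_ne h1]
    exact mul_ne_zero (sub_ne_zero.mpr h1) (hZ s hs)

lemma psiG_eq {s : ℂ} (hs : s ≠ 1) (hz : riemannZeta s ≠ 0) :
    psiG s = - (deriv riemannZeta s / riemannZeta s) - riemannZeta s := by
  have h2 : zetaPole =ᶠ[𝓝 s] fun s ↦ (s - 1) * riemannZeta s := by
    filter_upwards [isOpen_ne.mem_nhds hs] with z hz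
    exact zetaPole_of_ne hz
  have h3 : HasDerivAt (fun s ↦ (s - 1) * riemannZeta s)
      (1 * riemannZeta s + (s - 1) * deriv riemannZeta s) s :=
    ((hasDerivAt_id s).sub_const 1).mul (differentiableAt_riemannZeta hs).hasDerivAt
  rw [psiG, h2.deriv_eq, h3.deriv, dslope_of_ne _ hs, slope_def_field, zetaPole_one,
    zetaPole_of_ne hs]
  have h6 : s - 1 ≠ 0 := sub_ne_zero.mpr hs
  field_simp
  ring

lemma psiG_differentiableAt {θ : ℝ} (hZ : ∀ s : ℂ, θ < s.re → riemannZeta s ≠ 0) {s : ℂ}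
    (hs : θ < s.re) : DifferentiableAt ℂ psiG s := by
  have h1 := zetaPole_ne_zero_of hZ s hs
  have h2 : DifferentiableAt ℂ (deriv zetaPole) s :=
    ((zetaPole_differentiable.analyticAt s).deriv).differentiableAt
  have h3 : DifferentiableAt ℂ (dslope zetaPole 1) s := by
    have := (differentiableOn_dslope (univ_mem : (univ : Set ℂ) ∈ 𝓝 (1 : ℂ))).mpr
      zetaPole_differentiable.differentiableOn
    exact this.differentiableAt univ_mem
  exact (h2.neg.div (zetaPole_differentiable s) h1).sub h3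

lemma psiG_bound {θ : ℝ} (hθ : 1 / 2 ≤ θ) (hθ1 : θ < 1)
    (hZ : ∀ s : ℂ, θ < s.re → riemannZeta s ≠ 0) {σ : ℝ} (hσ : θ < σ) {η : ℝ} (hη : 0 < η) :
    ∃ C : ℝ, ∀ s : ℂ, σ ≤ s.re → s.re ≤ 2 → ‖psiG s‖ ≤ C * (1 + |s.im|) ^ η := by
  set σ₁ : ℝ := min σ 1 with hσ₁
  have hσ₁1 : σ₁ ≤ 1 := min_le_right _ _
  have hσ₁θ : θ < σ₁ := lt_min hσ hθ1
  set σ' : ℝ := (θ + σ₁) / 2 with hσ'
  have hσ'1 : σ' ≤ 1 := by rw [hσ']; linarith
  have hσ'θ : θ < σ' := by rw [hσ']; linarith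
  have hσ'σ : σ' < σ₁ := by rw [hσ']; linarith
  obtain ⟨K, a, hK, ha, ha1, hL⟩ := log_bound hθ hθ1 hZ hσ'θ hσ'1
  obtain ⟨T, hT2, hT⟩ := eventually_log_le (K := K) (a := a) hη ha1
  set r : ℝ := σ₁ - σ' with hr
  have hr0 : 0 < r := by rw [hr]; linarith
  have hcompact : IsCompact (Icc σ₁ 2 ×ℂ Icc (-T) T) := isCompact_Icc.reProdIm isCompact_Icc
  have hcont : ContinuousOn psiG (Icc σ₁ 2 ×ℂ Icc (-T) T) := by
    intro s hs
    have h1 : θ < s.re := lt_of_lt_of_le hσ₁θ (mem_reProdIm.mp hs).1.1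
    exact (psiG_differentiableAt hZ h1).continuousAt.continuousWithinAt
  obtain ⟨M, hM⟩ := hcompact.exists_bound_of_continuousOn hcont
  refine ⟨max M (1 / r + 1), fun s hs hs2 ↦ ?_⟩
  have hσs : σ₁ ≤ s.re := (min_le_left _ _).trans hs
  have hbase : (1 : ℝ) ≤ 1 + |s.im| := by linarith [abs_nonneg s.im]
  have hone : (1 : ℝ) ≤ (1 + |s.im|) ^ η := Real.one_le_rpow hbase hη.le
  rcases le_or_gt |s.im| T with hsm | hlg
  · have h1 := hM s (mem_reProdIm.mpr ⟨⟨hσs, hs2⟩, abs_le.mp hsm⟩)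
    refine h1.trans ((le_max_left M (1 / r + 1)).trans ?_)
    have h3 : 0 ≤ max M (1 / r + 1) := le_trans (by positivity) (le_max_right _ _)
    nlinarith
  · have ht2 : 2 ≤ |s.im| := by linarith
    have htpos : 0 < |s.im| := by linarith
    obtain ⟨L, hLd, hLe, hLb⟩ := hL s.im ht2
    obtain ⟨h1, h2⟩ := mem_ball_of_strip hσ₁θ hσs hs2
    have h4 := hT |s.im| hlg.le
    have hs1 : s ≠ 1 := by
      intro h
      rw [h, one_im, abs_zero] at ht2
      linarith
    have hmono : |s.im| ^ η ≤ (1 + |s.im|) ^ η :=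
      Real.rpow_le_rpow (abs_nonneg _) (by linarith) hη.le
    -- the value of zeta
    have h6 : ‖riemannZeta s‖ ≤ |s.im| ^ η := by
      rw [← hLe s h2, Complex.norm_exp]
      have h7 : (L s).re ≤ ‖L s‖ := re_le_norm _
      have h8 := hLb s (h1.trans (by linarith))
      rw [Real.rpow_def_of_pos htpos]
      apply Real.exp_le_exp.mpr
      linarith
    -- the logarithmic derivative
    have h9 : ‖deriv riemannZeta s / riemannZeta s‖ ≤ |s.im| ^ η / r := by
      rw [← (hLd s h2).deriv]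
      have hsub : closedBall s r ⊆ closedBall (cen s.im) (2 - σ') := by
        intro z hz
        rw [mem_closedBall, dist_eq_norm] at hz ⊢
        have : z - cen s.im = (z - s) + (s - cen s.im) := by ring
        rw [this]
        refine (norm_add_le _ _).trans ?_
        rw [hr] at hz
        linarith
      have hsub2 : closedBall (cen s.im) (2 - σ') ⊆ ball (cen s.im) (2 - θ) :=
        closedBall_subset_ball (by linarith)
      have hbig : ∀ z ∈ closedBall s r, ‖L z‖ ≤ |s.im| ^ η := by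
        intro z hz
        have h10 := hsub hz
        rw [mem_closedBall, dist_eq_norm] at h10
        have h11 := hLb z h10
        have h12 : Real.log |s.im| ≤ |s.im| ^ η / η := Real.log_le_rpow_div htpos.le hη
        rw [le_div_iff₀ hη] at h12
        linarith
      refine Complex.norm_deriv_le_of_forall_mem_sphere_norm_le hr0 ?_
        (fun z hz ↦ hbig z (sphere_subset_closedBall hz))
      refine DifferentiableOn.diffContOnCl ?_
      rw [closure_ball _ hr0.ne']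
      exact fun z hz ↦ (hLd z (hsub2 (hsub hz))).differentiableAt.differentiableWithinAt
    rw [psiG_eq hs1 (hZ s (lt_of_lt_of_le hσ₁θ hσs))]
    calc ‖- (deriv riemannZeta s / riemannZeta s) - riemannZeta s‖
        ≤ ‖deriv riemannZeta s / riemannZeta s‖ + ‖riemannZeta s‖ := by
          refine (norm_sub_le _ _).trans ?_
          rw [norm_neg]
      _ ≤ |s.im| ^ η / r + |s.im| ^ η := add_le_add h9 h6
      _ = (1 / r + 1) * |s.im| ^ η := by ring
      _ ≤ max M (1 / r + 1) * (1 + |s.im|) ^ η := by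
          gcongr
          exact le_max_right _ _

/-- **`ψ(N) = N + O(N ^ (θ + ε))`.** -/
theorem psi_bound {θ : ℝ} (hθ : 1 / 2 ≤ θ) (hθ1 : θ < 1)
    (hZ : ∀ s : ℂ, θ < s.re → riemannZeta s ≠ 0) {ε : ℝ} (hε : 0 < ε) :
    ∃ C : ℝ, ∀ N : ℕ, 1 ≤ N → |∑ n ∈ Finset.Icc 1 N, Λ n - N| ≤ C * (N : ℝ) ^ (θ + ε) := by
  have hsum1 : ∀ s : ℂ, 1 < s.re → LSeriesSummable (fun n ↦ ((Λ n : ℝ) : ℂ)) s := fun s hs ↦
    ArithmeticFunction.LSeriesSummable_vonMangoldt hs
  have hsum2 : ∀ s : ℂ, 1 < s.re → LSeriesSummable (1 : ℕ → ℂ) s := fun s hs ↦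
    LSeriesSummable_one_iff.mpr hs
  have hval : ∀ s : ℂ, 1 < s.re → psiG s
      = LSeries ((fun n ↦ ((Λ n : ℝ) : ℂ)) - (1 : ℕ → ℂ)) s := by
    intro s hs
    have hs1 : s ≠ 1 := by intro h; rw [h, one_re] at hs; exact lt_irrefl _ hs
    rw [LSeries_sub (hsum1 s hs) (hsum2 s hs), LSeries_one_eq_riemannZeta hs,
      psiG_eq hs1 (riemannZeta_ne_zero_of_one_lt_re hs)]
    have h4 : LSeries (fun n ↦ ((Λ n : ℝ) : ℂ)) s = - deriv riemannZeta s / riemannZeta s :=
      ArithmeticFunction.LSeries_vonMangoldt_eq_deriv_riemannZeta_div hs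
    rw [h4, neg_div]
  obtain ⟨C, hC⟩ := perron_bound (a := (fun n ↦ ((Λ n : ℝ) : ℂ)) - (1 : ℕ → ℂ)) (G := psiG)
    hθ (by linarith) ((hsum1 _ (by simp)).sub (hsum2 _ (by simp)))
    (fun s hs ↦ psiG_differentiableAt hZ hs) (fun y ↦ hval _ (by simp))
    (fun σ hσ η hη ↦ psiG_bound hθ hθ1 hZ hσ hη) hε
  refine ⟨C, fun N hN ↦ ?_⟩
  have h := hC N hN
  have h2 : ∑ n ∈ Finset.Icc 1 N, ((fun n ↦ ((Λ n : ℝ) : ℂ)) - (1 : ℕ → ℂ)) n
      = ((∑ n ∈ Finset.Icc 1 N, Λ n - N : ℝ) : ℂ) := by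
    simp only [Pi.sub_apply, Pi.one_apply, Finset.sum_sub_distrib, Finset.sum_const,
      Nat.card_Icc, add_tsub_cancel_right, nsmul_eq_mul, mul_one]
    push_cast
    rfl
  rw [h2, norm_real, Real.norm_eq_abs] at h
  exact h

end Pool.Agent.H6
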