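import Mathlib
import Pool.Agent.H6.AddConv
import Pool.Agent.H6.PsiBound

/-!
Sums of `k` primes and one element of an arbitrary weighted set, on average.
-/

open Filter Topology Set PowerSeries
open scoped ArithmeticFunction.vonMangoldt

namespace Pool.Agent.H6

/-! ### From one-sided bounds to a zero-free half-plane -/

lemma one_add_pow_le (k : ℕ) {y : ℝ} (hy : 0 ≤ y) (hy1 : y ≤ 1) : (1 + y) ^ k ≤ 1 + 3 ^ k * y := by
  induction k with
  | zero => simp; exact hy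
  | succ k ih =>
    have h3 : (1 : ℝ) ≤ 3 ^ k := one_le_pow₀ (by norm_num)
    calc (1 + y) ^ (k + 1) = (1 + y) ^ k * (1 + y) := pow_succ _ _
      _ ≤ (1 + 3 ^ k * y) * (1 + y) := by gcongr
      _ = 1 + y + 3 ^ k * y + 3 ^ k * (y * y) := by ring
      _ ≤ 1 + y + 3 ^ k * y + 3 ^ k * (y * 1) := by gcongr
      _ ≤ 1 + 3 ^ (k + 1) * y := by
        rw [pow_succ]
        nlinarith

lemma zeroFree_of_oneSided {a : PowerSeries ℝ} (ha : ∀ n, 0 ≤ coeff n a) {m₀ : ℕ}
    (hm₀ : 0 < coeff m₀ a) {CB : ℝ} {K : ℕ}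
    (hK : ∀ n : ℕ, coeff n (a * U) ≤ CB * ((n : ℝ) + 1) ^ K) {k : ℕ} (hk : 1 ≤ k)
    {θ : ℝ} (hθ1 : θ < 1) (hθ0 : 0 ≤ θ) {σ : ℝ} (hσ : σ = 1 ∨ σ = -1)
    (h : ∀ ε : ℝ, 0 < ε → ∃ C : ℝ, ∀ N : ℕ,
      σ * (coeff N (a * P ^ k * U) - coeff N (a * U ^ (k + 1))) ≤
        C * ((N : ℝ) + 1) ^ ((k : ℝ) - 1 + θ + ε) * coeff N (a * U)) :
    ∀ s : ℂ, θ < s.re → riemannZeta s ≠ 0 := by
  intro s hs
  set ε : ℝ := min ((s.re - θ) / 4) ((1 - θ) / 4) with hε
  have hε0 : 0 < ε := lt_min (by linarith) (by linarith)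
  have hε1 : ε ≤ (s.re - θ) / 4 := min_le_left _ _
  have hε2 : ε ≤ (1 - θ) / 4 := min_le_right _ _
  obtain ⟨C, hC⟩ := h ε hε0
  set γ : ℝ := (k : ℝ) - 1 + θ + ε with hγ
  have hk1 : (1 : ℝ) ≤ k := by exact_mod_cast hk
  have hγ0 : 0 ≤ γ := by rw [hγ]; linarith
  set b : PowerSeries ℝ := a * U with hb
  have hb0 : ∀ n, 0 ≤ coeff n b := coeff_mul_nonneg ha coeff_U_nonneg
  have hbm : 0 < coeff m₀ b := by
    rw [hb, coeff_mul_U]
    exact lt_of_lt_of_le hm₀ (Finset.single_le_sum (fun n _ ↦ ha n)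
      (Finset.mem_range.mpr (Nat.lt_succ_self m₀)))
  obtain ⟨C', hC', hE⟩ := exists_error_bound hb0 hK hbm hγ0 hε0
  set δ : ℝ := 1 - θ - 2 * ε with hδ
  have hδ0 : 0 < δ := by rw [hδ]; linarith
  have hδ1 : δ ≤ 1 := by rw [hδ]; linarith
  set D : ℝ := max C 0 * C' with hD
  have hD0 : 0 ≤ D := by positivity
  -- the key inequality
  have key : ∀ y : ℝ, 0 < y → y ≤ 1 →
      σ * ((y * lamExp y) ^ k - (y * evp U y) ^ k) ≤ D * y ^ δ := by
    intro y hy hy1
    have haS : Sev a y := by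
      refine Sev_of_bound (C := CB) (K := K) (fun n ↦ ?_) hy
      rw [abs_of_nonneg (ha n)]
      refine le_trans ?_ (hK n)
      rw [coeff_mul_U]
      exact Finset.single_le_sum (fun n _ ↦ ha n) (Finset.mem_range.mpr (Nat.lt_succ_self n))
    have hPS := Sev_P hy
    have hUS := Sev_U hy
    obtain ⟨hES, hEb⟩ := hE y hy hy1
    have e1 : evp (a * P ^ k * U) y = evp b y * lamExp y ^ k := by
      rw [evp_mul (haS.mul (hPS.pow k)) hUS, evp_mul haS (hPS.pow k), evp_pow hPS, evp_P, hb,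
        evp_mul haS hUS]
      ring
    have e2 : evp (a * U ^ (k + 1)) y = evp b y * evp U y ^ k := by
      rw [evp_mul haS (hUS.pow _), evp_pow hUS, hb, evp_mul haS hUS]
      ring
    have hbpos : 0 < evp b y := by
      have hSb : Sev b y := haS.mul hUS
      have h1 : coeff m₀ b * Real.exp (-(m₀ * y)) ≤ evp b y :=
        hSb.of_norm.le_tsum m₀ fun n _ ↦ mul_nonneg (hb0 n) (Real.exp_pos _).le
      exact lt_of_lt_of_le (by positivity) h1
    have e3 : σ * (evp (a * P ^ k * U) y - evp (a * U ^ (k + 1)) y) ≤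
        max C 0 * evp (PowerSeries.mk fun n : ℕ ↦ ((n : ℝ) + 1) ^ γ * coeff n b) y := by
      have s1 := (haS.mul (hPS.pow k)).mul hUS
      have s2 := haS.mul (hUS.pow (k + 1))
      unfold evp
      rw [← s1.of_norm.tsum_sub s2.of_norm, ← tsum_mul_left, ← tsum_mul_left]
      refine Summable.tsum_le_tsum (fun n ↦ ?_) ((s1.of_norm.sub s2.of_norm).mul_left _)
        (hES.of_norm.mul_left _)
      rw [coeff_mk]
      have h2 := hC n
      have h3 : C * ((n : ℝ) + 1) ^ γ * coeff n (a * U) ≤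
          max C 0 * (((n : ℝ) + 1) ^ γ * coeff n b) := by
        rw [← hb, mul_assoc]
        have := hb0 n
        have h4 : 0 ≤ ((n : ℝ) + 1) ^ γ * coeff n b := by positivity
        exact mul_le_mul_of_nonneg_right (le_max_left _ _) h4
      calc σ * (coeff n (a * P ^ k * U) * Real.exp (-(n * y)) -
            coeff n (a * U ^ (k + 1)) * Real.exp (-(n * y)))
          = (σ * (coeff n (a * P ^ k * U) - coeff n (a * U ^ (k + 1)))) * Real.exp (-(n * y)) := by
            ring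
        _ ≤ (max C 0 * (((n : ℝ) + 1) ^ γ * coeff n b)) * Real.exp (-(n * y)) := by
            exact mul_le_mul_of_nonneg_right (h2.trans h3) (Real.exp_pos _).le
        _ = _ := by ring
    rw [e1, e2] at e3
    have e4 : evp b y * (σ * (lamExp y ^ k - evp U y ^ k)) ≤
        evp b y * (D * y ^ (-γ - ε)) := by
      calc evp b y * (σ * (lamExp y ^ k - evp U y ^ k))
          = σ * (evp b y * lamExp y ^ k - evp b y * evp U y ^ k) := by ring
        _ ≤ max C 0 * evp (PowerSeries.mk fun n : ℕ ↦ ((n : ℝ) + 1) ^ γ * coeff n b) y := e3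
        _ ≤ max C 0 * (C' * y ^ (-γ - ε) * evp b y) := by gcongr
        _ = _ := by rw [hD]; ring
    have e5 := le_of_mul_le_mul_left e4 hbpos
    calc σ * ((y * lamExp y) ^ k - (y * evp U y) ^ k)
        = y ^ k * (σ * (lamExp y ^ k - evp U y ^ k)) := by rw [mul_pow, mul_pow]; ring
      _ ≤ y ^ k * (D * y ^ (-γ - ε)) := by gcongr
      _ = D * (y ^ (k : ℝ) * y ^ (-γ - ε)) := by rw [Real.rpow_natCast]; ring
      _ = D * y ^ δ := by
        rw [← Real.rpow_add hy]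
        congr 2
        rw [hγ, hδ]; ring
  -- conclusion
  have hcmp : ∀ y ∈ Ioc (0 : ℝ) 1, 0 ≤ cmp σ (3 ^ k + D) δ y := by
    rintro y ⟨hy, hy1⟩
    have hyδ : y ≤ y ^ δ := by
      calc y = y ^ (1 : ℝ) := (Real.rpow_one y).symm
        _ ≤ y ^ δ := Real.rpow_le_rpow_of_exponent_ge hy hy1 hδ1
    have hyδ0 : 0 ≤ y ^ δ := by positivity
    have hk' := key y hy hy1
    have hF0 : 0 ≤ y * lamExp y := mul_nonneg hy.le (lamExp_nonneg y)
    have hmain : 0 ≤ σ * (1 - y * lamExp y) + (3 ^ k + D) * y ^ δ := by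
      rcases hσ with h1 | h1
      · rw [h1, one_mul] at hk' ⊢
        by_contra hcon
        rw [not_le] at hcon
        have h2 : 1 + (3 ^ k + D) * y ^ δ < y * lamExp y := by linarith
        have h3 : 1 ≤ y * lamExp y := by
          have : 0 ≤ (3 ^ k + D) * y ^ δ := by positivity
          linarith
        have h4 : y * lamExp y ≤ (y * lamExp y) ^ k := le_self_pow₀ h3 (by omega)
        have h5 : (y * evp U y) ^ k ≤ (1 + y) ^ k := by
          have := mul_evp_U_le hy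
          have h6 := one_le_mul_evp_U hy
          gcongr
        have h7 := one_add_pow_le k hy.le hy1
        have h8 : (3 : ℝ) ^ k * y ≤ 3 ^ k * y ^ δ := by gcongr
        nlinarith
      · rw [h1] at hk' ⊢
        by_contra hcon
        rw [not_le] at hcon
        have h2 : y * lamExp y < 1 - (3 ^ k + D) * y ^ δ := by linarith
        have h3 : y * lamExp y ≤ 1 := by
          have : 0 ≤ (3 ^ k + D) * y ^ δ := by positivity
          linarith
        have h4 : (y * lamExp y) ^ k ≤ y * lamExp y := pow_le_of_le_one hF0 h3 (by omega)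
        have h5 : 1 ≤ (y * evp U y) ^ k := one_le_pow₀ (one_le_mul_evp_U hy)
        have h8 : 0 ≤ (3 : ℝ) ^ k * y ^ δ := by positivity
        nlinarith
    have hrew : cmp σ (3 ^ k + D) δ y =
        y ^ (-1 : ℝ) * (σ * (1 - y * lamExp y) + (3 ^ k + D) * y ^ δ) := by
      unfold cmp
      rw [Real.rpow_sub hy, Real.rpow_one, Real.rpow_neg_one]
      field_simp
    rw [hrew]
    positivity
  have hz := zeta_ne_zero_of_lamExp hσ hδ0 hδ1 hcmp s (by rw [hδ]; linarith)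
  rcases eq_or_ne s 1 with rfl | hs1
  · exact riemannZeta_one_ne_zero
  · rw [zetaPole_of_ne hs1] at hz
    exact right_ne_zero_of_mul hz

/-! ### From a zero-free half-plane to two-sided bounds -/

lemma abs_coeff_mul_le {p q : PowerSeries ℝ} (hp : ∀ n, 0 ≤ coeff n p) {C γ : ℝ} (hC : 0 ≤ C)
    (hγ : 0 ≤ γ) (hq : ∀ n : ℕ, |coeff n q| ≤ C * ((n : ℝ) + 1) ^ γ) (N : ℕ) :
    |coeff N (p * q)| ≤ C * ((N : ℝ) + 1) ^ γ * coeff N (p * U) := by
  rw [coeff_mul, coeff_mul, Finset.mul_sum]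
  refine (Finset.abs_sum_le_sum_abs _ _).trans (Finset.sum_le_sum fun kl hkl ↦ ?_)
  rw [Finset.HasAntidiagonal.mem_antidiagonal] at hkl
  rw [abs_mul, abs_of_nonneg (hp _), U, coeff_mk, mul_one]
  have h1 : ((kl.2 : ℝ) + 1) ^ γ ≤ ((N : ℝ) + 1) ^ γ := by
    apply Real.rpow_le_rpow (by positivity) _ hγ
    have : (kl.2 : ℝ) ≤ N := by exact_mod_cast (by omega : kl.2 ≤ N)
    linarith
  have h2 := hp kl.1
  calc coeff kl.1 p * |coeff kl.2 q| ≤ coeff kl.1 p * (C * ((kl.2 : ℝ) + 1) ^ γ) := by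
        gcongr
        exact hq _
    _ ≤ coeff kl.1 p * (C * ((N : ℝ) + 1) ^ γ) := by gcongr
    _ = _ := by ring

lemma pow_bound {θ : ℝ} (hθ : 1 / 2 ≤ θ) (hθ1 : θ < 1)
    (hZ : ∀ s : ℂ, θ < s.re → riemannZeta s ≠ 0) {ε : ℝ} (hε : 0 < ε) (k : ℕ) :
    ∃ C : ℝ, 0 ≤ C ∧ ∀ N : ℕ, |coeff N (P ^ (k + 1) * U - U ^ (k + 2))| ≤
      C * ((N : ℝ) + 1) ^ ((k : ℝ) + θ + ε) := by
  wlog hε1 : θ + ε ≤ 1 generalizing ε
  · obtain ⟨C, hC, h⟩ := this (ε := 1 - θ) (by linarith) (by linarith)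
    refine ⟨C, hC, fun N ↦ (h N).trans ?_⟩
    gcongr
    · have : (0 : ℝ) ≤ N := Nat.cast_nonneg N
      linarith
    · linarith
  induction k with
  | zero =>
    obtain ⟨C, hC⟩ := psi_bound hθ hθ1 hZ hε
    refine ⟨max C 0 + 1, by positivity, fun N ↦ ?_⟩
    have h1 : coeff N (P ^ (0 + 1) * U - U ^ (0 + 2)) = (∑ n ∈ Finset.Icc 1 N, Λ n - N) - 1 := by
      rw [map_sub, zero_add, pow_one, coeff_mul_U, coeff_U_pow 1 N, Nat.choose_one_right]
      have h2 : ∑ n ∈ Finset.range (N + 1), coeff n P = ∑ n ∈ Finset.Icc 1 N, Λ n := by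
        rw [Finset.range_eq_Ico, Finset.sum_eq_sum_Ico_succ_bot (by omega)]
        simp only [P, coeff_mk, ArithmeticFunction.map_zero, zero_add]
        rfl
      rw [h2]
      push_cast
      ring
    rw [h1]
    have h3 : (1 : ℝ) ≤ ((N : ℝ) + 1) ^ (((0 : ℕ) : ℝ) + θ + ε) := by
      apply Real.one_le_rpow
      · have : (0 : ℝ) ≤ N := Nat.cast_nonneg N
        linarith
      · push_cast; linarith
    rcases Nat.eq_zero_or_pos N with rfl | hN
    · simp
    · have h4 := hC N hN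
      have h5 : (N : ℝ) ^ (θ + ε) ≤ ((N : ℝ) + 1) ^ (((0 : ℕ) : ℝ) + θ + ε) := by
        push_cast
        rw [zero_add]
        apply Real.rpow_le_rpow (Nat.cast_nonneg N) (by linarith) (by linarith)
      calc |(∑ n ∈ Finset.Icc 1 N, Λ n - N) - 1| ≤ |∑ n ∈ Finset.Icc 1 N, Λ n - N| + |1| :=
            abs_sub _ _
        _ ≤ C * (N : ℝ) ^ (θ + ε) + 1 := by rw [abs_one]; linarith
        _ ≤ max C 0 * ((N : ℝ) + 1) ^ (((0 : ℕ) : ℝ) + θ + ε) +
            1 * ((N : ℝ) + 1) ^ (((0 : ℕ) : ℝ) + θ + ε) := by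
            have h6 : 0 ≤ (N : ℝ) ^ (θ + ε) := by positivity
            have h7 : C * (N : ℝ) ^ (θ + ε) ≤ max C 0 * (N : ℝ) ^ (θ + ε) := by
              gcongr
              exact le_max_left _ _
            have h8 : max C 0 * (N : ℝ) ^ (θ + ε) ≤
                max C 0 * ((N : ℝ) + 1) ^ (((0 : ℕ) : ℝ) + θ + ε) := by gcongr
            linarith
        _ = _ := by ring
  | succ k ih =>
    obtain ⟨C₁, hC₁0, hC₁⟩ := ih
    obtain ⟨C₀, hC₀0, hC₀⟩ : ∃ C : ℝ, 0 ≤ C ∧ ∀ N : ℕ, |coeff N (P * U - U ^ 2)| ≤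
        C * ((N : ℝ) + 1) ^ (θ + ε) := by
      obtain ⟨C, hC⟩ := psi_bound hθ hθ1 hZ hε
      refine ⟨max C 0 + 1, by positivity, fun N ↦ ?_⟩
      have h1 : coeff N (P * U - U ^ 2) = (∑ n ∈ Finset.Icc 1 N, Λ n - N) - 1 := by
        rw [map_sub, coeff_mul_U, coeff_U_pow 1 N, Nat.choose_one_right]
        have h2 : ∑ n ∈ Finset.range (N + 1), coeff n P = ∑ n ∈ Finset.Icc 1 N, Λ n := by
          rw [Finset.range_eq_Ico, Finset.sum_eq_sum_Ico_succ_bot (by omega)]
          simp only [P, coeff_mk, ArithmeticFunction.map_zero, zero_add]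
          rfl
        rw [h2]
        push_cast
        ring
      rw [h1]
      have h3 : (1 : ℝ) ≤ ((N : ℝ) + 1) ^ (θ + ε) := by
        apply Real.one_le_rpow
        · have : (0 : ℝ) ≤ N := Nat.cast_nonneg N
          linarith
        · linarith
      rcases Nat.eq_zero_or_pos N with rfl | hN
      · simp
      · have h4 := hC N hN
        have h5 : (N : ℝ) ^ (θ + ε) ≤ ((N : ℝ) + 1) ^ (θ + ε) := by
          apply Real.rpow_le_rpow (Nat.cast_nonneg N) (by linarith) (by linarith)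
        calc |(∑ n ∈ Finset.Icc 1 N, Λ n - N) - 1| ≤ |∑ n ∈ Finset.Icc 1 N, Λ n - N| + |1| :=
              abs_sub _ _
          _ ≤ C * (N : ℝ) ^ (θ + ε) + 1 := by rw [abs_one]; linarith
          _ ≤ max C 0 * ((N : ℝ) + 1) ^ (θ + ε) + 1 * ((N : ℝ) + 1) ^ (θ + ε) := by
              have h6 : 0 ≤ (N : ℝ) ^ (θ + ε) := by positivity
              have h7 : C * (N : ℝ) ^ (θ + ε) ≤ max C 0 * (N : ℝ) ^ (θ + ε) := by
                gcongr
                exact le_max_left _ _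
              have h8 : max C 0 * (N : ℝ) ^ (θ + ε) ≤ max C 0 * ((N : ℝ) + 1) ^ (θ + ε) := by gcongr
              linarith
          _ = _ := by ring
    -- decomposition
    have hdec : P ^ (k + 1 + 1) * U - U ^ (k + 1 + 2)
        = P ^ (k + 1) * (P * U - U ^ 2) + U * (P ^ (k + 1) * U - U ^ (k + 2)) := by ring
    set M : ℝ := 1 with hM
    refine ⟨C₀ * (2 ^ (k + 2) + C₁) + C₁, by positivity, fun N ↦ ?_⟩
    have hN0 : (0 : ℝ) ≤ N := Nat.cast_nonneg N
    have hN1 : (1 : ℝ) ≤ (N : ℝ) + 1 := by linarith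
    have hNp : (0 : ℝ) < (N : ℝ) + 1 := by linarith
    rw [hdec, map_add]
    have b1 := abs_coeff_mul_le (p := P ^ (k + 1)) (coeff_pow_nonneg coeff_P_nonneg _) hC₀0
      (by linarith : (0:ℝ) ≤ θ + ε) hC₀ N
    have b2 := abs_coeff_mul_le (p := U) coeff_U_nonneg hC₁0
      (by positivity : (0:ℝ) ≤ (k : ℝ) + θ + ε) hC₁ N
    have b3 : coeff N (U * U) = (N : ℝ) + 1 := by
      rw [← pow_two, coeff_U_pow 1 N, Nat.choose_one_right]; push_cast; ring
    rw [b3] at b2
    have b4 : coeff N (P ^ (k + 1) * U) ≤ (2 ^ (k + 2) + C₁) * ((N : ℝ) + 1) ^ ((k : ℝ) + 1) := by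
      have h1 : coeff N (P ^ (k + 1) * U) = coeff N (U ^ (k + 2)) +
          coeff N (P ^ (k + 1) * U - U ^ (k + 2)) := by rw [map_sub]; ring
      have h2 : coeff N (U ^ (k + 2)) ≤ 2 ^ (k + 2) * ((N : ℝ) + 1) ^ ((k : ℝ) + 1) := by
        rw [show k + 2 = (k + 1) + 1 from rfl, coeff_U_pow (k + 1) N]
        have h3 : (Nat.choose (k + 1 + N) (k + 1) : ℝ) ≤ ((N : ℝ) + 1) ^ (k + 1) *
            2 ^ (k + 1) := by
          have h4 : Nat.choose (k + 1 + N) (k + 1) ≤ (N + 1) ^ (k + 1) * 2 ^ (k + 1) := by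
            clear * -
            induction k with
            | zero =>
              simp
              omega
            | succ k ih =>
              have h5 := Nat.add_one_mul_choose_eq (k + 1 + N) (k + 1)
              -- (k+2+N) * C(k+1+N, k+1) = C(k+2+N, k+2) * (k+2)
              have h6 : (k + 1 + 1 + N).choose (k + 1 + 1) * (k + 2) ≤
                  ((N + 1) ^ (k + 1 + 1) * 2 ^ (k + 1 + 1)) * (k + 2) := by
                have e : k + 1 + N + 1 = k + 1 + 1 + N := by omega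
                rw [e] at h5
                rw [show k + 2 = k + 1 + 1 from rfl, ← h5]
                calc (k + 1 + 1 + N) * (k + 1 + N).choose (k + 1)
                    ≤ ((k + 1 + 1) * (2 * (N + 1))) * ((N + 1) ^ (k + 1) * 2 ^ (k + 1)) := by
                      apply Nat.mul_le_mul _ ih
                      nlinarith
                  _ = _ := by ring
              exact Nat.le_of_mul_le_mul_right h6 (by omega)
          exact_mod_cast h4
        calc (Nat.choose (k + 1 + N) (k + 1) : ℝ) ≤ ((N : ℝ) + 1) ^ (k + 1) * 2 ^ (k + 1) := h3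
          _ ≤ ((N : ℝ) + 1) ^ (k + 1) * 2 ^ (k + 2) := by
            gcongr
            · norm_num
            · omega
          _ = 2 ^ (k + 2) * ((N : ℝ) + 1) ^ ((k : ℝ) + 1) := by
            have : ((N : ℝ) + 1) ^ ((k : ℝ) + 1) = ((N : ℝ) + 1) ^ (k + 1) := by
              rw [← Real.rpow_natCast]; push_cast; rfl
            rw [this]; ring
      have h7 : coeff N (P ^ (k + 1) * U - U ^ (k + 2)) ≤ C₁ * ((N : ℝ) + 1) ^ ((k : ℝ) + 1) := by
        refine (le_abs_self _).trans ((hC₁ N).trans ?_)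
        exact mul_le_mul_of_nonneg_left
          (Real.rpow_le_rpow_of_exponent_le hN1 (by linarith)) hC₁0
      rw [h1]
      linarith
    have b5 : C₀ * ((N : ℝ) + 1) ^ (θ + ε) * coeff N (P ^ (k + 1) * U) ≤
        C₀ * (2 ^ (k + 2) + C₁) * ((N : ℝ) + 1) ^ (((k + 1 : ℕ) : ℝ) + θ + ε) := by
      calc C₀ * ((N : ℝ) + 1) ^ (θ + ε) * coeff N (P ^ (k + 1) * U)
          ≤ C₀ * ((N : ℝ) + 1) ^ (θ + ε) * ((2 ^ (k + 2) + C₁) * ((N : ℝ) + 1) ^ ((k : ℝ) + 1)) := by
            gcongr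
        _ = C₀ * (2 ^ (k + 2) + C₁) *
            (((N : ℝ) + 1) ^ (θ + ε) * ((N : ℝ) + 1) ^ ((k : ℝ) + 1)) := by ring
        _ = _ := by
            rw [← Real.rpow_add hNp]
            congr 2
            push_cast; ring
    have b6 : C₁ * ((N : ℝ) + 1) ^ ((k : ℝ) + θ + ε) * ((N : ℝ) + 1) =
        C₁ * ((N : ℝ) + 1) ^ (((k + 1 : ℕ) : ℝ) + θ + ε) := by
      rw [mul_assoc]
      congr 1
      have : ((N : ℝ) + 1) ^ (((k + 1 : ℕ) : ℝ) + θ + ε) =
          ((N : ℝ) + 1) ^ (((k : ℝ) + θ + ε) + 1) := by congr 1; push_cast; ring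
      rw [this, Real.rpow_add hNp ((k : ℝ) + θ + ε) 1, Real.rpow_one]
    calc |coeff N (P ^ (k + 1) * (P * U - U ^ 2)) + coeff N (U * (P ^ (k + 1) * U - U ^ (k + 2)))|
        ≤ |coeff N (P ^ (k + 1) * (P * U - U ^ 2))| +
          |coeff N (U * (P ^ (k + 1) * U - U ^ (k + 2)))| := abs_add_le _ _
      _ ≤ C₀ * ((N : ℝ) + 1) ^ (θ + ε) * coeff N (P ^ (k + 1) * U) +
          C₁ * ((N : ℝ) + 1) ^ ((k : ℝ) + θ + ε) * ((N : ℝ) + 1) := add_le_add b1 b2
      _ ≤ _ := by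
        rw [b6]
        linarith

end Pool.Agent.H6
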