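import Mathlib
import Pool.Agent.H6.FunctionalEq
import Pool.Agent.H6.LogBound2

/-!
Growth of `ζ` to the left of the line `re s = 1` and a convexity argument.
-/

open Complex Filter Topology MeasureTheory Set Metric

namespace Pool.Agent.H6

/-- bound to the right of the critical line -/
lemma zeta_bound_right {z : ℂ} (h1 : 1 / 2 ≤ z.re) (h2 : z.re ≤ 3 / 2) (him : 1 ≤ |z.im|) :
    ‖riemannZeta z‖ ≤ 25 * |z.im| := by
  have hz1 : z ≠ 1 := by
    intro h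
    rw [h, one_im, abs_zero] at him
    linarith
  have h3 := norm_zetaPole_le (s := z) h1
  rw [zetaPole_of_ne hz1, norm_mul] at h3
  have h4 : |z.im| ≤ ‖z - 1‖ := by
    have := abs_im_le_norm (z - 1)
    rwa [sub_im, one_im, sub_zero] at this
  have h5 : ‖z‖ ≤ 5 / 2 * |z.im| := by
    have := norm_le_abs_re_add_abs_im z
    rw [abs_of_nonneg (by linarith)] at this
    linarith
  have h6 : 1 + ‖z‖ ≤ 7 / 2 * |z.im| := by linarith
  have h7 : |z.im| * ‖riemannZeta z‖ ≤ 2 * (7 / 2 * |z.im|) ^ 2 := by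
    calc |z.im| * ‖riemannZeta z‖ ≤ ‖z - 1‖ * ‖riemannZeta z‖ := by gcongr
      _ ≤ 2 * (1 + ‖z‖) ^ 2 := h3
      _ ≤ _ := by gcongr
  have hpos : 0 < |z.im| := by linarith
  have h8 : |z.im| * ‖riemannZeta z‖ ≤ |z.im| * (25 * |z.im|) := by nlinarith
  exact le_of_mul_le_mul_left h8 hpos

/-- polynomial growth in `re s ≥ -1` -/
theorem zeta_growth {c : ℝ} (hc : 0 < c) (hc1 : c ≤ 1 / 2) :
    ∃ C : ℝ, 1 ≤ C ∧ ∀ z : ℂ, -1 ≤ z.re → 1 ≤ |z.im| →
      ‖riemannZeta z‖ ≤ C * |z.im| ^ (3 / 2 + c) := by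
  obtain ⟨CX, hCX, hX⟩ := Xf_norm_bound
  set S1 : ℝ := ∑' n : ℕ, 1 / (n : ℝ) ^ (3 / 2 : ℝ) with hS1
  set S2 : ℝ := ∑' n : ℕ, 1 / (n : ℝ) ^ (1 + c) with hS2
  have hS1n : 0 ≤ S1 := tsum_nonneg fun n ↦ by positivity
  have hS2n : 0 ≤ S2 := tsum_nonneg fun n ↦ by positivity
  have hexp : 1 ≤ Real.exp CX := Real.one_le_exp hCX.le
  refine ⟨Real.exp CX * (25 + S1 + S2), by nlinarith, fun z hz him ↦ ?_⟩
  have hpos : 0 < |z.im| := by linarith
  have hpw : ∀ p : ℝ, p ≤ 3 / 2 + c → |z.im| ^ p ≤ |z.im| ^ (3 / 2 + c) := fun p hp ↦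
    Real.rpow_le_rpow_of_exponent_le him hp
  have hE : 1 ≤ |z.im| ^ (3 / 2 + c) := Real.one_le_rpow him (by linarith)
  have hE0 : 0 ≤ |z.im| ^ (3 / 2 + c) := by linarith
  rcases le_or_gt (1 / 2) z.re with h1 | h1
  · rcases le_or_gt z.re (3 / 2) with h2 | h2
    · have h3 := zeta_bound_right h1 h2 him
      have h4 : |z.im| ≤ |z.im| ^ (3 / 2 + c) := by
        calc |z.im| = |z.im| ^ (1 : ℝ) := (Real.rpow_one _).symm
          _ ≤ _ := hpw 1 (by linarith)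
      calc ‖riemannZeta z‖ ≤ 25 * |z.im| := h3
        _ ≤ 25 * |z.im| ^ (3 / 2 + c) := by linarith
        _ ≤ Real.exp CX * (25 + S1 + S2) * |z.im| ^ (3 / 2 + c) := by
            gcongr
            nlinarith
    · have h3 : ‖riemannZeta z‖ ≤ S1 := norm_riemannZeta_le (by norm_num) h2.le
      calc ‖riemannZeta z‖ ≤ S1 * 1 := by linarith
        _ ≤ Real.exp CX * (25 + S1 + S2) * |z.im| ^ (3 / 2 + c) := by
            gcongr
            nlinarith
  · -- use the functional equation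
    set w : ℂ := 1 - z with hw
    have hwre : w.re = 1 - z.re := by simp [hw]
    have hwim : |w.im| = |z.im| := by simp [hw]
    have hwim0 : w.im ≠ 0 := by
      intro h
      rw [h, abs_zero] at hwim
      linarith
    have hz' : z = 1 - w := by simp [hw]
    have h2 := hX w (by rw [hwre]; linarith) (by rw [hwre]; linarith) (by rw [hwim]; exact him)
    rw [hwim] at h2
    have hX0 : 0 < ‖Xf w‖ := norm_pos_iff.mpr (Xf_ne_zero hwim0)
    have h3 : ‖Xf w‖ ≤ Real.exp CX * |z.im| ^ (w.re - 1 / 2) := by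
      have h4 := (abs_le.mp h2).2
      rw [← Real.exp_log hX0, Real.rpow_def_of_pos hpos, ← Real.exp_add]
      apply Real.exp_le_exp.mpr
      linarith
    have h5 : ‖riemannZeta z‖ = ‖Xf w‖ * ‖riemannZeta w‖ := by
      rw [hz', zeta_one_sub hwim0, norm_mul]
    rw [h5]
    rcases le_or_gt w.re (1 + c) with h6 | h6
    · have h7 := zeta_bound_right (z := w) (by rw [hwre]; linarith) (by linarith)
        (by rw [hwim]; exact him)
      rw [hwim] at h7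
      calc ‖Xf w‖ * ‖riemannZeta w‖ ≤ (Real.exp CX * |z.im| ^ (w.re - 1 / 2)) * (25 * |z.im|) := by
            gcongr
        _ = Real.exp CX * 25 * (|z.im| ^ (w.re - 1 / 2) * |z.im| ^ (1 : ℝ)) := by
            rw [Real.rpow_one]; ring
        _ = Real.exp CX * 25 * |z.im| ^ (w.re - 1 / 2 + 1) := by rw [Real.rpow_add hpos]
        _ ≤ Real.exp CX * (25 + S1 + S2) * |z.im| ^ (3 / 2 + c) := by
            have := hpw (w.re - 1 / 2 + 1) (by linarith)
            gcongr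
            linarith
    · have h7 : ‖riemannZeta w‖ ≤ S2 := norm_riemannZeta_le (by linarith) h6.le
      calc ‖Xf w‖ * ‖riemannZeta w‖ ≤ (Real.exp CX * |z.im| ^ (w.re - 1 / 2)) * S2 := by
            gcongr
        _ = Real.exp CX * S2 * |z.im| ^ (w.re - 1 / 2) := by ring
        _ ≤ Real.exp CX * (25 + S1 + S2) * |z.im| ^ (3 / 2 + c) := by
            have := hpw (w.re - 1 / 2) (by rw [hwre]; linarith)
            gcongr
            linarith

/-- **Local convexity**: from a bound `|t| ^ η` in `re s ≥ σa` near the height of `z` to a bound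
with slope `κ` to the left. -/
theorem slope_bound_local {σa κ : ℝ} (hσa : 1 / 2 ≤ σa) (hκ : 3 / 2 < κ * (σa + 1)) :
    ∃ Rh : ℝ, 0 ≤ Rh ∧ ∀ η Ca : ℝ, 0 ≤ η → ∃ C T : ℝ, 1 ≤ C ∧ 1 ≤ T ∧
      ∀ z : ℂ, -1 / 2 ≤ z.re → z.re ≤ σa → T ≤ |z.im| →
      (∀ w : ℂ, σa ≤ w.re → |w.im - z.im| ≤ Rh → ‖riemannZeta w‖ ≤ Ca * |w.im| ^ η) →
      ‖riemannZeta z‖ ≤ C * |z.im| ^ (κ * (σa - z.re) + η) := by
  have hκ0 : 0 < κ := by
    by_contra h
    rw [not_lt] at h
    nlinarith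
  -- choice of c and R₀
  obtain ⟨c, hc, hc1, hc2⟩ : ∃ c : ℝ, 0 < c ∧ c ≤ 1 / 2 ∧ 3 / 2 + c < κ * (σa + 1) := by
    refine ⟨min (1 / 2) ((κ * (σa + 1) - 3 / 2) / 2), lt_min (by norm_num) (by linarith),
      min_le_left _ _, ?_⟩
    have := min_le_right (1 / 2) ((κ * (σa + 1) - 3 / 2) / 2)
    linarith
  obtain ⟨Cg, hCg, hg⟩ := zeta_growth hc hc1
  obtain ⟨R₀, hR₀, hR₀'⟩ : ∃ R₀ : ℝ, σa + 1 ≤ R₀ ∧
      (3 / 2 + c) * (R₀ + 1) ≤ κ * (σa + 1) * (R₀ - σa) := by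
    set d : ℝ := κ * (σa + 1) - (3 / 2 + c) with hd
    have hd0 : 0 < d := by rw [hd]; linarith
    refine ⟨max (σa + 1) ((3 / 2 + c + κ * (σa + 1) * σa) / d), le_max_left _ _, ?_⟩
    set R₀ := max (σa + 1) ((3 / 2 + c + κ * (σa + 1) * σa) / d)
    have h1 : (3 / 2 + c + κ * (σa + 1) * σa) / d ≤ R₀ := le_max_right _ _
    rw [div_le_iff₀ hd0] at h1
    rw [hd] at h1
    nlinarith
  set r₁ : ℝ := R₀ - σa with hr1
  set r₃ : ℝ := R₀ + 1 with hr3
  set R : ℝ := R₀ + 2 with hR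
  have hr1pos : 1 ≤ r₁ := by rw [hr1]; linarith
  have hr13 : r₁ < r₃ := by rw [hr1, hr3]; linarith
  have hr3R : r₃ < R := by rw [hr3, hR]; linarith
  have hr3pos : 0 < r₃ := by linarith
  refine ⟨R, by rw [hR]; linarith, fun η Ca hη => ?_⟩
  set Ca' : ℝ := max Ca 1 with hCa'
  have hCa1 : 1 ≤ Ca' := le_max_right _ _
  refine ⟨(Ca' * 2 ^ η) * (Cg * 2 ^ (3 / 2 + c)), 2 * R, ?_, ?_, ?_⟩
  · have h1 : (1 : ℝ) ≤ 2 ^ η := Real.one_le_rpow (by norm_num) hη
    have h2 : (1 : ℝ) ≤ 2 ^ (3 / 2 + c) := Real.one_le_rpow (by norm_num) (by linarith)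
    have h3 : 1 ≤ Ca' * 2 ^ η := one_le_mul_of_one_le_of_one_le hCa1 h1
    have h4 : 1 ≤ Cg * 2 ^ (3 / 2 + c) := one_le_mul_of_one_le_of_one_le hCg h2
    exact one_le_mul_of_one_le_of_one_le h3 h4
  · rw [hR]; linarith
  intro z hzre hzre2 hzim hb
  set t : ℝ := z.im with ht
  have htR : 2 * R ≤ |t| := hzim
  have hRbig : 2 < R := by rw [hR]; linarith
  have htpos : 0 < |t| := by linarith
  set cc : ℂ := (R₀ : ℂ) + t * I with hcc
  have hccre : cc.re = R₀ := by simp [hcc]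
  have hccim : cc.im = t := by simp [hcc]
  -- points in the ball
  have hmem : ∀ w : ℂ, ‖w - cc‖ ≤ R → |t| / 2 ≤ |w.im| ∧ |w.im| ≤ 2 * |t| := by
    intro w hw
    have h1 := (abs_im_le_norm (w - cc)).trans hw
    rw [sub_im, hccim] at h1
    have h2 := abs_sub_abs_le_abs_sub t w.im
    have h3 := abs_sub_abs_le_abs_sub w.im t
    rw [abs_sub_comm] at h2
    constructor <;> linarith
  have hre : ∀ w : ℂ, ∀ r : ℝ, ‖w - cc‖ ≤ r → R₀ - r ≤ w.re := by
    intro w r hw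
    have h1 := (abs_re_le_norm (w - cc)).trans hw
    rw [sub_re, hccre] at h1
    linarith [(abs_le.mp h1).1]
  have hdiff : DifferentiableOn ℂ riemannZeta (ball cc R) := by
    intro w hw
    rw [mem_ball, dist_eq_norm] at hw
    have h1 := (hmem w hw.le).1
    refine (differentiableAt_riemannZeta ?_).differentiableWithinAt
    intro h
    rw [h, one_im, abs_zero] at h1
    linarith
  have hA : ∀ w, ‖w - cc‖ = r₁ → ‖riemannZeta w‖ ≤ Ca' * 2 ^ η * |t| ^ η := by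
    intro w hw
    obtain ⟨h1, h2⟩ := hmem w (by rw [hw]; linarith)
    have h3 := hre w r₁ hw.le
    have h4 : |w.im - t| ≤ R := by
      have h6 := (abs_im_le_norm (w - cc)).trans hw.le
      rw [sub_im, hccim] at h6
      linarith
    have h5 := hb w (by rw [hr1] at h3; linarith) h4
    calc ‖riemannZeta w‖ ≤ Ca * |w.im| ^ η := h5
      _ ≤ Ca' * |w.im| ^ η := by
          have : 0 ≤ |w.im| ^ η := by positivity
          gcongr
          exact le_max_left _ _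
      _ ≤ Ca' * (2 * |t|) ^ η := by gcongr
      _ = Ca' * 2 ^ η * |t| ^ η := by rw [Real.mul_rpow (by norm_num) htpos.le]; ring
  have hB : ∀ w, ‖w - cc‖ = r₃ → ‖riemannZeta w‖ ≤
      Cg * 2 ^ (3 / 2 + c) * |t| ^ (3 / 2 + c) := by
    intro w hw
    obtain ⟨h1, h2⟩ := hmem w (by rw [hw]; linarith)
    have h3 := hre w r₃ hw.le
    have h5 := hg w (by rw [hr3] at h3; linarith) (by linarith)
    calc ‖riemannZeta w‖ ≤ Cg * |w.im| ^ (3 / 2 + c) := h5
      _ ≤ Cg * (2 * |t|) ^ (3 / 2 + c) := by gcongr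
      _ = Cg * 2 ^ (3 / 2 + c) * |t| ^ (3 / 2 + c) := by
          rw [Real.mul_rpow (by norm_num) htpos.le]; ring
  -- the distance
  have hnorm : ‖z - cc‖ = R₀ - z.re := by
    have h1 : z - cc = ((z.re - R₀ : ℝ) : ℂ) := by
      apply Complex.ext
      · simp [hcc]
      · simp [hcc, ht]
    rw [h1, norm_real, Real.norm_eq_abs, abs_sub_comm, abs_of_nonneg]
    linarith
  have hz1 : r₁ ≤ ‖z - cc‖ := by rw [hnorm, hr1]; linarith
  have hz3 : ‖z - cc‖ ≤ r₃ := by rw [hnorm, hr3]; linarith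
  have h3c := three_circles (by linarith) hr13 hr3R hdiff hA hB hz1 hz3
  set α : ℝ := (Real.log ‖z - cc‖ - Real.log r₁) / (Real.log r₃ - Real.log r₁) with hα
  have hr1p : 0 < r₁ := by linarith
  have hzp : 0 < ‖z - cc‖ := by linarith
  have hden : 0 < Real.log r₃ - Real.log r₁ := by
    have := Real.log_lt_log hr1p hr13
    linarith
  have hα0 : 0 ≤ α := by
    have := Real.log_le_log hr1p hz1
    exact div_nonneg (by linarith) hden.le
  have hα1 : α ≤ 1 := by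
    rw [hα, div_le_one hden]
    have := Real.log_le_log hzp hz3
    linarith
  -- upper bound for α
  set y : ℝ := σa - z.re with hy
  have hy0 : 0 ≤ y := by rw [hy]; linarith
  have hαy : (3 / 2 + c) * α ≤ κ * y := by
    have h1 : Real.log ‖z - cc‖ - Real.log r₁ ≤ y / r₁ := by
      rw [← Real.log_div hzp.ne' hr1p.ne']
      have h2 := Real.log_le_sub_one_of_pos (show 0 < ‖z - cc‖ / r₁ by positivity)
      have h3 : ‖z - cc‖ / r₁ - 1 = y / r₁ := by
        rw [hnorm, hy, hr1]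
        have : R₀ - σa ≠ 0 := by rw [← hr1]; exact hr1p.ne'
        field_simp
        ring
      linarith
    have h4 : (σa + 1) / r₃ ≤ Real.log r₃ - Real.log r₁ := by
      have h5 := Real.log_le_sub_one_of_pos (show 0 < r₁ / r₃ by positivity)
      rw [Real.log_div hr1p.ne' hr3pos.ne'] at h5
      have h6 : r₁ / r₃ - 1 = -((σa + 1) / r₃) := by
        rw [hr1, hr3]
        have : R₀ + 1 ≠ 0 := by rw [← hr3]; exact hr3pos.ne'
        field_simp
        ring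
      linarith
    have h7 : 0 < (σa + 1) / r₃ := by
      have : 0 < σa + 1 := by linarith
      positivity
    have h8 : α ≤ (y / r₁) / ((σa + 1) / r₃) := by
      rw [hα]
      apply div_le_div₀ (by positivity) h1 h7 h4
    have h9 : (3 / 2 + c) * ((y / r₁) / ((σa + 1) / r₃)) ≤ κ * y := by
      have h10 : (3 / 2 + c) * ((y / r₁) / ((σa + 1) / r₃)) =
          y * ((3 / 2 + c) * r₃) / (r₁ * (σa + 1)) := by
        have : σa + 1 ≠ 0 := by linarith
        field_simp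
      rw [h10, div_le_iff₀ (by nlinarith)]
      have h11 : (3 / 2 + c) * r₃ ≤ κ * (σa + 1) * r₁ := hR₀'
      calc y * ((3 / 2 + c) * r₃) ≤ y * (κ * (σa + 1) * r₁) := by gcongr
        _ = _ := by ring
    have h12 : 0 < 3 / 2 + c := by linarith
    calc (3 / 2 + c) * α ≤ (3 / 2 + c) * ((y / r₁) / ((σa + 1) / r₃)) := by gcongr
      _ ≤ _ := h9
  -- conclusion
  have ht1 : 1 ≤ |t| := by linarith
  have hX1 : 1 ≤ Ca' * 2 ^ η := by
    have h1 : (1 : ℝ) ≤ 2 ^ η := Real.one_le_rpow (by norm_num) hη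
    exact one_le_mul_of_one_le_of_one_le hCa1 h1
  have hX2 : 1 ≤ Cg * 2 ^ (3 / 2 + c) := by
    have h2 : (1 : ℝ) ≤ 2 ^ (3 / 2 + c) := Real.one_le_rpow (by norm_num) (by linarith)
    exact one_le_mul_of_one_le_of_one_le hCg h2
  have f1 : (Ca' * 2 ^ η * |t| ^ η) ^ (1 - α) ≤ (Ca' * 2 ^ η) * |t| ^ η := by
    have h1 : 1 ≤ Ca' * 2 ^ η * |t| ^ η :=
      one_le_mul_of_one_le_of_one_le hX1 (Real.one_le_rpow ht1 hη)
    calc (Ca' * 2 ^ η * |t| ^ η) ^ (1 - α) ≤ (Ca' * 2 ^ η * |t| ^ η) ^ (1 : ℝ) :=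
          Real.rpow_le_rpow_of_exponent_le h1 (by linarith)
      _ = _ := Real.rpow_one _
  have f2 : (Cg * 2 ^ (3 / 2 + c) * |t| ^ (3 / 2 + c)) ^ α ≤
      (Cg * 2 ^ (3 / 2 + c)) * |t| ^ (κ * y) := by
    rw [Real.mul_rpow (by positivity) (by positivity)]
    have h1 : (Cg * 2 ^ (3 / 2 + c)) ^ α ≤ Cg * 2 ^ (3 / 2 + c) := by
      calc (Cg * 2 ^ (3 / 2 + c)) ^ α ≤ (Cg * 2 ^ (3 / 2 + c)) ^ (1 : ℝ) :=
            Real.rpow_le_rpow_of_exponent_le hX2 hα1
        _ = _ := Real.rpow_one _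
    have h2 : (|t| ^ (3 / 2 + c)) ^ α ≤ |t| ^ (κ * y) := by
      rw [← Real.rpow_mul htpos.le]
      exact Real.rpow_le_rpow_of_exponent_le ht1 hαy
    gcongr
  calc ‖riemannZeta z‖ ≤ _ := h3c
    _ ≤ ((Ca' * 2 ^ η) * |t| ^ η) * ((Cg * 2 ^ (3 / 2 + c)) * |t| ^ (κ * y)) := by
        gcongr
    _ = (Ca' * 2 ^ η) * (Cg * 2 ^ (3 / 2 + c)) * (|t| ^ (κ * y) * |t| ^ η) := by ring
    _ = _ := by rw [← Real.rpow_add htpos]

/-- **Convexity**: from a bound `|t| ^ η` in `re s ≥ σa` to a bound with slope `κ` to the left. -/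
theorem slope_bound {σa η κ : ℝ} (hσa : 1 / 2 ≤ σa) (hη : 0 ≤ η) (hκ : 3 / 2 < κ * (σa + 1))
    {Ca Ta : ℝ} (hb : ∀ z : ℂ, σa ≤ z.re → Ta ≤ |z.im| → ‖riemannZeta z‖ ≤ Ca * |z.im| ^ η) :
    ∃ C T : ℝ, 1 ≤ C ∧ 1 ≤ T ∧ ∀ z : ℂ, -1 / 2 ≤ z.re → z.re ≤ σa → T ≤ |z.im| →
      ‖riemannZeta z‖ ≤ C * |z.im| ^ (κ * (σa - z.re) + η) := by
  obtain ⟨R, hR, hloc⟩ := slope_bound_local hσa hκ
  obtain ⟨C, T, hC, hT, h⟩ := hloc η Ca hη
  refine ⟨C, max T (Ta + R), hC, hT.trans (le_max_left _ _), fun z h1 h2 h3 => ?_⟩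
  refine h z h1 h2 ((le_max_left _ _).trans h3) fun w hw1 hw2 => hb w hw1 ?_
  have h4 : Ta + R ≤ |z.im| := (le_max_right _ _).trans h3
  have h5 := abs_sub_abs_le_abs_sub z.im w.im
  rw [abs_sub_comm] at h5
  linarith

end Pool.Agent.H6
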