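import Pool.Agent.H6.LogBound

/-!
# A Jensen type inequality for the real part of the logarithmic derivative

If `f` is analytic near a closed disc with centre `c` and all its zeros in the disc lie to the left
of `c`, then `Re (f'/f)(c)` is at least the first Fourier cosine coefficient of `log |f|` on the
circle.
-/

set_option autoImplicit false

open Complex Metric Set Filter Topology Real MeasureTheory

namespace Pool.Agent.H6

/-- The real part of the logarithmic derivative at the centre, zero-free case. -/
lemma re_logDeriv_center {g : ℂ → ℂ} {c : ℂ} {r : ℝ} (hr : 0 < r)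
    (hg : AnalyticOnNhd ℂ g (closedBall c r)) (hne : ∀ z ∈ closedBall c r, g z ≠ 0) :
    (deriv g c / g c).re = (2 / r ^ 2) * circleAverage (fun z => (z - c).re * Real.log ‖g z‖) c r := by
  -- enlarge the disc
  obtain ⟨R, hrR, hgR, hneR⟩ : ∃ R, r < R ∧ DifferentiableOn ℂ g (ball c R) ∧
      ∀ z ∈ ball c R, g z ≠ 0 := by
    have hopen : IsOpen {z : ℂ | AnalyticAt ℂ g z ∧ g z ≠ 0} := by
      rw [isOpen_iff_mem_nhds]
      rintro z ⟨h1, h2⟩
      exact (h1.eventually_analyticAt.and (h1.continuousAt.eventually_ne h2))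
    obtain ⟨e, he, hsub⟩ := (isCompact_closedBall c r).exists_thickening_subset_open hopen
      (fun z hz => ⟨hg z hz, hne z hz⟩)
    rw [thickening_closedBall he hr.le] at hsub
    refine ⟨e + r, by linarith, fun z hz => ?_, fun z hz => ?_⟩
    · exact (hsub hz).1.differentiableAt.differentiableWithinAt
    · exact (hsub hz).2
  obtain ⟨L, -, hL, hexp⟩ := exists_log_on_ball (hr.trans hrR) hgR hneR
  have hcb : closedBall c r ⊆ ball c R := closedBall_subset_ball hrR
  have hLd : DifferentiableOn ℂ L (ball c R) :=
    fun z hz => (hL z hz).differentiableAt.differentiableWithinAt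
  have hLc : DiffContOnCl ℂ L (ball c r) :=
    (hLd.mono (by rw [closure_ball c hr.ne']; exact hcb)).diffContOnCl
  have hc0 : c ∈ ball c R := mem_ball_self (hr.trans hrR)
  have hsph : sphere c |r| ⊆ ball c R := by
    rw [abs_of_pos hr]; exact sphere_subset_closedBall.trans hcb
  have hLcont : ContinuousOn L (sphere c |r|) := hLd.continuousOn.mono hsph
  -- first identity
  have e1 : circleAverage (fun z => (z - c) * L z) c r = 0 := by
    have h : DiffContOnCl ℂ (fun z => (z - c) * L z) (ball c |r|) := by
      rw [abs_of_pos hr]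
      exact ((differentiable_id.sub_const c).diffContOnCl).smul hLc
    have := h.circleAverage
    simpa using this
  -- second identity
  have e2 : circleAverage (fun z => (starRingEnd ℂ) (z - c) * L z) c r = r ^ 2 * deriv L c := by
    have h1 : deriv L c = circleAverage (fun z => (z - c)⁻¹ * L z) c r := by
      have e : (∮ z in C(c, r), (z - c)⁻¹ • ((z - c)⁻¹ * L z)) =
          ∮ z in C(c, r), (1 / (z - c) ^ 2) • L z := by
        apply circleIntegral.integral_congr hr.le
        intro z hz
        simp only [smul_eq_mul]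
        rw [one_div, ← mul_assoc, ← mul_inv, pow_two]
      rw [circleAverage_eq_circleIntegral (by exact hr.ne'), e,
        hLc.deriv_eq_smul_circleIntegral hr, smul_smul, inv_mul_cancel₀ two_pi_I_ne_zero, one_smul]
    rw [h1]
    have h2 : circleAverage (fun z => (starRingEnd ℂ) (z - c) * L z) c r =
        circleAverage (fun z => ((r:ℂ) ^ 2) • ((z - c)⁻¹ * L z)) c r := by
      apply circleAverage_congr_sphere
      intro z hz
      have hz' : ‖z - c‖ = r := by
        rw [abs_of_pos hr] at hz
        simpa [dist_eq_norm] using hz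
      have hz0 : z - c ≠ 0 := by
        intro h; rw [h, norm_zero] at hz'; exact hr.ne hz'
      have h3 : (starRingEnd ℂ) (z - c) = (r:ℂ) ^ 2 * (z - c)⁻¹ := by
        rw [eq_mul_inv_iff_mul_eq₀ hz0, mul_comm, Complex.mul_conj, Complex.normSq_eq_norm_sq, hz']
        norm_cast
      simp only [smul_eq_mul]
      rw [h3, mul_assoc]
    rw [h2, circleAverage_fun_smul, smul_eq_mul]
  have i1 : CircleIntegrable (fun z => (z - c) * L z) c r := by
    apply ContinuousOn.circleIntegrable'
    exact (continuousOn_id.sub continuousOn_const).mul hLcont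
  have i2 : CircleIntegrable (fun z => (starRingEnd ℂ) (z - c) * L z) c r := by
    apply ContinuousOn.circleIntegrable'
    exact (Complex.continuous_conj.comp_continuousOn
      (continuousOn_id.sub continuousOn_const)).mul hLcont
  have r1 := Complex.reCLM.circleAverage_comp_comm i1
  have r2 := Complex.reCLM.circleAverage_comp_comm i2
  rw [e1] at r1
  rw [e2] at r2
  have j1 : CircleIntegrable (Complex.reCLM ∘ fun z => (z - c) * L z) c r := by
    apply ContinuousOn.circleIntegrable'
    exact Complex.reCLM.continuous.comp_continuousOn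
      ((continuousOn_id.sub continuousOn_const).mul hLcont)
  have j2 : CircleIntegrable (Complex.reCLM ∘ fun z => (starRingEnd ℂ) (z - c) * L z) c r := by
    apply ContinuousOn.circleIntegrable'
    exact Complex.reCLM.continuous.comp_continuousOn ((Complex.continuous_conj.comp_continuousOn
      (continuousOn_id.sub continuousOn_const)).mul hLcont)
  have hsum := circleAverage_add j1 j2
  rw [r1, r2] at hsum
  have hLderiv : deriv L c = deriv g c / g c := (hL c hc0).deriv
  rw [hLderiv] at hsum
  have h5 : circleAverage ((Complex.reCLM ∘ fun z => (z - c) * L z) +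
      (Complex.reCLM ∘ fun z => (starRingEnd ℂ) (z - c) * L z)) c r =
      circleAverage (fun z => (2:ℝ) • ((z - c).re * Real.log ‖g z‖)) c r := by
    apply circleAverage_congr_sphere
    intro z hz
    have hz' := hsph hz
    have h6 : Real.log ‖g z‖ = (L z).re := by
      rw [← hexp z hz', Complex.norm_exp, Real.log_exp]
    simp only [Pi.add_apply, Function.comp_apply, Complex.reCLM_apply, Complex.mul_re,
      Complex.conj_re, Complex.conj_im, smul_eq_mul]
    rw [h6]
    ring
  rw [h5, circleAverage_fun_smul, smul_eq_mul] at hsum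
  have h7 : (Complex.reCLM ((r:ℂ) ^ 2 * (deriv g c / g c))) = r ^ 2 * (deriv g c / g c).re := by
    rw [Complex.reCLM_apply, ← Complex.ofReal_pow, Complex.re_ofReal_mul]
  rw [h7] at hsum
  simp only [map_zero, zero_add] at hsum
  field_simp
  linarith


/-- Factorisation of an analytic function near a closed disc. -/
lemma exists_factor {f : ℂ → ℂ} {c : ℂ} {r : ℝ} (hr : 0 < r)
    (hf : AnalyticOnNhd ℂ f (closedBall c r)) (hfc : f c ≠ 0) :
    ∃ (S : Finset ℂ) (n : ℂ → ℕ) (g : ℂ → ℂ), AnalyticOnNhd ℂ g (closedBall c r) ∧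
      (∀ z ∈ closedBall c r, g z ≠ 0) ∧ (∀ u ∈ S, u ∈ closedBall c r ∧ f u = 0) ∧
      ∀ z ∈ closedBall c r, f z = (∏ u ∈ S, (z - u) ^ (n u)) * g z := by
  classical
  have hcU : c ∈ closedBall c r := mem_closedBall_self hr.le
  have hpre : IsPreconnected (closedBall c r) := (convex_closedBall c r).isPreconnected
  have hconn : IsConnected (closedBall c r) := ⟨⟨c, hcU⟩, hpre⟩
  have hmer : MeromorphicOn f (closedBall c r) := hf.meromorphicOn
  have horder : ∀ u : closedBall c r, meromorphicOrderAt f u ≠ ⊤ := by
    have h0 : ∃ u : closedBall c r, meromorphicOrderAt f u ≠ ⊤ := by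
      refine ⟨⟨c, hcU⟩, ?_⟩
      have : meromorphicOrderAt f c = 0 := by
        rw [(hf c hcU).meromorphicNFAt.meromorphicOrderAt_eq_zero_iff]
        exact hfc
      rw [this]; simp
    exact (hmer.exists_meromorphicOrderAt_ne_top_iff_forall hconn).1 h0
  have hfin : (MeromorphicOn.divisor f (closedBall c r)).support.Finite :=
    (MeromorphicOn.divisor f (closedBall c r)).finiteSupport (isCompact_closedBall c r)
  obtain ⟨g, hg, hgne, heq⟩ := hmer.extract_zeros_poles horder hfin
  have hD : 0 ≤ MeromorphicOn.divisor f (closedBall c r) :=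
    MeromorphicOn.AnalyticOnNhd.divisor_nonneg hf
  set D := MeromorphicOn.divisor f (closedBall c r) with hDdef
  have hprod : (∏ᶠ u, (fun z : ℂ => z - u) ^ D u) =
      fun z => ∏ u ∈ hfin.toFinset, (z - u) ^ ((D u).toNat) := by
    rw [finprod_eq_prod_of_mulSupport_subset_of_finite _ (s := D.support) ?_ hfin]
    · funext z
      rw [Finset.prod_apply]
      refine Finset.prod_congr rfl fun u _ => ?_
      rw [Pi.pow_apply, ← zpow_natCast, Int.toNat_of_nonneg (hD u)]
    · intro u hu
      simp only [Function.mem_mulSupport, ne_eq] at hu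
      simp only [Function.mem_support, ne_eq]
      intro h
      apply hu
      rw [h, zpow_zero]
  rw [hprod] at heq
  have hG : AnalyticOnNhd ℂ ((fun z => ∏ u ∈ hfin.toFinset, (z - u) ^ ((D u).toNat)) • g)
      (closedBall c r) := by
    intro z hz
    apply AnalyticAt.smul _ (hg z hz)
    apply Finset.analyticAt_fun_prod
    intro u _
    exact ((analyticAt_id.sub analyticAt_const).pow _)
  -- equality on the open ball
  have hball : ∀ z ∈ ball c r, f z = (∏ u ∈ hfin.toFinset, (z - u) ^ ((D u).toNat)) * g z := by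
    intro z hz
    have hzc := ball_subset_closedBall hz
    have h1 : ∀ᶠ w in 𝓝[≠] z, w ∈ ball c r :=
      mem_nhdsWithin_of_mem_nhds (isOpen_ball.mem_nhds hz)
    have h2 := (mem_codiscreteWithin.1 heq) z hzc
    rw [disjoint_principal_right] at h2
    have h3 : ∀ᶠ w in 𝓝[≠] z,
        f w = ((fun z => ∏ u ∈ hfin.toFinset, (z - u) ^ ((D u).toNat)) • g) w := by
      filter_upwards [h1, h2] with w hw1 hw2
      by_contra hcon
      exact hw2 ⟨ball_subset_closedBall hw1, hcon⟩
    have h4 := ((hf z hzc).frequently_eq_iff_eventually_eq (hG z hzc)).1 h3.frequently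
    exact h4.self_of_nhds
  refine ⟨hfin.toFinset, fun u => (D u).toNat, g, hg, fun z hz => hgne ⟨z, hz⟩, ?_, ?_⟩
  · intro u hu
    rw [Set.Finite.mem_toFinset] at hu
    have huU : u ∈ closedBall c r := by
      by_contra h
      exact hu (Function.locallyFinsuppWithin.apply_eq_zero_of_notMem D h)
    refine ⟨huU, ?_⟩
    by_contra hne
    apply hu
    rw [hDdef, MeromorphicOn.divisor_apply hmer huU,
      ((hf u huU).meromorphicNFAt.meromorphicOrderAt_eq_zero_iff).2 hne]
    rfl
  · have hc1 : ContinuousOn f (closedBall c r) := hf.continuousOn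
    have hc2 : ContinuousOn (fun z => (∏ u ∈ hfin.toFinset, (z - u) ^ ((D u).toNat)) * g z)
        (closedBall c r) := hG.continuousOn
    have h5 : EqOn f (fun z => (∏ u ∈ hfin.toFinset, (z - u) ^ ((D u).toNat)) * g z)
        (closedBall c r) :=
      EqOn.of_subset_closure hball hc1 hc2 ball_subset_closedBall
        (by rw [closure_ball c hr.ne'])
    exact h5


/-- The Jensen type inequality. -/
lemma re_logDeriv_ge {f : ℂ → ℂ} {c : ℂ} {r : ℝ} (hr : 0 < r)
    (hf : AnalyticOnNhd ℂ f (closedBall c r)) (hfc : f c ≠ 0)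
    (hsph : ∀ z, ‖z - c‖ = r → f z ≠ 0) (hleft : ∀ z ∈ ball c r, f z = 0 → z.re ≤ c.re) :
    (2 / r ^ 2) * circleAverage (fun z => (z - c).re * Real.log ‖f z‖) c r ≤
      (deriv f c / f c).re := by
  obtain ⟨S, n, g, hg, hgne, hS, hfac⟩ := exists_factor hr hf hfc
  have hcU : c ∈ closedBall c r := mem_closedBall_self hr.le
  have hSb : ∀ u ∈ S, ‖u - c‖ < r := by
    intro u hu
    obtain ⟨h1, h2⟩ := hS u hu
    have h3 : ‖u - c‖ ≤ r := by simpa [dist_eq_norm] using h1
    rcases h3.lt_or_eq with h | h
    · exact h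
    · exact absurd h2 (hsph u h)
  have hSc : ∀ u ∈ S, c - u ≠ 0 := by
    intro u hu h
    have : u = c := (sub_eq_zero.1 h).symm
    rw [this] at hu
    exact hfc (hS c hu).2
  -- the modified factors
  set b : ℂ → ℂ → ℂ := fun u z => ((r:ℂ) ^ 2 - (starRingEnd ℂ) (u - c) * (z - c)) / r with hb
  have hrc : (r:ℂ) ≠ 0 := by exact_mod_cast hr.ne'
  have hbne : ∀ u ∈ S, ∀ z ∈ closedBall c r, b u z ≠ 0 := by
    intro u hu z hz
    have hz' : ‖z - c‖ ≤ r := by simpa [dist_eq_norm] using hz
    refine div_ne_zero (fun h => ?_) hrc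
    have h1 : (r:ℂ) ^ 2 = (starRingEnd ℂ) (u - c) * (z - c) := sub_eq_zero.1 h
    have h2 : ‖(r:ℂ) ^ 2‖ = ‖u - c‖ * ‖z - c‖ := by
      rw [h1, norm_mul, RCLike.norm_conj]
    rw [norm_pow, Complex.norm_real, Real.norm_eq_abs, abs_of_pos hr] at h2
    have h3 : ‖u - c‖ * ‖z - c‖ < r ^ 2 := by
      rw [pow_two]
      calc ‖u - c‖ * ‖z - c‖ ≤ ‖u - c‖ * r := by gcongr
        _ < r * r := by
            apply mul_lt_mul_of_pos_right (hSb u hu) hr
    linarith
  have hbd : ∀ u z, DifferentiableAt ℂ (b u) z := by
    intro u z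
    simp only [hb]
    fun_prop
  have hban : ∀ u z, AnalyticAt ℂ (b u) z := by
    intro u z
    have h : Differentiable ℂ (b u) := fun z => hbd u z
    exact h.analyticAt z
  set G : ℂ → ℂ := fun z => (∏ u ∈ S, (b u z) ^ (n u)) * g z with hG
  have hGan : AnalyticOnNhd ℂ G (closedBall c r) := by
    intro z hz
    apply AnalyticAt.mul _ (hg z hz)
    apply Finset.analyticAt_fun_prod
    intro u _
    exact (hban u z).pow _
  have hGne : ∀ z ∈ closedBall c r, G z ≠ 0 := by
    intro z hz
    refine mul_ne_zero (Finset.prod_ne_zero_iff.2 fun u hu => pow_ne_zero _ (hbne u hu z hz))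
      (hgne z hz)
  have hmain := re_logDeriv_center hr hGan hGne
  -- circle averages agree
  have hcirc : circleAverage (fun z => (z - c).re * Real.log ‖G z‖) c r =
      circleAverage (fun z => (z - c).re * Real.log ‖f z‖) c r := by
    apply circleAverage_congr_sphere
    intro z hz
    rw [abs_of_pos hr] at hz
    have hz' : ‖z - c‖ = r := by simpa [dist_eq_norm] using hz
    have hzc : z ∈ closedBall c r := sphere_subset_closedBall hz
    have h1 : ‖G z‖ = ‖f z‖ := by
      rw [hfac z hzc]
      simp only [hG, norm_mul, norm_prod, norm_pow]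
      congr 1
      refine Finset.prod_congr rfl fun u hu => ?_
      congr 1
      simp only [hb]
      have h2 : (r:ℂ) ^ 2 = (z - c) * (starRingEnd ℂ) (z - c) := by
        rw [Complex.mul_conj, Complex.normSq_eq_norm_sq, hz']
        norm_cast
      rw [h2, mul_comm ((starRingEnd ℂ) (u - c)), ← mul_sub, ← map_sub, norm_div, norm_mul,
        RCLike.norm_conj, hz', Complex.norm_real, Real.norm_eq_abs, abs_of_pos hr,
        mul_div_cancel_left₀ _ hr.ne']
      congr 1
      ring
    simp only
    rw [h1]
  rw [hcirc] at hmain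
  rw [← hmain]
  -- logarithmic derivatives
  have hgd : DifferentiableAt ℂ g c := (hg c hcU).differentiableAt
  have e1 : deriv f c / f c = (∑ u ∈ S, (n u : ℂ) * (1 / (c - u))) + deriv g c / g c := by
    have h1 : f =ᶠ[𝓝 c] fun z => (∏ u ∈ S, (z - u) ^ (n u)) * g z := by
      filter_upwards [closedBall_mem_nhds c hr] with z hz
      exact hfac z hz
    have h2 : logDeriv f c = logDeriv (fun z => (∏ u ∈ S, (z - u) ^ (n u)) * g z) c := by
      rw [logDeriv_apply, logDeriv_apply, h1.deriv_eq, h1.self_of_nhds]
    rw [← logDeriv_apply, ← logDeriv_apply, h2, logDeriv_mul]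
    · congr 1
      rw [logDeriv_prod]
      · refine Finset.sum_congr rfl fun u hu => ?_
        rw [logDeriv_fun_pow (by fun_prop), logDeriv_apply]
        simp
      · intro u hu
        exact pow_ne_zero _ (hSc u hu)
      · intro u hu
        fun_prop
    · exact Finset.prod_ne_zero_iff.2 fun u hu => pow_ne_zero _ (hSc u hu)
    · exact hgne c hcU
    · fun_prop
    · exact hgd
  have e2 : deriv G c / G c = (∑ u ∈ S, (n u : ℂ) * (-(starRingEnd ℂ) (u - c) / r ^ 2)) +
      deriv g c / g c := by
    rw [← logDeriv_apply, ← logDeriv_apply, hG, logDeriv_mul]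
    · congr 1
      rw [logDeriv_prod]
      · refine Finset.sum_congr rfl fun u hu => ?_
        rw [logDeriv_fun_pow (hbd u c), logDeriv_apply]
        congr 1
        have h3 : HasDerivAt (b u) ((0 - (starRingEnd ℂ) (u - c) * 1) / r) c := by
          simp only [hb]
          exact (((hasDerivAt_const _ _).sub
            (((hasDerivAt_id c).sub_const c).const_mul _)).div_const _)
        rw [h3.deriv]
        simp only [hb, sub_self, mul_zero, sub_zero, map_sub]
        field_simp
        ring
      · intro u hu
        exact pow_ne_zero _ (hbne u hu c hcU)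
      · intro u hu
        exact (hbd u c).pow _
    · exact Finset.prod_ne_zero_iff.2 fun u hu => pow_ne_zero _ (hbne u hu c hcU)
    · exact hgne c hcU
    · have : DifferentiableAt ℂ (fun z => ∏ u ∈ S, (b u z) ^ (n u)) c :=
        DifferentiableAt.fun_finsetProd fun u _ => (hbd u c).pow _
      exact this
    · exact hgd
  rw [e1, e2, Complex.add_re, Complex.add_re]
  have hterm : (∑ u ∈ S, (n u : ℂ) * (-(starRingEnd ℂ) (u - c) / r ^ 2)).re ≤
      (∑ u ∈ S, (n u : ℂ) * (1 / (c - u))).re := by
    rw [Complex.re_sum, Complex.re_sum]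
    refine Finset.sum_le_sum fun u hu => ?_
    have h1 : ((n u : ℂ) * (-(starRingEnd ℂ) (u - c) / r ^ 2)).re =
        (n u : ℝ) * (-(u - c).re / r ^ 2) := by
      rw [← Complex.ofReal_natCast, Complex.re_ofReal_mul, ← Complex.ofReal_pow,
        Complex.div_ofReal_re, Complex.neg_re, Complex.conj_re]
    have h2 : ((n u : ℂ) * (1 / (c - u))).re = (n u : ℝ) * (-(u - c).re / ‖u - c‖ ^ 2) := by
      rw [← Complex.ofReal_natCast, Complex.re_ofReal_mul, one_div, Complex.inv_re,
        Complex.normSq_eq_norm_sq]
      rw [show c - u = -(u - c) by ring, norm_neg, Complex.neg_re]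
    rw [h1, h2]
    have h3 : (u - c).re ≤ 0 := by
      rw [Complex.sub_re]
      have hub : u ∈ ball c r := by simpa [dist_eq_norm] using hSb u hu
      linarith [hleft u hub (hS u hu).2]
    have h4 : 0 < ‖u - c‖ := norm_pos_iff.2 (by
      intro h
      apply hSc u hu
      rw [← neg_sub, h, neg_zero])
    gcongr
    · linarith
    · exact (hSb u hu).le
  linarith


/-- The form used for `ζ` and its relatives. -/
theorem re_logDeriv_lower {f : ℂ → ℂ} {c : ℂ} {A B : ℝ} (hA : 0 ≤ A) (hB : 0 ≤ B)
    (hf : AnalyticOnNhd ℂ f (closedBall c (1 / 2))) (hfc : f c ≠ 0)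
    (hleft : ∀ z ∈ closedBall c (1 / 2), f z = 0 → z.re ≤ c.re)
    (hup : ∀ z ∈ closedBall c (1 / 2), Real.log ‖f z‖ ≤ B)
    (hlow : ∀ z ∈ closedBall c (1 / 2), c.re < z.re → -(A / (z.re - c.re)) ≤ Real.log ‖f z‖) :
    -9 * A - B / (49 / 100) ≤ (deriv f c / f c).re := by
  obtain ⟨S, n, g, hg, hgne, hS, hfac⟩ := exists_factor (by norm_num : (0:ℝ) < 1 / 2) hf hfc
  -- choose the radius
  obtain ⟨r, hr, hrS⟩ : ∃ r ∈ Ioo (49 / 100 : ℝ) (1 / 2), r ∉ S.image (fun u => ‖u - c‖) :=
    (Ioo_infinite (by norm_num : (49 / 100 : ℝ) < 1 / 2)).exists_notMem_finset _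
  have hr0 : 0 < r := by linarith [hr.1]
  have hsub : closedBall c r ⊆ closedBall c (1 / 2) := closedBall_subset_closedBall hr.2.le
  have hsph : ∀ z, ‖z - c‖ = r → f z ≠ 0 := by
    intro z hz h0
    have hzc : z ∈ closedBall c (1 / 2) := by
      apply hsub
      simp [dist_eq_norm, hz]
    rw [hfac z hzc] at h0
    rcases mul_eq_zero.1 h0 with h | h
    · rw [Finset.prod_eq_zero_iff] at h
      obtain ⟨u, hu, h2⟩ := h
      have h3 : z - u = 0 := by
        by_contra h4
        exact (pow_ne_zero _ h4) h2
      apply hrS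
      rw [Finset.mem_image]
      exact ⟨u, hu, by rw [← sub_eq_zero.1 h3, hz]⟩
    · exact hgne z hzc h
  have hmain := re_logDeriv_ge hr0 (hf.mono hsub) hfc hsph
    (fun z hz => hleft z (hsub (ball_subset_closedBall hz)))
  refine le_trans ?_ hmain
  -- continuity
  have hfcont : ContinuousOn (fun z => (z - c).re * Real.log ‖f z‖) (sphere c |r|) := by
    apply ContinuousOn.mul
    · exact Complex.continuous_re.comp_continuousOn (continuousOn_id.sub continuousOn_const)
    · apply ContinuousOn.log
      · apply ContinuousOn.norm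
        rw [abs_of_pos hr0]
        exact hf.continuousOn.mono (sphere_subset_closedBall.trans hsub)
      · intro z hz
        rw [abs_of_pos hr0] at hz
        exact norm_ne_zero_iff.2 (hsph z (by simpa [dist_eq_norm] using hz))
  have hint : CircleIntegrable (fun z => (z - c).re * Real.log ‖f z‖) c r :=
    hfcont.circleIntegrable'
  have hlin : ContinuousOn (fun z : ℂ => (z - c).re) (sphere c |r|) :=
    Complex.continuous_re.comp_continuousOn (continuousOn_id.sub continuousOn_const)
  have hmean : circleAverage (fun z : ℂ => (z - c).re) c r = 0 := by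
    have h1 : DiffContOnCl ℂ (fun z : ℂ => z - c) (ball c |r|) :=
      (differentiable_id.sub_const c).diffContOnCl
    have h2 := h1.circleAverage
    have h3 : CircleIntegrable (fun z : ℂ => z - c) c r :=
      (continuousOn_id.sub continuousOn_const : ContinuousOn (fun z : ℂ => z - c)
        (sphere c |r|)).circleIntegrable'
    have h4 := Complex.reCLM.circleAverage_comp_comm h3
    rw [h2] at h4
    have h5 : (Complex.reCLM ∘ fun z : ℂ => z - c) = fun z : ℂ => (z - c).re := by
      funext z; simp
    rw [h5] at h4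
    rw [h4]
    simp
  have hmajcont : ContinuousOn (fun z : ℂ => (B / 2) * (z - c).re - (A + B * r / 2))
      (sphere c |r|) := (continuousOn_const.mul hlin).sub continuousOn_const
  have hmaj : CircleIntegrable (fun z : ℂ => (B / 2) * (z - c).re - (A + B * r / 2)) c r :=
    hmajcont.circleIntegrable'
  have hle : circleAverage (fun z : ℂ => (B / 2) * (z - c).re - (A + B * r / 2)) c r ≤
      circleAverage (fun z => (z - c).re * Real.log ‖f z‖) c r := by
    apply circleAverage_mono hmaj hint
    intro z hz
    rw [abs_of_pos hr0] at hz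
    have hz' : ‖z - c‖ = r := by simpa [dist_eq_norm] using hz
    have hzc : z ∈ closedBall c (1 / 2) := hsub (sphere_subset_closedBall hz)
    have hx := Complex.abs_re_le_norm (z - c)
    rw [hz'] at hx
    have hx' := abs_le.1 hx
    rcases le_or_gt (z - c).re 0 with h | h
    · have h1 := hup z hzc
      nlinarith
    · have h1 := hlow z hzc (by rw [Complex.sub_re] at h; linarith)
      rw [← Complex.sub_re] at h1
      have h2 : -A ≤ (z - c).re * Real.log ‖f z‖ := by
        have h3 := mul_le_mul_of_nonneg_left h1 h.le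
        have h4 : (z - c).re * -(A / (z - c).re) = -A := by
          field_simp
        linarith
      nlinarith
  have hval : circleAverage (fun z : ℂ => (B / 2) * (z - c).re - (A + B * r / 2)) c r =
      -(A + B * r / 2) := by
    have h1 : CircleIntegrable (fun z : ℂ => (B / 2) * (z - c).re) c r :=
      (continuousOn_const.mul hlin : ContinuousOn (fun z : ℂ => (B / 2) * (z - c).re)
        (sphere c |r|)).circleIntegrable'
    rw [circleAverage_fun_sub h1 (circleIntegrable_const _ _ _)]
    have h2 : circleAverage (fun z : ℂ => (B / 2) * (z - c).re) c r = 0 := by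
      have := circleAverage_fun_smul (a := (B / 2)) (f := fun z : ℂ => (z - c).re) (c := c) (R := r)
      simp only [smul_eq_mul] at this
      rw [this, hmean, mul_zero]
    rw [h2, circleAverage_const]
    ring
  rw [hval] at hle
  have hr2 : 0 < r ^ 2 := by positivity
  have h6 : (2 / r ^ 2) * (-(A + B * r / 2)) ≤
      (2 / r ^ 2) * circleAverage (fun z => (z - c).re * Real.log ‖f z‖) c r :=
    mul_le_mul_of_nonneg_left hle (by positivity)
  refine le_trans ?_ h6
  have h7 : (2 / r ^ 2) * (-(A + B * r / 2)) = -(2 / r ^ 2) * A - B / r := by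
    field_simp
    ring
  rw [h7]
  have h8 : B / r ≤ B / (49 / 100) := by
    gcongr
    exact hr.1.le
  have h9 : 2 / r ^ 2 ≤ 9 := by
    rw [div_le_iff₀ hr2]
    nlinarith [hr.1]
  nlinarith

end Pool.Agent.H6
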