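import Mathlib
import Pool.Agent.H6.LiouvilleSum

/-!
For every `N` there is a prime `q` whose Legendre symbol agrees with Liouville's function up to `N`.
-/

open Filter Topology Set

namespace Pool.Agent.H6

/-- a nonresidue modulo `p` (`5` for `p = 2`) -/
lemma exists_target (p : ℕ) (hp : p.Prime) : ∃ a : ℕ,
    (p = 2 → a = 5) ∧ (p ≠ 2 → ∃ h : Fact p.Prime, legendreSym p (a : ℤ) = -1) := by
  by_cases h2 : p = 2
  · exact ⟨5, fun _ ↦ rfl, fun h ↦ absurd h2 h⟩
  · have : Fact p.Prime := ⟨hp⟩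
    obtain ⟨x, hx⟩ := FiniteField.exists_nonsquare (F := ZMod p) (by rwa [ZMod.ringChar_zmod_n])
    refine ⟨x.val, fun h ↦ absurd h h2, fun _ ↦ ⟨⟨hp⟩, ?_⟩⟩
    rw [legendreSym.eq_neg_one_iff]
    simpa using hx

/-- the modulus attached to `p` -/
def modu (p : ℕ) : ℕ := if p = 2 then 8 else p

lemma modu_coprime {p q : ℕ} (hp : p.Prime) (hq : q.Prime) (hpq : p ≠ q) :
    Nat.Coprime (modu p) (modu q) := by
  unfold modu
  split_ifs with h1 h2 h2
  · exact absurd (h1.trans h2.symm) hpq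
  · have : Nat.Coprime 2 q := by
      rw [Nat.coprime_primes Nat.prime_two hq]
      exact fun h ↦ h2 h.symm
    exact Nat.Coprime.pow_left 3 this
  · have : Nat.Coprime p 2 := by
      rw [Nat.coprime_primes hp Nat.prime_two]
      exact h1
    exact Nat.Coprime.pow_right 3 this
  · rwa [Nat.coprime_primes hp hq]

lemma modu_ne_zero {p : ℕ} (hp : p.Prime) : modu p ≠ 0 := by
  unfold modu
  split_ifs
  · norm_num
  · exact hp.ne_zero

theorem exists_prime_legendre (N : ℕ) : ∃ (q : ℕ) (_ : Fact q.Prime), N < q ∧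
    ∀ p : ℕ, p.Prime → p ≤ N → legendreSym q (p : ℤ) = -1 := by
  classical
  set t : Finset ℕ := (Finset.range (N + 3)).filter Nat.Prime with ht
  have htp : ∀ p ∈ t, p.Prime := fun p hp ↦ (Finset.mem_filter.mp hp).2
  have hchoose : ∀ p : ℕ, ∃ a : ℕ, p.Prime →
      ((p = 2 → a = 5) ∧ (p ≠ 2 → ∃ h : Fact p.Prime, legendreSym p (a : ℤ) = -1)) := by
    intro p
    by_cases hp : p.Prime
    · obtain ⟨a, ha⟩ := exists_target p hp
      exact ⟨a, fun _ ↦ ha⟩
    · exact ⟨0, fun h ↦ absurd h hp⟩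
  choose a ha using hchoose
  have hpair : Set.Pairwise (t : Set ℕ) (Function.onFun Nat.Coprime modu) := by
    intro p hp q hq hpq
    exact modu_coprime (htp p hp) (htp q hq) hpq
  obtain ⟨k, hk⟩ := Nat.chineseRemainderOfFinset a modu t
    (fun p hp ↦ modu_ne_zero (htp p hp)) hpair
  set M : ℕ := ∏ p ∈ t, modu p with hM
  have hM0 : M ≠ 0 := Finset.prod_ne_zero_iff.mpr fun p hp ↦ modu_ne_zero (htp p hp)
  have hcop : Nat.Coprime k M := by
    rw [hM]
    refine Nat.Coprime.prod_right fun p hp ↦ ?_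
    have hkp := hk p hp
    have hpp := htp p hp
    have h1 : Nat.gcd k (modu p) = Nat.gcd (a p) (modu p) := hkp.gcd_eq
    rw [Nat.Coprime, h1]
    by_cases h2 : p = 2
    · rw [(ha p hpp).1 h2, modu, if_pos h2]
      norm_num
    · obtain ⟨hf, hl⟩ := (ha p hpp).2 h2
      rw [modu, if_neg h2]
      have : ¬ p ∣ a p := by
        intro hd
        have h0 : ((a p : ℤ) : ZMod p) = 0 := by
          push_cast
          exact (ZMod.natCast_eq_zero_iff _ _).mpr hd
        rw [(legendreSym.eq_zero_iff p _).mpr h0] at hl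
        norm_num at hl
      exact ((Nat.Prime.coprime_iff_not_dvd hpp).mpr this).symm
  obtain ⟨q, hqN, hqp, hqk⟩ := Nat.forall_exists_prime_gt_and_modEq (N + 3) hM0 hcop
  have hqf : Fact q.Prime := ⟨hqp⟩
  refine ⟨q, hqf, by omega, fun p hp hpN ↦ ?_⟩
  have hpt : p ∈ t := Finset.mem_filter.mpr ⟨Finset.mem_range.mpr (by omega), hp⟩
  have h2t : 2 ∈ t := Finset.mem_filter.mpr ⟨Finset.mem_range.mpr (by omega), Nat.prime_two⟩
  have hmod : ∀ r ∈ t, q ≡ a r [MOD modu r] := by
    intro r hr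
    have h1 : modu r ∣ M := Finset.dvd_prod_of_mem _ hr
    exact (hqk.of_dvd h1).trans (hk r hr)
  have hq8 : q % 8 = 5 := by
    have h1 := hmod 2 h2t
    rw [(ha 2 Nat.prime_two).1 rfl] at h1
    have h2 : modu 2 = 8 := by simp [modu]
    rw [h2] at h1
    have h3 : q % 8 = 5 % 8 := h1
    omega
  have hq4 : q % 4 = 1 := by omega
  have hq2 : q ≠ 2 := by omega
  by_cases h2 : p = 2
  · rw [h2]
    have h3 := legendreSym.at_two (p := q) hq2
    push_cast
    rw [h3, ZMod.χ₈_nat_eq_if_mod_eight, if_neg (by omega), if_neg (by omega)]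
  · have hpf : Fact p.Prime := ⟨hp⟩
    rw [← legendreSym.quadratic_reciprocity_one_mod_four hq4 h2]
    obtain ⟨hf, hl⟩ := (ha p hp).2 h2
    have h1 := hmod p hpt
    rw [modu, if_neg h2] at h1
    have h3 : legendreSym p (q : ℤ) = legendreSym p (a p : ℤ) := by
      rw [legendreSym.mod p (q : ℤ), legendreSym.mod p (a p : ℤ)]
      congr 1
      exact (Int.natCast_modEq_iff.mpr h1)
    rw [h3]
    exact hl

/-- agreement with Liouville's function -/
lemma legendre_eq_liou {N q : ℕ} [Fact q.Prime]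
    (h : ∀ p : ℕ, p.Prime → p ≤ N → legendreSym q (p : ℤ) = -1) :
    ∀ n : ℕ, 1 ≤ n → n ≤ N → legendreSym q (n : ℤ) = liouZ n := by
  intro n
  induction n using Nat.recOnMul with
  | zero => intro h1; omega
  | one => intro _ _; simp [legendreSym.at_one]
  | prime p hp => intro _ hpN; rw [h p hp hpN, liouZ_prime hp]
  | mul a b iha ihb =>
    intro h1 hN
    have ha : a ≠ 0 := by rintro rfl; simp at h1
    have hb : b ≠ 0 := by rintro rfl; simp at h1
    have haN : a ≤ N := (Nat.le_mul_of_pos_right a (Nat.pos_of_ne_zero hb)).trans hN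
    have hbN : b ≤ N := (Nat.le_mul_of_pos_left b (Nat.pos_of_ne_zero ha)).trans hN
    rw [map_mul, ← iha (by omega) haN, ← ihb (by omega) hbN]
    push_cast
    exact legendreSym.mul q _ _

end Pool.Agent.H6
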