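import Mathlib
import Pool.Agent.H6.LiouLoc

/-!
The main estimate: `∑_{n ≤ M} λ(n)/n = O(M^{-κ})` when `ζ` has no zero in `re s > 1 - δ`,
`|im s| ≤ M`, for `κ < δ ≤ 1/2`, with a uniform constant.
-/

open Complex LSeries Filter Topology MeasureTheory Set

namespace Pool.Agent.H6

theorem liouville_local {δ κ : ℝ} (hκ0 : 0 < κ) (hκδ : κ < δ) (hδ : δ ≤ 1 / 2) :
    ∃ C : ℝ, 0 < C ∧ ∀ M : ℕ, 1 ≤ M →
      (∀ s : ℂ, 1 - δ < s.re → |s.im| ≤ M → riemannZeta s ≠ 0) →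
      ‖∑ n ∈ Finset.Icc 1 M, liouCoeff n‖ ≤ C * (M : ℝ) ^ (-κ) := by
  set θ : ℝ := 1 - δ with hθd
  have hθ : 1 / 2 ≤ θ := by rw [hθd]; linarith
  have hθ1 : θ < 1 := by rw [hθd]; linarith
  set σ : ℝ := 1 - (δ + κ) / 2 with hσd
  have hσ : θ < σ := by rw [hθd, hσd]; linarith
  have hσ1 : σ < 1 := by rw [hσd]; linarith
  set τ : ℝ := (δ - κ) / 2 with hτd
  have hτ0 : 0 < τ := by rw [hτd]; linarith
  have hτ1 : τ < 1 / 4 := by rw [hτd]; linarith
  have hτκ : 4 * τ ≤ 1 - 2 * κ := by rw [hτd]; linarith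
  obtain ⟨C₁, T₀, hC1, hT0, hinv⟩ := inv_zetaPole_loc hθ hθ1 hσ hσ1.le (η := τ / 2) (by linarith)
  set Z₀ : ℝ := ∑' n : ℕ, 1 / (n : ℝ) ^ (2 * σ) with hZ0
  have hZ0nn : 0 ≤ Z₀ := tsum_nonneg fun n ↦ by positivity
  have hz2 : ∀ w : ℂ, σ ≤ w.re → ‖riemannZeta (2 * w)‖ ≤ Z₀ := by
    intro w hw
    exact norm_riemannZeta_le (by linarith) (by simp; linarith)
  set u : ℝ := 1 + τ with hu
  set S₀ : ℝ := ∑' n : ℕ, 1 / (n : ℝ) ^ u with hS0
  have hS0nn : 0 ≤ S₀ := tsum_nonneg fun n ↦ by positivity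
  have hinvu : ∀ w : ℂ, u ≤ w.re → ‖(riemannZeta w)⁻¹‖ ≤ S₀ := by
    intro w hw
    exact norm_inv_riemannZeta_le (by rw [hu]; linarith) hw
  set J : ℝ := ∫ y : ℝ, (1 + |y|) ^ (-(1 + τ / 2)) with hJ
  have hJnn : 0 ≤ J := integral_nonneg fun y ↦ by positivity
  have hJint := integrable_one_add_abs_rpow (p := 1 + τ / 2) (by linarith)
  set M₀ : ℝ := max T₀ 4 with hM0
  set A₁ : ℝ := 24 * Z₀ * C₁ * J with hA1
  set A₂ : ℝ := 256 * Z₀ * C₁ with hA2
  set A₃ : ℝ := 64 * Z₀ * S₀ * J with hA3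
  refine ⟨M₀ ^ (1 + κ) + (A₁ + A₂ + A₃ + 1), by positivity, fun M hM hZ ↦ ?_⟩
  have hMr : (1 : ℝ) ≤ M := by exact_mod_cast hM
  have hMp : (0 : ℝ) < M := by linarith
  have hMκ : 0 < (M : ℝ) ^ (-κ) := by positivity
  rcases lt_or_ge (M : ℝ) M₀ with hsm | hlg
  · -- small `M`
    have h1 : ‖∑ n ∈ Finset.Icc 1 M, liouCoeff n‖ ≤ M := by
      refine (norm_sum_le _ _).trans ?_
      calc ∑ n ∈ Finset.Icc 1 M, ‖liouCoeff n‖ ≤ ∑ n ∈ Finset.Icc 1 M, (1 : ℝ) := by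
            refine Finset.sum_le_sum fun n hn ↦ ?_
            rw [Finset.mem_Icc] at hn
            have hn1 : (1 : ℝ) ≤ n := by exact_mod_cast hn.1
            unfold liouCoeff
            rw [norm_div, norm_natCast, div_le_one (by linarith)]
            exact (norm_liouZ_le n).trans hn1
        _ = M := by simp
    have h2 : (M : ℝ) = (M : ℝ) ^ (1 + κ) * (M : ℝ) ^ (-κ) := by
      rw [← Real.rpow_add hMp]; simp
    calc _ ≤ (M : ℝ) := h1
      _ = (M : ℝ) ^ (1 + κ) * (M : ℝ) ^ (-κ) := h2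
      _ ≤ M₀ ^ (1 + κ) * (M : ℝ) ^ (-κ) := by gcongr
      _ ≤ (M₀ ^ (1 + κ) + (A₁ + A₂ + A₃ + 1)) * (M : ℝ) ^ (-κ) := by
          gcongr
          have : 0 ≤ A₁ + A₂ + A₃ + 1 := by positivity
          linarith
  · have hMT : T₀ ≤ M := (le_max_left _ _).trans hlg
    have hM4 : (4 : ℝ) ≤ M := (le_max_right _ _).trans hlg
    set T : ℝ := (M : ℝ) - 2 with hT
    have hTM : (M : ℝ) / 2 ≤ T := by rw [hT]; linarith
    have hT2 : 2 ≤ T := by rw [hT]; linarith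
    have hinvM := hinv M hMT hZ
    set h : ℝ := (M : ℝ) ^ (1 - κ) with hh
    have hh1 : 1 ≤ h := Real.one_le_rpow hMr (by linarith)
    have hh0 : 0 < h := by linarith
    have hhM : h ≤ M := by
      calc h ≤ (M : ℝ) ^ (1 : ℝ) := Real.rpow_le_rpow_of_exponent_le hMr (by linarith)
        _ = M := Real.rpow_one _
    have hhκ : h * (M : ℝ) ^ (-κ) = (M : ℝ) ^ (1 - 2 * κ) := by
      rw [hh, ← Real.rpow_add hMp]; ring_nf
    -- Perron
    have hsum1 : LSeriesSummable liouCoeff (τ : ℂ) := by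
      unfold LSeriesSummable
      rw [term_liouCoeff]
      exact LSeriesSummable_liou (by simp [hτ0])
    have hP := perronR hτ0 hsum1 (X₁ := M) (X₂ := M + h) hMp (by linarith) (K := 2 * M)
      (by push_cast; linarith)
    set Φ : ℂ → ℂ := liouPhiR (M : ℝ) (M + h) with hΦ
    have hPphi : ∀ y : ℝ, kernR (M : ℝ) (M + h) ((τ : ℂ) + y * I) * LSeries liouCoeff ((τ : ℂ) + y * I)
        = Φ ((u : ℂ) + y * I) := by
      intro y
      rw [kernR_mul_LSeries (by simp [hτ0])]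
      congr 1
      rw [hu]
      push_cast
      ring
    simp_rw [hPphi] at hP
    have hre : ∀ x y : ℝ, ((x : ℂ) + y * I).re = x := by intro x y; simp
    have him : ∀ x y : ℝ, ((x : ℂ) + y * I).im = y := by intro x y; simp
    have hzp : ∀ s : ℂ, θ < s.re → |s.im| ≤ M → zetaPole s ≠ 0 := by
      intro s hs hs2
      rcases eq_or_ne s 1 with rfl | h1
      · rw [zetaPole_one]; exact one_ne_zero
      · rw [zetaPole_of_ne h1]
        exact mul_ne_zero (sub_ne_zero.mpr h1) (hZ s hs hs2)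
    have hdiffgen : ∀ w : ℂ, σ ≤ w.re → zetaPole w ≠ 0 → DifferentiableAt ℂ Φ w := by
      intro w hw hzw
      have hw0 : w ≠ 0 := by intro h; rw [h, zero_re] at hw; linarith
      have h2w : (2 * w) ≠ 1 := by
        intro h
        have := congrArg Complex.re h
        simp at this
        linarith
      have hNc : (((M : ℝ) + h : ℝ) : ℂ) ≠ 0 := by
        have : (0 : ℝ) < M + h := by linarith
        exact_mod_cast this.ne'
      have hNc' : (((M : ℝ) : ℝ) : ℂ) ≠ 0 := by exact_mod_cast hMp.ne'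
      have d1 : DifferentiableAt ℂ (fun w : ℂ ↦ (((M : ℝ) + h : ℝ) : ℂ) ^ w) w :=
        differentiableAt_id.const_cpow (Or.inl hNc)
      have d2 : DifferentiableAt ℂ (fun w : ℂ ↦ ((M : ℝ) : ℂ) ^ w) w :=
        differentiableAt_id.const_cpow (Or.inl hNc')
      have d3 : DifferentiableAt ℂ (fun w : ℂ ↦ riemannZeta (2 * w)) w :=
        DifferentiableAt.comp w (differentiableAt_riemannZeta h2w) (by fun_prop)
      have d4 : DifferentiableAt ℂ (fun w : ℂ ↦ (zetaPole w)⁻¹) w :=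
        (zetaPole_differentiable w).inv hzw
      exact (((d1.sub d2).div differentiableAt_id hw0).mul d3).mul d4
    -- bound on the line `re = u`
    have hline : ∀ y : ℝ, y ≠ 0 → ‖Φ ((u : ℂ) + y * I)‖ ≤
        (8 * (M : ℝ) ^ u * Z₀ * S₀) * (|y| ^ 2)⁻¹ := by
      intro y hy
      set w : ℂ := (u : ℂ) + y * I with hw
      have hwre : w.re = u := hre u y
      have hwim : w.im = y := him u y
      have hyp : 0 < |y| := abs_pos.mpr hy
      have hwn : |y| ≤ ‖w‖ := by rw [← hwim]; exact abs_im_le_norm w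
      have hw1n : |y| ≤ ‖w - 1‖ := by
        have := abs_im_le_norm (w - 1)
        rwa [sub_im, one_im, sub_zero, hwim] at this
      have hw1 : w ≠ 1 := by
        intro h2
        rw [h2, one_im] at hwim
        exact hy hwim.symm
      have b1 : ‖(((M : ℝ) + h : ℝ) : ℂ) ^ w - ((M : ℝ) : ℂ) ^ w‖ ≤ 8 * (M : ℝ) ^ u := by
        have := norm_cpow_sub_le' hMr hh0.le hhM (w := w) (by rw [hwre, hu]; linarith)
          (by rw [hwre, hu]; linarith)
        rwa [hwre] at this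
      have b2 := hz2 w (by rw [hwre, hu]; linarith)
      have b3 : ‖(zetaPole w)⁻¹‖ ≤ |y|⁻¹ * S₀ := by
        rw [zetaPole_of_ne hw1, mul_inv, norm_mul, norm_inv]
        have := hinvu w (by rw [hwre])
        gcongr
      rw [hΦ, liouPhiR, norm_mul, norm_mul, norm_div]
      calc ‖(((M : ℝ) + h : ℝ) : ℂ) ^ w - ((M : ℝ) : ℂ) ^ w‖ / ‖w‖ * ‖riemannZeta (2 * w)‖ *
            ‖(zetaPole w)⁻¹‖
          ≤ (8 * (M : ℝ) ^ u) / |y| * Z₀ * (|y|⁻¹ * S₀) := by gcongr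
        _ = _ := by
            rw [sq, mul_inv]
            ring
    -- bound in the rectangle for `zetaPole`
    have hinvT : ∀ w : ℂ, σ ≤ w.re → w.re ≤ 2 → |w.im| ≤ T →
        ‖(zetaPole w)⁻¹‖ ≤ C₁ * (1 + |w.im|) ^ (τ / 2 - 1) := hinvM
    -- left line
    have hleft : ∀ y : ℝ, |y| ≤ T → ‖Φ ((σ : ℂ) + y * I)‖ ≤
        (24 * Z₀ * C₁) * (h * (M : ℝ) ^ (-κ)) * (1 + |y|) ^ (-(1 + τ / 2)) := by
      intro y hy
      set w : ℂ := (σ : ℂ) + y * I with hw
      have hwre : w.re = σ := hre σ y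
      have hwim : w.im = y := him σ y
      have hpos : 0 < 1 + |y| := by linarith [abs_nonneg y]
      have hw3 := one_add_abs_le_norm (w := w) (by rw [hwre]; linarith)
      rw [hwim] at hw3
      have hwpos : 0 < ‖w‖ := by linarith
      have b1 : ‖(((M : ℝ) + h : ℝ) : ℂ) ^ w - ((M : ℝ) : ℂ) ^ w‖ ≤ 8 * (M : ℝ) ^ σ := by
        have := norm_cpow_sub_le' hMr hh0.le hhM (w := w) (by rw [hwre]; linarith)
          (by rw [hwre]; linarith)
        rwa [hwre] at this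
      have b1' : ‖(((M : ℝ) + h : ℝ) : ℂ) ^ w - ((M : ℝ) : ℂ) ^ w‖
          ≤ ‖w‖ * (M : ℝ) ^ (σ - 1) * h := by
        have := norm_cpow_sub_le hMp hh0.le (w := w) (by rw [hwre]; linarith)
          (by rw [hwre]; linarith)
        rwa [hwre] at this
      set D : ℝ := ‖(((M : ℝ) + h : ℝ) : ℂ) ^ w - ((M : ℝ) : ℂ) ^ w‖ with hD
      have hD0 : 0 ≤ D := norm_nonneg _
      have b2 : D ≤ 8 * (h * (M : ℝ) ^ (-κ)) * ‖w‖ ^ (1 - τ) := by
        have e1 : D ^ τ ≤ (8 * (M : ℝ) ^ σ) ^ τ := Real.rpow_le_rpow hD0 b1 hτ0.le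
        have e2 : D ^ (1 - τ) ≤ (‖w‖ * (M : ℝ) ^ (σ - 1) * h) ^ (1 - τ) :=
          Real.rpow_le_rpow hD0 b1' (by linarith)
        have e3 : D = D ^ τ * D ^ (1 - τ) := by
          rw [← Real.rpow_add_of_nonneg hD0 hτ0.le (by linarith)]
          simp
        have e4 : (8 : ℝ) ^ τ ≤ 8 := by
          calc (8 : ℝ) ^ τ ≤ 8 ^ (1 : ℝ) :=
                Real.rpow_le_rpow_of_exponent_le (by norm_num) (by linarith)
            _ = 8 := Real.rpow_one 8
        have e5 : ((M : ℝ) ^ σ) ^ τ * ((M : ℝ) ^ (σ - 1)) ^ (1 - τ) = (M : ℝ) ^ (-κ) := by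
          rw [← Real.rpow_mul hMp.le, ← Real.rpow_mul hMp.le, ← Real.rpow_add hMp]
          congr 1
          have h9 : σ = 1 - κ - τ := by rw [hσd, hτd]; ring
          rw [h9]
          ring
        have e6 : h ^ (1 - τ) ≤ h := by
          calc h ^ (1 - τ) ≤ h ^ (1 : ℝ) := Real.rpow_le_rpow_of_exponent_le hh1 (by linarith)
            _ = h := Real.rpow_one h
        rw [e3]
        calc D ^ τ * D ^ (1 - τ) ≤ (8 * (M : ℝ) ^ σ) ^ τ * (‖w‖ * (M : ℝ) ^ (σ - 1) * h) ^ (1 - τ) := by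
              gcongr
          _ = 8 ^ τ * (((M : ℝ) ^ σ) ^ τ * ((M : ℝ) ^ (σ - 1)) ^ (1 - τ)) * ‖w‖ ^ (1 - τ) *
              h ^ (1 - τ) := by
              rw [Real.mul_rpow (by norm_num) (by positivity), Real.mul_rpow (by positivity)
                (by positivity), Real.mul_rpow (by positivity) (by positivity)]
              ring
          _ = 8 ^ τ * (M : ℝ) ^ (-κ) * ‖w‖ ^ (1 - τ) * h ^ (1 - τ) := by rw [e5]
          _ ≤ 8 * (M : ℝ) ^ (-κ) * ‖w‖ ^ (1 - τ) * h := by gcongr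
          _ = _ := by ring
      have b3 := hz2 w (by rw [hwre])
      have b4 := hinvT w (by rw [hwre]) (by rw [hwre]; linarith) (by rw [hwim]; exact hy)
      rw [hwim] at b4
      have b5 : ‖w‖ ^ (-τ) ≤ 3 * (1 + |y|) ^ (-τ) := by
        have f1 : (1 + |y|) / 3 ≤ ‖w‖ := by linarith
        have f2 : ‖w‖ ^ (-τ) ≤ ((1 + |y|) / 3) ^ (-τ) :=
          Real.rpow_le_rpow_of_nonpos (by positivity) f1 (by linarith)
        refine f2.trans ?_
        rw [Real.div_rpow hpos.le (by norm_num), Real.rpow_neg (by norm_num : (0:ℝ) ≤ 3),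
          div_inv_eq_mul, mul_comm]
        gcongr
        calc (3 : ℝ) ^ τ ≤ 3 ^ (1 : ℝ) :=
              Real.rpow_le_rpow_of_exponent_le (by norm_num) (by linarith)
          _ = 3 := Real.rpow_one 3
      rw [hΦ, liouPhiR, norm_mul, norm_mul, norm_div, ← hD]
      have hwτ : ‖w‖ ^ (1 - τ) / ‖w‖ = ‖w‖ ^ (-τ) := by
        rw [div_eq_iff hwpos.ne', ← Real.rpow_add_one hwpos.ne']
        congr 1
        ring
      calc D / ‖w‖ * ‖riemannZeta (2 * w)‖ * ‖(zetaPole w)⁻¹‖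
          ≤ (8 * (h * (M : ℝ) ^ (-κ)) * ‖w‖ ^ (1 - τ)) / ‖w‖ * Z₀ *
            (C₁ * (1 + |y|) ^ (τ / 2 - 1)) := by gcongr
        _ = 8 * Z₀ * C₁ * (h * (M : ℝ) ^ (-κ)) * (‖w‖ ^ (1 - τ) / ‖w‖) *
            (1 + |y|) ^ (τ / 2 - 1) := by ring
        _ = 8 * Z₀ * C₁ * (h * (M : ℝ) ^ (-κ)) * ‖w‖ ^ (-τ) * (1 + |y|) ^ (τ / 2 - 1) := by
            rw [hwτ]
        _ ≤ 8 * Z₀ * C₁ * (h * (M : ℝ) ^ (-κ)) * (3 * (1 + |y|) ^ (-τ)) *
            (1 + |y|) ^ (τ / 2 - 1) := by gcongr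
        _ = (24 * Z₀ * C₁) * (h * (M : ℝ) ^ (-κ)) *
            ((1 + |y|) ^ (-τ) * (1 + |y|) ^ (τ / 2 - 1)) := by ring
        _ = _ := by
            rw [← Real.rpow_add hpos]
            congr 2
            ring
    -- horizontal sides
    have hhor : ∀ w : ℂ, σ ≤ w.re → w.re ≤ u → |w.im| = T → ‖Φ w‖ ≤
        32 * Z₀ * C₁ * (M : ℝ) ^ (u - 2 + τ / 2) := by
      intro w hw1 hw2 hw3
      have hT0' : 0 < T := by linarith
      have hwn : T ≤ ‖w‖ := by rw [← hw3]; exact abs_im_le_norm w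
      have b1 : ‖(((M : ℝ) + h : ℝ) : ℂ) ^ w - ((M : ℝ) : ℂ) ^ w‖ ≤ 8 * (M : ℝ) ^ u := by
        refine (norm_cpow_sub_le' hMr hh0.le hhM (w := w) (by linarith)
          (by rw [hu] at hw2; linarith)).trans ?_
        have : (M : ℝ) ^ w.re ≤ (M : ℝ) ^ u := Real.rpow_le_rpow_of_exponent_le hMr hw2
        linarith
      have b3 := hz2 w hw1
      have b4 := hinvT w hw1 (by rw [hu] at hw2; linarith) hw3.le
      rw [hw3] at b4
      have b5 : (1 + T) ^ (τ / 2 - 1) ≤ 2 * (M : ℝ) ^ (τ / 2 - 1) := by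
        have f1 : (M : ℝ) / 2 ≤ 1 + T := by linarith
        have f2 : (1 + T) ^ (τ / 2 - 1) ≤ ((M : ℝ) / 2) ^ (τ / 2 - 1) :=
          Real.rpow_le_rpow_of_nonpos (by positivity) f1 (by linarith)
        refine f2.trans ?_
        rw [Real.div_rpow hMp.le (by norm_num)]
        have f3 : (2 : ℝ) ^ (τ / 2 - 1) = (2 ^ (1 - τ / 2))⁻¹ := by
          rw [← Real.rpow_neg (by norm_num)]; congr 1; ring
        rw [f3, div_inv_eq_mul, mul_comm]
        gcongr
        calc (2 : ℝ) ^ (1 - τ / 2) ≤ 2 ^ (1 : ℝ) :=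
              Real.rpow_le_rpow_of_exponent_le (by norm_num) (by linarith)
          _ = 2 := Real.rpow_one 2
      have b6 : 1 / T ≤ 2 * (M : ℝ) ^ (-1 : ℝ) := by
        rw [Real.rpow_neg_one, ← div_eq_mul_inv, div_le_div_iff₀ hT0' hMp]
        linarith
      rw [hΦ, liouPhiR, norm_mul, norm_mul, norm_div]
      calc ‖(((M : ℝ) + h : ℝ) : ℂ) ^ w - ((M : ℝ) : ℂ) ^ w‖ / ‖w‖ * ‖riemannZeta (2 * w)‖ *
            ‖(zetaPole w)⁻¹‖
          ≤ (8 * (M : ℝ) ^ u) / T * Z₀ * (C₁ * (2 * (M : ℝ) ^ (τ / 2 - 1))) := by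
            gcongr
            exact b4.trans (by gcongr)
        _ = 16 * Z₀ * C₁ * ((M : ℝ) ^ u * (M : ℝ) ^ (τ / 2 - 1)) * (1 / T) := by ring
        _ ≤ 16 * Z₀ * C₁ * ((M : ℝ) ^ u * (M : ℝ) ^ (τ / 2 - 1)) * (2 * (M : ℝ) ^ (-1 : ℝ)) := by
            gcongr
        _ = 32 * Z₀ * C₁ * ((M : ℝ) ^ u * (M : ℝ) ^ (τ / 2 - 1) * (M : ℝ) ^ (-1 : ℝ)) := by ring
        _ = _ := by
            rw [← Real.rpow_add hMp, ← Real.rpow_add hMp]
            congr 2
            ring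
    -- central part
    have hT0 : 0 ≤ T := by linarith
    have hcentral := rect_bound (Φ := Φ) (l := σ) (u := u) (T := T)
      (H := 32 * Z₀ * C₁ * (M : ℝ) ^ (u - 2 + τ / 2)) (by rw [hu]; linarith) hT0
      (fun s h1 _ h3 ↦ hdiffgen s h1 (hzp s (by linarith) (by rw [hT] at h3; linarith))) hhor
    have hleftint : ‖∫ y : ℝ in (-T)..T, Φ ((σ : ℂ) + y * I)‖ ≤ A₁ * (h * (M : ℝ) ^ (-κ)) := by
      rw [intervalIntegral.integral_of_le (by linarith)]
      have h1 : ‖∫ y : ℝ in Ioc (-T) T, Φ ((σ : ℂ) + y * I)‖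
          ≤ ∫ y : ℝ in Ioc (-T) T, (24 * Z₀ * C₁) * (h * (M : ℝ) ^ (-κ)) *
            (1 + |y|) ^ (-(1 + τ / 2)) := by
        refine norm_integral_le_of_norm_le ((hJint.const_mul _).integrableOn) ?_
        filter_upwards [ae_restrict_mem measurableSet_Ioc] with y hy
        exact hleft y (abs_le.mpr ⟨hy.1.le, hy.2⟩)
      refine h1.trans ?_
      rw [integral_const_mul]
      have h2 : ∫ y : ℝ in Ioc (-T) T, (1 + |y|) ^ (-(1 + τ / 2)) ≤ J := by
        rw [hJ]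
        exact setIntegral_le_integral hJint (Eventually.of_forall fun y ↦ by positivity)
      calc (24 * Z₀ * C₁) * (h * (M : ℝ) ^ (-κ)) * ∫ y : ℝ in Ioc (-T) T, (1 + |y|) ^ (-(1 + τ / 2))
          ≤ (24 * Z₀ * C₁) * (h * (M : ℝ) ^ (-κ)) * J := by gcongr
        _ = _ := by rw [hA1]; ring
    -- tail
    have hone : ∀ y : ℝ, ContinuousAt Φ ((u : ℂ) + y * I) := by
      intro y
      refine (hdiffgen _ (by rw [hre, hu]; linarith) ?_).continuousAt
      rcases eq_or_ne ((u : ℂ) + y * I) 1 with h1 | h1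
      · rw [h1, zetaPole_one]; exact one_ne_zero
      · rw [zetaPole_of_ne h1]
        refine mul_ne_zero (sub_ne_zero.mpr h1) ?_
        exact riemannZeta_ne_zero_of_one_lt_re (by rw [hre, hu]; linarith)
    have hcontu : Continuous fun y : ℝ ↦ Φ ((u : ℂ) + y * I) := by
      rw [continuous_iff_continuousAt]
      intro y
      exact ContinuousAt.comp (f := fun y : ℝ ↦ (u : ℂ) + y * I) (hone y) (by fun_prop)
    have htailpt : ∀ y ∈ (Ioc (-T) T)ᶜ, ‖Φ ((u : ℂ) + y * I)‖ ≤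
        (64 * Z₀ * S₀) * (M : ℝ) ^ (u - 1 + τ / 2) * (1 + |y|) ^ (-(1 + τ / 2)) := by
      intro y hy
      have hyT : T ≤ |y| := by
        by_contra hcon
        push Not at hcon
        apply hy
        have := abs_lt.mp hcon
        exact ⟨this.1, this.2.le⟩
      have hy0 : 0 < |y| := by linarith
      have hpos : 0 < 1 + |y| := by linarith
      have h1 := hline y (abs_pos.mp hy0)
      have h2 : (|y| ^ 2)⁻¹ ≤ 4 * (1 + |y|) ^ (-(2 : ℝ)) := by
        rw [Real.rpow_neg hpos.le, Real.rpow_two, ← div_eq_mul_inv, inv_eq_one_div,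
          div_le_div_iff₀ (by positivity) (by positivity)]
        nlinarith
      have h3 : (1 + |y|) ^ (-(2 : ℝ)) = (1 + |y|) ^ (τ / 2 - 1) * (1 + |y|) ^ (-(1 + τ / 2)) := by
        rw [← Real.rpow_add hpos]; congr 1; ring
      have h4 : (1 + |y|) ^ (τ / 2 - 1) ≤ 2 * (M : ℝ) ^ (τ / 2 - 1) := by
        have f1 : (M : ℝ) / 2 ≤ 1 + |y| := by linarith
        have f2 : (1 + |y|) ^ (τ / 2 - 1) ≤ ((M : ℝ) / 2) ^ (τ / 2 - 1) :=
          Real.rpow_le_rpow_of_nonpos (by positivity) f1 (by linarith)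
        refine f2.trans ?_
        rw [Real.div_rpow hMp.le (by norm_num)]
        have f3 : (2 : ℝ) ^ (τ / 2 - 1) = (2 ^ (1 - τ / 2))⁻¹ := by
          rw [← Real.rpow_neg (by norm_num)]; congr 1; ring
        rw [f3, div_inv_eq_mul, mul_comm]
        gcongr
        calc (2 : ℝ) ^ (1 - τ / 2) ≤ 2 ^ (1 : ℝ) :=
              Real.rpow_le_rpow_of_exponent_le (by norm_num) (by linarith)
          _ = 2 := Real.rpow_one 2
      calc ‖Φ ((u : ℂ) + y * I)‖ ≤ (8 * (M : ℝ) ^ u * Z₀ * S₀) * (|y| ^ 2)⁻¹ := h1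
        _ ≤ (8 * (M : ℝ) ^ u * Z₀ * S₀) * (4 * (1 + |y|) ^ (-(2 : ℝ))) := by gcongr
        _ = (32 * Z₀ * S₀) * (M : ℝ) ^ u * ((1 + |y|) ^ (τ / 2 - 1) *
            (1 + |y|) ^ (-(1 + τ / 2))) := by rw [h3]; ring
        _ ≤ (32 * Z₀ * S₀) * (M : ℝ) ^ u * ((2 * (M : ℝ) ^ (τ / 2 - 1)) *
            (1 + |y|) ^ (-(1 + τ / 2))) := by gcongr
        _ = (64 * Z₀ * S₀) * ((M : ℝ) ^ u * (M : ℝ) ^ (τ / 2 - 1)) *
            (1 + |y|) ^ (-(1 + τ / 2)) := by ring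
        _ = _ := by
            rw [← Real.rpow_add hMp]
            congr 3
            ring
    have hint : Integrable fun y : ℝ ↦ Φ ((u : ℂ) + y * I) := by
      have h1 : IntegrableOn (fun y : ℝ ↦ Φ ((u : ℂ) + y * I)) (Ioc (-T) T) :=
        (hcontu.integrableOn_Icc (a := -T) (b := T)).mono_set Ioc_subset_Icc_self
      have h2 : IntegrableOn (fun y : ℝ ↦ Φ ((u : ℂ) + y * I)) (Ioc (-T) T)ᶜ := by
        refine Integrable.mono' (hJint.const_mul
          ((64 * Z₀ * S₀) * (M : ℝ) ^ (u - 1 + τ / 2))).integrableOn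
          hcontu.aestronglyMeasurable ?_
        filter_upwards [ae_restrict_mem measurableSet_Ioc.compl] with y hy
        exact htailpt y hy
      rw [← integrableOn_univ, ← Set.union_compl_self (Ioc (-T) T)]
      exact h1.union h2
    have htail : ‖∫ y : ℝ in (Ioc (-T) T)ᶜ, Φ ((u : ℂ) + y * I)‖
        ≤ A₃ * (M : ℝ) ^ (u - 1 + τ / 2) := by
      have h1 : ‖∫ y : ℝ in (Ioc (-T) T)ᶜ, Φ ((u : ℂ) + y * I)‖
          ≤ ∫ y : ℝ in (Ioc (-T) T)ᶜ, (64 * Z₀ * S₀) * (M : ℝ) ^ (u - 1 + τ / 2) *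
            (1 + |y|) ^ (-(1 + τ / 2)) := by
        refine norm_integral_le_of_norm_le ((hJint.const_mul _).integrableOn) ?_
        filter_upwards [ae_restrict_mem measurableSet_Ioc.compl] with y hy
        exact htailpt y hy
      refine h1.trans ?_
      rw [integral_const_mul]
      have h2 : ∫ y : ℝ in (Ioc (-T) T)ᶜ, (1 + |y|) ^ (-(1 + τ / 2)) ≤ J := by
        rw [hJ]
        exact setIntegral_le_integral hJint (Eventually.of_forall fun y ↦ by positivity)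
      calc (64 * Z₀ * S₀) * (M : ℝ) ^ (u - 1 + τ / 2) *
            ∫ y : ℝ in (Ioc (-T) T)ᶜ, (1 + |y|) ^ (-(1 + τ / 2))
          ≤ (64 * Z₀ * S₀) * (M : ℝ) ^ (u - 1 + τ / 2) * J := by gcongr
        _ = _ := by rw [hA3]; ring
    -- everything is at most `h M^{-κ}`
    have hsize : ∀ e : ℝ, e ≤ 1 - 2 * κ → (M : ℝ) ^ e ≤ h * (M : ℝ) ^ (-κ) := by
      intro e he
      rw [hhκ]
      exact Real.rpow_le_rpow_of_exponent_le hMr he
    have htot : ‖∫ y : ℝ, Φ ((u : ℂ) + y * I)‖ ≤ (A₁ + A₂ + A₃) * (h * (M : ℝ) ^ (-κ)) := by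
      rw [← integral_add_compl (measurableSet_Ioc (a := -T) (b := T)) hint]
      refine (norm_add_le _ _).trans ?_
      rw [← intervalIntegral.integral_of_le (by linarith)]
      have h1 := hsize (u - 2 + τ / 2) (by rw [hu]; linarith)
      have h2 := hsize (u - 1 + τ / 2) (by rw [hu]; linarith)
      have h3 : 2 * (32 * Z₀ * C₁ * (M : ℝ) ^ (u - 2 + τ / 2) * (u - σ))
          ≤ A₂ * (h * (M : ℝ) ^ (-κ)) := by
        have h4 : u - σ ≤ 4 := by rw [hu]; linarith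
        have h5 : 0 ≤ u - σ := by rw [hu]; linarith
        calc 2 * (32 * Z₀ * C₁ * (M : ℝ) ^ (u - 2 + τ / 2) * (u - σ))
            ≤ 2 * (32 * Z₀ * C₁ * (h * (M : ℝ) ^ (-κ)) * 4) := by gcongr
          _ = _ := by rw [hA2]; ring
      have h4 : A₃ * (M : ℝ) ^ (u - 1 + τ / 2) ≤ A₃ * (h * (M : ℝ) ^ (-κ)) := by gcongr
      calc _ ≤ (A₁ * (h * (M : ℝ) ^ (-κ)) + A₂ * (h * (M : ℝ) ^ (-κ)))
            + A₃ * (h * (M : ℝ) ^ (-κ)) := by
            refine add_le_add (hcentral.trans (add_le_add hleftint h3)) (htail.trans h4)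
        _ = _ := by ring
    have hpi : ‖(1 / (2 * Real.pi) : ℂ)‖ ≤ 1 := by
      have h1 : (1 / (2 * Real.pi) : ℂ) = ((1 / (2 * Real.pi) : ℝ) : ℂ) := by push_cast; rfl
      rw [h1, norm_real, Real.norm_of_nonneg (by positivity), div_le_one (by positivity)]
      have := Real.pi_gt_three
      linarith
    have hun := unsmooth hM hh0
    rw [hP, norm_mul] at hun
    have hh2 : h ^ 2 / M = h * (M : ℝ) ^ (-κ) := by
      have : (M : ℝ) ^ (-κ) = h / M := by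
        rw [hh, show (1 : ℝ) - κ = -κ + 1 by ring, Real.rpow_add hMp, Real.rpow_one]
        field_simp
      rw [this]
      ring
    rw [hh2] at hun
    rw [norm_mul, norm_real, Real.norm_of_nonneg hh0.le] at hun
    have hfin : h * ‖∑ n ∈ Finset.Icc 1 M, liouCoeff n‖
        ≤ h * ((A₁ + A₂ + A₃ + 1) * (M : ℝ) ^ (-κ)) := by
      calc h * ‖∑ n ∈ Finset.Icc 1 M, liouCoeff n‖
          ≤ ‖(1 / (2 * Real.pi) : ℂ)‖ * ‖∫ y : ℝ, Φ ((u : ℂ) + y * I)‖ + h * (M : ℝ) ^ (-κ) := hun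
        _ ≤ 1 * ((A₁ + A₂ + A₃) * (h * (M : ℝ) ^ (-κ))) + h * (M : ℝ) ^ (-κ) := by gcongr
        _ = _ := by ring
    have hfin2 := le_of_mul_le_mul_left hfin hh0
    refine hfin2.trans ?_
    have : 0 ≤ M₀ ^ (1 + κ) := by positivity
    refine mul_le_mul_of_nonneg_right ?_ hMκ.le
    linarith

end Pool.Agent.H6
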