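import Pool.Agent.H6.ZkStep

/-!
# The local (bounded distance) version of the descent

All statements are uniform over a set `S` of heights.
-/

set_option autoImplicit false

open Complex Metric Set Filter Topology

namespace Pool.Agent.H6

/-- `Z_k` has no zeros with real part `> α` within `h` of the heights in `S` (far from the real
axis) -/
def ZFS (S : Set ℝ) (k : ℕ) (α h : ℝ) : Prop := ∃ T : ℝ, ∀ t ∈ S, T ≤ |t| →
  ∀ z : ℂ, α < z.re → z.re ≤ 4 → |z.im - t| ≤ h → Zk k z ≠ 0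

/-- growth at most `|t|^{κ (σa - σ)^+ + ε}` within `h` of the heights in `S` -/
def GBS (S : Set ℝ) (f : ℂ → ℂ) (κ σa h : ℝ) : Prop := ∀ a b ε : ℝ, 0 < a → 0 < ε →
  ∃ C T : ℝ, 0 < C ∧ 3 ≤ T ∧ ∀ t ∈ S, T ≤ |t| → ∀ z : ℂ, a ≤ z.re → z.re ≤ b → |z.im - t| ≤ h →
    ‖f z‖ ≤ C * |t| ^ (κ * max 0 (σa - z.re) + ε)

lemma ZFS.mono {S : Set ℝ} {k : ℕ} {α α' h h' : ℝ} (hZ : ZFS S k α h) (h1 : α ≤ α')
    (h2 : h' ≤ h) : ZFS S k α' h' := by
  obtain ⟨T, hT⟩ := hZ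
  exact ⟨T, fun t ht hTt z hz h4 him => hT t ht hTt z (lt_of_le_of_lt h1 hz) h4 (him.trans h2)⟩

lemma im_ge_of {x t h T : ℝ} (h1 : |x - t| ≤ h) (h2 : T + h ≤ |t|) : T ≤ |x| := by
  have h3 := abs_sub_abs_le_abs_sub t x
  rw [abs_sub_comm] at h3
  linarith

lemma im_le_of {x t h : ℝ} (h1 : |x - t| ≤ h) : |x| ≤ |t| + h := by
  have h3 := abs_sub_abs_le_abs_sub x t
  linarith

/-- the logarithmic bounds near the heights of `S` -/
lemma ZFS_log {S : Set ℝ} (k : ℕ) {α α' η h : ℝ} (hα : 1 / 2 ≤ α) (h1 : α < α') (h2 : α' ≤ 1)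
    (hη : 0 < η) (hh : 0 ≤ h) (hZ : ZFS S k α (h + 2)) : ∃ T : ℝ, 3 ≤ T ∧ ∀ t ∈ S, T ≤ |t| →
      ∀ z : ℂ, α' ≤ z.re → z.re ≤ 2 → |z.im - t| ≤ h →
      Zk k z ≠ 0 ∧ |Real.log ‖Zk k z‖| ≤ η * Real.log |z.im| ∧
      ‖deriv (Zk k) z / Zk k z‖ ≤ η * Real.log |z.im| := by
  obtain ⟨T0, hZ0⟩ := hZ
  obtain ⟨T1, hT1, hl⟩ := Zk_log_local k hα h1 h2 hη
  refine ⟨max T0 (T1 + h), ?_, fun t ht htT z hz1 hz2 him => ?_⟩
  · exact le_trans (by linarith) (le_max_right _ _)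
  have q0 : T0 ≤ |t| := (le_max_left _ _).trans htT
  have q1 : T1 + h ≤ |t| := (le_max_right _ _).trans htT
  refine hl z hz1 hz2 (im_ge_of him q1) fun w hw => ?_
  obtain ⟨g1, g2, g3⟩ := mem_ball_cen hα hw
  refine hZ0 t ht q0 w g1 g2 ?_
  calc |w.im - t| ≤ |w.im - z.im| + |z.im - t| := abs_sub_le _ _ _
    _ ≤ h + 2 := by linarith

lemma GBS_succ {S : Set ℝ} {κ σa h : ℝ} (hκ : 0 ≤ κ) (hh : 0 ≤ h) {k : ℕ}
    (hG : GBS S (Zk k) κ σa (h + 1)) : GBS S (Zk (k + 1)) κ σa h := by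
  intro a b ε ha hε
  set r : ℝ := min (min (a / 2) (1 / 2)) (ε / (4 * (κ + 1))) with hr
  have hr0 : 0 < r := lt_min (lt_min (by linarith) (by norm_num)) (by positivity)
  have hr1 : r ≤ a / 2 := (min_le_left _ _).trans (min_le_left _ _)
  have hr2 : r ≤ 1 / 2 := (min_le_left _ _).trans (min_le_right _ _)
  have hr3 : κ * r ≤ ε / 4 := by
    have h1 : r ≤ ε / (4 * (κ + 1)) := min_le_right _ _
    rw [le_div_iff₀ (by positivity)] at h1
    nlinarith
  obtain ⟨C, T, hC, hT, h1⟩ := hG (a / 2) (b + 1) (ε / 4) (by linarith) (by linarith)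
  obtain ⟨C1, hC1, hlX⟩ := Xf_logDeriv_bound' (B := max b 1) (by positivity)
  refine ⟨C / r + (C1 + 1 + Real.log 2) * (2 / ε) * C, T + 1 + 2 * h, by positivity, by linarith,
    fun t ht htT z hza hzb him => ?_⟩
  have ht3 : 3 ≤ |t| := by linarith
  have hz1 : 3 ≤ |z.im| := im_ge_of him (by linarith)
  set e : ℝ := κ * max 0 (σa - z.re) + ε / 2 with he
  have hmax0 : 0 ≤ max 0 (σa - z.re) := le_max_left _ _
  have he0 : 0 ≤ e := by positivity
  have hbound : ∀ w, ‖w - z‖ ≤ r → ‖Zk k w‖ ≤ C * |t| ^ e := by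
    intro w hw
    obtain ⟨g1, g2, g3, g4⟩ := geo hw
    have h5 : |w.im - t| ≤ h + 1 := by
      have h6 := (abs_im_le_norm (w - z)).trans hw
      rw [sub_im] at h6
      calc |w.im - t| ≤ |w.im - z.im| + |z.im - t| := abs_sub_le _ _ _
        _ ≤ h + 1 := by linarith
    have h2 := h1 t ht (by linarith) w (by linarith) (by linarith) h5
    refine h2.trans ?_
    have hmaxw : max 0 (σa - w.re) ≤ max 0 (σa - z.re) + r := by
      apply max_le
      · linarith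
      · have := le_max_right 0 (σa - z.re)
        linarith
    have hexp : κ * max 0 (σa - w.re) + ε / 4 ≤ e := by
      rw [he]
      have := mul_le_mul_of_nonneg_left hmaxw hκ
      linarith
    gcongr
    linarith
  have hd := norm_deriv_le (Zk_diffOn k) hr0 (by linarith) hbound
  have hz0 := hbound z (by simp [hr0.le])
  have hX := hlX z (by linarith) (hzb.trans (le_max_left _ _)) (by linarith)
  have hΛ1 := one_le_log ht3
  have hΛz1 := one_le_log hz1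
  have hΛz : Real.log |z.im| ≤ Real.log 2 + Real.log |t| := by
    rw [← Real.log_mul (by norm_num) (by linarith)]
    have := im_le_of him
    exact Real.log_le_log (by linarith) (by linarith)
  have hlog2 : 0 < Real.log 2 := Real.log_pos (by norm_num)
  have hΛ2 : Real.log |t| ≤ |t| ^ (ε / 2) / (ε / 2) :=
    Real.log_le_rpow_div (by positivity) (by positivity)
  have hlXn : ‖lX z‖ ≤ (C1 + 1 + Real.log 2) * (2 / ε) * |t| ^ (ε / 2) := by
    have h2 : ‖lX z‖ ≤ ‖lX z - (Real.log |z.im| : ℝ)‖ + ‖((Real.log |z.im| : ℝ) : ℂ)‖ :=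
      norm_le_norm_sub_add _ _
    rw [norm_real, Real.norm_of_nonneg (by linarith)] at h2
    have h3 : ‖lX z - (Real.log |z.im| : ℝ)‖ ≤ C1 := hX
    calc ‖lX z‖ ≤ (C1 + 1 + Real.log 2) * Real.log |t| := by nlinarith
      _ ≤ (C1 + 1 + Real.log 2) * (|t| ^ (ε / 2) / (ε / 2)) := by gcongr
      _ = _ := by field_simp
  rw [Zk_succ]
  have he2 : κ * max 0 (σa - z.re) + ε = e + ε / 2 := by rw [he]; ring
  rw [he2]
  have hrp : |t| ^ (e + ε / 2) = |t| ^ e * |t| ^ (ε / 2) := Real.rpow_add (by linarith) _ _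
  have hone : 1 ≤ |t| ^ (ε / 2) := Real.one_le_rpow (by linarith) (by positivity)
  have hpe : 0 < |t| ^ e := Real.rpow_pos_of_pos (by linarith) _
  rw [hrp]
  calc ‖deriv (Zk k) z + lX z * Zk k z‖ ≤ ‖deriv (Zk k) z‖ + ‖lX z‖ * ‖Zk k z‖ :=
        (norm_add_le _ _).trans (by rw [norm_mul])
    _ ≤ C * |t| ^ e / r + (C1 + 1 + Real.log 2) * (2 / ε) * |t| ^ (ε / 2) * (C * |t| ^ e) := by
        gcongr
    _ ≤ C * |t| ^ e / r * |t| ^ (ε / 2) +
        (C1 + 1 + Real.log 2) * (2 / ε) * |t| ^ (ε / 2) * (C * |t| ^ e) := by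
        have : 0 ≤ C * |t| ^ e / r := by positivity
        nlinarith
    _ = _ := by ring

lemma GBS_all {S : Set ℝ} {κ σa : ℝ} (hκ : 0 ≤ κ) (k : ℕ) :
    ∀ h : ℝ, 0 ≤ h → GBS S riemannZeta κ σa (h + k) → GBS S (Zk k) κ σa h := by
  induction k with
  | zero =>
    intro h _ hG
    rw [Nat.cast_zero, add_zero] at hG
    exact hG
  | succ k ih =>
    intro h hh hG
    apply GBS_succ hκ hh
    apply ih (h + 1) (by linarith)
    push_cast at hG
    rwa [show h + 1 + (k : ℝ) = h + (k + 1) by ring]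

/-- growth of `ζ` near heights where it has no zeros in `re s > θ` -/
lemma GBS_zeta {θ e' κ : ℝ} (hθ : 1 / 2 ≤ θ) (he' : 0 < e') (hκ : 3 / 2 < κ * (θ + e' + 1)) :
    ∃ Rh : ℝ, 0 ≤ Rh ∧ ∀ (S : Set ℝ) (h : ℝ), 0 ≤ h → ZFS S 0 θ (h + Rh + 2) →
      GBS S riemannZeta κ (θ + e') h := by
  obtain ⟨R, hR, hloc⟩ := slope_bound_local (σa := θ + e') (by linarith) hκ
  refine ⟨R, hR, fun S h hh hZ => ?_⟩
  have hκ0 : 0 ≤ κ := by
    by_contra hneg
    rw [not_le] at hneg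
    nlinarith
  -- bound to the right of θ + e'
  have hright : ∀ η : ℝ, 0 < η → ∃ Ca T : ℝ, 0 < Ca ∧ 3 ≤ T ∧ ∀ t ∈ S, T ≤ |t| → ∀ w : ℂ,
      θ + e' ≤ w.re → |w.im - t| ≤ h + R → ‖riemannZeta w‖ ≤ Ca * |w.im| ^ η := by
    intro η hη
    rcases le_or_gt (θ + e') 1 with hle | hgt
    · obtain ⟨T, hT, hl⟩ := ZFS_log 0 (α := θ) (α' := θ + e') (η := η) (h := h + R) hθ
        (by linarith) hle hη (by linarith) (by simpa using hZ)
      have hS : 0 ≤ ∑' n : ℕ, 1 / (n : ℝ) ^ (2 : ℝ) := tsum_nonneg fun n => by positivity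
      refine ⟨1 + ∑' n : ℕ, 1 / (n : ℝ) ^ (2 : ℝ), T + (h + R), by linarith, by linarith,
        fun t ht htT w hw him => ?_⟩
      have hw3 : 3 ≤ |w.im| := im_ge_of him (by linarith)
      have h2 : 1 ≤ |w.im| ^ η := Real.one_le_rpow (by linarith) hη.le
      rcases le_or_gt w.re 2 with hw2 | hw2
      · obtain ⟨h3, h4, -⟩ := hl t ht (by linarith) w hw hw2 him
        have hpos : 0 < ‖riemannZeta w‖ := norm_pos_iff.2 h3
        have h5 := (abs_le.1 h4).2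
        have h6 : ‖riemannZeta w‖ ≤ |w.im| ^ η := by
          rw [← Real.log_le_log_iff hpos (by linarith), Real.log_rpow (by linarith)]
          exact h5
        nlinarith
      · have h3 := norm_riemannZeta_le (by norm_num : (1:ℝ) < 2) hw2.le
        nlinarith
    · have hS : 0 ≤ ∑' n : ℕ, 1 / (n : ℝ) ^ (θ + e') := tsum_nonneg fun n => by positivity
      refine ⟨1 + ∑' n : ℕ, 1 / (n : ℝ) ^ (θ + e'), 3 + (h + R), by linarith, by linarith,
        fun t ht htT w hw him => ?_⟩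
      have h1 := norm_riemannZeta_le hgt hw
      have hw3 : 3 ≤ |w.im| := im_ge_of him (by linarith)
      have h2 : 1 ≤ |w.im| ^ η := Real.one_le_rpow (by linarith) hη.le
      nlinarith
  intro a b ε ha hε
  obtain ⟨Ca, T1, hCa, hT1, hb1⟩ := hright ε hε
  obtain ⟨C, T2, hC, hT2, hb2⟩ := hloc ε Ca hε.le
  have h2ε : (0:ℝ) < 2 ^ (κ * (θ + e') + ε) := by positivity
  refine ⟨(C + Ca) * 2 ^ (κ * (θ + e') + ε), max T1 T2 + h, by positivity, ?_,
    fun t ht htT z hza hzb him => ?_⟩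
  · have := le_max_left T1 T2
    linarith
  have q1 : T1 ≤ |t| := by
    have := le_max_left T1 T2
    linarith
  have q2 : T2 + h ≤ |t| := by
    have := le_max_right T1 T2
    linarith
  have hz2 : T2 ≤ |z.im| := im_ge_of him q2
  have hz3 : |z.im| ≤ 2 * |t| := by
    have := im_le_of him
    linarith
  have ht0 : 0 < |t| := by linarith
  have hz1 : 1 ≤ |z.im| := by linarith
  have hmax0 : 0 ≤ max 0 (θ + e' - z.re) := le_max_left _ _
  have hmax1 : max 0 (θ + e' - z.re) ≤ θ + e' := max_le (by linarith) (by linarith)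
  have hfin : |z.im| ^ (κ * max 0 (θ + e' - z.re) + ε) ≤
      2 ^ (κ * (θ + e') + ε) * |t| ^ (κ * max 0 (θ + e' - z.re) + ε) := by
    calc |z.im| ^ (κ * max 0 (θ + e' - z.re) + ε)
        ≤ (2 * |t|) ^ (κ * max 0 (θ + e' - z.re) + ε) := by gcongr
      _ = 2 ^ (κ * max 0 (θ + e' - z.re) + ε) * |t| ^ (κ * max 0 (θ + e' - z.re) + ε) :=
          Real.mul_rpow (by norm_num) ht0.le
      _ ≤ _ := by
          gcongr
          norm_num
  have hmain : ‖riemannZeta z‖ ≤ (C + Ca) * |z.im| ^ (κ * max 0 (θ + e' - z.re) + ε) := by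
    rcases le_or_gt z.re (θ + e') with hc | hc
    · rw [max_eq_right (by linarith)]
      have h3 := hb2 z (by linarith) hc hz2 fun w hw1 hw2 => hb1 t ht q1 w hw1 (by
        calc |w.im - t| ≤ |w.im - z.im| + |z.im - t| := abs_sub_le _ _ _
          _ ≤ h + R := by linarith)
      refine h3.trans ?_
      gcongr
      linarith
    · rw [max_eq_left (by linarith), mul_zero, zero_add]
      have h3 := hb1 t ht q1 z hc.le (by linarith)
      refine h3.trans ?_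
      gcongr
      linarith
  calc ‖riemannZeta z‖ ≤ (C + Ca) * |z.im| ^ (κ * max 0 (θ + e' - z.re) + ε) := hmain
    _ ≤ (C + Ca) * (2 ^ (κ * (θ + e') + ε) * |t| ^ (κ * max 0 (θ + e' - z.re) + ε)) := by gcongr
    _ = _ := by ring

/-- **The local descent step.** -/
theorem descentS {σ' : ℝ} (hσ' : 1 / 2 < σ') : ∃ c : ℝ, 0 < c ∧ c ≤ 1 / 4 ∧
    ∀ (k : ℕ) (e θ : ℝ), 0 < e → σ' ≤ θ → θ ≤ 1 → 1 / 2 ≤ θ - e → ∃ h1 : ℝ, 0 ≤ h1 ∧
      ∀ (S : Set ℝ) (h : ℝ), 0 ≤ h → ZFS S 0 θ (h + h1) → ZFS S (k + 1) (θ - e) (h + h1) →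
        ZFS S k (θ - c * e) h := by
  set κ : ℝ := (1 + (3 / 2) / (σ' + 1)) / 2 with hκ
  have hσ1 : 3 / 2 < σ' + 1 := by linarith
  have hq1 : (3 / 2) / (σ' + 1) < 1 := by
    rw [div_lt_one (by linarith)]; exact hσ1
  have hκ1 : κ < 1 := by rw [hκ]; linarith
  have hκ0 : 0 < κ := by rw [hκ]; positivity
  have hκσ : 3 / 2 < κ * (σ' + 1) := by
    have : κ * (σ' + 1) = ((σ' + 1) + 3 / 2) / 2 := by
      rw [hκ]; field_simp
    rw [this]; linarith
  refine ⟨(1 - κ) / 16, by linarith, by linarith, fun k e θ he hσθ hθ1 hθe => ?_⟩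
  set ℓ : ℝ := e / 2 with hℓ
  have hℓ0 : 0 < ℓ := by rw [hℓ]; linarith
  set ε : ℝ := ℓ * (1 - κ) / 8 with hε
  have hε0 : 0 < ε := by
    have : 0 < 1 - κ := by linarith
    positivity
  have hce : (1 - κ) / 16 * e = ε := by rw [hε, hℓ]; ring
  rw [hce]
  have hεe : ε ≤ e / 4 := by
    rw [← hce]
    nlinarith
  have hκθ : 3 / 2 < κ * (θ + ε + 1) := by nlinarith
  obtain ⟨R, hR, hGz⟩ := GBS_zeta (θ := θ) (e' := ε) (κ := κ) (by linarith) hε0 hκθ
  refine ⟨R + 2 + k, by positivity, fun S h hh hZ0 hZ1 => ?_⟩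
  have hGB : GBS S (Zk k) κ (θ + ε) h := by
    apply GBS_all hκ0.le k h hh
    apply hGz S (h + k) (by positivity)
    exact hZ0.mono le_rfl (by linarith)
  obtain ⟨C, T1, hC, hT1, hgr⟩ := hGB (1 / 2) 2 ε (by norm_num) hε0
  obtain ⟨T2, hT2, hlog⟩ := ZFS_log (S := S) (k + 1) (α := θ - e) (α' := θ - 3 * e / 4)
    (η := min (1 / 10) ε) (h := h) hθe (by linarith) (by linarith) (lt_min (by norm_num) hε0) hh
    (hZ1.mono le_rfl (by linarith [(Nat.cast_nonneg k : (0:ℝ) ≤ k)]))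
  obtain ⟨T3, hT3, hright⟩ := Zk_ne_right k
  obtain ⟨C1, hC1, hlX⟩ := Xf_logDeriv_bound' (B := 2) (by norm_num)
  obtain ⟨C2, hC2, hXn⟩ := Xf_norm_bound
  obtain ⟨X, hX2, hX⟩ := eventually_log_le (K := 2) (a := 1 / 2) (η := ε) hε0 (by norm_num)
  set B : ℝ := max (max (10 * C1) (2 / ℓ)) ((|Real.log C| + 2 * C2 + 3 + ℓ) / ε) with hB
  set T : ℝ := max (max T1 T2) (max (max T3 X) (Real.exp B)) with hT
  refine ⟨T + 2 * h, fun t ht htT ρ hρ hρ4 him hzero => ?_⟩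
  have hρT : T ≤ |ρ.im| := im_ge_of him (by linarith)
  have q0 : T ≤ |t| := by linarith
  have p1 : T1 ≤ |t| := ((le_max_left _ _).trans (le_max_left _ _)).trans q0
  have p2 : T2 ≤ |t| := ((le_max_right _ _).trans (le_max_left _ _)).trans q0
  have q1 : T1 ≤ |ρ.im| := ((le_max_left _ _).trans (le_max_left _ _)).trans hρT
  have q3 : T3 ≤ |ρ.im| :=
    (((le_max_left _ _).trans (le_max_left _ _)).trans (le_max_right _ _)).trans hρT
  have q4 : X ≤ |ρ.im| :=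
    (((le_max_right _ _).trans (le_max_left _ _)).trans (le_max_right _ _)).trans hρT
  have q5 : Real.exp B ≤ |ρ.im| := ((le_max_right _ _).trans (le_max_right _ _)).trans hρT
  have hρ1 : ρ.re < 1 := by
    by_contra h
    exact hright ρ (not_lt.1 h) hρ4 q3 hzero
  have htρ : |t| ≤ 2 * |ρ.im| := by
    have h1 : |t - ρ.im| ≤ h := by rw [abs_sub_comm]; exact him
    have h2 := im_le_of h1
    have h3 : T + h ≤ |ρ.im| := im_ge_of him (by linarith)
    have h4 : 3 ≤ T := hT1.trans ((le_max_left _ _).trans (le_max_left _ _))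
    linarith
  set γ : ℝ := ρ.im with hγ
  set Λ : ℝ := Real.log |γ| with hΛ
  have hγ3 : 3 ≤ |γ| := by linarith
  have hΛ1 : 1 ≤ Λ := one_le_log hγ3
  have hΛB : B ≤ Λ := by
    rw [hΛ, Real.le_log_iff_exp_le (by linarith)]
    exact q5
  have hΛ10 : 10 * C1 ≤ Λ := ((le_max_left _ _).trans (le_max_left _ _)).trans hΛB
  have hΛℓ : 2 / ℓ ≤ Λ := ((le_max_right _ _).trans (le_max_left _ _)).trans hΛB
  have hΛC : (|Real.log C| + 2 * C2 + 3 + ℓ) / ε ≤ Λ := (le_max_right _ _).trans hΛB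
  rw [div_le_iff₀ hℓ0] at hΛℓ
  rw [div_le_iff₀ hε0] at hΛC
  -- the segment
  have hseg : ∀ v : ℝ, (ρ - (v : ℂ)).im = γ ∧ (ρ - (v : ℂ)).re = ρ.re - v := by
    intro v
    constructor <;> simp [hγ]
  have hsegim : ∀ v : ℝ, (ρ - (v : ℂ)).im ≠ 0 := by
    intro v h
    rw [(hseg v).1] at h
    rw [h, abs_zero] at hγ3
    linarith
  have hsegb : ∀ v ∈ Icc (0 : ℝ) ℓ, Zk (k + 1) (ρ - (v : ℂ)) ≠ 0 ∧
      |Real.log ‖Zk (k + 1) (ρ - (v : ℂ))‖| ≤ min (1 / 10) ε * Λ ∧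
      ‖deriv (Zk (k + 1)) (ρ - (v : ℂ)) / Zk (k + 1) (ρ - (v : ℂ))‖ ≤ min (1 / 10) ε * Λ := by
    intro v hv
    have := hlog t ht p2 (ρ - (v : ℂ)) (by rw [(hseg v).2]; linarith [hv.2])
      (by rw [(hseg v).2]; linarith [hv.1]) (by rw [(hseg v).1]; exact him)
    rw [(hseg v).1] at this
    exact this
  have hode := ode_lower (ψ := fun v : ℝ => Xf (ρ - (v : ℂ)) * Zk k (ρ - (v : ℂ)))
    (φ := fun v : ℝ => Xf (ρ - (v : ℂ)) * Zk (k + 1) (ρ - (v : ℂ)))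
    (q := fun v : ℝ => lX (ρ - (v : ℂ)) + deriv (Zk (k + 1)) (ρ - (v : ℂ)) /
      Zk (k + 1) (ρ - (v : ℂ))) (Λ := Λ) (ℓ := ℓ) (by linarith) hℓ0 ?_ ?_ ?_ ?_ hΛℓ
  · -- the contradiction
    simp only [ofReal_zero, sub_zero] at hode
    obtain ⟨hne0, hlog0, -⟩ := hsegb 0 (left_mem_Icc.2 hℓ0.le)
    simp only [ofReal_zero, sub_zero] at hne0 hlog0
    have hρim : ρ.im ≠ 0 := by simpa using hsegim 0
    have hXρ : Xf ρ ≠ 0 := Xf_ne_zero hρim
    have hXρℓ : Xf (ρ - (ℓ : ℂ)) ≠ 0 := Xf_ne_zero (hsegim ℓ)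
    have hp1 : 0 < ‖Xf ρ * Zk (k + 1) ρ‖ / (2 * Λ) :=
      div_pos (norm_pos_iff.2 (mul_ne_zero hXρ hne0)) (by linarith)
    have hZℓ : 0 < ‖Zk k (ρ - (ℓ : ℂ))‖ := by
      rw [norm_pos_iff]
      intro h
      rw [h, mul_zero, norm_zero] at hode
      linarith
    have h1 := Real.log_le_log hp1 hode
    rw [Real.log_div (norm_ne_zero_iff.2 (mul_ne_zero hXρ hne0)) (by positivity), norm_mul,
      norm_mul, Real.log_mul (norm_ne_zero_iff.2 hXρ) (norm_ne_zero_iff.2 hne0),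
      Real.log_mul (norm_ne_zero_iff.2 hXρℓ) hZℓ.ne', Real.log_mul (by norm_num) (by linarith)] at h1
    have h2 := hXn ρ (by linarith) (by linarith) (by linarith)
    have h3 := hXn (ρ - (ℓ : ℂ)) (by rw [(hseg ℓ).2]; linarith) (by rw [(hseg ℓ).2]; linarith)
      (by rw [(hseg ℓ).1]; linarith)
    rw [(hseg ℓ).1, (hseg ℓ).2] at h3
    have h4 := hgr t ht p1 (ρ - (ℓ : ℂ)) (by rw [(hseg ℓ).2]; linarith)
      (by rw [(hseg ℓ).2]; linarith) (by rw [(hseg ℓ).1]; exact him)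
    rw [(hseg ℓ).2] at h4
    have ht0 : 0 < |t| := by linarith
    have h5 := Real.log_le_log hZℓ h4
    rw [Real.log_mul hC.ne' (Real.rpow_pos_of_pos ht0 _).ne', Real.log_rpow ht0] at h5
    have h6 : max 0 (θ + ε - (ρ.re - ℓ)) ≤ ℓ + 2 * ε := max_le (by linarith) (by linarith)
    have h6' : 0 ≤ max 0 (θ + ε - (ρ.re - ℓ)) := le_max_left _ _
    have h7 : κ * max 0 (θ + ε - (ρ.re - ℓ)) + ε ≤ ℓ - 5 * ε := by
      have h71 : κ * max 0 (θ + ε - (ρ.re - ℓ)) ≤ κ * (ℓ + 2 * ε) := by gcongr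
      have h9 : κ * (ℓ + 2 * ε) ≤ κ * ℓ + 2 * ε := by nlinarith
      have h10 : ℓ * (1 - κ) = 8 * ε := by rw [hε]; ring
      linarith
    have h72 : 0 ≤ κ * max 0 (θ + ε - (ρ.re - ℓ)) + ε := by positivity
    have h17 : Real.log 2 ≤ 1 := by
      have := Real.log_two_lt_d9
      linarith
    have hlog2 : 0 < Real.log 2 := Real.log_pos (by norm_num)
    have htlog : Real.log |t| ≤ 1 + Λ := by
      have := Real.log_le_log ht0 htρ
      rw [Real.log_mul (by norm_num) (by linarith)] at this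
      linarith
    have h8 : (κ * max 0 (θ + ε - (ρ.re - ℓ)) + ε) * Real.log |t| ≤ (ℓ - 5 * ε) * (1 + Λ) := by
      apply mul_le_mul h7 htlog (Real.log_nonneg (by linarith)) (by linarith)
    have h12 := (abs_le.1 h2).1
    have h13 := (abs_le.1 h3).2
    have h14 := (abs_le.1 hlog0).1
    have h15 : min (1 / 10) ε * Λ ≤ ε * Λ :=
      mul_le_mul_of_nonneg_right (min_le_right _ _) (by linarith)
    have h16 : Real.log Λ ≤ ε * Λ := by
      have b2 := hX |γ| q4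
      rw [← hΛ] at b2
      have h9 : Real.log Λ ≤ Λ ^ (1 / 2 : ℝ) / (1 / 2) :=
        Real.log_le_rpow_div (by linarith) (by norm_num)
      linarith
    have h18 := le_abs_self (Real.log C)
    nlinarith
  · intro v hv
    have h1 := (hasDerivAt_XZ k (hsegim v)).comp_const_sub (ρ) (v : ℂ)
    exact h1.comp_ofReal
  · intro v hv
    have h1 := (hasDerivAt_XZ (k + 1) (hsegim v)).comp_const_sub (ρ) (v : ℂ)
    have h2 := h1.comp_ofReal
    obtain ⟨hne, -, -⟩ := hsegb v hv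
    have e1 : (lX (ρ - (v : ℂ)) + deriv (Zk (k + 1)) (ρ - (v : ℂ)) / Zk (k + 1) (ρ - (v : ℂ))) *
        (Xf (ρ - (v : ℂ)) * Zk (k + 1) (ρ - (v : ℂ))) =
        Xf (ρ - (v : ℂ)) * Zk (k + 1 + 1) (ρ - (v : ℂ)) := by
      rw [Zk_succ (k + 1)]
      field_simp
      ring
    rw [e1]
    exact h2
  · intro v hv
    obtain ⟨-, -, hd⟩ := hsegb v hv
    have h1 := hlX (ρ - (v : ℂ)) (by rw [(hseg v).2]; linarith [hv.2])
      (by rw [(hseg v).2]; linarith [hv.1]) (by rw [(hseg v).1]; linarith)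
    rw [(hseg v).1] at h1
    have h2 : min (1 / 10) ε * Λ ≤ 1 / 10 * Λ :=
      mul_le_mul_of_nonneg_right (min_le_left _ _) (by linarith)
    have e1 : lX (ρ - (v : ℂ)) + deriv (Zk (k + 1)) (ρ - (v : ℂ)) / Zk (k + 1) (ρ - (v : ℂ)) -
        ((Λ : ℝ) : ℂ) = (lX (ρ - (v : ℂ)) - ((Λ : ℝ) : ℂ)) +
        deriv (Zk (k + 1)) (ρ - (v : ℂ)) / Zk (k + 1) (ρ - (v : ℂ)) := by ring
    rw [e1]
    refine (norm_add_le _ _).trans ?_
    have h3 : ‖lX (ρ - (v : ℂ)) - ((Λ : ℝ) : ℂ)‖ ≤ C1 := h1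
    linarith
  · simp only [ofReal_zero, sub_zero]
    rw [hzero, mul_zero]

/-- descending all the way to `ζ` -/
theorem descentS_all {σ' : ℝ} (hσ' : 1 / 2 < σ') : ∃ c : ℝ, 0 < c ∧ c ≤ 1 / 4 ∧
    ∀ (k : ℕ) (e θ : ℝ), 0 < e → σ' ≤ θ → θ ≤ 1 → 1 / 2 ≤ θ - e → ∃ h1 : ℝ, 0 ≤ h1 ∧
      ∀ (S : Set ℝ), ZFS S 0 θ h1 → ZFS S k (θ - e) h1 → ZFS S 0 (θ - c ^ k * e) 0 := by
  obtain ⟨c, hc0, hc1, hd⟩ := descentS hσ'
  refine ⟨c, hc0, hc1, fun k => ?_⟩
  induction k with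
  | zero =>
    intro e θ _ _ _ _
    refine ⟨0, le_rfl, fun S _ h => ?_⟩
    rw [pow_zero, one_mul]
    exact h
  | succ k ih =>
    intro e θ he h1 h2 h3
    have hce : 0 < c * e := by positivity
    have hce1 : c * e ≤ e := by nlinarith
    obtain ⟨h', hh', hih⟩ := ih (c * e) θ hce h1 h2 (by linarith)
    obtain ⟨h1', hh1', hstep⟩ := hd k e θ he h1 h2 h3
    refine ⟨h' + h1', by positivity, fun S hS0 hS1 => ?_⟩
    have := hih S (hS0.mono le_rfl (by linarith)) (hstep S h' hh' hS0 hS1)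
    rw [pow_succ, mul_assoc]
    exact this

/-- going up from `ζ` -/
lemma ZFS_succ {S : Set ℝ} (k : ℕ) {α α' h : ℝ} (hα : 1 / 2 ≤ α) (h1 : α < α') (hh : 0 ≤ h)
    (hZ : ZFS S k α (h + 2)) : ZFS S (k + 1) α' h := by
  obtain ⟨T', hT', hr⟩ := Zk_ne_right (k + 1)
  rcases le_or_gt 1 α' with hbig | hsmall
  · exact ⟨T' + h, fun t _ htT z hz h4 him => hr z (by linarith) h4 (im_ge_of him htT)⟩
  obtain ⟨T, hT, hb⟩ := ZFS_log k hα h1 hsmall.le (by norm_num : (0:ℝ) < 1 / 2) hh hZ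
  obtain ⟨C1, hC1, hlX⟩ := Xf_logDeriv_bound' (B := 2) (by norm_num)
  refine ⟨max (max T T') (Real.exp (2 * C1 + 1)) + h, fun t ht htT z hz h4 him => ?_⟩
  have q0 : max (max T T') (Real.exp (2 * C1 + 1)) ≤ |z.im| := im_ge_of him htT
  have p0 : max (max T T') (Real.exp (2 * C1 + 1)) ≤ |t| := by linarith
  have p1 : T ≤ |t| := ((le_max_left _ _).trans (le_max_left _ _)).trans p0
  have q2 : T' ≤ |z.im| := ((le_max_right _ _).trans (le_max_left _ _)).trans q0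
  have q3 : Real.exp (2 * C1 + 1) ≤ |z.im| := (le_max_right _ _).trans q0
  rcases le_or_gt 1 z.re with hz1 | hz1
  · exact hr z hz1 h4 q2
  obtain ⟨h5, -, h6⟩ := hb t ht p1 z hz.le (by linarith) him
  have hX := hlX z (by linarith) (by linarith) (by linarith)
  have hΛ : 2 * C1 + 1 ≤ Real.log |z.im| := by
    rw [Real.le_log_iff_exp_le (by linarith)]
    exact q3
  have e : Zk (k + 1) z = Zk k z * (lX z + deriv (Zk k) z / Zk k z) := by
    rw [Zk_succ]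
    field_simp
    ring
  rw [e]
  refine mul_ne_zero h5 fun h0 => ?_
  have h7 : ((Real.log |z.im| : ℝ) : ℂ) = -(lX z - ((Real.log |z.im| : ℝ) : ℂ)) -
      deriv (Zk k) z / Zk k z := by
    linear_combination h0
  have h8 := congrArg norm h7
  rw [norm_real, Real.norm_of_nonneg (by linarith)] at h8
  have h9 : ‖-(lX z - ((Real.log |z.im| : ℝ) : ℂ)) - deriv (Zk k) z / Zk k z‖ ≤
      C1 + 1 / 2 * Real.log |z.im| := by
    refine (norm_sub_le _ _).trans ?_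
    rw [norm_neg]
    exact add_le_add hX h6
  linarith

lemma ZFS_up {S : Set ℝ} (k : ℕ) {α : ℝ} (hα : 1 / 2 ≤ α) : ∀ (α' h : ℝ), α < α' → 0 ≤ h →
    ZFS S 0 α (h + 2 * k) → ZFS S k α' h := by
  induction k with
  | zero =>
    intro α' h h1 _ hZ
    exact hZ.mono h1.le (by simp)
  | succ k ih =>
    intro α' h h1 hh hZ
    refine ZFS_succ k (α := (α + α') / 2) (by linarith) (by linarith) hh
      (ih _ (h + 2) (by linarith) (by linarith) (hZ.mono le_rfl ?_))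
    push_cast
    linarith

end Pool.Agent.H6
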