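import Pool.Agent.H6.Growth
import Pool.Agent.H6.HalfJensen

/-!
# The functions `Z_k`

`Z_0 = ζ`, `Z_{k+1} = Z_k' + (X'/X) Z_k`, so that `ζ^{(k)}(1 - s) = (-1)^k X(s) Z_k(s)`.
-/

set_option autoImplicit false

open Complex Metric Set Filter Topology

namespace Pool.Agent.H6

/-- the logarithmic derivative of `X` -/
noncomputable def lX (s : ℂ) : ℂ := deriv Xf s / Xf s

/-- `Z_0 = ζ`, `Z_{k+1} = Z_k' + (X'/X) Z_k` -/
noncomputable def Zk : ℕ → ℂ → ℂ
  | 0 => riemannZeta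
  | (k + 1) => fun s => deriv (Zk k) s + lX s * Zk k s

lemma Zk_zero : Zk 0 = riemannZeta := rfl

lemma Zk_succ (k : ℕ) (s : ℂ) : Zk (k + 1) s = deriv (Zk k) s + lX s * Zk k s := rfl

lemma isOpen_im_ne : IsOpen {s : ℂ | s.im ≠ 0} := by
  have : {s : ℂ | s.im ≠ 0} = Complex.im ⁻¹' {0}ᶜ := by ext; simp
  rw [this]
  exact isOpen_compl_singleton.preimage continuous_im

lemma Xf_diffOn : DifferentiableOn ℂ Xf {s : ℂ | s.im ≠ 0} :=
  fun _ hs => (Xf_differentiableAt hs).differentiableWithinAt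

lemma lX_diffOn : DifferentiableOn ℂ lX {s : ℂ | s.im ≠ 0} :=
  (Xf_diffOn.deriv isOpen_im_ne).div Xf_diffOn fun _ hs => Xf_ne_zero hs

lemma Zk_diffOn (k : ℕ) : DifferentiableOn ℂ (Zk k) {s : ℂ | s.im ≠ 0} := by
  induction k with
  | zero => exact fun s hs => (differentiableAt_riemannZeta (ne_one_of_im hs)).differentiableWithinAt
  | succ k ih => exact (ih.deriv isOpen_im_ne).add (lX_diffOn.mul ih)

lemma Zk_diff (k : ℕ) {s : ℂ} (hs : s.im ≠ 0) : DifferentiableAt ℂ (Zk k) s :=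
  (Zk_diffOn k).differentiableAt (isOpen_im_ne.mem_nhds hs)

lemma hasDerivAt_XZ (k : ℕ) {s : ℂ} (hs : s.im ≠ 0) :
    HasDerivAt (fun s => Xf s * Zk k s) (Xf s * Zk (k + 1) s) s := by
  have h := (Xf_differentiableAt hs).hasDerivAt.mul (Zk_diff k hs).hasDerivAt
  have e : Xf s * Zk (k + 1) s = deriv Xf s * Zk k s + Xf s * deriv (Zk k) s := by
    rw [Zk_succ, lX]
    have := Xf_ne_zero hs
    field_simp
    ring
  rw [e]
  exact h

/-- the connection with the derivatives of `ζ` -/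
theorem iteratedDeriv_zeta (k : ℕ) {w : ℂ} (hw : w.im ≠ 0) :
    iteratedDeriv k riemannZeta w = (-1) ^ k * (Xf (1 - w) * Zk k (1 - w)) := by
  induction k generalizing w with
  | zero =>
    rw [iteratedDeriv_zero, pow_zero, one_mul, Zk_zero]
    have h := zeta_one_sub (s := 1 - w) (by simpa using hw)
    rw [← h, sub_sub_cancel]
  | succ k ih =>
    rw [iteratedDeriv_succ]
    have h1 : iteratedDeriv k riemannZeta =ᶠ[𝓝 w]
        fun w => (-1) ^ k * (Xf (1 - w) * Zk k (1 - w)) := by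
      filter_upwards [isOpen_im_ne.mem_nhds hw] with v hv
      exact ih hv
    rw [h1.deriv_eq]
    have hw' : (1 - w).im ≠ 0 := by simpa using hw
    have h2 := (hasDerivAt_XZ k hw').comp_const_sub 1 w
    have h3 : HasDerivAt (fun w => (-1 : ℂ) ^ k * (Xf (1 - w) * Zk k (1 - w)))
        ((-1) ^ k * (-(Xf (1 - w) * Zk (k + 1) (1 - w)))) w := h2.const_mul _
    rw [h3.deriv, pow_succ]
    ring

lemma geo {w z : ℂ} {r : ℝ} (h : ‖w - z‖ ≤ r) :
    z.re - r ≤ w.re ∧ w.re ≤ z.re + r ∧ |z.im| - r ≤ |w.im| ∧ |w.im| ≤ |z.im| + r := by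
  have h1 := (abs_re_le_norm (w - z)).trans h
  have h2 := (abs_im_le_norm (w - z)).trans h
  rw [sub_re] at h1
  rw [sub_im] at h2
  have h1' := abs_le.1 h1
  refine ⟨by linarith, by linarith, ?_, ?_⟩
  · have h3 : |z.im| ≤ |w.im| + |w.im - z.im| := by
      have := abs_sub_abs_le_abs_sub z.im w.im
      rw [abs_sub_comm] at this
      linarith
    linarith
  · have h3 := abs_sub_abs_le_abs_sub w.im z.im
    linarith

lemma norm_deriv_le {f : ℂ → ℂ} (hf : DifferentiableOn ℂ f {s : ℂ | s.im ≠ 0}) {z : ℂ} {r C : ℝ}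
    (hr : 0 < r) (hz : r < |z.im|) (hC : ∀ w, ‖w - z‖ ≤ r → ‖f w‖ ≤ C) :
    ‖deriv f z‖ ≤ C / r := by
  have hsub : closedBall z r ⊆ {s : ℂ | s.im ≠ 0} := by
    intro w hw
    have h1 : ‖w - z‖ ≤ r := by simpa [dist_eq_norm] using hw
    have h2 := (geo h1).2.2.1
    intro h3
    rw [h3, abs_zero] at h2
    linarith
  have hd : DiffContOnCl ℂ f (ball z r) :=
    (hf.mono (closure_ball_subset_closedBall.trans hsub)).diffContOnCl
  apply norm_deriv_le_of_forall_mem_sphere_norm_le hr hd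
  intro w hw
  apply hC
  have : ‖w - z‖ = r := by simpa [dist_eq_norm] using hw
  exact this.le

lemma one_le_log {x : ℝ} (hx : 3 ≤ x) : 1 ≤ Real.log x := by
  rw [Real.le_log_iff_exp_le (by linarith)]
  have := Real.exp_one_lt_d9
  linarith

lemma log_le_two_mul {x y : ℝ} (hx : 3 ≤ x) (hy : 0 < y) (h : y ≤ x + 1) :
    Real.log y ≤ 2 * Real.log x := by
  have h1 : Real.log y ≤ Real.log (x ^ 2) := Real.log_le_log hy (by nlinarith)
  rw [Real.log_pow] at h1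
  exact_mod_cast h1

/-- `Z_k(s) = (log |im s|)^k (ζ(s) + O(1 / log |im s|))` to the right of the line `re s = 1` -/
theorem Zk_asymp (k : ℕ) : ∀ a b : ℝ, 1 < a → ∃ C T : ℝ, 0 < C ∧ 3 ≤ T ∧ ∀ z : ℂ, a ≤ z.re →
    z.re ≤ b → T ≤ |z.im| →
    ‖Zk k z - ((Real.log |z.im| : ℝ) : ℂ) ^ k * riemannZeta z‖ ≤
      C * (Real.log |z.im|) ^ k / Real.log |z.im| := by
  induction k with
  | zero =>
    intro a b ha
    refine ⟨1, 3, one_pos, le_rfl, fun z _ _ hT => ?_⟩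
    have := one_le_log hT
    rw [Zk_zero, pow_zero, one_mul, sub_self, norm_zero]
    positivity
  | succ k ih =>
    intro a b ha
    set a' : ℝ := (a + 1) / 2 with ha'
    have ha1 : 1 < a' := by rw [ha']; linarith
    obtain ⟨C, T, hC, hT, h⟩ := ih a' (b + 1) ha1
    obtain ⟨C1, hC1, hlX⟩ := Xf_logDeriv_bound' (B := max b 1) (by positivity)
    set M : ℝ := ∑' n : ℕ, 1 / (n : ℝ) ^ a' with hM
    have hM0 : 0 ≤ M := tsum_nonneg fun n => by positivity
    set r : ℝ := min ((a - 1) / 2) (1 / 2) with hr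
    have hr0 : 0 < r := lt_min (by linarith) (by norm_num)
    have hr1 : r ≤ (a - 1) / 2 := min_le_left _ _
    have hr2 : r ≤ 1 / 2 := min_le_right _ _
    set D : ℝ := (C + M) * 2 ^ k with hD
    have hD0 : 0 < D := by positivity
    refine ⟨D / r + C1 * D + C, T + 1, by positivity, by linarith, fun z hza hzb hzT => ?_⟩
    set Λ : ℝ := Real.log |z.im| with hΛ
    have hz3 : 3 ≤ |z.im| := by linarith
    have hΛ1 : 1 ≤ Λ := one_le_log hz3
    have hbound : ∀ w, ‖w - z‖ ≤ r → ‖Zk k w‖ ≤ D * Λ ^ k := by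
      intro w hw
      obtain ⟨g1, g2, g3, g4⟩ := geo hw
      have hwT : T ≤ |w.im| := by linarith
      have hw3 : 3 ≤ |w.im| := by linarith
      have h1 := h w (by rw [ha']; linarith) (by linarith) hwT
      set Λw : ℝ := Real.log |w.im| with hΛw
      have hΛw1 : 1 ≤ Λw := one_le_log hw3
      have hΛw2 : Λw ≤ 2 * Λ := log_le_two_mul hz3 (by linarith) (by linarith)
      have h2 : ‖((Λw : ℝ) : ℂ) ^ k * riemannZeta w‖ ≤ Λw ^ k * M := by
        rw [norm_mul, norm_pow, norm_real, Real.norm_of_nonneg (by linarith)]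
        have := norm_riemannZeta_le ha1 (s := w) (by rw [ha']; linarith)
        gcongr
      have h3 : C * Λw ^ k / Λw ≤ C * Λw ^ k := div_le_self (by positivity) hΛw1
      have h4 : ‖Zk k w‖ ≤ ‖Zk k w - ((Λw : ℝ) : ℂ) ^ k * riemannZeta w‖ +
          ‖((Λw : ℝ) : ℂ) ^ k * riemannZeta w‖ := norm_le_norm_sub_add _ _
      calc ‖Zk k w‖ ≤ C * Λw ^ k + Λw ^ k * M := by linarith
        _ = (C + M) * Λw ^ k := by ring
        _ ≤ (C + M) * (2 * Λ) ^ k := by gcongr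
        _ = D * Λ ^ k := by rw [hD, mul_pow]; ring
    have hd := norm_deriv_le (Zk_diffOn k) hr0 (by linarith) hbound
    have hz0 := hbound z (by simp [hr0.le])
    have hX := hlX z (by linarith) (hzb.trans (le_max_left _ _)) (by linarith)
    have hk := h z (by rw [ha']; linarith) (by linarith) (by linarith)
    have e : Zk (k + 1) z - ((Λ : ℝ) : ℂ) ^ (k + 1) * riemannZeta z =
        deriv (Zk k) z + (lX z - (Λ : ℝ)) * Zk k z +
          (Λ : ℝ) * (Zk k z - ((Λ : ℝ) : ℂ) ^ k * riemannZeta z) := by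
      rw [Zk_succ]; ring
    rw [e]
    have t1 : ‖(lX z - (Λ : ℝ)) * Zk k z‖ ≤ C1 * (D * Λ ^ k) := by
      rw [norm_mul]
      have : ‖lX z - (Λ : ℝ)‖ ≤ C1 := hX
      gcongr
    have t2 : ‖((Λ : ℝ) : ℂ) * (Zk k z - ((Λ : ℝ) : ℂ) ^ k * riemannZeta z)‖ ≤ C * Λ ^ k := by
      rw [norm_mul, norm_real, Real.norm_of_nonneg (by linarith)]
      calc Λ * _ ≤ Λ * (C * Λ ^ k / Λ) := by gcongr
        _ = C * Λ ^ k := by field_simp
    have t3 : (D / r + C1 * D + C) * Λ ^ (k + 1) / Λ = D * Λ ^ k / r + C1 * (D * Λ ^ k) + C * Λ ^ k := by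
      rw [pow_succ]
      field_simp
    rw [t3]
    exact (norm_add_le _ _).trans (add_le_add ((norm_add_le _ _).trans (add_le_add hd t1)) t2)

/-- two sided bounds to the right of the line `re s = 1` -/
theorem Zk_size (k : ℕ) {a : ℝ} (b : ℝ) (ha : 1 < a) : ∃ A T : ℝ, 0 ≤ A ∧ 3 ≤ T ∧ ∀ z : ℂ,
    a ≤ z.re → z.re ≤ b → T ≤ |z.im| → ‖riemannZeta z‖ ≤ ‖Zk k z‖ ∧
    -A ≤ Real.log ‖Zk k z‖ - k * Real.log (Real.log |z.im|) ∧
    Real.log ‖Zk k z‖ - k * Real.log (Real.log |z.im|) ≤ A := by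
  obtain ⟨C, T, hC, hT, h⟩ := Zk_asymp k a b ha
  set M : ℝ := ∑' n : ℕ, 1 / (n : ℝ) ^ a with hM
  have hSum : Summable fun n : ℕ ↦ 1 / (n : ℝ) ^ a := Real.summable_one_div_nat_rpow.mpr ha
  have hM1 : 1 ≤ M := by
    have := hSum.le_tsum 1 (fun n _ ↦ by positivity)
    rw [hM]
    simpa using this
  set E : ℝ := max 2 (2 * M * C) with hE
  refine ⟨Real.log (2 * M), max T (Real.exp E), Real.log_nonneg (by linarith),
    hT.trans (le_max_left _ _), fun z hza hzb hzT => ?_⟩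
  have hzT1 : T ≤ |z.im| := (le_max_left _ _).trans hzT
  have hzT2 : Real.exp E ≤ |z.im| := (le_max_right _ _).trans hzT
  have hz3 : 3 ≤ |z.im| := hT.trans hzT1
  set Λ : ℝ := Real.log |z.im| with hΛ
  have hΛE : E ≤ Λ := by
    rw [hΛ, Real.le_log_iff_exp_le (by linarith)]
    exact hzT2
  have hΛ2 : 2 ≤ Λ := (le_max_left _ _).trans hΛE
  have hΛM : 2 * M * C ≤ Λ := (le_max_right _ _).trans hΛE
  have hΛ0 : 0 < Λ := by linarith
  have h1 := h z hza hzb hzT1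
  have hz1 : ‖riemannZeta z‖ ≤ M := norm_riemannZeta_le ha hza
  have hz2 : ‖(riemannZeta z)⁻¹‖ ≤ M := norm_inv_riemannZeta_le ha hza
  have hz0 : riemannZeta z ≠ 0 := riemannZeta_ne_zero_of_one_le_re (by linarith)
  have hzpos : 0 < ‖riemannZeta z‖ := norm_pos_iff.2 hz0
  have hz4 : 1 / M ≤ ‖riemannZeta z‖ := by
    rw [norm_inv] at hz2
    rw [div_le_iff₀ (by linarith)]
    rwa [inv_le_iff_one_le_mul₀ hzpos, mul_comm] at hz2
  have h2 : C * Λ ^ k / Λ ≤ Λ ^ k * (1 / (2 * M)) := by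
    rw [div_le_iff₀ hΛ0]
    have h3 : C ≤ 1 / (2 * M) * Λ := by
      rw [div_mul_eq_mul_div, one_mul, le_div_iff₀ (by positivity)]
      linarith
    calc C * Λ ^ k ≤ (1 / (2 * M) * Λ) * Λ ^ k := by gcongr
      _ = Λ ^ k * (1 / (2 * M)) * Λ := by ring
  have h5 : ‖((Λ : ℝ) : ℂ) ^ k * riemannZeta z‖ = Λ ^ k * ‖riemannZeta z‖ := by
    rw [norm_mul, norm_pow, norm_real, Real.norm_of_nonneg hΛ0.le]
  have hΛk : 0 < Λ ^ k := by positivity
  have h6 : Λ ^ k * (‖riemannZeta z‖ / 2) ≤ ‖Zk k z‖ := by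
    have h7 : ‖((Λ : ℝ) : ℂ) ^ k * riemannZeta z‖ ≤
        ‖Zk k z - ((Λ : ℝ) : ℂ) ^ k * riemannZeta z‖ + ‖Zk k z‖ := by
      have := norm_sub_norm_le (((Λ : ℝ) : ℂ) ^ k * riemannZeta z) (Zk k z)
      rw [norm_sub_rev] at this
      linarith
    rw [h5] at h7
    have h8 : Λ ^ k * (1 / (2 * M)) ≤ Λ ^ k * (‖riemannZeta z‖ / 2) := by
      apply mul_le_mul_of_nonneg_left _ hΛk.le
      have : 1 / (2 * M) = 1 / M / 2 := by field_simp
      rw [this]
      linarith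
    linarith
  have h9 : ‖Zk k z‖ ≤ Λ ^ k * (2 * M) := by
    have h10 : ‖Zk k z‖ ≤ ‖Zk k z - ((Λ : ℝ) : ℂ) ^ k * riemannZeta z‖ +
        ‖((Λ : ℝ) : ℂ) ^ k * riemannZeta z‖ := norm_le_norm_sub_add _ _
    rw [h5] at h10
    have h11 : Λ ^ k * (1 / (2 * M)) ≤ Λ ^ k * M := by
      apply mul_le_mul_of_nonneg_left _ hΛk.le
      rw [div_le_iff₀ (by positivity)]
      nlinarith
    have h12 : Λ ^ k * ‖riemannZeta z‖ ≤ Λ ^ k * M := by gcongr
    linarith
  have hZpos : 0 < ‖Zk k z‖ := lt_of_lt_of_le (by positivity) h6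
  refine ⟨?_, ?_, ?_⟩
  · rcases Nat.eq_zero_or_pos k with hk | hk
    · rw [hk, Zk_zero]
    · have h13 : 2 ≤ Λ ^ k := by
        calc (2:ℝ) ≤ Λ := hΛ2
          _ = Λ ^ 1 := (pow_one _).symm
          _ ≤ Λ ^ k := pow_le_pow_right₀ (by linarith) hk
      nlinarith
  · have h14 : Real.log (Λ ^ k * (1 / (2 * M))) ≤ Real.log ‖Zk k z‖ := by
      apply Real.log_le_log (by positivity)
      refine le_trans ?_ h6
      apply mul_le_mul_of_nonneg_left _ hΛk.le
      have : 1 / (2 * M) = 1 / M / 2 := by field_simp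
      rw [this]
      linarith
    rw [Real.log_mul hΛk.ne' (by positivity), Real.log_pow, one_div, Real.log_inv] at h14
    linarith
  · have h15 : Real.log ‖Zk k z‖ ≤ Real.log (Λ ^ k * (2 * M)) := Real.log_le_log hZpos h9
    rw [Real.log_mul hΛk.ne' (by positivity), Real.log_pow] at h15
    linarith

end Pool.Agent.H6
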