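import Pool.Agent.H6.Zk

/-!
# Growth of `Z_k`, and its size to the right of the line `re s = 1`
-/

set_option autoImplicit false

open Complex Metric Set Filter Topology

namespace Pool.Agent.H6

/-- growth at most `|t|^{κ (σa - σ)^+ + ε}` -/
def GB (f : ℂ → ℂ) (κ σa : ℝ) : Prop := ∀ a b ε : ℝ, 0 < a → 0 < ε → ∃ C T : ℝ, 0 < C ∧ 3 ≤ T ∧
  ∀ z : ℂ, a ≤ z.re → z.re ≤ b → T ≤ |z.im| → ‖f z‖ ≤ C * |z.im| ^ (κ * max 0 (σa - z.re) + ε)

lemma GB_zeta {κ σa : ℝ} (hσa : 1 / 2 ≤ σa) (hκ : 3 / 2 < κ * (σa + 1))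
    (hb : ∀ η : ℝ, 0 < η → ∃ Ca Ta : ℝ, ∀ z : ℂ, σa ≤ z.re → Ta ≤ |z.im| →
      ‖riemannZeta z‖ ≤ Ca * |z.im| ^ η) : GB riemannZeta κ σa := by
  intro a b ε ha hε
  obtain ⟨Ca, Ta, h1⟩ := hb ε hε
  obtain ⟨C, T, hC, hT, h2⟩ := slope_bound hσa hε.le hκ h1
  refine ⟨max C Ca, max (max T Ta) 3, lt_of_lt_of_le (by linarith) (le_max_left _ _),
    le_max_right _ _, fun z hza _ hzT => ?_⟩
  have hT1 : T ≤ |z.im| := ((le_max_left _ _).trans (le_max_left _ _)).trans hzT
  have hT2 : Ta ≤ |z.im| := ((le_max_right _ _).trans (le_max_left _ _)).trans hzT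
  have hT3 : 3 ≤ |z.im| := (le_max_right _ _).trans hzT
  rcases le_or_gt z.re σa with h | h
  · have h3 := h2 z (by linarith) h hT1
    rw [(max_eq_right (by linarith) : max 0 (σa - z.re) = σa - z.re)]
    refine h3.trans ?_
    gcongr
    exact le_max_left _ _
  · have h3 := h1 z h.le hT2
    rw [(max_eq_left (by linarith) : max 0 (σa - z.re) = 0), mul_zero, zero_add]
    refine h3.trans ?_
    gcongr
    exact le_max_right _ _

lemma GB_succ {κ σa : ℝ} (hκ : 0 ≤ κ) (hσa : 0 ≤ σa) {k : ℕ} (h : GB (Zk k) κ σa) :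
    GB (Zk (k + 1)) κ σa := by
  intro a b ε ha hε
  set r : ℝ := min (min (a / 2) (1 / 2)) (ε / (4 * (κ + 1))) with hr
  have hr0 : 0 < r := lt_min (lt_min (by linarith) (by norm_num)) (by positivity)
  have hr1 : r ≤ a / 2 := (min_le_left _ _).trans (min_le_left _ _)
  have hr2 : r ≤ 1 / 2 := (min_le_left _ _).trans (min_le_right _ _)
  have hr3 : κ * r ≤ ε / 4 := by
    have h1 : r ≤ ε / (4 * (κ + 1)) := min_le_right _ _
    rw [le_div_iff₀ (by positivity)] at h1
    nlinarith
  obtain ⟨C, T, hC, hT, h1⟩ := h (a / 2) (b + 1) (ε / 4) (by linarith) (by linarith)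
  obtain ⟨C1, hC1, hlX⟩ := Xf_logDeriv_bound' (B := max b 1) (by positivity)
  set H : ℝ := κ * σa + ε with hH
  set D : ℝ := C * 2 ^ H with hD
  have hD0 : 0 < D := by positivity
  refine ⟨D / r + (C1 + 1) * (2 / ε) * D, T + 1, by positivity, by linarith,
    fun z hza hzb hzT => ?_⟩
  have hz3 : 3 ≤ |z.im| := by linarith
  set e : ℝ := κ * max 0 (σa - z.re) + ε / 2 with he
  have hmax : max 0 (σa - z.re) ≤ σa := max_le hσa (by linarith)
  have hmax0 : 0 ≤ max 0 (σa - z.re) := le_max_left _ _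
  have he0 : 0 ≤ e := by positivity
  have heH : e ≤ H := by
    rw [he, hH]
    have := mul_le_mul_of_nonneg_left hmax hκ
    linarith
  have hbound : ∀ w, ‖w - z‖ ≤ r → ‖Zk k w‖ ≤ D * |z.im| ^ e := by
    intro w hw
    obtain ⟨g1, g2, g3, g4⟩ := geo hw
    have h2 := h1 w (by linarith) (by linarith) (by linarith)
    refine h2.trans ?_
    have hmaxw : max 0 (σa - w.re) ≤ max 0 (σa - z.re) + r := by
      apply max_le
      · linarith
      · have := le_max_right 0 (σa - z.re)
        linarith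
    have hexp : κ * max 0 (σa - w.re) + ε / 4 ≤ e := by
      rw [he]
      have := mul_le_mul_of_nonneg_left hmaxw hκ
      linarith
    calc C * |w.im| ^ (κ * max 0 (σa - w.re) + ε / 4) ≤ C * |w.im| ^ e := by
          gcongr
          linarith
      _ ≤ C * (2 * |z.im|) ^ e := by
          gcongr
          linarith
      _ = C * 2 ^ e * |z.im| ^ e := by
          rw [Real.mul_rpow (by norm_num) (by linarith)]
          ring
      _ ≤ D * |z.im| ^ e := by
          rw [hD]
          gcongr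
          norm_num
  have hd := norm_deriv_le (Zk_diffOn k) hr0 (by linarith) hbound
  have hz0 := hbound z (by simp [hr0.le])
  have hX := hlX z (by linarith) (hzb.trans (le_max_left _ _)) (by linarith)
  have hΛ1 := one_le_log hz3
  have hΛ2 : Real.log |z.im| ≤ |z.im| ^ (ε / 2) / (ε / 2) :=
    Real.log_le_rpow_div (by positivity) (by positivity)
  have hlXn : ‖lX z‖ ≤ (C1 + 1) * (2 / ε) * |z.im| ^ (ε / 2) := by
    have h2 : ‖lX z‖ ≤ ‖lX z - (Real.log |z.im| : ℝ)‖ + ‖((Real.log |z.im| : ℝ) : ℂ)‖ :=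
      norm_le_norm_sub_add _ _
    rw [norm_real, Real.norm_of_nonneg (by linarith)] at h2
    have h3 : ‖lX z - (Real.log |z.im| : ℝ)‖ ≤ C1 := hX
    calc ‖lX z‖ ≤ (C1 + 1) * Real.log |z.im| := by nlinarith
      _ ≤ (C1 + 1) * (|z.im| ^ (ε / 2) / (ε / 2)) := by gcongr
      _ = _ := by field_simp
  rw [Zk_succ]
  have he2 : κ * max 0 (σa - z.re) + ε = e + ε / 2 := by rw [he]; ring
  rw [he2]
  have hrp : |z.im| ^ (e + ε / 2) = |z.im| ^ e * |z.im| ^ (ε / 2) :=
    Real.rpow_add (by linarith) _ _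
  have hone : 1 ≤ |z.im| ^ (ε / 2) := Real.one_le_rpow (by linarith) (by positivity)
  have hpe : 0 < |z.im| ^ e := Real.rpow_pos_of_pos (by linarith) _
  rw [hrp]
  calc ‖deriv (Zk k) z + lX z * Zk k z‖ ≤ ‖deriv (Zk k) z‖ + ‖lX z‖ * ‖Zk k z‖ :=
        (norm_add_le _ _).trans (by rw [norm_mul])
    _ ≤ D * |z.im| ^ e / r + (C1 + 1) * (2 / ε) * |z.im| ^ (ε / 2) * (D * |z.im| ^ e) := by
        gcongr
    _ ≤ D * |z.im| ^ e / r * |z.im| ^ (ε / 2) +
        (C1 + 1) * (2 / ε) * |z.im| ^ (ε / 2) * (D * |z.im| ^ e) := by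
        have : 0 ≤ D * |z.im| ^ e / r := by positivity
        nlinarith
    _ = _ := by ring

lemma GB_all {κ σa : ℝ} (hκ : 0 ≤ κ) (hσa : 0 ≤ σa) (h : GB riemannZeta κ σa) (k : ℕ) :
    GB (Zk k) κ σa := by
  induction k with
  | zero => exact h
  | succ k ih => exact GB_succ hκ hσa ih

/-- the unconditional growth bound -/
lemma GB_uncond (k : ℕ) : GB (Zk k) (19 / 25) (101 / 100) := by
  apply GB_all (by norm_num) (by norm_num)
  apply GB_zeta (by norm_num) (by norm_num)
  intro η hη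
  refine ⟨∑' n : ℕ, 1 / (n : ℝ) ^ (101 / 100 : ℝ), 1, fun z hz hT => ?_⟩
  have h1 := norm_riemannZeta_le (by norm_num : (1:ℝ) < 101 / 100) hz
  have h2 : 1 ≤ |z.im| ^ η := Real.one_le_rpow hT hη.le
  have h3 : 0 ≤ ∑' n : ℕ, 1 / (n : ℝ) ^ (101 / 100 : ℝ) := tsum_nonneg fun n => by positivity
  nlinarith

/-- lower bound for `ζ` to the right of `1` -/
lemma log_norm_zeta_ge {z : ℂ} (h1 : 1 < z.re) (h2 : z.re ≤ 2) :
    -(18 / (z.re - 1)) ≤ Real.log ‖riemannZeta z‖ := by
  have hz0 : riemannZeta z ≠ 0 := riemannZeta_ne_zero_of_one_le_re h1.le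
  have hzpos : 0 < ‖riemannZeta z‖ := norm_pos_iff.2 hz0
  have h3 := norm_inv_riemannZeta_le h1 (le_refl z.re)
  have h4 : (∑' n : ℕ, 1 / (n : ℝ) ^ z.re) = ‖riemannZeta (z.re : ℂ)‖ := by
    have h5 : riemannZeta (z.re : ℂ) = ((∑' n : ℕ, 1 / (n : ℝ) ^ z.re : ℝ) : ℂ) := by
      rw [zeta_eq_tsum_one_div_nat_cpow (by rw [ofReal_re]; exact h1), ofReal_tsum]
      congr 1
      funext n
      rw [ofReal_div, ofReal_one, ofReal_cpow (Nat.cast_nonneg n), ofReal_natCast]
    rw [h5, norm_real, Real.norm_of_nonneg (tsum_nonneg fun n => by positivity)]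
  have h6 : ‖riemannZeta (z.re : ℂ)‖ ≤ 18 / (z.re - 1) := by
    have h7 := norm_zetaPole_le (s := (z.re : ℂ)) (by rw [ofReal_re]; linarith)
    have h8 : zetaPole (z.re : ℂ) = ((z.re : ℂ) - 1) * riemannZeta z.re := by
      rw [zetaPole_of_ne]
      intro h
      have : z.re = 1 := by exact_mod_cast h
      linarith
    rw [h8, norm_mul] at h7
    have h9 : ‖(z.re : ℂ) - 1‖ = z.re - 1 := by
      rw [← ofReal_one, ← ofReal_sub, norm_real, Real.norm_of_nonneg (by linarith)]
    have h10 : ‖(z.re : ℂ)‖ = z.re := by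
      rw [norm_real, Real.norm_of_nonneg (by linarith)]
    rw [h9, h10] at h7
    rw [le_div_iff₀ (by linarith)]
    nlinarith
  have h11 : Real.log (‖riemannZeta z‖⁻¹) ≤ 18 / (z.re - 1) := by
    have h12 : ‖riemannZeta z‖⁻¹ ≤ 18 / (z.re - 1) := by
      rw [← norm_inv]
      exact h3.trans (h4.le.trans h6)
    have h13 := Real.log_le_sub_one_of_pos (inv_pos.2 hzpos)
    linarith
  rw [Real.log_inv] at h11
  linarith


/-- `Z_k` dominates `ζ` on `1 ≤ re s ≤ 4` for `|im s|` large; in particular it does not vanish. -/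
theorem Zk_right (k : ℕ) : ∃ T : ℝ, 3 ≤ T ∧ ∀ z : ℂ, 1 ≤ z.re → z.re ≤ 4 → T ≤ |z.im| →
    ‖riemannZeta z‖ ≤ ‖Zk k z‖ := by
  induction k with
  | zero => exact ⟨3, le_rfl, fun z _ _ _ => le_rfl⟩
  | succ k ih =>
    obtain ⟨T0, hT0, hk⟩ := ih
    obtain ⟨A', T1, hA', hT1, hsize⟩ := Zk_size (k + 1) 4 (by norm_num : (1:ℝ) < 3 / 2)
    obtain ⟨C, T2, hC, hT2, hgr⟩ := GB_uncond k (1 / 2) 4 (1 / 100) (by norm_num) (by norm_num)
    obtain ⟨C1, hC1, hlX⟩ := Xf_logDeriv_bound' (B := 4) (by norm_num)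
    set C2 : ℝ := |Real.log C| + 1 with hC2
    have hC2pos : 0 < C2 := by positivity
    -- threshold
    set E : ℝ := 10 * (C1 + 162 + C2 / (49 / 100) + 1) with hE
    refine ⟨max (max (T0 + 1) T1) (max (T2 + 1) (Real.exp E)),
      (hT1.trans (le_max_right _ _)).trans (le_max_left _ _), fun z hz1 hz4 hzT => ?_⟩
    have q0 : T0 + 1 ≤ |z.im| := ((le_max_left _ _).trans (le_max_left _ _)).trans hzT
    have q1 : T1 ≤ |z.im| := ((le_max_right _ _).trans (le_max_left _ _)).trans hzT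
    have q2 : T2 + 1 ≤ |z.im| := ((le_max_left _ _).trans (le_max_right _ _)).trans hzT
    have q3 : Real.exp E ≤ |z.im| := ((le_max_right _ _).trans (le_max_right _ _)).trans hzT
    have hz3 : 3 ≤ |z.im| := hT1.trans q1
    rcases le_or_gt (3 / 2) z.re with hcase | hcase
    · exact (hsize z hcase hz4 q1).1
    set Λ : ℝ := Real.log |z.im| with hΛ
    have hΛE : E ≤ Λ := by
      rw [hΛ, Real.le_log_iff_exp_le (by linarith)]
      exact q3
    have hΛ1 : 1 ≤ Λ := one_le_log hz3
    have him : z.im ≠ 0 := by intro h; rw [h, abs_zero] at hz3; linarith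
    have hzne : riemannZeta z ≠ 0 := riemannZeta_ne_zero_of_one_le_re hz1
    have hfz : Zk k z ≠ 0 := by
      intro h
      have := hk z hz1 hz4 (by linarith)
      rw [h, norm_zero] at this
      exact hzne (norm_le_zero_iff.1 this)
    have hsub : closedBall z (1 / 2) ⊆ {s : ℂ | s.im ≠ 0} := by
      intro w hw
      have h1 : ‖w - z‖ ≤ 1 / 2 := by simpa [dist_eq_norm] using hw
      have h2 := (geo h1).2.2.1
      intro h3
      rw [h3, abs_zero] at h2
      linarith
    have han : AnalyticOnNhd ℂ (Zk k) (closedBall z (1 / 2)) := by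
      intro w hw
      exact (Zk_diffOn k).analyticAt (isOpen_im_ne.mem_nhds (hsub hw))
    have hmain := re_logDeriv_lower (A := 18) (B := 2 / 5 * Λ + C2) (by norm_num) (by positivity)
      han hfz ?_ ?_ ?_
    · -- conclusion
      have hX := hlX z (by linarith) (by linarith) (by linarith)
      have hX2 : Λ - C1 ≤ (lX z).re := by
        have h1 := (abs_re_le_norm (deriv Xf z / Xf z - ((Real.log |z.im| : ℝ) : ℂ))).trans hX
        rw [sub_re, ofReal_re] at h1
        have h2 := (abs_le.1 h1).1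
        show Λ - C1 ≤ (deriv Xf z / Xf z).re
        linarith
      have hsum : 1 ≤ (lX z + deriv (Zk k) z / Zk k z).re := by
        rw [add_re]
        have h1 : (2 / 5 * Λ + C2) / (49 / 100) = 40 / 49 * Λ + C2 / (49 / 100) := by ring
        rw [h1] at hmain
        have h2 : 0 ≤ C2 / (49 / 100) := by positivity
        nlinarith
      have hnorm : 1 ≤ ‖lX z + deriv (Zk k) z / Zk k z‖ :=
        hsum.trans ((le_abs_self _).trans (abs_re_le_norm _))
      have e : Zk (k + 1) z = Zk k z * (lX z + deriv (Zk k) z / Zk k z) := by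
        rw [Zk_succ]
        field_simp
        ring
      rw [e, norm_mul]
      have h3 := hk z hz1 hz4 (by linarith)
      have h4 := norm_nonneg (Zk k z)
      nlinarith
    · -- zeros are to the left
      intro w hw h0
      by_contra hcon
      push Not at hcon
      have h1 : ‖w - z‖ ≤ 1 / 2 := by simpa [dist_eq_norm] using hw
      obtain ⟨g1, g2, g3, g4⟩ := geo h1
      have h2 := hk w (by linarith) (by linarith) (by linarith)
      rw [h0, norm_zero] at h2
      exact riemannZeta_ne_zero_of_one_le_re (by linarith) (norm_le_zero_iff.1 h2)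
    · -- upper bound
      intro w hw
      have h1 : ‖w - z‖ ≤ 1 / 2 := by simpa [dist_eq_norm] using hw
      obtain ⟨g1, g2, g3, g4⟩ := geo h1
      have h2 := hgr w (by linarith) (by linarith) (by linarith)
      rcases eq_or_ne (Zk k w) 0 with h0 | h0
      · rw [h0, norm_zero, Real.log_zero]
        positivity
      have hpos : 0 < ‖Zk k w‖ := norm_pos_iff.2 h0
      have hmax : max 0 (101 / 100 - w.re) ≤ 51 / 100 := max_le (by norm_num) (by linarith)
      have hexp : (19 / 25 : ℝ) * max 0 (101 / 100 - w.re) + 1 / 100 ≤ 2 / 5 - 1 / 1000 := by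
        nlinarith
      have h3 : ‖Zk k w‖ ≤ C * (2 * |z.im|) ^ (2 / 5 - 1 / 1000 : ℝ) := by
        refine h2.trans ?_
        calc C * |w.im| ^ ((19 / 25 : ℝ) * max 0 (101 / 100 - w.re) + 1 / 100)
            ≤ C * |w.im| ^ (2 / 5 - 1 / 1000 : ℝ) := by
              gcongr
              linarith
          _ ≤ C * (2 * |z.im|) ^ (2 / 5 - 1 / 1000 : ℝ) := by
              gcongr
              linarith
      have h4 := Real.log_le_log hpos h3
      rw [Real.log_mul hC.ne' (by positivity), Real.log_rpow (by positivity),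
        Real.log_mul (by norm_num) (by positivity)] at h4
      have h5 := le_abs_self (Real.log C)
      have h6 : Real.log 2 < 1 := by
        have := Real.log_two_lt_d9
        linarith
      have h7 : 0 < Real.log 2 := Real.log_pos (by norm_num)
      rw [← hΛ] at h4
      nlinarith
    · -- lower bound
      intro w hw hlt
      have h1 : ‖w - z‖ ≤ 1 / 2 := by simpa [dist_eq_norm] using hw
      obtain ⟨g1, g2, g3, g4⟩ := geo h1
      have h2 := hk w (by linarith) (by linarith) (by linarith)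
      have h3 := log_norm_zeta_ge (z := w) (by linarith) (by linarith)
      have hwne : riemannZeta w ≠ 0 := riemannZeta_ne_zero_of_one_le_re (by linarith)
      have h4 := Real.log_le_log (norm_pos_iff.2 hwne) h2
      have h5 : 18 / (w.re - 1) ≤ 18 / (w.re - z.re) := by
        gcongr
      linarith

end Pool.Agent.H6
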