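import Pool.Agent.H6.ZkGrowth
import Pool.Agent.H6.AbsLog
import Pool.Agent.H6.InvBound

/-!
# `Z_k` in a zero-free half-plane

If `Z_k` has no zeros in `re s > α` far from the real axis, then `log |Z_k|` and `Z_k'/Z_k` are
`o(log |t|)` in every smaller half-plane; in particular `Z_{k+1}` has no zeros there either.
-/

set_option autoImplicit false

open Complex Metric Set Filter Topology

namespace Pool.Agent.H6

/-- `Z_k` has no zeros with real part `> α` far from the real axis -/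
def ZF (k : ℕ) (α : ℝ) : Prop := ∃ T : ℝ, ∀ z : ℂ, α < z.re → z.re ≤ 4 → T ≤ |z.im| → Zk k z ≠ 0

lemma ZF.mono {k : ℕ} {α α' : ℝ} (h : ZF k α) (h1 : α ≤ α') : ZF k α' := by
  obtain ⟨T, hT⟩ := h
  exact ⟨T, fun z hz => hT z (lt_of_le_of_lt h1 hz)⟩

lemma Zk_ne_right (k : ℕ) : ∃ T : ℝ, 3 ≤ T ∧ ∀ z : ℂ, 1 ≤ z.re → z.re ≤ 4 → T ≤ |z.im| →
    Zk k z ≠ 0 := by
  obtain ⟨T, hT, h⟩ := Zk_right k
  refine ⟨T, hT, fun z h1 h4 him h0 => ?_⟩
  have h2 := h z h1 h4 him
  rw [h0, norm_zero] at h2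
  exact riemannZeta_ne_zero_of_one_le_re h1 (norm_le_zero_iff.1 h2)

lemma ZF_of_one_le (k : ℕ) {α : ℝ} (h : 1 ≤ α) : ZF k α := by
  obtain ⟨T, hT, h1⟩ := Zk_ne_right k
  exact ⟨T, fun z hz h4 him => h1 z (by linarith) h4 him⟩

/-- local form: it is enough that `Z_k` has no zeros in one disc -/
theorem Zk_log_local (k : ℕ) {α α' η : ℝ} (hα : 1 / 2 ≤ α) (h1 : α < α') (h2 : α' ≤ 1)
    (hη : 0 < η) : ∃ T : ℝ, 3 ≤ T ∧ ∀ z : ℂ, α' ≤ z.re → z.re ≤ 2 → T ≤ |z.im| →
      (∀ w ∈ ball (cen z.im) (2 - α), Zk k w ≠ 0) →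
      Zk k z ≠ 0 ∧ |Real.log ‖Zk k z‖| ≤ η * Real.log |z.im| ∧
      ‖deriv (Zk k) z / Zk k z‖ ≤ η * Real.log |z.im| := by
  set α'' : ℝ := (α + α') / 2 with hα''
  obtain ⟨A, T1, hA, hT1, hsize⟩ := Zk_size k 4 (by norm_num : (1:ℝ) < 3 / 2)
  obtain ⟨C, T2, hC, hT2, hgr⟩ := GB_uncond k (1 / 2) 4 (1 / 100) (by norm_num) (by norm_num)
  obtain ⟨K, a, hK, ha0, ha1, hlog⟩ := abs_log_bound (R := 2 - α) (r₁ := 1 / 2) (r₂ := 2 - α'')
    (A := A + k) (by norm_num) (by rw [hα'']; linarith) (by rw [hα'']; linarith) (by positivity)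
  set C2 : ℝ := |Real.log C| + 2 with hC2
  have hC2pos : 0 < C2 := by positivity
  set δ : ℝ := (α' - α) / 2 with hδ
  have hδ0 : 0 < δ := by rw [hδ]; linarith
  obtain ⟨X1, hX1, hX1'⟩ := eventually_log_le (K := K * C2 ^ a) (a := a) (η := η / 2)
    (by linarith) ha1
  obtain ⟨X2, hX2, hX2'⟩ := eventually_log_le (K := 2 * k) (a := 1 / 2) (η := η / 2)
    (by linarith) (by norm_num)
  obtain ⟨X3, hX3, hX3'⟩ := eventually_log_le (K := K * C2 ^ a / δ) (a := a) (η := η) hη ha1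
  set T : ℝ := max (max (T1 + 2) (T2 + 2)) (max X1 (max X2 X3)) with hT
  have hTT1 : T1 + 2 ≤ T := (le_max_left _ _).trans (le_max_left _ _)
  have hTT2 : T2 + 2 ≤ T := (le_max_right _ _).trans (le_max_left _ _)
  have hTX1 : X1 ≤ T := (le_max_left _ _).trans (le_max_right _ _)
  have hTX2 : X2 ≤ T := ((le_max_left _ _).trans (le_max_right _ _)).trans (le_max_right _ _)
  have hTX3 : X3 ≤ T := ((le_max_right _ _).trans (le_max_right _ _)).trans (le_max_right _ _)
  refine ⟨T, by linarith, fun z hz1 hz2 hzT hne => ?_⟩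
  set t : ℝ := z.im with ht
  set Λ : ℝ := Real.log |t| with hΛ
  have ht3 : 3 ≤ |t| := by linarith
  have hΛ1 : 1 ≤ Λ := one_le_log ht3
  set c : ℂ := cen t with hc
  have hcre : c.re = 2 := cen_re t
  have hcim : c.im = t := cen_im t
  -- geometry of the large ball
  have hgeo : ∀ w ∈ ball c (2 - α), α < w.re ∧ w.re ≤ 4 ∧ |t| - 2 ≤ |w.im| ∧
      |w.im| ≤ |t| + 2 := by
    intro w hw
    have h3 : ‖w - c‖ < 2 - α := by simpa [dist_eq_norm] using hw
    obtain ⟨g1, g2, g3, g4⟩ := geo (w := w) (z := c) (r := 3 / 2) (by linarith)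
    rw [hcim] at g3 g4
    have h4 := (abs_re_le_norm (w - c)).trans_lt h3
    rw [sub_re, hcre] at h4
    have h5 := abs_lt.1 h4
    refine ⟨by linarith, by linarith, by linarith, by linarith⟩
  have hΛc : ((Λ : ℝ) : ℂ) ^ k ≠ 0 := by
    apply pow_ne_zero
    exact_mod_cast (by linarith : Λ ≠ 0)
  set f : ℂ → ℂ := fun w => Zk k w / ((Λ : ℝ) : ℂ) ^ k with hf
  have hfnorm : ∀ w, Zk k w ≠ 0 → Real.log ‖f w‖ = Real.log ‖Zk k w‖ - k * Real.log Λ := by
    intro w hw
    rw [hf]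
    simp only
    rw [norm_div, norm_pow, norm_real, Real.norm_of_nonneg (by linarith),
      Real.log_div (norm_ne_zero_iff.2 hw) (by positivity), Real.log_pow]
  have hlogΛ : 0 ≤ Real.log Λ := Real.log_nonneg hΛ1
  have him : ∀ w ∈ ball c (2 - α), w.im ≠ 0 := by
    intro w hw h0
    obtain ⟨g1, g2, g3, g4⟩ := hgeo w hw
    rw [h0, abs_zero] at g3
    linarith
  have hfd : DifferentiableOn ℂ f (ball c (2 - α)) := by
    intro w hw
    exact ((Zk_diff k (him w hw)).div_const _).differentiableWithinAt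
  have hballsub : ball c (1 / 2) ⊆ ball c (2 - α) := ball_subset_ball (by linarith)
  have hkey := hlog f c (C2 * Λ) (by nlinarith [abs_nonneg (Real.log C)]) hfd
    (fun w hw => div_ne_zero (hne w hw) hΛc) ?_ ?_ ?_
  · -- conclusion
    obtain ⟨L, hL1, hL2, hL3⟩ := hkey
    have hzc : ‖z - c‖ = 2 - z.re := by
      have e : z - c = ((z.re - 2 : ℝ) : ℂ) := by
        apply Complex.ext
        · rw [sub_re, hcre, ofReal_re]
        · rw [sub_im, hcim, ofReal_im, ht, sub_self]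
      rw [e, norm_real, Real.norm_eq_abs, abs_of_nonpos (by linarith)]
      ring
    have hzball : z ∈ ball c (2 - α) := by
      rw [mem_ball, dist_eq_norm, hzc]; linarith
    have hzne := hne z hzball
    have hM : (C2 * Λ) ^ a = C2 ^ a * Λ ^ a := Real.mul_rpow hC2pos.le (by linarith)
    have hLz : ‖L z‖ ≤ K * C2 ^ a * Λ ^ a := by
      have := hL3 z (by rw [hzc, hα'']; linarith)
      rw [hM] at this
      linarith
    have b1 := hX1' |t| (by linarith)
    have b2 := hX2' |t| (by linarith)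
    have b3 := hX3' |t| (by linarith)
    rw [← hΛ] at b1 b2 b3
    refine ⟨hzne, ?_, ?_⟩
    · have h6 : Real.log ‖f z‖ = (L z).re := by
        rw [← hL2 z hzball, Complex.norm_exp, Real.log_exp]
      have h7 : |Real.log ‖f z‖| ≤ η / 2 * Λ := by
        rw [h6]
        exact (abs_re_le_norm _).trans (hLz.trans b1)
      rw [hfnorm z hzne] at h7
      have h8 : (k : ℝ) * Real.log Λ ≤ η / 2 * Λ := by
        have h9 : Real.log Λ ≤ Λ ^ (1 / 2 : ℝ) / (1 / 2) :=
          Real.log_le_rpow_div (by linarith) (by norm_num)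
        calc (k : ℝ) * Real.log Λ ≤ k * (Λ ^ (1 / 2 : ℝ) / (1 / 2)) := by gcongr
          _ = 2 * k * Λ ^ (1 / 2 : ℝ) := by ring
          _ ≤ _ := b2
      have h10 : 0 ≤ (k : ℝ) * Real.log Λ := by positivity
      rw [abs_le] at h7 ⊢
      constructor <;> linarith [h7.1, h7.2]
    · have h11 : deriv f z / f z = deriv (Zk k) z / Zk k z := by
        rw [hf]
        simp only
        rw [deriv_div_const]
        field_simp
      rw [← h11, ← (hL1 z hzball).deriv]
      have hsub2 : closedBall z δ ⊆ ball c (2 - α) := by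
        intro w hw
        have h12 : ‖w - z‖ ≤ δ := by simpa [dist_eq_norm] using hw
        rw [mem_ball, dist_eq_norm]
        calc ‖w - c‖ ≤ ‖w - z‖ + ‖z - c‖ := norm_sub_le_norm_sub_add_norm_sub _ _ _
          _ < 2 - α := by rw [hzc]; linarith
      have hd : DiffContOnCl ℂ L (ball z δ) := by
        apply DifferentiableOn.diffContOnCl
        intro w hw
        exact (hL1 w (hsub2 (closure_ball_subset_closedBall hw))).differentiableAt.differentiableWithinAt
      have h13 := norm_deriv_le_of_forall_mem_sphere_norm_le (C := K * C2 ^ a * Λ ^ a) hδ0 hd (by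
        intro w hw
        have h14 : ‖w - z‖ = δ := by simpa [dist_eq_norm] using hw
        have h15 : ‖w - c‖ ≤ 2 - α'' := by
          calc ‖w - c‖ ≤ ‖w - z‖ + ‖z - c‖ := norm_sub_le_norm_sub_add_norm_sub _ _ _
            _ ≤ 2 - α'' := by rw [hzc]; linarith
        have h16 := hL3 w h15
        rw [hM] at h16
        linarith)
      refine h13.trans ?_
      calc K * C2 ^ a * Λ ^ a / δ = K * C2 ^ a / δ * Λ ^ a := by ring
        _ ≤ _ := b3
  · -- inner upper bound
    intro w hw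
    have hw' := hballsub hw
    obtain ⟨g1, g2, g3, g4⟩ := hgeo w hw'
    have h3 : ‖w - c‖ < 1 / 2 := by simpa [dist_eq_norm] using hw
    have h4 := (abs_re_le_norm (w - c)).trans_lt h3
    rw [sub_re, hcre] at h4
    have h5 := abs_lt.1 h4
    have h6 := (hsize w (by linarith) (by linarith) (by linarith)).2.2
    rw [hfnorm w (hne w hw')]
    have hw3 : 0 < |w.im| := by linarith
    have h7 : Real.log |w.im| ≤ 2 * Λ := by
      have h8 : Real.log |w.im| ≤ Real.log (|t| ^ 2) := Real.log_le_log hw3 (by nlinarith)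
      rw [Real.log_pow] at h8
      exact_mod_cast h8
    have h9 : Real.log (Real.log |w.im|) ≤ Real.log 2 + Real.log Λ := by
      rw [← Real.log_mul (by norm_num) (by linarith)]
      apply Real.log_le_log _ h7
      apply Real.log_pos
      linarith
    have h10 : Real.log 2 ≤ 1 := by
      have := Real.log_two_lt_d9
      linarith
    have h11 : (k : ℝ) * Real.log (Real.log |w.im|) ≤ k * (1 + Real.log Λ) := by
      gcongr
      linarith
    linarith
  · -- at the centre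
    have hcb : c ∈ ball c (2 - α) := mem_ball_self (by linarith)
    rw [hfnorm c (hne c hcb)]
    have h6 := (hsize c (by linarith) (by linarith) (by rw [hcim]; linarith)).2.1
    rw [hcim, ← hΛ] at h6
    have : (0:ℝ) ≤ k := Nat.cast_nonneg k
    linarith
  · -- outer bound
    intro w hw
    obtain ⟨g1, g2, g3, g4⟩ := hgeo w hw
    rw [hfnorm w (hne w hw)]
    have h6 := hgr w (by linarith) (by linarith) (by linarith)
    have hwpos : 0 < ‖Zk k w‖ := norm_pos_iff.2 (hne w hw)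
    have hw1 : 1 ≤ |w.im| := by linarith
    have hmax : max 0 (101 / 100 - w.re) ≤ 51 / 100 := max_le (by norm_num) (by linarith)
    have h7 : ‖Zk k w‖ ≤ C * |w.im| ^ (1 : ℝ) := by
      refine h6.trans ?_
      gcongr
      nlinarith
    rw [Real.rpow_one] at h7
    have h8 := Real.log_le_log hwpos h7
    rw [Real.log_mul hC.ne' (by positivity)] at h8
    have h9 : Real.log |w.im| ≤ 2 * Λ := by
      have h10 : Real.log |w.im| ≤ Real.log (|t| ^ 2) :=
        Real.log_le_log (by linarith) (by nlinarith)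
      rw [Real.log_pow] at h10
      exact_mod_cast h10
    have h11 := le_abs_self (Real.log C)
    have h12 : 0 ≤ (k : ℝ) * Real.log Λ := by positivity
    have h13 : |Real.log C| ≤ |Real.log C| * Λ := by nlinarith [abs_nonneg (Real.log C)]
    rw [hC2]
    linarith

lemma mem_ball_cen {t α : ℝ} (hα : 1 / 2 ≤ α) {w : ℂ} (hw : w ∈ ball (cen t) (2 - α)) :
    α < w.re ∧ w.re ≤ 4 ∧ |w.im - t| ≤ 3 / 2 := by
  have h3 : ‖w - cen t‖ < 2 - α := by simpa [dist_eq_norm] using hw
  have h4 := (abs_re_le_norm (w - cen t)).trans_lt h3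
  have h5 := (abs_im_le_norm (w - cen t)).trans_lt h3
  rw [sub_re, cen_re] at h4
  rw [sub_im, cen_im] at h5
  have h6 := abs_lt.1 h4
  exact ⟨by linarith, by linarith, by linarith⟩

theorem Zk_log (k : ℕ) {α α' η : ℝ} (hα : 1 / 2 ≤ α) (h1 : α < α') (h2 : α' ≤ 1) (hη : 0 < η)
    (hZ : ZF k α) : ∃ T : ℝ, 3 ≤ T ∧ ∀ z : ℂ, α' ≤ z.re → z.re ≤ 2 → T ≤ |z.im| →
      Zk k z ≠ 0 ∧ |Real.log ‖Zk k z‖| ≤ η * Real.log |z.im| ∧
      ‖deriv (Zk k) z / Zk k z‖ ≤ η * Real.log |z.im| := by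
  obtain ⟨T0, hZ0⟩ := hZ
  obtain ⟨T1, hT1, h⟩ := Zk_log_local k hα h1 h2 hη
  refine ⟨max T1 (T0 + 2), hT1.trans (le_max_left _ _), fun z hz1 hz2 hzT =>
    h z hz1 hz2 ((le_max_left _ _).trans hzT) fun w hw => ?_⟩
  obtain ⟨g1, g2, g3⟩ := mem_ball_cen hα hw
  refine hZ0 w g1 g2 ?_
  have h3 : T0 + 2 ≤ |z.im| := (le_max_right _ _).trans hzT
  have h4 := abs_sub_abs_le_abs_sub z.im w.im
  rw [abs_sub_comm] at h4
  linarith

/-- zero-free half-planes pass from `Z_k` to `Z_{k+1}` -/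
lemma ZF_succ (k : ℕ) {α α' : ℝ} (hα : 1 / 2 ≤ α) (h1 : α < α') (hZ : ZF k α) :
    ZF (k + 1) α' := by
  rcases le_or_gt 1 α' with h | h
  · exact ZF_of_one_le _ h
  obtain ⟨T, hT, hb⟩ := Zk_log k hα h1 h.le (by norm_num : (0:ℝ) < 1 / 2) hZ
  obtain ⟨T', hT', hr⟩ := Zk_ne_right (k + 1)
  obtain ⟨C1, hC1, hlX⟩ := Xf_logDeriv_bound' (B := 2) (by norm_num)
  refine ⟨max (max T T') (Real.exp (2 * C1 + 1)), fun z hz h4 him => ?_⟩
  have q1 : T ≤ |z.im| := ((le_max_left _ _).trans (le_max_left _ _)).trans him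
  have q2 : T' ≤ |z.im| := ((le_max_right _ _).trans (le_max_left _ _)).trans him
  have q3 : Real.exp (2 * C1 + 1) ≤ |z.im| := (le_max_right _ _).trans him
  rcases le_or_gt 1 z.re with hz1 | hz1
  · exact hr z hz1 h4 q2
  obtain ⟨h5, -, h6⟩ := hb z hz.le (by linarith) q1
  have hX := hlX z (by linarith) (by linarith) (by linarith)
  have hΛ : 2 * C1 + 1 ≤ Real.log |z.im| := by
    rw [Real.le_log_iff_exp_le (by linarith)]
    exact q3
  have e : Zk (k + 1) z = Zk k z * (lX z + deriv (Zk k) z / Zk k z) := by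
    rw [Zk_succ]
    field_simp
    ring
  rw [e]
  refine mul_ne_zero h5 fun h0 => ?_
  have h7 : ((Real.log |z.im| : ℝ) : ℂ) = -(lX z - ((Real.log |z.im| : ℝ) : ℂ)) -
      deriv (Zk k) z / Zk k z := by
    linear_combination h0
  have h8 := congrArg norm h7
  rw [norm_real, Real.norm_of_nonneg (by linarith)] at h8
  have h9 : ‖-(lX z - ((Real.log |z.im| : ℝ) : ℂ)) - deriv (Zk k) z / Zk k z‖ ≤
      C1 + 1 / 2 * Real.log |z.im| := by
    refine (norm_sub_le _ _).trans ?_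
    rw [norm_neg]
    exact add_le_add hX h6
  linarith

theorem ZF_all (k : ℕ) {α : ℝ} (hα : 1 / 2 ≤ α) (hZ : ZF 0 α) : ∀ α' : ℝ, α < α' → ZF k α' := by
  induction k with
  | zero => exact fun α' h => hZ.mono h.le
  | succ k ih =>
    intro α' h
    exact ZF_succ k (α := (α + α') / 2) (by linarith) (by linarith) (ih _ (by linarith))

end Pool.Agent.H6
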