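import Pool.Agent.H6.ZkLog

/-!
# Descending from `Z_{k+1}` to `Z_k`
-/

set_option autoImplicit false

open Complex Metric Set Filter Topology

namespace Pool.Agent.H6

/-- If `ψ' = -φ`, `φ' = -q φ` with `q` close to the large real number `Λ`, and `ψ(0) = 0`, then
`|ψ(ℓ)| ≥ |φ(0)| / (2Λ)`. -/
lemma ode_lower {φ ψ q : ℝ → ℂ} {Λ ℓ : ℝ} (hΛ : 0 < Λ) (hℓ : 0 < ℓ)
    (hψ : ∀ v ∈ Icc 0 ℓ, HasDerivAt ψ (-φ v) v)
    (hφ : ∀ v ∈ Icc 0 ℓ, HasDerivAt φ (-(q v * φ v)) v)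
    (hq : ∀ v ∈ Icc 0 ℓ, ‖q v - (Λ : ℝ)‖ ≤ Λ / 5) (h0 : ψ 0 = 0) (hbig : 2 ≤ Λ * ℓ) :
    ‖φ 0‖ / (2 * Λ) ≤ ‖ψ ℓ‖ := by
  set m : ℝ := 4 / 5 * Λ with hm
  have hmpos : 0 < m := by positivity
  -- decay of φ
  have hN : ∀ v ∈ Icc 0 ℓ, ‖φ v‖ ≤ ‖φ 0‖ * Real.exp (-(m * v)) := by
    set N : ℝ → ℝ := fun v => ‖φ v‖ ^ 2 * Real.exp (2 * m * v) with hNdef
    have hNd : ∀ v ∈ Icc 0 ℓ, HasDerivAt N
        ((2 * (φ v * (starRingEnd ℂ) (-(q v * φ v))).re) * Real.exp (2 * m * v) +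
          ‖φ v‖ ^ 2 * (Real.exp (2 * m * v) * (2 * m))) v := by
      intro v hv
      have e2 : HasDerivAt (fun v : ℝ ↦ ‖φ v‖ ^ 2)
          (2 * (φ v * (starRingEnd ℂ) (-(q v * φ v))).re) v := by
        have e3 := (hφ v hv).norm_sq
        convert e3 using 1
        rw [Complex.inner]
        congr 1
        rw [← Complex.conj_re]
        congr 1
        rw [map_mul, Complex.conj_conj, mul_comm]
      have e4 : HasDerivAt (fun v : ℝ => Real.exp (2 * m * v)) (Real.exp (2 * m * v) * (2 * m)) v := by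
        have := ((hasDerivAt_id v).const_mul (2 * m)).exp
        simpa using this
      exact e2.mul e4
    have hNle : ∀ v ∈ Icc 0 ℓ, (2 * (φ v * (starRingEnd ℂ) (-(q v * φ v))).re) *
        Real.exp (2 * m * v) + ‖φ v‖ ^ 2 * (Real.exp (2 * m * v) * (2 * m)) ≤ 0 := by
      intro v hv
      have e1 : (φ v * (starRingEnd ℂ) (-(q v * φ v))).re = -((q v).re * ‖φ v‖ ^ 2) := by
        rw [map_neg, map_mul, mul_neg, neg_re, mul_left_comm, Complex.mul_conj,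
          Complex.normSq_eq_norm_sq, Complex.re_mul_ofReal, Complex.conj_re]
      rw [e1]
      have e2 : m ≤ (q v).re := by
        have h1 := (abs_re_le_norm (q v - (Λ : ℝ))).trans (hq v hv)
        rw [sub_re, ofReal_re] at h1
        have h2 := (abs_le.1 h1).1
        rw [hm]; linarith
      have e3 : 0 ≤ ‖φ v‖ ^ 2 * Real.exp (2 * m * v) := by positivity
      nlinarith
    have hanti : AntitoneOn N (Icc 0 ℓ) := by
      apply antitoneOn_of_deriv_nonpos (convex_Icc 0 ℓ)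
      · exact fun v hv => (hNd v hv).continuousAt.continuousWithinAt
      · exact fun v hv => (hNd v (interior_subset hv)).differentiableAt.differentiableWithinAt
      · intro v hv
        rw [(hNd v (interior_subset hv)).deriv]
        exact hNle v (interior_subset hv)
    intro v hv
    have h1 := hanti (left_mem_Icc.2 hℓ.le) hv hv.1
    simp only [hNdef, mul_zero, Real.exp_zero, mul_one] at h1
    have h2 : (‖φ v‖ * Real.exp (m * v)) ^ 2 ≤ ‖φ 0‖ ^ 2 := by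
      rw [mul_pow, ← Real.exp_nat_mul]
      calc ‖φ v‖ ^ 2 * Real.exp ((2 : ℕ) * (m * v)) = ‖φ v‖ ^ 2 * Real.exp (2 * m * v) := by
            congr 2; push_cast; ring
        _ ≤ _ := h1
    have h3 : ‖φ v‖ * Real.exp (m * v) ≤ ‖φ 0‖ :=
      le_of_sq_le_sq h2 (norm_nonneg _)
    rw [Real.exp_neg, ← div_eq_mul_inv, le_div_iff₀ (Real.exp_pos _)]
    exact h3
  -- the comparison function
  set J : ℝ → ℂ := fun v => ψ v - φ v / (Λ : ℝ) with hJ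
  have hΛc : ((Λ : ℝ) : ℂ) ≠ 0 := by exact_mod_cast hΛ.ne'
  have hJd : ∀ v ∈ Icc 0 ℓ, HasDerivAt J (-φ v - -(q v * φ v) / (Λ : ℝ)) v := by
    intro v hv
    exact (hψ v hv).sub ((hφ v hv).div_const _)
  have hJn : ∀ v ∈ Icc 0 ℓ, ‖-φ v - -(q v * φ v) / (Λ : ℝ)‖ ≤
      1 / 5 * (‖φ 0‖ * Real.exp (-(m * v))) := by
    intro v hv
    have e : -φ v - -(q v * φ v) / (Λ : ℝ) = (q v - (Λ : ℝ)) / (Λ : ℝ) * φ v := by
      field_simp
      ring
    rw [e, norm_mul, norm_div, norm_real, Real.norm_of_nonneg hΛ.le]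
    have h1 : ‖q v - (Λ : ℝ)‖ / Λ ≤ 1 / 5 := by
      rw [div_le_iff₀ hΛ]
      linarith [hq v hv]
    have h2 := hN v hv
    gcongr
  have hdiff : ‖J ℓ - J 0‖ ≤ 1 / 5 * ‖φ 0‖ * (1 - Real.exp (-(m * ℓ))) / m := by
    have hB : ∀ v : ℝ, HasDerivAt (fun v : ℝ => 1 / 5 * ‖φ 0‖ * (1 - Real.exp (-(m * v))) / m)
        (1 / 5 * (‖φ 0‖ * Real.exp (-(m * v)))) v := by
      intro v
      have h1 : HasDerivAt (fun v : ℝ => Real.exp (-(m * v))) (Real.exp (-(m * v)) * (-m)) v := by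
        have := ((hasDerivAt_id v).const_mul m).neg.exp
        simpa using this
      have h2 := (((h1.const_sub 1).const_mul (1 / 5 * ‖φ 0‖)).div_const m)
      have e : 1 / 5 * (‖φ 0‖ * Real.exp (-(m * v))) =
          1 / 5 * ‖φ 0‖ * -(Real.exp (-(m * v)) * -m) / m := by
        rw [eq_div_iff hmpos.ne']
        ring
      rw [e]
      exact h2
    have := image_norm_le_of_norm_deriv_right_le_deriv_boundary (f := fun v => J v - J 0)
      (f' := fun v => -φ v - -(q v * φ v) / (Λ : ℝ)) (a := 0) (b := ℓ)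
      (B := fun v : ℝ => 1 / 5 * ‖φ 0‖ * (1 - Real.exp (-(m * v))) / m)
      (B' := fun v : ℝ => 1 / 5 * (‖φ 0‖ * Real.exp (-(m * v))))
      (fun v hv => ((hJd v hv).sub_const _).continuousAt.continuousWithinAt)
      (fun v hv => ((hJd v (Ico_subset_Icc_self hv)).sub_const _).hasDerivWithinAt)
      (by simp) hB (fun v hv => hJn v (Ico_subset_Icc_self hv)) (right_mem_Icc.2 hℓ.le)
    exact this
  have hexp : Real.exp (-(m * ℓ)) ≤ 1 / 4 := by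
    have h1 : (8 / 5 : ℝ) ≤ m * ℓ := by rw [hm]; linarith
    have h2 : (4 : ℝ) ≤ Real.exp (8 / 5) := by
      have h3 : Real.exp (8 / 5) = Real.exp 1 * Real.exp (3 / 5) := by
        rw [← Real.exp_add]; norm_num
      have h4 : (2.7182818283 : ℝ) < Real.exp 1 := Real.exp_one_gt_d9
      have h5 : (1 + 3 / 5 : ℝ) ≤ Real.exp (3 / 5) := by
        have := Real.add_one_le_exp (3 / 5 : ℝ)
        linarith
      rw [h3]
      nlinarith
    rw [Real.exp_neg]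
    rw [inv_le_comm₀ (Real.exp_pos _) (by norm_num)]
    calc (1 / 4 : ℝ)⁻¹ = 4 := by norm_num
      _ ≤ Real.exp (8 / 5) := h2
      _ ≤ Real.exp (m * ℓ) := Real.exp_le_exp.2 h1
  have hJ0 : ‖J 0‖ = ‖φ 0‖ / Λ := by
    simp only [hJ]
    rw [h0, zero_sub, norm_neg, norm_div, norm_real, Real.norm_of_nonneg hΛ.le]
  have hφℓ : ‖φ ℓ‖ ≤ ‖φ 0‖ * (1 / 4) :=
    (hN ℓ (right_mem_Icc.2 hℓ.le)).trans (mul_le_mul_of_nonneg_left hexp (norm_nonneg _))
  have hψ' : ψ ℓ = J 0 + (J ℓ - J 0) + φ ℓ / (Λ : ℝ) := by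
    simp only [hJ]
    ring
  have h6 : ‖φ ℓ / (Λ : ℝ)‖ ≤ ‖φ 0‖ / (4 * Λ) := by
    rw [norm_div, norm_real, Real.norm_of_nonneg hΛ.le, div_le_div_iff₀ hΛ (by positivity)]
    nlinarith
  have h7 : ‖J ℓ - J 0‖ ≤ ‖φ 0‖ / (4 * Λ) := by
    refine hdiff.trans ?_
    rw [hm, div_le_div_iff₀ (by positivity) (by positivity)]
    have h8 := Real.exp_pos (-(4 / 5 * Λ * ℓ))
    have h9 : 0 ≤ ‖φ 0‖ * Λ := by positivity
    nlinarith
  have h8 : ‖J 0‖ ≤ ‖ψ ℓ‖ + ‖J ℓ - J 0‖ + ‖φ ℓ / (Λ : ℝ)‖ := by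
    have e : J 0 = ψ ℓ - (J ℓ - J 0) - φ ℓ / (Λ : ℝ) := by rw [hψ']; ring
    calc ‖J 0‖ = ‖ψ ℓ - (J ℓ - J 0) - φ ℓ / (Λ : ℝ)‖ := by rw [← e]
      _ ≤ ‖ψ ℓ - (J ℓ - J 0)‖ + ‖φ ℓ / (Λ : ℝ)‖ := norm_sub_le _ _
      _ ≤ _ := by gcongr; exact norm_sub_le _ _
  rw [hJ0] at h8
  have h9 : ‖φ 0‖ / Λ = ‖φ 0‖ / (2 * Λ) + ‖φ 0‖ / (4 * Λ) + ‖φ 0‖ / (4 * Λ) := by
    field_simp
    ring
  linarith


/-- **The descent step.**  Suppose `ζ` has no zeros in `re s > σ` (far from the real axis) for every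
`σ > θ`, and `Z_{k+1}` has none in `re s > θ - e`.  Then `Z_k` has none in `re s > θ - e'`. -/
theorem descent (k : ℕ) {θ e : ℝ} (he : 0 < e) (hθe : 1 / 2 ≤ θ - e) (hθ1 : θ ≤ 1)
    (h0 : ∀ σ : ℝ, θ < σ → ZF 0 σ) (hZ : ZF (k + 1) (θ - e)) :
    ∃ e' : ℝ, 0 < e' ∧ e' ≤ e ∧ ZF k (θ - e') := by
  set κ : ℝ := (1 + (3 / 2) / (θ + 1)) / 2 with hκ
  have hθ1' : 3 / 2 < θ + 1 := by linarith
  have hq1 : (3 / 2) / (θ + 1) < 1 := by
    rw [div_lt_one (by linarith)]; exact hθ1'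
  have hκ1 : κ < 1 := by rw [hκ]; linarith
  have hκ0 : 0 < κ := by rw [hκ]; positivity
  have hκθ : 3 / 2 < κ * (θ + 1) := by
    have : κ * (θ + 1) = ((θ + 1) + 3 / 2) / 2 := by
      rw [hκ]; field_simp
    rw [this]; linarith
  set ℓ : ℝ := e / 2 with hℓ
  have hℓ0 : 0 < ℓ := by rw [hℓ]; linarith
  set ε : ℝ := ℓ * (1 - κ) / 8 with hε
  have hε0 : 0 < ε := by
    have : 0 < 1 - κ := by linarith
    positivity
  set e' : ℝ := min (e / 4) ε with he'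
  have he'0 : 0 < e' := lt_min (by linarith) hε0
  have he'1 : e' ≤ e / 4 := min_le_left _ _
  have he'2 : e' ≤ ε := min_le_right _ _
  refine ⟨e', he'0, by linarith, ?_⟩
  -- growth of Z_k
  have hGB : GB (Zk k) κ (θ + e') := by
    apply GB_all hκ0.le (by linarith)
    apply GB_zeta (by linarith) (by nlinarith)
    intro η hη
    rcases le_or_gt (θ + e') 1 with hle | hgt
    · obtain ⟨T, hT, hl⟩ := Zk_log 0 (α := θ + e' / 2) (α' := θ + e') (η := η) (by linarith)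
        (by linarith) hle hη (h0 _ (by linarith))
      refine ⟨1 + ∑' n : ℕ, 1 / (n : ℝ) ^ (2 : ℝ), T, fun z hz hzT => ?_⟩
      have hS : 0 ≤ ∑' n : ℕ, 1 / (n : ℝ) ^ (2 : ℝ) := tsum_nonneg fun n => by positivity
      have h2 : 1 ≤ |z.im| ^ η := Real.one_le_rpow (by linarith) hη.le
      rcases le_or_gt z.re 2 with hz2 | hz2
      · obtain ⟨h3, h4, -⟩ := hl z hz hz2 hzT
        have hpos : 0 < ‖riemannZeta z‖ := norm_pos_iff.2 h3
        have h5 := (abs_le.1 h4).2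
        have h6 : ‖riemannZeta z‖ ≤ |z.im| ^ η := by
          rw [← Real.log_le_log_iff hpos (by linarith), Real.log_rpow (by linarith)]
          exact h5
        nlinarith
      · have h3 := norm_riemannZeta_le (by norm_num : (1:ℝ) < 2) hz2.le
        nlinarith
    · refine ⟨∑' n : ℕ, 1 / (n : ℝ) ^ (θ + e'), 1, fun z hz hT => ?_⟩
      have h1 := norm_riemannZeta_le hgt hz
      have h2 : 1 ≤ |z.im| ^ η := Real.one_le_rpow hT hη.le
      have h3 : 0 ≤ ∑' n : ℕ, 1 / (n : ℝ) ^ (θ + e') := tsum_nonneg fun n => by positivity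
      nlinarith
  obtain ⟨C, T1, hC, hT1, hgr⟩ := hGB (1 / 2) 2 ε (by norm_num) hε0
  obtain ⟨T2, hT2, hlog⟩ := Zk_log (k + 1) (α := θ - e) (α' := θ - 3 * e / 4)
    (η := min (1 / 10) ε) hθe (by linarith) (by linarith) (lt_min (by norm_num) hε0) hZ
  obtain ⟨T3, hT3, hright⟩ := Zk_ne_right k
  obtain ⟨C1, hC1, hlX⟩ := Xf_logDeriv_bound' (B := 2) (by norm_num)
  obtain ⟨C2, hC2, hXn⟩ := Xf_norm_bound
  -- threshold for Λ
  obtain ⟨X, hX2, hX⟩ := eventually_log_le (K := 2) (a := 1 / 2) (η := ε) hε0 (by norm_num)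
  set B : ℝ := max (max (10 * C1) (2 / ℓ)) ((|Real.log C| + 2 * C2 + 2) / ε) with hB
  refine ⟨max (max T1 T2) (max (max T3 X) (Real.exp B)), fun ρ hρ hρ4 hρT hzero => ?_⟩
  have q1 : T1 ≤ |ρ.im| := ((le_max_left _ _).trans (le_max_left _ _)).trans hρT
  have q2 : T2 ≤ |ρ.im| := ((le_max_right _ _).trans (le_max_left _ _)).trans hρT
  have q3 : T3 ≤ |ρ.im| :=
    (((le_max_left _ _).trans (le_max_left _ _)).trans (le_max_right _ _)).trans hρT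
  have q4 : X ≤ |ρ.im| :=
    (((le_max_right _ _).trans (le_max_left _ _)).trans (le_max_right _ _)).trans hρT
  have q5 : Real.exp B ≤ |ρ.im| := ((le_max_right _ _).trans (le_max_right _ _)).trans hρT
  have hρ1 : ρ.re < 1 := by
    by_contra h
    exact hright ρ (not_lt.1 h) hρ4 q3 hzero
  set γ : ℝ := ρ.im with hγ
  set Λ : ℝ := Real.log |γ| with hΛ
  have hγ3 : 3 ≤ |γ| := by linarith
  have hΛ1 : 1 ≤ Λ := one_le_log hγ3
  have hΛB : B ≤ Λ := by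
    rw [hΛ, Real.le_log_iff_exp_le (by linarith)]
    exact q5
  have hΛ10 : 10 * C1 ≤ Λ := ((le_max_left _ _).trans (le_max_left _ _)).trans hΛB
  have hΛℓ : 2 / ℓ ≤ Λ := ((le_max_right _ _).trans (le_max_left _ _)).trans hΛB
  have hΛC : (|Real.log C| + 2 * C2 + 2) / ε ≤ Λ := (le_max_right _ _).trans hΛB
  rw [div_le_iff₀ hℓ0] at hΛℓ
  rw [div_le_iff₀ hε0] at hΛC
  -- the segment
  have hseg : ∀ v : ℝ, (ρ - (v : ℂ)).im = γ ∧ (ρ - (v : ℂ)).re = ρ.re - v := by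
    intro v
    constructor <;> simp [hγ]
  have hsegim : ∀ v : ℝ, (ρ - (v : ℂ)).im ≠ 0 := by
    intro v h
    rw [(hseg v).1] at h
    rw [h, abs_zero] at hγ3
    linarith
  have hsegb : ∀ v ∈ Icc (0 : ℝ) ℓ, Zk (k + 1) (ρ - (v : ℂ)) ≠ 0 ∧
      |Real.log ‖Zk (k + 1) (ρ - (v : ℂ))‖| ≤ min (1 / 10) ε * Λ ∧
      ‖deriv (Zk (k + 1)) (ρ - (v : ℂ)) / Zk (k + 1) (ρ - (v : ℂ))‖ ≤ min (1 / 10) ε * Λ := by
    intro v hv
    have := hlog (ρ - (v : ℂ)) (by rw [(hseg v).2]; linarith [hv.2])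
      (by rw [(hseg v).2]; linarith [hv.1]) (by rw [(hseg v).1]; exact q2)
    rw [(hseg v).1] at this
    exact this
  have hode := ode_lower (ψ := fun v : ℝ => Xf (ρ - (v : ℂ)) * Zk k (ρ - (v : ℂ)))
    (φ := fun v : ℝ => Xf (ρ - (v : ℂ)) * Zk (k + 1) (ρ - (v : ℂ)))
    (q := fun v : ℝ => lX (ρ - (v : ℂ)) + deriv (Zk (k + 1)) (ρ - (v : ℂ)) /
      Zk (k + 1) (ρ - (v : ℂ))) (Λ := Λ) (ℓ := ℓ) (by linarith) hℓ0 ?_ ?_ ?_ ?_ hΛℓ
  · -- the contradiction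
    simp only [ofReal_zero, sub_zero] at hode
    obtain ⟨hne0, hlog0, -⟩ := hsegb 0 (left_mem_Icc.2 hℓ0.le)
    simp only [ofReal_zero, sub_zero] at hne0 hlog0
    have hρim : ρ.im ≠ 0 := by simpa using hsegim 0
    have hXρ : Xf ρ ≠ 0 := Xf_ne_zero hρim
    have hXρℓ : Xf (ρ - (ℓ : ℂ)) ≠ 0 := Xf_ne_zero (hsegim ℓ)
    have hp1 : 0 < ‖Xf ρ * Zk (k + 1) ρ‖ / (2 * Λ) :=
      div_pos (norm_pos_iff.2 (mul_ne_zero hXρ hne0)) (by linarith)
    have hZℓ : 0 < ‖Zk k (ρ - (ℓ : ℂ))‖ := by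
      rw [norm_pos_iff]
      intro h
      rw [h, mul_zero, norm_zero] at hode
      linarith
    have h1 := Real.log_le_log hp1 hode
    rw [Real.log_div (norm_ne_zero_iff.2 (mul_ne_zero hXρ hne0)) (by positivity), norm_mul,
      norm_mul, Real.log_mul (norm_ne_zero_iff.2 hXρ) (norm_ne_zero_iff.2 hne0),
      Real.log_mul (norm_ne_zero_iff.2 hXρℓ) hZℓ.ne', Real.log_mul (by norm_num) (by linarith)] at h1
    have h2 := hXn ρ (by linarith) (by linarith) (by linarith)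
    have h3 := hXn (ρ - (ℓ : ℂ)) (by rw [(hseg ℓ).2]; linarith) (by rw [(hseg ℓ).2]; linarith)
      (by rw [(hseg ℓ).1]; linarith)
    rw [(hseg ℓ).1, (hseg ℓ).2] at h3
    have h4 := hgr (ρ - (ℓ : ℂ)) (by rw [(hseg ℓ).2]; linarith) (by rw [(hseg ℓ).2]; linarith)
      (by rw [(hseg ℓ).1]; exact q1)
    rw [(hseg ℓ).1, (hseg ℓ).2] at h4
    have hγpos : 0 < |γ| := by linarith
    have h5 := Real.log_le_log hZℓ h4
    rw [Real.log_mul hC.ne' (Real.rpow_pos_of_pos hγpos _).ne', Real.log_rpow hγpos] at h5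
    have h6 : max 0 (θ + e' - (ρ.re - ℓ)) ≤ ℓ + 2 * e' := max_le (by linarith) (by linarith)
    have h7 : κ * max 0 (θ + e' - (ρ.re - ℓ)) + ε ≤ κ * (ℓ + 2 * e') + ε := by gcongr
    have h8 : (κ * max 0 (θ + e' - (ρ.re - ℓ)) + ε) * Λ ≤ (κ * (ℓ + 2 * e') + ε) * Λ :=
      mul_le_mul_of_nonneg_right h7 (by linarith)
    have h9 : κ * (ℓ + 2 * e') ≤ κ * ℓ + 2 * ε := by nlinarith
    have h10 : ℓ * (1 - κ) = 8 * ε := by rw [hε]; ring
    have h11 : (κ * (ℓ + 2 * e') + ε) * Λ ≤ (ℓ - 5 * ε) * Λ :=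
      mul_le_mul_of_nonneg_right (by linarith) (by linarith)
    have h12 := (abs_le.1 h2).1
    have h13 := (abs_le.1 h3).2
    have h14 := (abs_le.1 hlog0).1
    have h15 : min (1 / 10) ε * Λ ≤ ε * Λ :=
      mul_le_mul_of_nonneg_right (min_le_right _ _) (by linarith)
    have h16 : Real.log Λ ≤ ε * Λ := by
      have b2 := hX |γ| q4
      rw [← hΛ] at b2
      have h9 : Real.log Λ ≤ Λ ^ (1 / 2 : ℝ) / (1 / 2) :=
        Real.log_le_rpow_div (by linarith) (by norm_num)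
      linarith
    have h17 : Real.log 2 ≤ 1 := by
      have := Real.log_two_lt_d9
      linarith
    have h18 := le_abs_self (Real.log C)
    nlinarith
  · intro v hv
    have h1 := (hasDerivAt_XZ k (hsegim v)).comp_const_sub (ρ) (v : ℂ)
    exact h1.comp_ofReal
  · intro v hv
    have h1 := (hasDerivAt_XZ (k + 1) (hsegim v)).comp_const_sub (ρ) (v : ℂ)
    have h2 := h1.comp_ofReal
    obtain ⟨hne, -, -⟩ := hsegb v hv
    have e1 : (lX (ρ - (v : ℂ)) + deriv (Zk (k + 1)) (ρ - (v : ℂ)) / Zk (k + 1) (ρ - (v : ℂ))) *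
        (Xf (ρ - (v : ℂ)) * Zk (k + 1) (ρ - (v : ℂ))) =
        Xf (ρ - (v : ℂ)) * Zk (k + 1 + 1) (ρ - (v : ℂ)) := by
      rw [Zk_succ (k + 1)]
      field_simp
      ring
    rw [e1]
    exact h2
  · intro v hv
    obtain ⟨-, -, hd⟩ := hsegb v hv
    have h1 := hlX (ρ - (v : ℂ)) (by rw [(hseg v).2]; linarith [hv.2])
      (by rw [(hseg v).2]; linarith [hv.1]) (by rw [(hseg v).1]; linarith)
    rw [(hseg v).1] at h1
    have h2 : min (1 / 10) ε * Λ ≤ 1 / 10 * Λ :=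
      mul_le_mul_of_nonneg_right (min_le_left _ _) (by linarith)
    have e1 : lX (ρ - (v : ℂ)) + deriv (Zk (k + 1)) (ρ - (v : ℂ)) / Zk (k + 1) (ρ - (v : ℂ)) -
        ((Λ : ℝ) : ℂ) = (lX (ρ - (v : ℂ)) - ((Λ : ℝ) : ℂ)) +
        deriv (Zk (k + 1)) (ρ - (v : ℂ)) / Zk (k + 1) (ρ - (v : ℂ)) := by ring
    rw [e1]
    refine (norm_add_le _ _).trans ?_
    have h3 : ‖lX (ρ - (v : ℂ)) - ((Λ : ℝ) : ℂ)‖ ≤ C1 := h1
    linarith
  · simp only [ofReal_zero, sub_zero]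
    rw [hzero, mul_zero]

/-- **Main theorem, in terms of `Z_k`.** -/
theorem ZF_zero_of (k : ℕ) {α : ℝ} (hα : 1 / 2 ≤ α) (hα1 : α < 1) (hZ : ZF k α) :
    ∀ α' : ℝ, α < α' → ZF 0 α' := by
  set S : Set ℝ := {σ | α ≤ σ ∧ σ ≤ 1 ∧ ZF 0 σ} with hS
  have hS1 : (1 : ℝ) ∈ S := ⟨hα1.le, le_rfl, ZF_of_one_le 0 le_rfl⟩
  have hSne : S.Nonempty := ⟨1, hS1⟩
  have hSb : BddBelow S := ⟨α, fun σ hσ => hσ.1⟩
  set θ : ℝ := sInf S with hθ
  have hθ1 : θ ≤ 1 := csInf_le hSb hS1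
  have hθα : α ≤ θ := le_csInf hSne fun σ hσ => hσ.1
  have h0 : ∀ σ : ℝ, θ < σ → ZF 0 σ := by
    intro σ hσ
    obtain ⟨σ', hσ', hlt⟩ := exists_lt_of_csInf_lt hSne hσ
    exact hσ'.2.2.mono hlt.le
  rcases hθα.lt_or_eq with hlt | heq
  · exfalso
    have hdesc : ∀ j : ℕ, j ≤ k → ∃ e : ℝ, 0 < e ∧ e ≤ θ - α ∧ ZF (k - j) (θ - e) := by
      intro j
      induction j with
      | zero =>
        intro _
        exact ⟨θ - α, by linarith, le_rfl, by simpa using hZ⟩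
      | succ j ih =>
        intro hj
        obtain ⟨e, he, hee, hze⟩ := ih (by omega)
        have hkj : k - j = (k - (j + 1)) + 1 := by omega
        rw [hkj] at hze
        obtain ⟨e', he', hee', hz'⟩ := descent (k - (j + 1)) he (by linarith) hθ1 h0 hze
        exact ⟨e', he', by linarith, hz'⟩
    obtain ⟨e, he, hee, hze⟩ := hdesc k le_rfl
    rw [Nat.sub_self] at hze
    have hmem : θ - e ∈ S := ⟨by linarith, by linarith, hze⟩
    have := csInf_le hSb hmem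
    linarith
  · rw [heq]
    exact h0

end Pool.Agent.H6
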